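import Pool.Agent.Lib.MP_491cc4_lc.Cx.Cd

set_option autoImplicit false
set_option linter.unusedSectionVars false

namespace Pool.Agent.Lib.MP_491cc4_lc.Cx

open Set Cardinal Filter Pool.Agent.Lib.MP_d4b40b_lc

variable {K : Type} [LinearOrder K] [WellFoundedLT K] [OrderBot K] [Lc K] [It K]

namespace Ab

variable {U0 U1 U' : Sys K} {y : Rl U1} {w w' w0 : BB U1} {d d' d0 : BB U'}

lemma rel_mono (h : Rel y U0 w d) (k : d' ≤ d) : Rel y U0 w d' :=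
  fun e l => h e (l.trans k)

lemma rel_rp (g : Gen U0 y w0) (l : w ≤ w0) (h : Rel y U0 w d) (k : d.p ≤ w.p) :
    Rel y U0 (w.rp d.p k) d := fun e j b n => by
  obtain ⟨v, k1, k2⟩ := h e j (b.rp e.p n.1.1) (BB.le_rp _ n le_rfl)
  obtain ⟨v', k3, k4, -⟩ := g.agr _ v (k1.trans l) k2
  obtain ⟨v'', k5, k6⟩ := g.up _ b.1 v' (k3.trans (k1.trans l)) (g.op _ _ _ k2 k3) (b.rp_le _ _) b.2
  exact ⟨v'', BB.le_rp _ (k5.trans (k3.trans k1)) ((BB.p_le k5).trans (k4.trans (BB.p_le j))), k6⟩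

lemma rel_stem (g : Gen U0 y w0) (l : w ≤ w0) (h : Rel y U0 w d) :
    ∃ d' ≤ d, EE d'.1.t w.1.t := by
  obtain ⟨e, k1, k2⟩ := d.long w.1.t.card
  obtain ⟨v, k3, k4⟩ := h e k1 (BB.full U0 ⊤ (sp_top _ _) e.1.t)
    (BB.le_full _ le_top (EE.refl _))
  obtain ⟨v', k5, -, k6⟩ := g.agr _ v (k3.trans l) k4
  exact ⟨e, k1, EE.total (k5.trans k3).2.1 k6 k2⟩

/-- the tasks listed below the `n`-th point are met -/
def Tk (en : LL K → BB U1 → Prop) (ξ : LL K) (n : ℕ) (w : BB U1) (d : BB U') : Prop :=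
  ∃ ζ ∈ d.1.t, n ≤ (d.1.t.filter (· < ζ)).card ∧ ξ ∈ d.1.c.2.1.a ∧ ζ ≤ d.1.c.2.1.g ∧
    ∀ η < ζ, ∀ v, ∀ p ≤ d.p, d.1.c.2.1.val ξ η v p → Task (en v.2) → Meets (en v.2) w

lemma op_tk (en : LL K → BB U1 → Prop) (ξ : LL K) (n : ℕ) (w : BB U1) :
    Op (Tk (U' := U') en ξ n w) := fun _ _ ⟨ζ, h1, h2, h3, h4, h5⟩ l =>
  ⟨ζ, l.2.1.1 h1, h2.trans (Finset.card_le_card (Finset.filter_subset_filter _ l.2.1.1)),
    l.1.2.1 h3, h4.trans l.1.2.2.1, fun η k v p j n =>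
      h5 η k v p (j.trans l.1.1) (l.1.2.val h3 (k.trans_le h4) j n)⟩

/-- one step of the construction -/
def Nx (y : Rl U1) (U0 : Sys K) (en : LL K → BB U1 → Prop) (ξ : LL K) (n : ℕ) (w w' : BB U1)
    (d : BB U') : Prop :=
  (w' ≤ w ∧ n < w'.1.t.card) ∧ Rel y U0 w' d ∧ d.p ≤ w'.p ∧ Tk en ξ n w' d

lemma op_nx (en : LL K → BB U1 → Prop) (ξ : LL K) (n : ℕ) (w w' : BB U1) :
    Op (Nx (U' := U') y U0 en ξ n w w') := fun _ _ h l =>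
  ⟨h.1, rel_mono h.2.1 l, (BB.p_le l).trans h.2.2.1, op_tk _ _ _ _ _ _ h.2.2.2 l⟩

lemma exists_nx (hU : U0.le U') (g : Gen U0 y w0) (l : w ≤ w0) (h : Rel y U0 w d)
    (en : LL K → BB U1 → Prop) {ξ : LL K} (hξ : ξ < U'.β) (n : ℕ) :
    ∃ d' ≤ d, ∃ w', Nx y U0 en ξ n w w' d' := by
  obtain ⟨e, k1, k2⟩ := d.long n
  obtain ⟨e1, k3, ζ, -, k4, k5, -⟩ := e.step ⊥
  obtain ⟨σ, k6, k7, k8⟩ := e1.1.c.2.fill {ξ} (by simpa using one_lt_aleph0.trans_le (infK K))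
    (max ζ e1.1.c.2.1.g) (le_max_right _ _)
  have k9 : Sp U'.β ((e1.p, σ) : TT K) := by
    show σ.1.a ⊆ _
    rw [k6]
    exact union_subset e1.2.1.1 (singleton_subset_iff.2 hξ)
  let e2 := e1.rc (e1.p, σ) ⟨le_rfl, k8 _⟩ k9
  have l1 : e2 ≤ d := (e1.rc_le _ _ _).trans (k3.trans k1)
  let s : Set (BB U1 → Prop) := {T | Task T ∧ ∃ η < ζ, ∃ v p, σ.1.val ξ η v p ∧ T = en v.2}
  have l2 : #s < #K := by
    refine (mk_le_mk_of_subset (t := ⋃ η ∈ Iio ζ, (fun v : Bool × LL K => en v.2) ''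
      {v | ∃ p, σ.1.val ξ η v p}) ?_).trans_lt ?_
    · rintro _ ⟨-, η, j1, v, p, j2, rfl⟩
      exact mem_biUnion j1 ⟨v, ⟨p, j2⟩, rfl⟩
    · exact (card_biUnion_lt_iff_forall_of_isRegular (inacK K).isRegular (iioK ζ)).2 fun η _ =>
        mk_image_le.trans_lt (It.cc _ _ (fun v => (σ.1.reg ξ η v).1) (σ.1.fn ξ η))
  obtain ⟨e3, l3, w', l4, ⟨l5, l6⟩, l7, l8⟩ := Rel.dense hU g l (rel_mono h l1)
    (fun v => n < v.1.t.card ∧ ∀ T ∈ s, Meets T v) fun v _ => by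
      obtain ⟨v1, j1, j2⟩ := v.long (n + 1)
      obtain ⟨v2, j3, j4, j5⟩ := distr s l2 (fun _ k => k.1) v1
      exact ⟨v2, j3.trans j1, j4 ▸ j2, j5⟩
  refine ⟨e3, l3.trans l1, w', ⟨l4, l5⟩, l7, l8, op_tk _ _ _ _ e2 _ ⟨ζ, ?_, ?_, ?_, ?_, ?_⟩ l3⟩
  · exact k5 ▸ Finset.mem_insert_self _ _
  · refine k2.trans (Finset.card_le_card fun a j => Finset.mem_filter.2 ⟨?_, k4 a j⟩)
    exact k3.2.1.1 j
  · exact k6 ▸ Or.inr rfl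
  · exact k7 ▸ le_max_left _ _
  · exact fun η j v p _ j1 j2 => l6 _ ⟨j2, η, j, v, p, j1, rfl⟩

/-- the name of the `n`-th condition -/
def Fn (y : Rl U1) (U0 : Sys K) (en : LL K → BB U1 → Prop) (ξ : LL K) (w0 : BB U1) (d0 : BB U') :
    ℕ → BB U1 → BB U' → Prop
  | 0, w, d => w = w0 ∧ d ≤ d0
  | n + 1, w', d => ∃ w, Fn y U0 en ξ w0 d0 n w d ∧ Lst (Nx y U0 en ξ n w) w' d

variable {en : LL K → BB U1 → Prop} {ξ : LL K} {n : ℕ}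

lemma op_fn : ∀ n w, Op (Fn y U0 en ξ w0 d0 n w)
  | 0, _ => (op_const _).and (op_le _)
  | n + 1, w' => Op.ex fun w => (op_fn n w).and (op_lst (op_nx en ξ n w) w')

lemma Fn.uniq : ∀ {n w w'}, Fn y U0 en ξ w0 d0 n w d → Fn y U0 en ξ w0 d0 n w' d → w = w'
  | 0, _, _, h, k => h.1.trans k.1.symm
  | _ + 1, _, _, ⟨_, h1, h2⟩, ⟨_, k1, k2⟩ => h2.uniq (k1.uniq h1 ▸ k2)

lemma Fn.prop (h0 : Rel y U0 w0 d0) :
    ∀ {n w}, Fn y U0 en ξ w0 d0 n w d → w ≤ w0 ∧ Rel y U0 w d ∧ n ≤ w.1.t.card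
  | 0, _, h => ⟨h.1.le, h.1 ▸ rel_mono h0 h.2, Nat.zero_le _⟩
  | _ + 1, _, ⟨_, h1, h2⟩ => ⟨h2.1.1.1.trans (h1.prop h0).1, h2.1.2.1, h2.1.1.2⟩

lemma Fn.chain {m : ℕ} (k : Fn y U0 en ξ w0 d0 n w d) (l : n ≤ m) :
    ∀ {w'}, Fn y U0 en ξ w0 d0 m w' d → w' ≤ w := by
  induction m, l using Nat.le_induction with
  | base => exact fun h => (h.uniq k).le
  | succ m _ ih => exact fun ⟨_, h1, h2⟩ => h2.1.1.1.trans (ih h1)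

lemma exists_fn (hU : U0.le U') (g : Gen U0 y w0) (h0 : Rel y U0 w0 d0) (hξ : ξ < U'.β)
    (l : d ≤ d0) : ∀ n, ∃ d' ≤ d, ∃ w, Fn y U0 en ξ w0 d0 n w d'
  | 0 => ⟨d, le_rfl, w0, rfl, l⟩
  | n + 1 => by
    obtain ⟨e, k1, w, k2⟩ := exists_fn hU g h0 hξ l n
    obtain ⟨e', k3, w', k4⟩ := exists_lst _
      (exists_nx hU g (k2.prop h0).1 (k2.prop h0).2.1 en hξ n)
    exact ⟨e', k3.trans k1, w', w, op_fn _ _ _ _ k2 k3, k4⟩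

/-- every listed task is met from some step on -/
lemma meet (hU : U0.le U') (g : Gen U0 y w0) (h0 : Rel y U0 w0 d0) (hξ : ξ < U'.β) (l : d ≤ d0)
    {ζ : LL K} (hζ : ζ ≤ ξ) (hT : Task (en ζ)) (n : ℕ) :
    ∃ d' ≤ d, ∃ m, n ≤ m ∧ ∃ w, Fn y U0 en ξ w0 d0 (m + 1) w d' ∧
      ∃ h : d'.p ≤ w.p, en ζ (w.rp d'.p h) := by
  obtain ⟨σ, η, k1, k2, k3⟩ := d.1.c.2.col hζ
  have k4 : Sp U'.β ((d.p, σ) : TT K) := by
    show σ.1.a ⊆ _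
    rw [k1]
    exact insert_subset hξ d.2.1.1
  obtain ⟨e, k5, η', k6, k7, k8, -⟩ := (d.rc (d.p, σ) ⟨le_rfl, k2 _⟩ k4).step η
  have k9 : e ≤ d := k5.trans (d.rc_le _ _ _)
  obtain ⟨e', l1, w, w1, l2, l3⟩ := exists_fn (en := en) hU g h0 hξ (k9.trans l)
    (max n e.1.t.card + 1)
  obtain ⟨-, -, l4, a, l5, l6, -, -, l7⟩ := l3.1
  have l8 : η < a := by
    refine k6.trans_le (not_lt.1 fun j => ?_)
    have j1 : η' ∈ e.1.t := k8 ▸ Finset.mem_insert_self _ _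
    refine absurd ((le_max_right _ _).trans l6) (not_le.2 (Finset.card_lt_card ⟨fun b j2 => ?_,
      fun j2 => lt_asymm j (Finset.mem_filter.1 (j2 j1)).2⟩))
    exact l1.2.1.mem (Finset.mem_filter.1 j2).1 j1 ((Finset.mem_filter.1 j2).2.trans j).le
  obtain ⟨p, l9, n1⟩ := l7 η l8 (false, ζ) _ le_rfl
    ((l1.trans k5).1.2.2.2 _ _ _ _ le_rfl (k3 _)) hT _ l4
  exact ⟨e'.rp p l9, (e'.rp_le _ _).trans (l1.trans k9), _, le_max_left _ _, w,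
    op_fn _ _ _ _ ⟨w1, l2, l3⟩ (e'.rp_le _ _), _, n1⟩

/-- the generated filter -/
def Zf (y : Rl U1) (U0 : Sys K) (en : LL K → BB U1 → Prop) (ξ : LL K) (w0 : BB U1) (d0 : BB U') :
    Rl U' := fun b d => Mem U1 b ∧ ∃ n w, Fn y U0 en ξ w0 d0 n w d ∧
      ∃ h : d.p ≤ w.p, (w.rp d.p h).1 ≤ b

lemma rp_rp {U : Sys K} {w w' : BB U} (l : w' ≤ w) {p p' : PP K} (h : p ≤ w.p) (h' : p' ≤ w'.p)
    (k : p' ≤ p) : w'.rp p' h' ≤ w.rp p h := BB.le_rp h ((w'.rp_le _ _).trans l) k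

lemma op_zf : ROp (Zf y U0 en ξ w0 d0) := fun _ _ _ ⟨h1, n, w, h2, h3, h4⟩ l =>
  ⟨h1, n, w, op_fn _ _ _ _ h2 l, (BB.p_le l).trans h3,
    le_trans (α := BR K) (rp_rp le_rfl _ _ (BB.p_le l)) h4⟩

lemma Zf.core (g : Gen U0 y w0) (h0 : Rel y U0 w0 d0) {b : BR K} (h : Zf y U0 en ξ w0 d0 b d) :
    ∃ w ≤ w0, w.1 ≤ b ∧ w.p = d.p ∧ Rel y U0 w d :=
  let ⟨_, _, w, h2, h3, h4⟩ := h
  ⟨w.rp _ h3, (w.rp_le _ _).trans (h2.prop h0).1, h4, rfl,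
    rel_rp g (h2.prop h0).1 (h2.prop h0).2.1 h3⟩

lemma gen_zf (hU : U0.le U') (g : Gen U0 y w0) (h0 : Rel y U0 w0 d0) (hξ : ξ < U'.β)
    (he : ∀ T, ∃ ζ ≤ ξ, en ζ = T) : Gen U1 (Zf y U0 en ξ w0 d0) d0 where
  op := op_zf
  mem _ _ _ h := h.1
  up _ _ d _ h k j := ⟨d, le_rfl, j, h.2.imp fun _ l => l.imp fun _ n =>
    ⟨n.1, n.2.imp fun _ o => o.trans k⟩⟩
  dir := by
    rintro b1 b2 d - ⟨-, n, w, h1, h2, h3⟩ ⟨-, m, v, k1, k2, k3⟩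
    rcases le_total n m with l | l
    · exact ⟨d, le_rfl, v.rp _ k2, ⟨(v.rp _ k2).2, m, v, k1, k2, le_rfl⟩,
        le_trans (α := BR K) (rp_rp (h1.chain l k1) _ _ le_rfl) h3, k3⟩
    · exact ⟨d, le_rfl, w.rp _ h2, ⟨(w.rp _ h2).2, n, w, h1, h2, le_rfl⟩, h3,
        le_trans (α := BR K) (rp_rp (k1.chain l h1) _ _ le_rfl) k3⟩
  gen D hD d l := by
    let O : BB U1 → Prop := fun w => ∃ v, D v ∧ w ≤ v
    have o1 : Op O := fun _ _ ⟨v, k1, k2⟩ j => ⟨v, k1, j.trans k2⟩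
    obtain ⟨ζ, k1, k2⟩ := he fun w =>
      ∃ m, ∀ v ≤ w, m ≤ v.1.t.card → ∃ v' ≤ v, v'.1.t = v.1.t ∧ O v'
    obtain ⟨ζ', k3, k4⟩ := he fun w => O w ∨ ∀ v ≤ w, v.1.t = w.1.t → ¬ O v
    obtain ⟨e, k5, n, -, w, k6, k7, k8⟩ := meet (en := en) hU g h0 hξ l k1 (k2 ▸
      ⟨fun _ _ ⟨m, j⟩ j1 _ => ⟨m, fun v j2 => j v (j2.trans j1)⟩, strong O o1 fun b =>
        (hD b).imp fun v j => ⟨j.1, v, j.2, le_rfl⟩⟩) 0
    obtain ⟨m, k9⟩ := k2 ▸ k8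
    obtain ⟨e', l1, n', l2, w', l3, l4, l5⟩ := meet (en := en) hU g h0 hξ (k5.trans l) k3 (k4 ▸
      ⟨fun _ _ j j1 j2 => j.imp (o1 _ _ · j1) fun j3 v j4 j5 => j3 v (j4.trans j1) (j5.trans j2),
        fun w => by
          by_cases j : ∃ v ≤ w, v.1.t = w.1.t ∧ O v
          · exact j.imp fun _ j1 => ⟨j1.1, j1.2.1, Or.inl j1.2.2⟩
          · exact ⟨w, le_rfl, rfl, Or.inr fun v j1 j2 j3 => j ⟨v, j1, j2, j3⟩⟩⟩) (max n m)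
    obtain ⟨v, l6, l7, l8⟩ := k9 (w'.rp _ l4) (rp_rp ((op_fn _ _ _ _ k6 l1).chain
      (Nat.succ_le_succ ((le_max_left _ _).trans l2)) l3) _ _ (BB.p_le l1))
      ((((le_max_right _ _).trans l2).trans (Nat.le_succ _)).trans (l3.prop h0).2.2)
    obtain ⟨u, l9, n1⟩ := (k4 ▸ l5 : O _ ∨ _).resolve_right fun j => j v l6 l7 l8
    exact ⟨e', l1.trans k5, u, l9, u.2, _, w', l3, l4, n1⟩
  agr b d _ h := by
    obtain ⟨w, k1, k2, k3, k4⟩ := h.core g h0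
    obtain ⟨e, k5, k6⟩ := rel_stem g k1 k4
    exact ⟨e, k5, (BB.p_le k5).trans (k3 ▸ k2.1.1), k6.trans k2.2.1⟩

end Ab

open Ab in
/-- absorption -/
theorem absorb (U1 : Sys K) : ∃ γ, ∀ (U0 U' : Sys K), U0.le U' → γ < U'.β →
    ∀ (y : Rl U1) (w0 : BB U1), Gen U0 y w0 → ∀ d0 : BB U', Rel y U0 w0 d0 →
      ∃ z : Rl U', Gen U1 z d0 ∧ hull (z w0.1) d0 ∧ Eqv d0 (cmp y z) (can U0 U') := by
  obtain ⟨ξ, -, h1⟩ := (Lc.bgL (K := K)).exists_ge (c := #(Set (BB U1))) (by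
    rw [mk_univ, mk_set]
    exact (inacL K).isStrongPrelimit (mk_BB U1))
  obtain ⟨e⟩ := (Cardinal.le_def _ _).1 h1
  let en : LL K → BB U1 → Prop := Function.invFun fun T => (e T).1
  have he : ∀ T, ∃ ζ ≤ ξ, en ζ = T := fun T => ⟨_, le_of_lt (e T).2,
    Function.leftInverse_invFun (fun _ _ k => e.injective (Subtype.ext k)) T⟩
  refine ⟨ξ, fun U0 U' hU hξ y w0 g d0 h0 => ?_⟩
  have h2 := gen_zf hU g h0 hξ he
  refine ⟨_, h2, fun d l => ?_, fun b d l => ⟨?_, fun k => ?_⟩⟩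
  · obtain ⟨d', k1, w, k2⟩ := exists_fn (en := en) hU g h0 hξ l 1
    obtain ⟨v, -, k3⟩ := id k2
    exact ⟨d', k1, w0.2, 1, w, k2, k3.1.2.2.1, (w.rp_le _ _).trans (k2.prop h0).1⟩
  · rintro ⟨w, k1, k2⟩
    obtain ⟨v, k3, k4, -, k5⟩ := k1.core g h0
    have k6 := g.op _ _ _ k2 k4
    have k7 := g.mem _ _ k3 k6
    obtain ⟨d', l1, b1, l2, l3⟩ := mathias hU
      (fun b1 => b1 ≤ ⟨b, k7⟩ ∨ ng (· ≤ ⟨b, k7⟩) b1) (dec _) d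
    refine ⟨d', l1, k7, le_trans (α := BR K) l3 (l2.resolve_right fun j => ?_)⟩
    obtain ⟨v', l4, l5⟩ := k5 d' l1 b1 l3
    obtain ⟨-, -, u, -, l6, l7⟩ := g.dir _ _ v' (l4.trans k3) l5 (g.op _ _ _ k6 l4)
    exact j u l6 l7
  · obtain ⟨d', l1, w, l2, l3⟩ := h2.gen (fun w => y b w ∨ ng (y b) w) (dec _) d l
    refine ⟨d', l1, w, l3, l2.resolve_right fun j => ?_⟩
    obtain ⟨v, -, l4, -, l5⟩ := l3.core g h0
    obtain ⟨v', l6, l7⟩ := l5 d' le_rfl ⟨b, k.1⟩ (le_trans (α := BR K) l1 k.2)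
    exact j v' (l6.trans l4) l7

end Pool.Agent.Lib.MP_491cc4_lc.Cx
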