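import Pool.Agent.Lib.MP_491cc4_lc.Cx.St

set_option autoImplicit false
set_option linter.unusedSectionVars false

namespace Pool.Agent.Lib.MP_491cc4_lc.Cx

open Set Cardinal Filter Pool.Agent.Lib.MP_d4b40b_lc

variable {K : Type} [LinearOrder K] [WellFoundedLT K] [OrderBot K] [Lc K] [It K]
variable {T : Type} [Sm K T] {Q : Sh (PP K) T K} [Nice Q] {E : Emb Q}

namespace Add

variable {I : TT K → Q.C → Prop} {Z : Q.C → Prop} {β : LL K}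

lemma op_gval (h : Intp I Z β) (ξ : LL K) (η : K) (v : Bool × LL K) : Op (gval I ξ η v) :=
  fun _ _ ⟨c, k1, k2⟩ l => ⟨c, h.op c _ _ k1 l, k2⟩

lemma gval_fn (h : Intp I Z β) {ξ : LL K} {η : K} {v v' : Bool × LL K} {q : Q.C}
    (k : gval I ξ η v q) (k' : gval I ξ η v' q) : v = v' := by
  obtain ⟨c1, k1, k2⟩ := k
  obtain ⟨c2, k3, k4⟩ := k'
  obtain ⟨_, -, c, -, l1, l2⟩ := h.dir c1 c2 q k1 k3
  exact c.2.1.fn ξ η v v' c.1 (op_val ξ η v c1 c k2 l1) (op_val ξ η v' c2 c k4 l2)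

lemma lf_f {x : XX K} (hs : StarX Q x (E.f x)) (r : ∀ x : XX K, Tl (nu x)) {q : Q.C}
    (k : inn x q) : lf E r x q ≤ E.f x q := (It.gl_le _ _ _).trans (hs.s1 q k)

lemma compat {x : XX K} (hs : StarX Q x (E.f x)) {r : ∀ x : XX K, Tl (nu x)} {q1 q2 : Q.C}
    (k1 : inn x q1) (k2 : inn x q2) {p : PP K} (l1 : p ≤ lf E r x q1) (l2 : p ≤ lf E r x q2) :
    ∃ q ≤ q1, q ≤ q2 := by
  obtain ⟨q', n1, n2, n3⟩ := hs.s3 q1 p k1 (l1.trans (lf_f hs r k1))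
  obtain ⟨q, n4, n5⟩ := hs.s6 q' q2 n1 k2
    (n3.trans ((It.res_mono _ _ _ (l2.trans (lf_f hs r k2))).trans (hs.s1 q2 k2)))
  exact ⟨q, n4.trans n2, n5⟩

variable (E I Z) in
/-- the values at the new coordinates -/
def Nw (σ : St K) (e : LL K → Bool) (x : XX K) (ξ : LL K) (η : K) (v : Bool × LL K) (p : PP K) :
    Prop := σ.β ≤ ξ ∧ ∃ q : Q.C, inn x q ∧ Z q ∧ p ≤ lf E σ.r x q ∧
      ((η < nu x ∧ gval I ξ η v q) ∨ (η = nu x ∧ v = (e ξ, ⊥)))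

variable (E I Z β) in
/-- the extended raw term -/
structure Ext (σ : St K) (e : LL K → Bool) (x : XX K) (τ : RT K) : Prop where
  a : τ.a = (σ.m x).1.a ∪ {ξ | inn x ξ ∧ σ.β ≤ ξ ∧ ξ < β}
  g : τ.g = (σ.m x).1.g
  le : ∀ p, RT.le p τ (σ.m x).1
  nw : ∀ ξ, inn x ξ → ξ < β → ∀ η v p, Nw E I Z σ e x ξ η v p → τ.val ξ η v p
  tr : ∀ ξ, σ.β ≤ ξ → ∀ η v p, τ.val ξ η (true, v) p → ∃ p' ≤ p, Nw E I Z σ e x ξ η (true, v) p'

lemma exists_ext (h : Intp I Z β) (σ : St K) (e : LL K → Bool) :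
    ∀ᶠ x in mm K, ∃ τ, Ext E I Z β σ e x τ := by
  filter_upwards [E.ae, σ.sup, σ.ht, smallK (K := K) (Z := LL K)] with x hs h1 h2 h3
  have h4 : ∀ ξ η v p, σ.β ≤ ξ → ¬ (σ.m x).1.val ξ η v p := fun ξ η v p k l =>
    absurd (h1 ((σ.m x).1.dom ξ η v p l).1) (not_lt.2 k)
  obtain ⟨τ, k1, k2, k3, -, k5⟩ := exists_mk ((σ.m x).1.a ∪ {ξ | inn x ξ ∧ σ.β ≤ ξ ∧ ξ < β})
    (mk_union_lt' (infK K) (σ.m x).1.small ((mk_le_mk_of_subset fun _ k => k.1).trans_lt h3))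
    (σ.m x).1.g (fun _ => ⊥) (fun _ => bot_le)
    (fun ξ η v p => (σ.m x).1.val ξ η v p ∨ Nw E I Z σ e x ξ η v p)
    (fun ξ η v => ((σ.m x).1.reg ξ η v).1.or fun _ _ ⟨k, q, l1, l2, l3, l4⟩ l =>
      ⟨k, q, l1, l2, l.trans l3, l4⟩) (by
      rintro ξ η v v' p (k | k) (l | l)
      · exact (σ.m x).1.fn ξ η v v' p k l
      · exact absurd k (h4 _ _ _ _ l.1)
      · exact absurd l (h4 _ _ _ _ k.1)
      · obtain ⟨-, q1, k1, -, k3, k4 | k4⟩ := k <;> obtain ⟨-, q2, l1, -, l3, l4 | l4⟩ := l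
        · obtain ⟨q, n1, n2⟩ := compat hs k1 l1 k3 l3
          exact gval_fn h (op_gval h _ _ _ _ _ k4.2 n1) (op_gval h _ _ _ _ _ l4.2 n2)
        · exact absurd k4.1 (l4.1 ▸ lt_irrefl _)
        · exact absurd l4.1 (k4.1 ▸ lt_irrefl _)
        · exact k4.2.trans l4.2.symm) (by
      rintro ξ η v p (k | ⟨-, q, -, -, -, ⟨-, c, -, k⟩ | ⟨-, rfl⟩⟩)
      · exact ((σ.m x).1.dom ξ η v p k).2.2
      · exact (c.2.1.dom ξ η v _ k).2.2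
      · exact bot_le)
  refine ⟨τ, k1, k2, fun p => ⟨k1 ▸ subset_union_left, k2.ge, fun ξ η v p' _ l =>
    k3 ξ (Or.inl ((σ.m x).1.dom ξ η v p' l).1) η ((σ.m x).1.dom ξ η v p' l).2.1 v p' (Or.inl l)⟩,
    fun ξ l1 l2 η v p l => k3 ξ (Or.inr ⟨l1, l.1, l2⟩) η ?_ v p (Or.inr l), fun ξ l η v p n => ?_⟩
  · obtain ⟨-, q, -, -, -, o | o⟩ := l
    · exact o.1.trans ((Lc.lt_th _).trans_le h2)
    · exact o.1 ▸ (Lc.lt_th _).trans_le h2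
  · obtain ⟨p', n1, (n2 | n2) | n2⟩ := k5 ξ η _ p n
    · exact absurd n2 (h4 _ _ _ _ l)
    · exact ⟨p', n1, n2⟩
    · simp at n2

variable {σ : St K} {e : LL K → Bool} {τ : XX K → RT K}

lemma mstR (h : Intp I Z β) (h2 : ∀ ξ < σ.β, Mst E I σ ξ)
    (hτ : ∀ᶠ x in mm K, Ext E I Z β σ e x (τ x)) (ξ : LL K) (k : ξ < β) : MstR E I σ.r τ ξ := by
  rcases lt_or_ge ξ σ.β with l | l
  · exact ⟨((h2 ξ l).1.and hτ).mono fun x j => (j.2.le ⊤).1 j.1, fun η v q n =>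
      (((h2 ξ l).2 η v q n).and hτ).mono fun x j => (j.2.le _).2.2 ξ η v _ le_rfl j.1⟩
  · refine ⟨((Sm.fine ξ).and hτ).mono fun x j => j.2.a ▸ Or.inr ⟨j.1, l, k⟩, fun η v q n => ?_⟩
    filter_upwards [hτ, Sm.fine (K := K) ξ, Sm.fine (K := K) q, Lc.nu_gt η] with x j1 j2 j3 j4
    exact j1.nw ξ j2 k η v _ ⟨l, q, j3, n.elim fun c o => h.z c q o.1, le_rfl, Or.inl ⟨j4, n⟩⟩

/-- from a dense set of conditions which settle a task to all conditions -/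
lemma settle {D : Q.C → Prop} {q : Q.C} (hD : hull D q) {A B : XX K → PP K → Prop}
    (hA : ∀ x, Op (A x))
    (k : ∀ q', D q' → ∀ᶠ x in mm K, ∀ p ≤ lf E σ.r x q', A x p → B x p) :
    ∀ᶠ x in mm K, ∀ p ≤ lf E σ.r x q, A x p → ∃ p' ≤ p, B x p' := by
  have h1 : ∀ᶠ x in mm K, ∀ q', inn x q' → D q' → ∀ p ≤ lf E σ.r x q', A x p → B x p :=
    diag fun q' => by
      by_cases j : D q'
      · exact (k q' j).mono fun _ l _ => l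
      · exact Eventually.of_forall fun _ l => absurd l j
  filter_upwards [h1, lf_dense (E := E) (r := σ.r) hD] with x j1 j2 p l n
  obtain ⟨q', -, o1, o2, p', o3, o4⟩ := j2 p l
  exact ⟨p', o3, j1 q' o1 o2 p' o4 (hA x _ _ n o3)⟩

lemma valid (h : Intp I Z β) (h2 : ∀ ξ < σ.β, Mst E I σ ξ)
    (h3 : ∀ ξ, σ.β ≤ ξ → ξ < β → ∀ q, Z q → ∃ q' ≤ q,
      ng (fun q : Q.C => Q.lad q.1 q.2 none) q' ∨
      (∃ η v, Q.lad q'.1 q'.2 (some η) ∧ gval I ξ η (false, v) q') ∨ ∃ B, Is ξ B ∧ pos E σ B q')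
    (hτ : ∀ᶠ x in mm K, Ext E I Z β σ e x (τ x)) : ∀ᶠ x in mm K, Valid (τ x) := by
  have hm := mstR h h2 hτ
  have hg : ∀ᶠ x in mm K, nu x ≤ (τ x).g :=
    (hτ.and σ.ht).mono fun x j => j.1.g ▸ (Lc.lt_th _).le.trans j.2
  have k1 : ∀ᶠ x in mm K, ∀ z : LL K × Q.C, inn x z → σ.β ≤ z.1 → z.1 < β → Z z.2 →
      ∀ p ≤ lf E σ.r x z.2, Tr z.1 (nu x) (τ x) p → ∃ p' ≤ p, Frc z.1 (nu x) (τ x) p' := by
    refine diag fun ⟨ξ, q⟩ => ?_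
    by_cases j : σ.β ≤ ξ ∧ ξ < β ∧ Z q
    swap
    · exact Eventually.of_forall fun _ l1 l2 l3 => absurd ⟨l1, l2, l3⟩ j
    refine (settle (E := E) (σ := σ) (fun q1 l => h3 ξ j.1 j.2.1 q1 (h.zop _ _ j.2.2 l))
      (A := fun x => Tr ξ (nu x) (τ x)) (B := fun x => Frc ξ (nu x) (τ x))
      (fun _ => op_Tr _ _ _) ?_).mono fun _ l _ _ _ => l
    rintro q' (n | ⟨η, v, n1, n2⟩ | ⟨B, n1, n2⟩)
    · filter_upwards [E.ae, Sm.fine (K := K) q'] with x hs o p l t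
      obtain ⟨q'', -, o1, -, o2⟩ := hs.s5 q' p none o (l.trans (lf_f hs _ o)) t.1
      exact absurd o2 (n q'' o1)
    · filter_upwards [lad_pos (E := E) (r := σ.r) n1, (hm ξ j.2.1).2 η _ q' n2] with x o1 o2 p l t
      exact absurd (((τ x).reg _ _ _).1 _ _ o2 l)
        (t.2 p le_rfl η v ((It.stem_reg _ _).1 _ _ o1 l))
    · filter_upwards [n2, hτ] with x o1 o2 p l _
      exact op_hull _ _ ((n1.frc o1).mono (o2.le _)) l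
  have k2 : ∀ᶠ x in mm K, ∀ z : K × LL K × Q.C, inn x z → z.2.1 < β → Z z.2.2 →
      ∀ p ≤ lf E σ.r x z.2.2, Tr z.2.1 z.1 (τ x) p → ∃ p' ≤ p, Frc z.2.1 z.1 (τ x) p' := by
    refine diag fun ⟨δ, ξ, q⟩ => ?_
    by_cases j : ξ < β ∧ Z q
    swap
    · exact Eventually.of_forall fun _ l1 l2 => absurd ⟨l1, l2⟩ j
    refine (settle (E := E) (σ := σ) (q := q)
      (D := fun q' => ∃ c : TT K, (ξ ∈ c.2.1.a ∧ δ ≤ c.2.1.g) ∧ I c q')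
      (fun q1 l => h.gen _ (fun c n => ?_) q1 (h.zop _ _ j.2 l))
      (A := fun x => Tr ξ δ (τ x)) (B := fun x => Frc ξ δ (τ x))
      (fun _ => op_Tr _ _ _) ?_).mono fun _ l _ _ => l
    · obtain ⟨t, o1, o2, o3⟩ := Tm.fill c.2 {ξ} (by simpa using one_lt_aleph0.trans_le (infK K))
        (max c.2.1.g δ) (le_max_left _ _)
      refine ⟨(c.1, t), ⟨le_rfl, o3 _⟩, ?_, o1 ▸ Or.inr rfl, o2 ▸ le_max_right _ _⟩
      change t.1.a ⊆ _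
      rw [o1]
      exact union_subset n (singleton_subset_iff.2 j.1)
    · rintro q' ⟨c, n1, n2⟩
      filter_upwards [lift_leR h hm hg n2] with x o p l t
      exact Valid.frc c.2.2 (o.mono l) n1.1 n1.2 t
  filter_upwards [hτ, k1, k2] with x j j1 j2
  refine valid_of fun ξ l1 δ l2 p t => ?_
  rw [j.a] at l1
  rcases l1 with l1 | ⟨l3, l4, l5⟩
  · exact ⟨p, le_rfl, Valid.frc (σ.m x).2 (j.le p) l1 (j.g ▸ l2) t⟩
  have l1 : ξ ∈ (τ x).a := j.a ▸ Or.inr ⟨l3, l4, l5⟩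
  rcases lt_or_ge (nu x) δ with n | n
  · refine (t.not l1 l2 n fun η o1 _ p' _ v o2 => ?_).elim
    obtain ⟨_, -, -, q, -, -, -, o | o⟩ := j.tr ξ l4 η v p' o2
    · exact absurd o.1 (not_lt.2 o1.le)
    · exact absurd o.1 o1.ne'
  obtain ⟨p1, o1, ⟨q, o2, o3, o4⟩ | o2⟩ :=
    dec (fun p => ∃ q : Q.C, inn x q ∧ Z q ∧ p ≤ lf E σ.r x q) p
  · have t1 := op_Tr _ _ _ _ _ t o1
    rcases n.eq_or_lt with rfl | n
    · exact (j1 (ξ, q) ⟨l3, o2⟩ l4 l5 o3 p1 o4 t1).imp fun _ s => ⟨s.1.trans o1, s.2⟩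
    · exact (j2 (δ, ξ, q) ⟨n, l3, o2⟩ l5 o3 p1 o4 t1).imp fun _ s => ⟨s.1.trans o1, s.2⟩
  · refine ((op_Tr _ _ _ _ _ t o1).not l1 l2 t.bot_lt fun η _ _ p' o3 v o4 => ?_).elim
    obtain ⟨p2, o5, -, q, s1, s2, s3, -⟩ := j.tr ξ l4 η v p' o4
    exact o2 p2 (o5.trans o3) ⟨q, s1, s2, s3⟩

end Add

/-- adding master values at new coordinates -/
theorem add {I : TT K → Q.C → Prop} {Z : Q.C → Prop} {β : LL K} (h : Intp I Z β) (σ : St K)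
    (h1 : σ.β ≤ β) (h2 : ∀ ξ < σ.β, Mst E I σ ξ) (e : LL K → Bool)
    (h3 : ∀ ξ, σ.β ≤ ξ → ξ < β → ∀ q, Z q → ∃ q' ≤ q,
      ng (fun q : Q.C => Q.lad q.1 q.2 none) q' ∨
      (∃ η v, Q.lad q'.1 q'.2 (some η) ∧ gval I ξ η (false, v) q') ∨ ∃ B, Is ξ B ∧ pos E σ B q') :
    ∃ σ' : St K, σ'.le σ ∧ σ'.β = β ∧ (∀ ξ < β, Mst E I σ' ξ) ∧
      ∀ ξ, σ.β ≤ ξ → ξ < β → ∀ q, Z q → pos E σ' (An ξ (e ξ)) q := by
  classical
  have : Nonempty (RT K) := ⟨(Tm.top (K := K)).1⟩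
  obtain ⟨τ, hτ⟩ := (Add.exists_ext (E := E) h σ e).choice
  let m : XX K → Tm K := fun x => if k : Valid (τ x) then ⟨τ x, k⟩ else σ.m x
  have hm : ∀ᶠ x in mm K, Add.Ext E I Z β σ e x (m x).1 :=
    (hτ.and (Add.valid h h2 h3 hτ)).mono fun x j => by
      have : m x = ⟨τ x, j.2⟩ := dif_pos j.2
      rw [this]
      exact j.1
  refine ⟨⟨β, σ.r, m, (hm.and σ.sup).mono fun x j => ?_, (hm.and σ.ht).mono fun x j => j.1.g ▸ j.2⟩,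
    ⟨h1, hm.mono fun x j => ⟨le_rfl, j.le⟩⟩, rfl, fun ξ l => Add.mstR (σ := σ) h h2 hm ξ l, fun ξ l1 l2 q l3 => ?_⟩
  · rw [j.1.a]
    exact union_subset (j.2.trans (Iio_subset_Iio h1)) fun _ k => k.2.2
  · filter_upwards [hm, Sm.fine (K := K) ξ, Sm.fine (K := K) q] with x j1 j2 j3
    exact (Op.ex fun v => op_val ξ (nu x) (e ξ, v)).hull
      ⟨⊥, j1.nw ξ j2 l2 _ _ _ ⟨l1, q, j3, l3, le_rfl, Or.inr ⟨rfl, rfl⟩⟩⟩

end Pool.Agent.Lib.MP_491cc4_lc.Cx
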