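import Pool.Agent.Lib.MP_d4b40b_lc.Tools

set_option autoImplicit false

namespace Pool.Agent.Lib.MP_491cc4_lc.Cx

open Set Cardinal Filter Pool.Agent.Lib.MP_d4b40b_lc

section
variable {P : Type} [Preorder P]

/-- open sets -/
def Op (a : P → Prop) : Prop := ∀ p q, a p → q ≤ p → a q

/-- `a` is dense below `p` -/
def hull (a : P → Prop) (p : P) : Prop := ∀ q ≤ p, ∃ r ≤ q, a r

/-- no extension of `p` is in `a` -/
def ng (a : P → Prop) (p : P) : Prop := ∀ q ≤ p, ¬ a q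

/-- regular open sets -/
def Reg (a : P → Prop) : Prop := Op a ∧ ∀ p, hull a p → a p

variable (P) in
/-- the chain condition -/
def CC (c : Cardinal.{0}) : Prop := ∀ (I : Type) (S : I → P → Prop), (∀ i, Op (S i)) →
  (∀ i j p, S i p → S j p → i = j) → #{i | ∃ p, S i p} < c

variable {a b : P → Prop} {p q : P}

lemma op_hull : Op (hull a) := fun _ _ h l r k => h r (k.trans l)

lemma op_ng : Op (ng a) := fun _ _ h l r k => h r (k.trans l)

lemma Op.hull (h : Op a) (k : a p) : hull a p := fun q l => ⟨q, le_rfl, h _ _ k l⟩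

lemma Op.and (h : Op a) (k : Op b) : Op fun p => a p ∧ b p :=
  fun _ _ j l => ⟨h _ _ j.1 l, k _ _ j.2 l⟩

lemma Op.or (h : Op a) (k : Op b) : Op fun p => a p ∨ b p :=
  fun _ _ j l => j.imp (h _ _ · l) (k _ _ · l)

lemma Op.ex {I : Sort*} {a : I → P → Prop} (h : ∀ i, Op (a i)) : Op fun p => ∃ i, a i p :=
  fun _ _ j l => j.imp fun i k => h i _ _ k l

lemma Op.all {I : Sort*} {a : I → P → Prop} (h : ∀ i, Op (a i)) : Op fun p => ∀ i, a i p :=
  fun _ _ j l i => h i _ _ (j i) l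

lemma op_const (A : Prop) : Op fun _ : P => A := fun _ _ h _ => h

lemma op_le (q : P) : Op fun p => p ≤ q := fun _ _ h l => l.trans h

lemma hull.imp (h : hull a p) (k : ∀ q ≤ p, a q → ∃ r ≤ q, b r) : hull b p := fun q l => by
  obtain ⟨r, k1, k2⟩ := h q l
  obtain ⟨s, k3, k4⟩ := k r (k1.trans l) k2
  exact ⟨s, k3.trans k1, k4⟩

lemma reg_hull : Reg (hull a) := ⟨op_hull, fun _ h => h.imp fun q _ k => k q le_rfl⟩

lemma reg_ng (h : Op a) : Reg (ng a) := ⟨op_ng, fun _ k q l j => by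
  obtain ⟨r, k1, k2⟩ := k q l
  exact k2 r le_rfl (h _ _ j k1)⟩

lemma reg_const (A : Prop) : Reg fun _ : P => A :=
  ⟨op_const A, fun p h => (h p le_rfl).elim fun _ k => k.2⟩

lemma Reg.and (h : Reg a) (k : Reg b) : Reg fun p => a p ∧ b p :=
  ⟨h.1.and k.1, fun _ j => ⟨h.2 _ (j.imp fun q _ l => ⟨q, le_rfl, l.1⟩),
    k.2 _ (j.imp fun q _ l => ⟨q, le_rfl, l.2⟩)⟩⟩

lemma Reg.all {I : Sort*} {a : I → P → Prop} (h : ∀ i, Reg (a i)) : Reg fun p => ∀ i, a i p :=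
  ⟨Op.all fun i => (h i).1, fun _ j i => (h i).2 _ (j.imp fun q _ l => ⟨q, le_rfl, l i⟩)⟩

lemma Reg.imp (h : Op a) (k : Reg b) : Reg fun p => ∀ q ≤ p, a q → b q :=
  ⟨fun _ _ j l r n => j r (n.trans l), fun _ j q l n => k.2 _ fun r o => by
    obtain ⟨s, k1, k2⟩ := j r (o.trans l)
    exact ⟨s, k1, k2 s le_rfl (h _ _ n (k1.trans o))⟩⟩

lemma dec (a : P → Prop) (p : P) : ∃ q ≤ p, a q ∨ ng a q := by
  by_cases h : ∃ q ≤ p, a q
  · exact h.imp fun _ k => ⟨k.1, Or.inl k.2⟩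
  · exact ⟨p, le_rfl, Or.inr fun q l k => h ⟨q, l, k⟩⟩

lemma hull_of_not_ng (h : ∀ q ≤ p, ¬ ng a q) : hull a p := fun q l => by
  by_contra k
  exact h q l fun r n j => k ⟨r, n, j⟩

lemma Reg.of_not_ng (h : Reg a) (k : ∀ q ≤ p, ¬ ng a q) : a p := h.2 _ (hull_of_not_ng k)

lemma Reg.ex_ng (h : Reg a) (k : ¬ a p) : ∃ q ≤ p, ng a q := by
  by_contra j
  exact k (h.of_not_ng fun q l n => j ⟨q, l, n⟩)

lemma op_lst {I : Type} {S : I → P → Prop} (h : ∀ i, Op (S i)) (i : I) : Op (Lst S i) :=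
  fun _ _ k l => k.mono l (h i _ _ k.1 l)

end

/-- a chain along a well-ordering which meets a task at each step -/
theorem exists_chain {W S : Type} [LinearOrder W] [WellFoundedLT W] (le : S → S → Prop)
    (ht : ∀ a b c, le a b → le b c → le a c) (s0 : S)
    (hcl : ∀ (w : W) (f : Iio w → S), Nonempty (Iio w) → (∀ i j, i < j → le (f j) (f i)) →
      ∃ s, ∀ i, le s (f i))
    (G : W → S → Prop) (hd : ∀ w s, ∃ s', le s' s ∧ G w s') :
    ∃ f : W → S, (∀ i j, i < j → le (f j) (f i)) ∧ ∀ w, le (f w) s0 ∧ G w (f w) := by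
  classical
  let f : W → S := (wellFounded_lt (α := W)).fix fun τ g =>
    if h : ∃ s, le s s0 ∧ G τ s ∧ ∀ σ (hσ : σ < τ), le s (g σ hσ) then h.choose else s0
  have hf : ∀ τ, f τ = if h : ∃ s, le s s0 ∧ G τ s ∧ ∀ σ (_ : σ < τ), le s (f σ)
      then h.choose else s0 := fun τ => (wellFounded_lt (α := W)).fix_eq _ τ
  have key : ∀ τ, le (f τ) s0 ∧ G τ (f τ) ∧ ∀ σ (_ : σ < τ), le (f τ) (f σ) := by
    intro τ
    induction τ using (wellFounded_lt (α := W)).induction with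
    | _ τ ih =>
    have hex : ∃ s, le s s0 ∧ G τ s ∧ ∀ σ (_ : σ < τ), le s (f σ) := by
      by_cases hn : ∃ σ, σ < τ
      · obtain ⟨σ0, hσ0⟩ := hn
        obtain ⟨s, hs⟩ := hcl τ (fun σ => f σ.1) ⟨⟨σ0, hσ0⟩⟩ fun i j l => (ih j.1 j.2).2.2 i.1 l
        obtain ⟨s', h1, h2⟩ := hd τ s
        exact ⟨s', ht _ _ _ h1 (ht _ _ _ (hs ⟨σ0, hσ0⟩) (ih σ0 hσ0).1), h2,
          fun σ hσ => ht _ _ _ h1 (hs ⟨σ, hσ⟩)⟩
      · obtain ⟨s', h1, h2⟩ := hd τ s0
        exact ⟨s', h1, h2, fun σ hσ => absurd ⟨σ, hσ⟩ hn⟩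
    rw [hf τ, dif_pos hex]
    exact hex.choose_spec
  exact ⟨f, fun i j l => (key j).2.2 i l, fun w => ⟨(key w).1, (key w).2.1⟩⟩

/-- `B` is an initial segment whose order type is an inaccessible cardinal -/
structure Bg {W : Type} [LinearOrder W] (B : Set W) : Prop where
  low : IsLowerSet B
  inac : (#B).IsInaccessible
  init : ∀ a ∈ B, #(Iio a) < #B

namespace Bg

variable {W : Type} [LinearOrder W] {B : Set W}

lemma inf (h : Bg B) : ℵ₀ ≤ #B := h.inac.1.le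

lemma iic (h : Bg B) {a : W} (k : a ∈ B) : #(Iic a) < #B := mk_Iic_lt h.inf (h.init a k)

lemma bound' (h : Bg B) {I : Type} {s : Set I} (hs : #s < #B) (f : I → W) (hf : ∀ i ∈ s, f i ∈ B) :
    ∃ b ∈ B, ∀ i ∈ s, f i < b := by
  have h1 : #(⋃ i ∈ s, Iic (f i)) < #B :=
    (card_biUnion_lt_iff_forall_of_isRegular (t := fun i _ => Iic (f i)) h.inac.isRegular hs).2
      fun i k => h.iic (hf i k)
  by_contra h2
  refine absurd (mk_le_mk_of_subset fun b hb => ?_) (not_le.2 h1)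
  by_contra h3
  exact h2 ⟨b, hb, fun i k => not_le.1 fun l => h3 (mem_biUnion k l)⟩

lemma bound (h : Bg B) {I : Type} (hI : #I < #B) (f : I → W) (hf : ∀ i, f i ∈ B) :
    ∃ b ∈ B, ∀ i, f i < b :=
  (h.bound' (s := univ) (by rwa [mk_univ]) f fun i _ => hf i).imp fun _ k =>
    ⟨k.1, fun i => k.2 i trivial⟩

lemma gt (h : Bg B) {a : W} (k : a ∈ B) : ∃ b ∈ B, a < b :=
  (h.bound (I := Unit) (by simpa using one_lt_aleph0.trans_le h.inf) (fun _ => a) fun _ => k).imp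
    fun _ j => ⟨j.1, j.2 ()⟩

lemma ne (h : Bg B) : B.Nonempty := by
  rw [← nonempty_coe_sort, ← mk_ne_zero_iff]
  exact (aleph0_pos.trans_le h.inf).ne'

lemma mem_of_lt (h : Bg B) {a : W} (k : #(Iio a) < #B) : a ∈ B := by
  by_contra j
  exact absurd (mk_le_mk_of_subset fun b hb => not_le.1 fun l => j (h.low l hb)) (not_le.2 k)

lemma exists_ge [WellFoundedLT W] (_h : Bg B) {c : Cardinal.{0}} (k : c < #B) :
    ∃ a ∈ B, c ≤ #(Iio a) := by
  by_contra j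
  refine absurd ((mk_le_mk_of_subset (t := Lt W c) fun b hb => ?_).trans (mk_Lt_le c)) (not_le.2 k)
  exact not_le.1 fun l => j ⟨b, hb, l⟩

end Bg

lemma mk_Iio_sub {W : Type} [LinearOrder W] {B : Set W} (h : IsLowerSet B) (a : B) :
    #(Iio a) = #(Iio a.1) :=
  mk_congr ⟨fun b => ⟨b.1.1, b.2⟩, fun b => ⟨⟨b.1, h (le_of_lt b.2) a.2⟩, b.2⟩, fun _ => rfl,
    fun _ => rfl⟩

/-- least upper bounds -/
lemma exists_lub {W I : Type} [LinearOrder W] [WellFoundedLT W] (f : I → W) {b : W}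
    (h : ∀ i, f i ≤ b) : ∃ s ≤ b, (∀ i, f i ≤ s) ∧ ∀ a < s, ∃ i, a < f i := by
  obtain ⟨s, h1, h2⟩ := (wellFounded_lt (α := W)).has_min {s | ∀ i, f i ≤ s} ⟨b, h⟩
  refine ⟨s, not_lt.1 (h2 b h), h1, fun a l => ?_⟩
  by_contra k
  exact h2 a (fun i => not_lt.1 fun j => k ⟨i, j⟩) l

end Pool.Agent.Lib.MP_491cc4_lc.Cx
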