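import Pool.Agent.Lib.MP_491cc4_lc.Cx.Prik

set_option autoImplicit false
set_option linter.unusedSectionVars false

namespace Pool.Agent.Lib.MP_491cc4_lc.Cx

open Set Cardinal Filter Pool.Agent.Lib.MP_d4b40b_lc

variable {K : Type} [LinearOrder K] [WellFoundedLT K] [OrderBot K] [Lc K] [It K]

/-- names, for Prikry forcing with `U`, of sets of raw conditions -/
abbrev Rl (U : Sys K) : Type := BR K → BB U → Prop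

variable {U U' U'' : Sys K}

def ROp (y : Rl U) : Prop := ∀ b, Op (y b)

/-- composition of interpretations -/
def cmp (y : Rl U) (z : Rl U') : Rl U' := fun b b' => ∃ w : BB U, z w.1 b' ∧ y b w

/-- the canonical interpretation -/
def can (U U' : Sys K) : Rl U' := fun b b' => Mem U b ∧ b'.1 ≤ b

/-- equality forced by `b0` -/
def Eqv (b0 : BB U) (y y' : Rl U) : Prop := ∀ b, ∀ b' ≤ b0,
  (y b b' → ∃ b'' ≤ b', y' b b'') ∧ (y' b b' → ∃ b'' ≤ b', y b b'')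

/-- `b0` forces that `z` is generic for Prikry forcing with `U`, with the same generic for the
first coordinate and the same Prikry sequence -/
structure Gen (U : Sys K) (z : Rl U') (b0 : BB U') : Prop where
  op : ROp z
  mem : ∀ b, ∀ b' ≤ b0, z b b' → Mem U b
  up : ∀ b b1, ∀ b' ≤ b0, z b b' → b ≤ b1 → Mem U b1 → ∃ b'' ≤ b', z b1 b''
  dir : ∀ b1 b2, ∀ b' ≤ b0, z b1 b' → z b2 b' →
    ∃ b'' ≤ b', ∃ w : BB U, z w.1 b'' ∧ w.1 ≤ b1 ∧ w.1 ≤ b2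
  gen : ∀ D : BB U → Prop, (∀ w, ∃ w' ≤ w, D w') → ∀ b' ≤ b0, ∃ b'' ≤ b', ∃ w, D w ∧ z w.1 b''
  agr : ∀ b, ∀ b' ≤ b0, z b b' → ∃ b'' ≤ b', b''.p ≤ b.c.1 ∧ EE b''.1.t b.t

variable {y y' y'' : Rl U} {z z' : Rl U'} {b0 b1 : BB U} {d0 d1 : BB U'}

lemma ROp.cmp (h : ROp z) (y : Rl U) : ROp (cmp y z) :=
  fun _ => Op.ex fun w => (h w.1).and (op_const _)

lemma rop_can (U U' : Sys K) : ROp (can U U') := fun _ _ _ h l => ⟨h.1, le_trans (α := BR K) l h.2⟩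

lemma cmp_assoc (y : Rl U) (z : Rl U') (u : Rl U'') : cmp (cmp y z) u = cmp y (cmp z u) := by
  funext b b'
  exact propext ⟨fun ⟨w, h1, v, h2, h3⟩ => ⟨v, ⟨w, h1, h2⟩, h3⟩,
    fun ⟨v, ⟨w, h1, h2⟩, h3⟩ => ⟨w, h1, v, h2, h3⟩⟩

lemma Eqv.refl (b0 : BB U) (y : Rl U) : Eqv b0 y y :=
  fun _ b' _ => ⟨fun h => ⟨b', le_rfl, h⟩, fun h => ⟨b', le_rfl, h⟩⟩

lemma Eqv.symm (h : Eqv b0 y y') : Eqv b0 y' y := fun b b' l => (h b b' l).symm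

lemma Eqv.mono (h : Eqv b0 y y') (k : b1 ≤ b0) : Eqv b1 y y' := fun b b' l => h b b' (l.trans k)

lemma Eqv.trans (h : Eqv b0 y y') (k : Eqv b0 y' y'') : Eqv b0 y y'' := by
  intro b b' l
  refine ⟨fun j => ?_, fun j => ?_⟩
  · obtain ⟨r, k1, k2⟩ := (h b b' l).1 j
    obtain ⟨s, k3, k4⟩ := (k b r (k1.trans l)).1 k2
    exact ⟨s, k3.trans k1, k4⟩
  · obtain ⟨r, k1, k2⟩ := (k b b' l).2 j
    obtain ⟨s, k3, k4⟩ := (h b r (k1.trans l)).2 k2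
    exact ⟨s, k3.trans k1, k4⟩

lemma Eqv.reg (h1 : ROp y) (h2 : ROp y') (h : hull (fun b => Eqv b y y') b0) : Eqv b0 y y' := by
  intro b b' l
  obtain ⟨r, k1, k2⟩ := h b' l
  refine ⟨fun j => ?_, fun j => ?_⟩
  · obtain ⟨s, k3, k4⟩ := (k2 b r le_rfl).1 (h1 b _ _ j k1)
    exact ⟨s, k3.trans k1, k4⟩
  · obtain ⟨s, k3, k4⟩ := (k2 b r le_rfl).2 (h2 b _ _ j k1)
    exact ⟨s, k3.trans k1, k4⟩

lemma Eqv.cmp_right (h : Eqv d0 z z') (y : Rl U) : Eqv d0 (cmp y z) (cmp y z') := by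
  intro b b' l
  refine ⟨fun ⟨w, j1, j2⟩ => ?_, fun ⟨w, j1, j2⟩ => ?_⟩
  · obtain ⟨r, k1, k2⟩ := (h _ b' l).1 j1
    exact ⟨r, k1, w, k2, j2⟩
  · obtain ⟨r, k1, k2⟩ := (h _ b' l).2 j1
    exact ⟨r, k1, w, k2, j2⟩

lemma Gen.mono (h : Gen U z d0) (k : d1 ≤ d0) : Gen U z d1 := by
  exact ⟨h.op, fun b b' l => h.mem b b' (l.trans k), fun b b1 b' l => h.up b b1 b' (l.trans k),
    fun b1 b2 b' l => h.dir b1 b2 b' (l.trans k), fun D hD b' l => h.gen D hD b' (l.trans k),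
    fun b b' l => h.agr b b' (l.trans k)⟩

lemma Gen.congr (h : Gen U z d0) (h1 : ROp z') (k : Eqv d0 z z') : Gen U z' d0 := by
  refine ⟨h1, fun b b' l j => ?_, fun b b1 b' l j n o => ?_, fun b1 b2 b' l j n => ?_,
    fun D hD b' l => ?_, fun b b' l j => ?_⟩
  · obtain ⟨r, k1, k2⟩ := (k b b' l).2 j
    exact h.mem b r (k1.trans l) k2
  · obtain ⟨r, k1, k2⟩ := (k b b' l).2 j
    obtain ⟨s, k3, k4⟩ := h.up b b1 r (k1.trans l) k2 n o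
    obtain ⟨t, k5, k6⟩ := (k b1 s (k3.trans (k1.trans l))).1 k4
    exact ⟨t, k5.trans (k3.trans k1), k6⟩
  · obtain ⟨r, k1, k2⟩ := (k b1 b' l).2 j
    obtain ⟨s, k3, k4⟩ := (k b2 r (k1.trans l)).2 (h1 b2 _ _ n k1)
    have k0 : s ≤ b' := k3.trans k1
    obtain ⟨t, k5, w, k6, k7⟩ := h.dir b1 b2 s (k0.trans l) (h.op b1 _ _ k2 k3) k4
    obtain ⟨u, k8, k9⟩ := (k w.1 t (k5.trans (k0.trans l))).1 k6
    exact ⟨u, k8.trans (k5.trans k0), w, k9, k7⟩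
  · obtain ⟨r, k1, w, k2, k3⟩ := h.gen D hD b' l
    obtain ⟨s, k4, k5⟩ := (k w.1 r (k1.trans l)).1 k3
    exact ⟨s, k4.trans k1, w, k2, k5⟩
  · obtain ⟨r, k1, k2⟩ := (k b b' l).2 j
    obtain ⟨s, k3, k4⟩ := h.agr b r (k1.trans l) k2
    exact ⟨s, k3.trans k1, k4⟩

/-- genericity below a member -/
lemma Gen.below (h : Gen U z d0) (k : d1 ≤ d0) (j : z b0.1 d1) (D : BB U → Prop)
    (hD : hull D b0) : ∃ d ≤ d1, ∃ w ≤ b0, D w ∧ z w.1 d := by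
  obtain ⟨d, k1, w, k2, k3⟩ := h.gen (fun w => (w ≤ b0 ∧ D w) ∨ ∀ v ≤ w, ¬ v ≤ b0) (fun w => by
    by_cases o : ∃ v ≤ w, v ≤ b0
    · obtain ⟨v, o1, o2⟩ := o
      obtain ⟨r, o3, o4⟩ := hD v o2
      exact ⟨r, o3.trans o1, Or.inl ⟨o3.trans o2, o4⟩⟩
    · exact ⟨w, le_rfl, Or.inr fun v o1 o2 => o ⟨v, o1, o2⟩⟩) d1 k
  rcases k2 with k2 | k2
  · exact ⟨d, k1, w, k2.1, k2.2, k3⟩
  · obtain ⟨_, _, v, _, k5, k6⟩ := h.dir b0.1 w.1 d (k1.trans k) (h.op _ _ _ j k1) k3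
    exact absurd k5 (k2 v k6)

lemma Gen.meet (h : Gen U z d0) (j : hull (z b0.1) d0) (k : d1 ≤ d0) {w : BB U} (l : z w.1 d1) :
    ∃ d ≤ d1, ∃ v ≤ w, v ≤ b0 ∧ z v.1 d := by
  obtain ⟨r, k1, k2⟩ := j d1 k
  obtain ⟨s, k3, v, k4, k5, k6⟩ := h.dir w.1 b0.1 r (k1.trans k) (h.op _ _ _ l k1) k2
  exact ⟨s, k3.trans k1, v, k5, k6, k4⟩

/-- meeting a set which is dense below every common extension -/
lemma Gen.meet' (h : Gen U z d0) (j : hull (z b0.1) d0) (k : d1 ≤ d0) {w : BB U} (l : z w.1 d1)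
    (D : BB U → Prop) (hD : ∀ q ≤ w, q ≤ b0 → ∃ r ≤ q, D r) :
    ∃ d ≤ d1, ∃ v, D v ∧ z v.1 d := by
  obtain ⟨r, k1, v, k2, k3, k4⟩ := h.meet j k l
  obtain ⟨s, k5, u, _, k6, k7⟩ := h.below (k1.trans k) k4 D
    fun q o => hD q (o.trans k2) (o.trans k3)
  exact ⟨s, k5.trans k1, u, k6, k7⟩

lemma Eqv.cmp_left' (h : Eqv b0 y y') (h1 : ROp y) (k : Gen U z d0) (j : hull (z b0.1) d0)
    (b : BR K) (l : d1 ≤ d0) (n : cmp y z b d1) : ∃ d ≤ d1, cmp y' z b d := by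
  obtain ⟨w, n1, n2⟩ := n
  obtain ⟨d, k1, v, k2, k3⟩ := k.meet' j l n1 (y' b)
    fun q o o' => (h b q o').1 (h1 b _ _ n2 o)
  exact ⟨d, k1, v, k3, k2⟩

lemma Eqv.cmp_left (h : Eqv b0 y y') (h1 : ROp y) (h2 : ROp y') (k : Gen U z d0)
    (j : hull (z b0.1) d0) : Eqv d0 (cmp y z) (cmp y' z) := by
  exact fun b _ l => ⟨h.cmp_left' h1 k j b l, h.symm.cmp_left' h2 k j b l⟩

lemma Gen.cmp (h : Gen U'' y b0) (k : Gen U z d0) (j : hull (z b0.1) d0) :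
    Gen U'' (cmp y z) d0 := by
  refine ⟨k.op.cmp y, fun b d l ⟨w, n1, n2⟩ => ?_, fun b b1 d l ⟨w, n1, n2⟩ n o => ?_,
    fun b1 b2 d l ⟨w1, n1, n2⟩ ⟨w2, n3, n4⟩ => ?_, fun D hD d l => ?_,
    fun b d l ⟨w, n1, n2⟩ => ?_⟩
  · obtain ⟨_, _, v, k2, k3, _⟩ := k.meet j l n1
    exact h.mem b v k3 (h.op b _ _ n2 k2)
  · obtain ⟨r, k1, v, k2, k3⟩ := k.meet' j l n1 (y b1)
      fun q o1 o2 => h.up b b1 q o2 (h.op b _ _ n2 o1) n o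
    exact ⟨r, k1, v, k3, k2⟩
  · obtain ⟨r, k1, w, k2, k3, k4⟩ := k.dir w1.1 w2.1 d l n1 n3
    obtain ⟨s, k5, v, ⟨u, k6, k7⟩, k8⟩ := k.meet' j (k1.trans l) k2
      (fun q => ∃ u : BB U'', y u.1 q ∧ u.1 ≤ b1 ∧ u.1 ≤ b2) fun q o1 o2 =>
        h.dir b1 b2 q o2 (h.op b1 _ _ n2 (le_trans (α := BB U) o1 k3))
          (h.op b2 _ _ n4 (le_trans (α := BB U) o1 k4))
    exact ⟨s, k5.trans k1, u, ⟨v, k8, k6⟩, k7⟩
  · obtain ⟨r, k1, k2⟩ := j d l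
    obtain ⟨s, k3, v, _, ⟨u, k4, k5⟩, k6⟩ := k.below (k1.trans l) k2
      (fun q => ∃ u, D u ∧ y u.1 q) fun q o => h.gen D hD q o
    exact ⟨s, k3.trans k1, u, k4, v, k6, k5⟩
  · obtain ⟨r, k1, v, k2, k3⟩ := k.meet' j l n1 (fun q => q.p ≤ b.c.1 ∧ EE q.1.t b.t)
      fun q o1 o2 => h.agr b q o2 (h.op b _ _ n2 o1)
    obtain ⟨s, k4, k5, k6⟩ := k.agr v.1 r (k1.trans l) k3
    exact ⟨s, k4.trans k1, k5.trans k2.1, k6.trans k2.2⟩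

/-- interpolation -/
lemma can_dir {d b1 b2 : BR K} (h1 : Mem U b1) (h2 : Mem U b2) (k1 : d ≤ b1) (k2 : d ≤ b2) :
    ∃ w : BB U, d ≤ w.1 ∧ w.1 ≤ b1 ∧ w.1 ≤ b2 := by
  have l1 : cutT U.β d.c ≤ b1.c := cutT_le k1.1 h1.1.1
  have l2 : cutT U.β d.c ≤ b2.c := cutT_le k2.1 h2.1.1
  refine ⟨BB.mk' (cutT U.β d.c) d.t (fun η q => b1.A η q ∧ b2.A η q) (sp_cut _ _)
    (h1.1.2.and h2.1.2) (Sys.inter h1.1.2 h2.1.2 (Sys.op h1.1.2 h1.2 l1) (Sys.op h2.1.2 h2.2 l2)),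
    ⟨le_cutT _ _, EE.refl _, fun _ j l => absurd j l,
      fun η j q l n => ⟨k1.2.2.2 η j q l n, k2.2.2.2 η j q l n⟩⟩,
    ⟨l1, k1.2.1, fun η j l => ((h1.1.2 η).2 _).1 (k1.2.2.1 η j l), fun _ _ _ _ n => n.1⟩,
    ⟨l2, k2.2.1, fun η j l => ((h2.1.2 η).2 _).1 (k2.2.2.1 η j l), fun _ _ _ _ n => n.2⟩⟩

lemma gen_can (h : U.le U') (d0 : BB U') : Gen U (can U U') d0 := by
  refine ⟨rop_can U U', fun b d _ j => j.1,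
    fun b b1 d _ j n o => ⟨d, le_rfl, o, le_trans (α := BR K) j.2 n⟩,
    fun b1 b2 d _ j n => ?_, fun D hD d _ => ?_, fun b d _ j => ⟨d, le_rfl, j.2.1.1, j.2.2.1⟩⟩
  · obtain ⟨w, k1, k2⟩ := can_dir j.1 n.1 j.2 n.2
    exact ⟨d, le_rfl, w, ⟨w.2, k1⟩, k2⟩
  · obtain ⟨r, k1, w, k2, k3⟩ := mathias h D hD d
    exact ⟨r, k1, w, k2, w.2, k3⟩

lemma Gen.can_cmp (h : Gen U z d0) : Eqv d0 (Cx.cmp (can U U) z) z := by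
  exact fun b d l => ⟨fun ⟨w, j1, j2, j3⟩ => h.up w.1 b d l j1 j3 j2,
    fun j => ⟨d, le_rfl, ⟨b, h.mem b d l j⟩, j, h.mem b d l j, le_rfl⟩⟩

lemma cmp_can (h : ROp y) (b0 : BB U) : Eqv b0 (cmp y (can U U)) y := by
  exact fun b d _ => ⟨fun ⟨w, j1, j2⟩ => ⟨d, le_rfl, h b _ _ j2 j1.2⟩,
    fun j => ⟨d, le_rfl, d, ⟨d.2, le_rfl⟩, j⟩⟩

lemma can_can (h : U.le U') (d0 : BB U'') :
    Eqv d0 (cmp (can U U') (can U' U'')) (can U U'') := by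
  exact fun b d _ => ⟨fun ⟨w, j1, j2⟩ => ⟨d, le_rfl, j2.1, le_trans (α := BR K) j1.2 j2.2⟩,
    fun j => ⟨d, le_rfl, ⟨b, j.1.mono h⟩, ⟨j.1.mono h, j.2⟩, j.1, le_rfl⟩⟩

/-- `w` belongs to the quotient forcing -/
def Rel (y : Rl U) (U0 : Sys K) (w : BB U) (d : BB U') : Prop :=
  ∀ d' ≤ d, ∀ b : BB U0, d'.1 ≤ b.1 → ∃ w' ≤ w, y b.1 w'

/-- existence of reducts -/
lemma Gen.reduct {U0 : Sys K} (h : Gen U0 y b0) (k : b1 ≤ b0) {b : BB U0} (j : y b.1 b1) :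
    ∃ b' ≤ b, ∀ b'' ≤ b', ∃ w ≤ b1, y b''.1 w := by
  by_contra n
  obtain ⟨d, k1, w, _, k3, k4⟩ := h.below k j (fun b'' => ∀ w ≤ b1, ¬ y b''.1 w) fun q l => by
    by_contra o
    refine n ⟨q, l, fun r k1 => ?_⟩
    by_contra o'
    exact o ⟨r, k1, fun w k2 k3 => o' ⟨w, k2, k3⟩⟩
  exact k3 d k1 k4

lemma Rel.of_reduct {U0 : Sys K} (hU : U0.le U') (h : Gen U0 y b0) (k : b1 ≤ b0) {b : BB U0}
    (j : ∀ b'' ≤ b, ∃ w ≤ b1, y b''.1 w) (l : d0.1 ≤ b.1) : Rel y U0 b1 d0 := by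
  intro d n c o
  have _ := hU
  obtain ⟨v, _, k2, k3⟩ := can_dir b.2 c.2 (le_trans (α := BR K) n l) o
  obtain ⟨w, k4, k5⟩ := j v k2
  obtain ⟨r, k6, k7⟩ := h.up v.1 c.1 w (k4.trans k) k5 k3 c.2
  exact ⟨r, k6.trans k4, k7⟩

/-- dense sets are dense in the quotient -/
lemma Rel.dense {U0 : Sys K} (hU : U0.le U') (h : Gen U0 y b0) (k : b1 ≤ b0) (j : Rel y U0 b1 d0)
    (D : BB U → Prop) (hD : hull D b1) : ∃ d ≤ d0, ∃ w ≤ b1, D w ∧ Rel y U0 w d ∧ d.p ≤ w.p := by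
  obtain ⟨d, k1, b, k2, k3⟩ := mathias hU
    (fun b => (∃ w ≤ b1, D w ∧ ∀ b'' ≤ b, ∃ w' ≤ w, y b''.1 w') ∨ ∀ w ≤ b1, ¬ y b.1 w) (fun b => by
      by_cases o : ∃ w ≤ b1, y b.1 w
      · obtain ⟨w0, o1, o2⟩ := o
        obtain ⟨w, o3, o4⟩ := hD w0 o1
        obtain ⟨r, o5, o6⟩ := h.reduct ((o3.trans o1).trans k) (h.op _ _ _ o2 o3)
        exact ⟨r, o5, Or.inl ⟨w, o3.trans o1, o4, o6⟩⟩
      · exact ⟨b, le_rfl, Or.inr fun w o1 o2 => o ⟨w, o1, o2⟩⟩) d0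
  rcases k2 with ⟨w, k4, k5, k6⟩ | k2
  · have k7 : Rel y U0 w d := Rel.of_reduct hU h (k4.trans k) k6 k3
    obtain ⟨w', k8, k9⟩ := k7 d le_rfl (BB.full U0 (d.p, Tm.top) (sp_top _ _) ∅)
      (BB.le_full (sp_top _ _) ⟨le_rfl, Tm.le_top _ _⟩
        ⟨Finset.empty_subset _, fun _ _ _ _ o => by simp at o⟩)
    obtain ⟨v, l1, l2, _⟩ := h.agr _ w' (k8.trans (k4.trans k)) k9
    have l3 : d.rp v.p l2 ≤ d := BB.rp_le _ _ _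
    exact ⟨d.rp v.p l2, l3.trans k1, w, k4, k5, fun e o => k7 e (o.trans l3),
      BB.p_le (l1.trans k8)⟩
  · obtain ⟨w, k4, k5⟩ := j d k1 b k3
    exact absurd k5 (k2 w k4)

end Pool.Agent.Lib.MP_491cc4_lc.Cx
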