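import Pool.Agent.Lib.MP_491cc4_lc.Cx.Tm

set_option autoImplicit false
set_option linter.unusedSectionVars false

namespace Pool.Agent.Lib.MP_491cc4_lc.Cx

open Set Cardinal Filter Pool.Agent.Lib.MP_d4b40b_lc

variable {K : Type} [LinearOrder K] [WellFoundedLT K] [OrderBot K] [Lc K] [It K]

/-- support below `β` -/
def Sp (β : LL K) (c : TT K) : Prop := c.2.1.a ⊆ Iio β

/-- restriction of a condition -/
def cutT (β : LL K) (c : TT K) : TT K := (c.1, ⟨c.2.1.cut β, c.2.2.cut β⟩)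

/-- `a` only depends on the coordinates below `β` -/
def Det (β : LL K) (a : TT K → Prop) : Prop := ∀ c, a c ↔ a (cutT β c)

variable (K) in
/-- names of subsets of `K` -/
abbrev Nm : Type := K → TT K → Prop

/-- regular names -/
def RN (A : Nm K) : Prop := ∀ η, Reg (A η)

/-- regular names depending on the coordinates below `β` -/
def NR (β : LL K) (A : Nm K) : Prop := ∀ η, Reg (A η) ∧ Det β (A η)

/-- the complement -/
def cm (A : Nm K) : Nm K := fun η => ng (A η)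

variable {β γ : LL K} {c c' : TT K} {a b : TT K → Prop} {A B : Nm K}

lemma Sp.mono (h : Sp β c) (k : β ≤ γ) : Sp γ c := h.trans (Iio_subset_Iio k)

lemma sp_cut (β : LL K) (c : TT K) : Sp β (cutT β c) := inter_subset_right

lemma sp_top (β : LL K) (p : PP K) : Sp β ((p, Tm.top) : TT K) := empty_subset _

lemma exists_sp (c : TT K) : ∃ β, Sp β c :=
  (boundL (c.2.1.small.trans Lc.KL) id).imp fun _ k _ j => k _ j

lemma le_cutT (β : LL K) (c : TT K) : c ≤ cutT β c := ⟨le_rfl, RT.le_cut _ _ _⟩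

lemma cutT_mono (β : LL K) (h : c' ≤ c) : cutT β c' ≤ cutT β c := ⟨h.1, h.2.cut β⟩

lemma cutT_self (h : Sp β c) : cutT β c = c := Prod.ext rfl (Subtype.ext (RT.cut_self h))

lemma cutT_le (h : c' ≤ c) (k : Sp β c) : cutT β c' ≤ c := cutT_self k ▸ cutT_mono β h

lemma cutT_cutT (h : γ ≤ β) (c : TT K) : cutT γ (cutT β c) = cutT γ c :=
  Prod.ext rfl (Subtype.ext (RT.cut_cut h _))

/-- amalgamation -/
theorem amal {c1 c : TT K} (h : c1 ≤ cutT β c) (k : Sp β c1) :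
    ∃ c2 ≤ c1, c2 ≤ c ∧ c2.1 = c1.1 ∧ c2.2.1.a = c1.2.1.a ∪ c.2.1.a := by
  obtain ⟨σ, k1, -, k2, -⟩ := exists_amal (J := Bool) (fun _ p => p ≤ c1.1)
    (fun j => bif j then c1.2 else c.2) (c1.2.1.a ∪ c.2.1.a)
    (mk_union_lt' (infK K) c1.2.1.small c.2.1.small) c1.2.1.g id (fun _ => le_rfl)
    (fun _ => op_le _) (by
      have e : ∀ p ξ η v v', p ≤ c1.1 → c1.2.1.val ξ η v p → c.2.1.val ξ η v' p → v = v' :=
        fun p ξ η v v' l n o => c1.2.1.fn ξ η v v' p n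
          (h.2.2.2 ξ η v' p l ⟨k (c1.2.1.dom ξ η v p n).1, o⟩)
      rintro (_ | _) (_ | _) p ξ η v v' l - n o
      · exact c.2.1.fn ξ η v v' p n o
      · exact (e p ξ η v' v l o n).symm
      · exact e p ξ η v v' l n o
      · exact c1.2.1.fn ξ η v v' p n o) (by
      rintro (_ | _) p -
      · exact ⟨subset_union_right, h.2.2.1⟩
      · exact ⟨subset_union_left, le_rfl⟩) (by
      intro ξ hξ δ hδ hY p
      obtain ⟨q, l, n | n⟩ := dec (fun p => p ≤ c1.1) p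
      · by_cases o : ξ ∈ c1.2.1.a
        · exact ⟨q, l, Or.inl ⟨true, n, o, hδ⟩⟩
        · by_cases s : δ ≤ c.2.1.g
          · exact ⟨q, l, Or.inl ⟨false, n, hξ.resolve_left o, s⟩⟩
          · refine ⟨q, l, Or.inr ⟨_, not_le.1 s, ?_⟩⟩
            rintro r - (_ | _) - t
            · exact le_rfl
            · exact absurd t o
      · obtain ⟨η0, o⟩ := (Lc.Y_bg _ hY).ne
        exact ⟨q, l, Or.inr ⟨η0, o, fun r s _ t => absurd t (n r s)⟩⟩)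
  exact ⟨(c1.1, σ), ⟨le_rfl, k2 true _ le_rfl⟩, ⟨h.1, k2 false _ le_rfl⟩, rfl, k1⟩

lemma amal' {c1 c : TT K} (h : c1 ≤ cutT β c) : ∃ c2 ≤ cutT β c1, c2 ≤ c :=
  (amal (cutT_le h (sp_cut β c)) (sp_cut β c1)).imp fun _ k => ⟨k.1, k.2.1⟩

lemma Det.of (h : Op a) (k : ∀ c, a c → a (cutT β c)) : Det β a :=
  fun c => ⟨k c, fun j => h _ _ j (le_cutT β c)⟩

lemma Det.mono (h : Det β a) (k : β ≤ γ) : Det γ a := fun c => by
  rw [h c, h (cutT γ c), cutT_cutT k]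

lemma det_const (β : LL K) (A : Prop) : Det β fun _ => A := fun _ => Iff.rfl

lemma det_fst (β : LL K) (a : PP K → Prop) : Det β fun c => a c.1 := fun _ => Iff.rfl

lemma det_cut (β : LL K) (a : TT K → Prop) : Det β fun c => a (cutT β c) := fun c => by
  simp only [cutT_cutT le_rfl]

lemma det_le (h : Sp β c) : Det β fun q => q ≤ c := Det.of (op_le c) fun _ k => cutT_le k h

lemma Det.and (h : Det β a) (k : Det β b) : Det β fun c => a c ∧ b c :=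
  fun c => and_congr (h c) (k c)

lemma Det.or (h : Det β a) (k : Det β b) : Det β fun c => a c ∨ b c :=
  fun c => or_congr (h c) (k c)

lemma Det.all {I : Sort*} {a : I → TT K → Prop} (h : ∀ i, Det β (a i)) :
    Det β fun c => ∀ i, a i c := fun c => forall_congr' fun i => h i c

lemma Det.ex {I : Sort*} {a : I → TT K → Prop} (h : ∀ i, Det β (a i)) :
    Det β fun c => ∃ i, a i c := fun c => exists_congr fun i => h i c

lemma Det.ng (h : Det β a) (k : Op a) : Det β (ng a) := Det.of op_ng fun c j q l n => by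
  obtain ⟨r, k1, k2⟩ := amal' l
  exact j r k2 (k _ _ ((h q).1 n) k1)

lemma Det.hull (h : Det β a) (k : Op a) : Det β (hull a) := Det.of op_hull fun c j =>
  hull_of_not_ng fun q l n => by
    obtain ⟨r, k1, k2⟩ := amal' l
    obtain ⟨s, k3, k4⟩ := j r k2
    exact (h.ng k q).1 n s (k3.trans k1) k4

lemma Det.imp (h : Det β a) (k : Op a) (h' : Det β b) (k' : Reg b) :
    Det β fun c => ∀ q ≤ c, a q → b q := Det.of (Reg.imp k k').1 fun c j q l n =>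
  k'.of_not_ng fun r o s => by
    obtain ⟨t, k1, k2⟩ := amal' (o.trans l)
    exact (h'.ng k'.1 r).1 s t k1 (j t k2 (k _ _ ((h r).1 (k _ _ n o)) k1))

lemma Det.lst {I : Type} {S : I → TT K → Prop} (h : ∀ i, Det β (S i)) (k : ∀ i, Op (S i)) (i : I) :
    Det β (Lst S i) := (h i).and (Det.all fun j => Det.all fun _ => (h j).ng (k j))

lemma NR.rn (h : NR β A) : RN A := fun η => (h η).1

lemma NR.mono (h : NR β A) (k : β ≤ γ) : NR γ A := fun η => ⟨(h η).1, (h η).2.mono k⟩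

lemma RN.cm (h : RN A) : RN (cm A) := fun η => reg_ng (h η).1

lemma NR.cm (h : NR β A) : NR β (cm A) := fun η => ⟨reg_ng (h η).1.1, (h η).2.ng (h η).1.1⟩

lemma NR.and (h : NR β A) (k : NR β B) : NR β fun η c => A η c ∧ B η c :=
  fun η => ⟨(h η).1.and (k η).1, (h η).2.and (k η).2⟩

lemma nr_const (β : LL K) (s : K → Prop) : NR β fun η _ => s η :=
  fun _ => ⟨reg_const _, det_const _ _⟩

lemma NR.all {I : Sort*} {A : I → Nm K} (h : ∀ i, NR β (A i)) : NR β fun η c => ∀ i, A i η c :=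
  fun η => ⟨Reg.all fun i => (h i η).1, Det.all fun i => (h i η).2⟩

lemma NR.imp (h : Det β a) (k : Op a) (j : NR β A) : NR β fun η c => ∀ q ≤ c, a q → A η q :=
  fun η => ⟨Reg.imp k (j η).1, h.imp k (j η).2 (j η).1⟩

/-- meeting a dense set by a global extension of the term -/
theorem meet_term (τ : Tm K) (h : τ.1.a ⊆ Iio β) (D : TT K → Prop) (h1 : Op D)
    (h2 : ∀ c, Sp β c → ∃ c' ≤ c, Sp β c' ∧ D c') :
    ∃ σ : Tm K, σ.1.a ⊆ Iio β ∧ (∀ p, RT.le p σ.1 τ.1) ∧ ∀ p, ∃ p' ≤ p, D (p', σ) := by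
  let S : Tm K → PP K → Prop := fun t p => t.1.a ⊆ Iio β ∧ RT.le p t.1 τ.1 ∧ D (p, t)
  have hS : ∀ t, Op (S t) := fun t p q k l =>
    ⟨k.1, k.2.1.mono l, h1 _ _ k.2.2 ⟨l, RT.le_refl _ _⟩⟩
  obtain ⟨σ, k1, k2, k3⟩ := Tm.mix (Lst S) id τ (op_lst hS) (fun _ _ _ => Lst.uniq)
    fun _ _ k => k.1.2.1
  refine ⟨σ, fun ξ k => ?_, k1, fun p => ?_⟩
  · rcases k3 ξ k with j | ⟨t, p, j, l⟩
    · exact h j
    · exact j.1.1 l
  · obtain ⟨c', l, j1, j2⟩ := h2 (p, τ) h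
    obtain ⟨r, n, t, o⟩ := exists_lst S (q := p) ⟨c'.1, l.1, c'.2, j1, l.2, j2⟩
    exact ⟨r, n, h1 (r, t) _ o.1.2.2 ⟨le_rfl, k2 t r o⟩⟩

theorem mk_Sp {B : Set (LL K)} (hB : Bg B) (hK : #K < #B) (hγ : γ ∈ B) :
    #{c : TT K | Sp γ c} < #B := by
  refine lt_of_le_of_lt ?_ (mk_prod_lt' hB.inf (mkP.trans_lt hK) (mk_RT hB hK hγ))
  refine mk_le_of_injective (f := fun c => (c.1.1, ⟨c.1.2.1, c.2⟩)) fun c c' e => ?_
  have e1 := congrArg Prod.fst e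
  have e2 := congrArg (fun z => z.2.1) e
  exact Subtype.ext (Prod.ext e1 (Subtype.ext e2))

theorem mk_Sp' (γ : LL K) : #{c : TT K | Sp γ c} < #(LL K) := by
  simpa using mk_Sp Lc.bgL (by simpa using Lc.KL) (mem_univ γ)

theorem mk_NR (γ : LL K) : #{A : Nm K | NR γ A} < #(LL K) := by
  have h1 : #(Set (K × {c : TT K | Sp γ c})) < #(LL K) := by
    rw [mk_set]
    exact (inacL K).isStrongLimit.isStrongPrelimit (mk_prod_lt' (infL K) Lc.KL (mk_Sp' γ))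
  refine lt_of_le_of_lt (mk_le_of_injective (f := fun A => {z | A.1 z.1 z.2.1}) fun A B e => ?_) h1
  refine Subtype.ext (funext fun η => funext fun c => propext ?_)
  rw [(A.2 η).2 c, (B.2 η).2 c]
  exact Set.ext_iff.1 e (η, ⟨cutT γ c, sp_cut γ c⟩)

/-- closing off under witnesses -/
theorem det_close {B : Set (LL K)} (hB : Bg B) (hK : #K < #B) (h : Reg a)
    (k : ∀ γ ∈ B, ∀ c, Sp γ c → ∀ q ≤ c, ng a q → ∃ γ' ∈ B, ∃ q ≤ c, Sp γ' q ∧ ng a q) :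
    ∃ γ ∈ B, Det γ a := by
  let W : LL K → LL K → Prop := fun γ γ' =>
    ∀ c, Sp γ c → ∀ q ≤ c, ng a q → ∃ q ≤ c, Sp γ' q ∧ ng a q
  have hW : ∀ γ γ' γ'', W γ γ' → γ' ≤ γ'' → W γ γ'' := fun γ γ' γ'' j l c n q o s =>
    (j c n q o s).imp fun _ t => ⟨t.1, t.2.1.mono l, t.2.2⟩
  have h1 : ∀ s : B, ∃ s' : B, s.1 ≤ s'.1 ∧ W s.1 s'.1 := by
    intro s
    have : ∀ c, ∃ γ' ∈ B, Sp s.1 c → ∀ q ≤ c, ng a q → ∃ q ≤ c, Sp γ' q ∧ ng a q := by
      intro c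
      by_cases j : Sp s.1 c ∧ ∃ q ≤ c, ng a q
      · obtain ⟨j1, q, j2, j3⟩ := j
        obtain ⟨γ', l1, l2⟩ := k s.1 s.2 c j1 q j2 j3
        exact ⟨γ', l1, fun _ _ _ _ => l2⟩
      · exact ⟨s.1, s.2, fun j1 q j2 j3 => absurd ⟨j1, q, j2, j3⟩ j⟩
    choose f f1 f2 using this
    obtain ⟨b, b1, b2⟩ := hB.bound' (mk_Sp hB hK s.2) f fun c _ => f1 c
    refine ⟨⟨max s.1 b, by rcases max_choice s.1 b with e | e <;> rw [e] <;> simp [b1]⟩,
      le_max_left _ _, fun c n q o t => (f2 c n q o t).imp fun _ u =>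
        ⟨u.1, u.2.1.mono ((b2 c n).le.trans (le_max_right _ _)), u.2.2⟩⟩
  obtain ⟨s0, hs0⟩ := hB.ne
  obtain ⟨f, f1, -⟩ := exists_chain (W := K) (fun s' s : B => s.1 ≤ s'.1 ∧ W s.1 s'.1)
    (fun _ _ _ j l => ⟨l.1.trans j.1, hW _ _ _ l.2 j.1⟩) ⟨s0, hs0⟩ (by
      intro w f _ _
      choose g g1 g2 using fun i => h1 (f i)
      obtain ⟨b, b1, b2⟩ := hB.bound ((iioK w).trans hK) (fun i => (g i).1) fun i => (g i).2
      exact ⟨⟨b, b1⟩, fun i => ⟨(g1 i).trans (b2 i).le, hW _ _ _ (g2 i) (b2 i).le⟩⟩)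
    (fun _ _ => True) fun _ s => (h1 s).imp fun _ j => ⟨j, trivial⟩
  obtain ⟨b, b1, b2⟩ := hB.bound hK (fun i => (f i).1) fun i => (f i).2
  obtain ⟨γ, g1, g2, g3⟩ := exists_lub (fun i => (f i).1) fun i => (b2 i).le
  have h2 : W γ γ := by
    intro c n
    have : ∀ ξ, ∃ i, ξ < γ → ξ < (f i).1 := fun ξ => by
      by_cases j : ξ < γ
      · exact (g3 ξ j).imp fun _ l _ => l
      · exact ⟨⊥, fun l => absurd l j⟩
    choose e he using this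
    obtain ⟨i, hi⟩ := boundK c.2.1.small e
    obtain ⟨j, hj⟩ := gtK i
    exact hW _ _ _ (f1 i j hj).2 (g2 j) c fun ξ l => (he ξ (n l)).trans_le (f1 _ _ (hi ξ l)).1
  refine ⟨γ, hB.low g1 b1, Det.of h.1 fun q j => h.of_not_ng fun q1 l n => ?_⟩
  obtain ⟨q3, k1, k2, k3⟩ := h2 _ (sp_cut γ q1) q1 (le_cutT γ q1) n
  obtain ⟨c2, k4, k5, -⟩ := amal (k1.trans (cutT_le l (sp_cut γ q))) k2
  exact k3 c2 k4 (h.1 _ _ j k5)

theorem det_ex (h : Reg a) : ∃ β, Det β a :=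
  (det_close Lc.bgL (by simpa using Lc.KL) h fun _ _ _ _ q l n =>
    (exists_sp q).elim fun γ k => ⟨γ, trivial, q, l, k, n⟩).imp fun _ k => k.2

theorem det_lt (hβ : Bg (Iio β)) (hK : #K < #(Iio β)) (h : Reg a) (k : Det β a) :
    ∃ γ < β, Det γ a :=
  det_close hβ hK h fun γ hγ c j q l n => by
    obtain ⟨b, b1, b2⟩ := hβ.bound' ((cutT β q).2.1.small.trans hK) id fun _ o => sp_cut β q o
    exact ⟨b, b1, cutT β q, cutT_le l (j.mono (le_of_lt hγ)), fun ξ o => b2 ξ o,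
      (k.ng h.1 q).1 n⟩

theorem nr_ex (h : RN A) : ∃ β, NR β A := by
  choose f hf using fun η => det_ex (h η)
  obtain ⟨b, hb⟩ := boundL (s := univ) (by simpa using Lc.KL) f
  exact ⟨b, fun η => ⟨h η, (hf η).mono (hb η trivial).le⟩⟩

theorem nr_lt (hβ : Bg (Iio β)) (hK : #K < #(Iio β)) (h : NR β A) : ∃ γ < β, NR γ A := by
  choose f f1 f2 using fun η => det_lt hβ hK (h η).1 (h η).2
  obtain ⟨b, b1, b2⟩ := hβ.bound hK f f1
  exact ⟨b, b1, fun η => ⟨(h η).1, (f2 η).mono (b2 η).le⟩⟩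

theorem mk_RN : #{A : Nm K | RN A} ≤ #(LL K) :=
  (mk_le_mk_of_subset (t := ⋃ β : LL K, {A : Nm K | NR β A}) fun _ h => mem_iUnion.2 (nr_ex h)).trans
    (mk_iUnion_le' (infL K) le_rfl fun β => (mk_NR β).le)

/-- the set of points with bit `e` at the coordinate `ξ` -/
def An (ξ : LL K) (e : Bool) : Nm K := fun η => hull fun c => ∃ v, c.2.1.val ξ η (e, v) c.1

lemma op_val (ξ : LL K) (η : K) (v : Bool × LL K) : Op fun c : TT K => c.2.1.val ξ η v c.1 :=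
  fun c _ h l => l.2.2.2 ξ η v _ le_rfl ((c.2.1.reg ξ η v).1 _ _ h l.1)

lemma nr_An {ξ : LL K} (h : ξ < β) (e : Bool) : NR β (An ξ e) := fun η => ⟨reg_hull,
  Det.hull (Det.ex fun _ _ => ⟨fun k => ⟨h, k⟩, fun k => k.2⟩) (Op.ex fun v => op_val ξ η (e, v))⟩

/-- the ladder at `δ` is contained in `A` -/
def Sb (A : Nm K) : Nm K := fun δ c => ∀ η, ∀ q ≤ c, stem δ (some η) q.1 → A η q

lemma op_stem (δ : K) (o : Option K) : Op fun c : TT K => stem δ o c.1 :=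
  fun _ _ h l => (It.stem_reg δ o).1 _ _ h l.1

lemma NR.sb (h : NR β A) : NR β (Sb A) := fun δ =>
  ⟨Reg.all fun η => Reg.imp (op_stem δ _) (h η).1,
    Det.all fun η => (det_fst β _).imp (op_stem δ _) (h η).2 (h η).1⟩

/-- the name `B` is listed at `ξ` -/
def Is (ξ : LL K) (B : Nm K) : Prop := ∃ β ≤ ξ, NR β B ∧ ∀ δ p σ, (δ, p, σ) ∈ bk K ξ ↔
  ∃ h : Valid σ, σ.a ⊆ Iio β ∧ B δ (p, ⟨σ, h⟩)

theorem book (h : NR β B) (γ : LL K) : ∃ ξ, γ ≤ ξ ∧ Is ξ B := by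
  obtain ⟨ξ, k1, k2⟩ := (exists_bk K).choose_spec β
    {y | ∃ h : Valid y.2.2, y.2.2.a ⊆ Iio β ∧ B y.1 (y.2.1, ⟨y.2.2, h⟩)}
    (fun _ k => k.elim fun _ j => j.1) (max γ β)
  exact ⟨ξ, (le_max_left _ _).trans k1, β, (le_max_right _ _).trans k1, h,
    fun δ p σ => Set.ext_iff.1 k2 (δ, p, σ)⟩

theorem Is.frc {ξ : LL K} (h : Is ξ B) {δ : K} (k : B δ c) : Frc ξ δ c.2.1 c.1 := by
  obtain ⟨β, h1, h2, h3⟩ := h
  exact fun q l => ⟨q, le_rfl, c.1, c.2.1.cut β,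
    (h3 _ _ _).2 ⟨c.2.2.cut β, sp_cut β c, ((h2 δ).2 c).1 k⟩, l,
    (sp_cut β c).mono h1, RT.le_cut _ _ _⟩

theorem Is.fin {ξ : LL K} (h : Is ξ B) {δ : K} (h1 : stem δ none c.1) (h2 : Sb (An ξ true) δ c) :
    B δ c := by
  obtain ⟨β, -, h3, h4⟩ := h
  refine (h3 δ).1.2 c fun q l => ?_
  obtain ⟨σ, k1, k2, k3⟩ := Tm.fill q.2 {ξ} (by simpa using one_lt_aleph0.trans_le (infK K))
    (max q.2.1.g δ) (le_max_left _ _)
  have k4 : Tr ξ δ σ.1 q.1 := by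
    refine ⟨op_stem δ none c q h1 l, fun p n η v o s => ?_⟩
    obtain ⟨r, t, v', u⟩ := h2 η (p, σ) (le_trans (b := q) ⟨n, k3 p⟩ l) o (p, σ) le_rfl
    exact absurd (r.2.1.fn ξ η _ _ _ u (op_val ξ η (false, v) (p, σ) r s t)) (by simp)
  obtain ⟨p, n, p0, σ', o, s, -, t⟩ := σ.2 ξ (k1 ▸ Or.inr rfl) δ (k2 ▸ le_max_right _ _) q.1 k4
    q.1 le_rfl
  obtain ⟨hv, -, u⟩ := (h4 _ _ _).1 o
  exact ⟨(p, σ), ⟨n, k3 p⟩, (h3 δ).1.1 (p0, ⟨σ', hv⟩) _ u ⟨s, t⟩⟩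

end Pool.Agent.Lib.MP_491cc4_lc.Cx
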