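import Pool.Agent.Lib.MP_491cc4_lc.Cx.Base

set_option autoImplicit false

namespace Pool.Agent.Lib.MP_491cc4_lc.Cx

/-- the combinatorial output: names of a normal ultrafilter and of a ladder system -/
structure Out (K P : Type) [LinearOrder K] [Preorder P] where
  mem : (K → P → Prop) → P → Prop
  st : K → Option K → P → Prop
  reg : ∀ A, (∀ η, Reg (A η)) → Reg (mem A)
  top : ∀ c, mem (fun _ _ => True) c
  mono : ∀ A B c ζ, (∀ η, Reg (A η)) → (∀ η, Reg (B η)) →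
    (∀ η, ζ < η → ∀ q ≤ c, A η q → B η q) → mem A c → mem B c
  ultra : ∀ A c, (∀ η, Reg (A η)) → ∃ c' ≤ c, mem A c' ∨ mem (fun η => ng (A η)) c'
  inter : ∀ A B c, (∀ η, Reg (A η)) → (∀ η, Reg (B η)) → mem A c → mem B c →
    mem (fun η q => A η q ∧ B η q) c
  diag : ∀ (A : K → K → P → Prop) c, (∀ i η, Reg (A i η)) → (∀ i, mem (A i) c) →
    mem (fun η q => ∀ i < η, A i η q) c
  ne : ∀ A c, (∀ η, Reg (A η)) → mem A c → ∃ c' ≤ c, ∃ η, A η c'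
  sop : ∀ δ o, Op (st δ o)
  sne : ∀ δ c, st δ none c → ∃ c' ≤ c, ∃ η, st δ (some η) c'
  unb : ∀ δ η c, st δ none c → st δ (some η) c → ∃ c' ≤ c, ∃ η', η < η' ∧ st δ (some η') c'
  ram : ∀ X : K → P → Prop, (∀ η, Reg (X η)) → ∃ A, (∀ η, Reg (A η)) ∧ (∀ c, mem A c) ∧
    ∀ c, ∃ c' ≤ c,
      (∀ δ, ∀ q ≤ c', st δ none q → (∀ η, ∀ r ≤ q, st δ (some η) r → A η r) → X δ q) ∨
      ∀ δ, ∀ q ≤ c', st δ none q → (∀ η, ∀ r ≤ q, st δ (some η) r → A η r) → ng (X δ) q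
  unav : ∀ A c, (∀ η, Reg (A η)) → mem A c →
    ∃ c' ≤ c, ∃ δ, st δ none c' ∧ ∀ η, ∀ r ≤ c', st δ (some η) r → A η r

end Pool.Agent.Lib.MP_491cc4_lc.Cx
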