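import Pool.Agent.Lib.MP_491cc4_lc.Cx.Le

set_option autoImplicit false
set_option linter.unusedSectionVars false

namespace Pool.Agent.Lib.MP_491cc4_lc.Cx

open Set Cardinal Filter Pool.Agent.Lib.MP_d4b40b_lc

variable (K : Type) [LinearOrder K] [WellFoundedLT K] [OrderBot K] [Lc K] [It K]

/-- an increasing chain of systems -/
structure Aux where
  u : LL K → Sys K
  mono : ∀ i j, i ≤ j → (u i).le (u j)
  lev : ∀ i, i < (u i).β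

variable {K} (a : Aux K)

/-- terms of the universal Prikry-type forcing -/
structure RTm where
  c : Cd K
  b : BB c.U
  hU : c.U = a.u c.i
  hp : b.p = ⊤

variable {a}

/-- the coded condition of a term -/
def RTm.at (r : RTm a) (p : PP K) : BB r.c.U := r.b.rp p (r.hp ▸ le_top)

variable (a) in
/-- the universal Prikry-type forcing -/
def RS : Sh (PP K) (RTm a) K where
  le p r' r := Le r'.c (r'.at p) r.c (r.at p)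
  dle p r' r := Agr r'.c (r'.at p) r.c ∧ (r'.at p).1 ≤ (r.at p).1 ∧ r'.b.1.t = r.b.1.t
  ht r := r.b.1.c.2.1.g
  lad _ r o := ∀ η, o = some η → η ∈ r.b.1.t

lemma RTm.le_p (r : RTm a) (p : PP K) : p ≤ r.b.p := r.hp ▸ le_top

lemma RTm.at_le (r : RTm a) (p : PP K) : r.at p ≤ r.b := BB.rp_le _ _ _

lemma RTm.le_at (r : RTm a) {p : PP K} {b : BR K} (h : b ≤ r.b.1) (k : b.c.1 ≤ p) :
    b ≤ (r.at p).1 := BB.le_rp _ h k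

lemma RTm.at_mono (r : RTm a) {p p' : PP K} (h : p' ≤ p) : r.at p' ≤ r.at p :=
  r.le_at (r.at_le p') h

lemma RTm.le_rp {c : Cd K} {b : BB c.U} (r : RTm a) {p p' : PP K} (h : Le c b r.c (r.at p))
    (k : p' ≤ p) (l : b.p ≤ p') : Le c b r.c (r.at p') :=
  (h.rp (p := p') k l).up (r.le_at (le_trans (α := BR K) (BB.rp_le _ _ _) (r.at_le p)) le_rfl)

lemma RS.tle_iff {q' q : PP K × RTm a} :
    (RS a).tle q' q ↔ Le q'.2.c (q'.2.at q'.1) q.2.c (q.2.at q.1) :=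
  ⟨fun h => Le.up h.2 (q.2.at_mono h.1), fun h => ⟨h.p, q.2.le_rp h h.p le_rfl⟩⟩

/-- every coded condition over the chain is equivalent to a term -/
lemma exists_rtm (c : Cd K) (h : c.U = a.u c.i) (b : BB c.U) : ∃ (b' : BB c.U) (k : b'.p = ⊤),
    b'.1.c.2 = b.1.c.2 ∧ b'.1.t = b.1.t ∧ RTm.at ⟨c, b', h, k⟩ b.p ≤ b ∧
      b ≤ RTm.at ⟨c, b', h, k⟩ b.p := by
  obtain ⟨b', k, h1, h2, h3, h4⟩ := b.norm
  exact ⟨b', k, h1, h2, h4, RTm.le_at ⟨c, b', h, k⟩ h3 le_rfl⟩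

lemma RS.of_cd (c : Cd K) (h : c.U = a.u c.i) (b : BB c.U) : ∃ q : PP K × RTm a,
    q.2.b.1.t = b.1.t ∧ Le q.2.c (q.2.at q.1) c b := by
  obtain ⟨b', k, -, h2, h3, -⟩ := exists_rtm c h b
  exact ⟨(b.p, ⟨c, b', h, k⟩), h2, Le.of_le h3⟩

lemma RS.gt3 (x y z : LL K) : ∃ j, x < j ∧ y < j ∧ z < j := by
  obtain ⟨j, h⟩ := gtL (max x (max y z))
  exact ⟨j, (le_max_left _ _).trans_lt h, ((le_max_left _ _).trans (le_max_right _ _)).trans_lt h,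
    ((le_max_right _ _).trans (le_max_right _ _)).trans_lt h⟩

lemma RTm.le_u (r : RTm a) {j : LL K} (h : r.c.i < j) : r.c.U.le (a.u j) :=
  r.hU ▸ a.mono _ _ h.le

lemma RTm.ne : Nonempty (RTm a) :=
  ⟨⟨⟨a.u ⊥, ⊥, fun _ _ _ => False, fun _ _ => op_const _, fun _ _ _ => False.elim,
    ⊥, fun _ _ _ => False.elim⟩, ⊤, rfl, rfl⟩⟩

lemma RS.agr_can {c c' : Cd K} {b : BB c'.U} (h : Agr c' b c) {U : Sys K} (hU : c'.U.le U)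
    {d : BB U} (l : d.1 ≤ b.1) {k : LL K} (hk : k ≤ c.i) :
    Eqv d (cmp (c'.xp k) (can c'.U U)) (cmp (c.xp k) (can c.U U)) := by
  have h1 := (h.his k hk).cmp_left (c'.rop k) ((rop_can _ _).cmp _) (gen_can hU d)
    ((rop_can _ _ _).hull ⟨b.2, l⟩)
  rw [cmp_assoc] at h1
  exact h1.trans ((can_can h.U d).cmp_right _)

theorem RS.prik (D : PP K × RTm a → Prop) (hD : ∀ q q', D q → (RS a).tle q' q → D q') (p : PP K)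
    (r : RTm a) : ∃ p' ≤ p, ∃ r', (RS a).dle p' r' r ∧
      ((∀ q, (RS a).tle q (p', r') → ∃ q', (RS a).tle q' q ∧ D q') ∨
        ∀ q, (RS a).tle q (p', r') → ¬ D q) := by
  obtain ⟨γ, i0, hm⟩ := mix r.c (r.at p) (fun c1 w => ∃ q : PP K × RTm a,
      (D q ∨ ∀ q', (RS a).tle q' q → ¬ D q') ∧ Le c1 w q.2.c (q.2.at q.1)) (fun b _ => by
    obtain ⟨q0, -, h0⟩ := RS.of_cd r.c r.hU b
    by_cases h1 : ∃ q', (RS a).tle q' q0 ∧ D q'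
    · obtain ⟨q, h2, h3⟩ := h1
      exact ⟨q.2.c, q.2.at q.1, ⟨q, Or.inl h3, Le.of_le le_rfl⟩, (RS.tle_iff.1 h2).trans h0⟩
    · exact ⟨q0.2.c, q0.2.at q0.1, ⟨q0, Or.inr fun q' k j => h1 ⟨q', k, j⟩, Le.of_le le_rfl⟩, h0⟩)
  obtain ⟨j, j1, j2, j3⟩ := RS.gt3 γ i0 r.c.i
  obtain ⟨x, op, sup, lev, h1, h2⟩ := hm (a.u j) (r.le_u j3) (j1.trans (a.lev j)) j j2
  let c' : Cd K := ⟨a.u j, j, x, op, sup, lev⟩
  obtain ⟨b1, k1, k2, k3⟩ := prikry' (U := c'.U)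
    (fun b => ∃ q : PP K × RTm a, D q ∧ Le c' b q.2.c (q.2.at q.1))
    (fun _ _ h l => h.imp fun _ k => ⟨k.1, k.2.mono l⟩) ⟨(r.at p).1, (r.at p).2.mono (r.le_u j3)⟩
  obtain ⟨b', k, -, k4, k5, -⟩ := exists_rtm (a := a) c' rfl b1
  refine ⟨b1.p, BB.p_le k1, ⟨c', b', rfl, k⟩, ⟨Agr.mono (c' := c') h1 (k5.trans k1), r.le_at
    (le_trans (α := BR K) (k5.trans k1) (r.at_le p)) le_rfl, k4.trans k2⟩, k3.imp ?_ ?_⟩
  · intro n q l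
    obtain ⟨d, l1, w, -, ⟨q1, l2, l3⟩, l4⟩ := ((RS.tle_iff.1 l).up k5).dense _ n
    obtain ⟨q', -, l5⟩ := RS.of_cd q.2.c q.2.hU d
    exact ⟨q', RS.tle_iff.2 (l5.up l1), hD _ _ l2 (RS.tle_iff.2 (l5.trans (l4.trans l3)))⟩
  · intro n q l o
    obtain ⟨d, l1, w, l0, ⟨c1, w1, ⟨q1, l2, l3⟩, l6⟩, l4⟩ := ((RS.tle_iff.1 l).up k5).dense _
      (fun b s => h2 b (s.trans k1))
    obtain ⟨q', -, l5⟩ := RS.of_cd q.2.c q.2.hU d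
    rcases l2 with l2 | l2
    · exact n w l0 ⟨q1, l2, Le.trans (c'' := c') l6 l3⟩
    · exact l2 q' (RS.tle_iff.2 (l5.trans (l4.trans (Le.trans (c'' := c') l6 l3))))
        (hD _ _ o (RS.tle_iff.2 (l5.up l1)))

theorem RS.clos (w : K) (I : Set K) (nm : K → PP K → RTm a → Prop) (h : K → K) (p0 : PP K)
    (h0 : I ⊆ Iio w) (h1 : ∀ i ∈ I, ∀ τ, Op fun p => nm i p τ)
    (h2 : ∀ i ∈ I, ∀ p τ τ', nm i p τ → nm i p τ' → τ = τ')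
    (h3 : ∀ i ∈ I, hull (fun p => ∃ τ, nm i p τ) p0)
    (h4 : ∀ i ∈ I, ∀ p τ, nm i p τ → (RS a).ht τ = h i) (h5 : ∀ i ∈ I, w ≤ h i)
    (h6 : ∀ i ∈ I, ∀ j ∈ I, ∀ p ≤ p0, ∀ τ τ', nm i p τ → nm j p τ' →
      ∃ p' ≤ p, (RS a).dle p' τ' τ ∨ (RS a).dle p' τ τ') :
    ∃ p1 ≤ p0, ∃ σ, ∀ i ∈ I, ∀ p ≤ p1, ∀ τ, nm i p τ → ∃ p' ≤ p, (RS a).dle p' σ τ := by
  rcases I.eq_empty_or_nonempty with rfl | ⟨i0, hi0⟩
  · exact ⟨p0, le_rfl, (RTm.ne (a := a)).some, fun _ k => k.elim⟩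
  let J : Set (K × RTm a) := {x | x.1 ∈ I ∧ ∃ p, nm x.1 p x.2}
  have hI : #I ≤ #(Iio w) := mk_le_mk_of_subset h0
  have hJ : #J < #K := by
    have e : J ⊆ ⋃ i ∈ I, (fun τ => (i, τ)) '' {τ | ∃ p, nm i p τ} := fun x k =>
      mem_biUnion k.1 ⟨x.2, k.2, rfl⟩
    refine (mk_le_mk_of_subset e).trans_lt ((card_biUnion_lt_iff_forall_of_isRegular
      (t := fun i _ => (fun τ => (i, τ)) '' {τ | ∃ p, nm i p τ}) (inacK K).isRegular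
      (hI.trans_lt (iioK w))).2 fun i k => mk_image_le.trans_lt ?_)
    exact It.cc (RTm a) (fun τ p => nm i p τ) (h1 i k) fun τ τ' p => h2 i k p τ τ'
  obtain ⟨j, hj⟩ := boundL (hJ.trans Lc.KL) fun x => x.2.c.i
  have hU : ∀ x : J, x.1.2.c.U.le (a.u j) := fun x => x.1.2.le_u (hj _ x.2)
  obtain ⟨σ, -, s1, s2⟩ := Tm.clos w (I := I) hI (fun i p τ => ∃ r, nm i.1 p r ∧ τ = r.b.1.c.2)
    (fun i => h i.1) p0 (fun i τ => Op.ex fun r => (h1 i.1 i.2 r).and (op_const _))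
    (fun i p τ τ' ⟨r, k1, k2⟩ ⟨r', k3, k4⟩ => by rw [k2, k4, h2 i.1 i.2 p r r' k1 k3])
    (fun i => (h3 i.1 i.2).imp fun q _ ⟨r, k⟩ => ⟨q, le_rfl, _, r, k, rfl⟩)
    (fun i p τ ⟨r, k1, k2⟩ => k2 ▸ h4 i.1 i.2 p r k1) (fun i => h5 i.1 i.2)
    (fun i i' p l τ τ' ⟨r, k1, k2⟩ ⟨r', k3, k4⟩ => by
      obtain ⟨p', k5, k6⟩ := h6 i.1 i.2 i'.1 i'.2 p l r r' k1 k3
      subst k2 k4
      exact ⟨p', k5, k6.imp (fun n => n.2.1.1.2) fun n => n.2.1.1.2⟩)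
  have sp : Sp (a.u j).β ((⊤, σ) : TT K) := fun ξ k => by
    obtain ⟨i, p, τ, ⟨r, k1, k2⟩, k3⟩ := s2 ξ k
    subst k2
    exact (r.b.2.1.1.mono (hU ⟨(i.1, r), i.2, p, k1⟩).1) k3
  obtain ⟨p1, l1, r0, l2⟩ := h3 i0 hi0 p0 le_rfl
  have d1 : ∀ x : J, Det (a.u j).β fun q : TT K => nm x.1.1 q.1 x.1.2 ∧ q ≤ x.1.2.b.1.c := fun x =>
    (det_fst _ fun p => nm x.1.1 p x.1.2).and (det_le (x.1.2.b.2.1.1.mono (hU x).1))
  have d2 : ∀ x : J, Op fun q : TT K => nm x.1.1 q.1 x.1.2 ∧ q ≤ x.1.2.b.1.c := fun x =>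
    Op.and (fun _ _ k l => h1 _ x.2.1 _ _ _ k l.1) (op_le _)
  have d3 : ∀ x : J, NR (a.u j).β x.1.2.b.1.A := fun x => x.1.2.b.2.1.2.mono (hU x).1
  have d4 := fun x => NR.imp (d1 x) (d2 x) (d3 x)
  let b : BB (a.u j) := BB.mk' (⊤, σ) r0.b.1.t _ sp (NR.all d4) (Sys.all hJ d4 fun x =>
    Sys.mem_imp (d1 x) (d2 x) (d3 x) fun q _ k => Sys.op (d3 x) (x.1.2.b.2.mono (hU x)).2 k.2)
  obtain ⟨x, op, sup, lev, g⟩ := glue (hJ.trans Lc.KL) (fun x : J => x.1.2.c) (a.u j) j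
    (fun x => hj _ x.2) (fun x => can x.1.2.c.U (a.u j)) (fun _ => rop_can _ _)
    (fun x d => nm x.1.1 d.p x.1.2 ∧ d.p ≤ p0 ∧ d.1 ≤ x.1.2.b.1)
    (fun x _ _ k l => ⟨h1 _ x.2.1 _ _ _ k.1 (BB.p_le l), (BB.p_le l).trans k.2.1,
      le_trans (α := BR K) l k.2.2⟩)
    (fun x x' d k k' n o o' => Eqv.reg ((rop_can _ _).cmp _) ((rop_can _ _).cmp _) fun d' l => by
      obtain ⟨p', k5, k6⟩ := h6 _ x.2.1 _ x'.2.1 d'.p ((BB.p_le l).trans k.2.1) _ _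
        (h1 _ x.2.1 _ _ _ k.1 (BB.p_le l)) (h1 _ x'.2.1 _ _ _ k'.1 (BB.p_le l))
      have k7 : d'.rp p' k5 ≤ d := (BB.rp_le _ _ _).trans l
      refine ⟨d'.rp p' k5, BB.rp_le _ _ _, ?_⟩
      rcases k6 with k6 | k6
      · exact (RS.agr_can k6.1 (hU x') (x'.1.2.le_at (le_trans (α := BR K) k7 k'.2.2) le_rfl) o).symm
      · exact RS.agr_can k6.1 (hU x) (x.1.2.le_at (le_trans (α := BR K) k7 k.2.2) le_rfl) o')
  refine ⟨p1, l1, ⟨⟨a.u j, j, x, op, sup, lev⟩, b, rfl, rfl⟩, fun i hi p l τ k => ⟨p, le_rfl, ?_⟩⟩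
  have e : r0.b.1.t = τ.b.1.t := by
    obtain ⟨p', -, n⟩ := h6 i0 hi0 i hi p (l.trans l1) r0 τ (h1 _ hi0 _ _ _ l2 l) k
    exact n.elim (fun n => n.2.2.symm) fun n => n.2.2
  have e1 : LE.le (α := TT K) (p, σ) τ.b.1.c :=
    ⟨τ.le_p p, s1 ⟨i, hi⟩ p (l.trans l1) _ ⟨τ, k, rfl⟩⟩
  have e2 : (b.rp p le_top).1 ≤ τ.b.1 := ⟨e1, e ▸ EE.refl _, fun η n o => absurd (e ▸ n) o,
    fun η _ q n o => o ⟨(i, τ), hi, p, k⟩ q le_rfl ⟨h1 _ hi _ _ _ k n.1, n.trans e1⟩⟩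
  exact ⟨⟨hU ⟨(i, τ), hi, p, k⟩, (hj (i, τ) ⟨hi, p, k⟩).le,
    g ⟨(i, τ), hi, p, k⟩ _ ⟨k, l.trans l1, e2⟩⟩, τ.le_at e2 le_rfl, e⟩

instance : Nice (RS a) where
  ne := RTm.ne
  drefl _ _ := ⟨Agr.refl _ _, le_rfl, rfl⟩
  dle_le _ _ _ h := h.1.le h.2.1
  trans _ _ _ _ h k := Le.trans h k
  dtrans _ _ _ _ h k := ⟨h.1.trans h.2.1 k.1, h.2.1.trans k.2.1, h.2.2.trans k.2.2⟩
  mono _ _ τ' τ h l := τ.le_rp (Le.mono h (τ'.at_mono l)) l le_rfl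
  dmono p _ τ' τ h l := ⟨h.1.mono (τ'.at_mono l), τ.le_at (le_trans (α := BR K)
    (le_trans (α := BR K) (τ'.at_mono l) h.2.1) (τ.at_le p)) le_rfl, h.2.2⟩
  fill τ h k := by
    obtain ⟨σ, h1, h2, h3⟩ := Tm.fill τ.b.1.c.2 ∅
      (by simpa using aleph0_pos.trans_le (infK K)) h k
    have h4 : Sp τ.c.U.β ((τ.b.p, σ) : TT K) := fun ξ j => by
      have j' : ξ ∈ σ.1.a := j
      rw [h1, union_empty] at j'
      exact τ.b.2.1.1 j'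
    let r : RTm a := ⟨τ.c, τ.b.rc (τ.b.p, σ) ⟨le_rfl, h3 _⟩ h4, τ.hU, τ.hp⟩
    exact ⟨r, h2, fun p => ⟨Agr.refl _ _, τ.le_at (le_trans (α := BR K) (r.at_le p)
      (BB.rc_le τ.b (τ.b.p, σ) ⟨le_rfl, h3 _⟩ h4)) le_rfl, rfl⟩⟩
  prik := RS.prik
  clos := RS.clos
  lad_mono _ _ _ h l η k := l.2.t.1 (h η k)
  lad_unb q η _ := by
    obtain ⟨b', h1, η', h2, -, h3, -⟩ := (q.2.at q.1).step η
    obtain ⟨q', h4, h5⟩ := RS.of_cd q.2.c q.2.hU b'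
    refine ⟨q', RS.tle_iff.2 (h5.up h1), η', h2, fun ζ k => ?_⟩
    cases k
    rw [h4, h3]
    exact Finset.mem_insert_self _ _

/-- the data of a term -/
def RTm.code (r : RTm a) : LL K × Set (LL K × BR K × BR K) × BR K :=
  (r.c.i, {y | ∃ h : Mem r.c.U y.2.2, r.c.x y.1 y.2.1 ⟨y.2.2, h⟩}, r.b.1)

lemma RTm.code_inj : Function.Injective (RTm.code (a := a)) := by
  rintro ⟨⟨U, i, x, op, sup, lev⟩, b, hU, hp⟩ ⟨⟨U', i', x', op', sup', lev'⟩, b', hU', hp'⟩ h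
  simp only [RTm.code, Prod.mk.injEq] at h hU hU'
  obtain ⟨h1, h2, h3⟩ := h
  subst h1 hU hU'
  have h4 : x = x' := by
    funext k w d
    have h5 := Set.ext_iff.1 h2 (k, w, d.1)
    exact propext ⟨fun j => (h5.1 ⟨d.2, j⟩).2, fun j => (h5.2 ⟨d.2, j⟩).2⟩
  subst h4
  have h6 : b = b' := Subtype.ext h3
  subst h6
  rfl

theorem mk_RTm : #(RTm a) ≤ #(LL K) := by
  rw [← mk_univ]
  refine (mk_le_mk_of_subset (t := ⋃ γ : LL K, RTm.code ⁻¹' (Iio γ ×ˢ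
    (𝒫 (Iio γ ×ˢ {b | Lev γ b} ×ˢ {b | Lev γ b})) ×ˢ {b | Lev γ b})) fun r _ => ?_).trans
    (mk_iUnion_le' (infL K) le_rfl fun γ => (mk_preimage_of_injective _ _ RTm.code_inj).trans
      (mk_sprod_lt' (infL K) (iioL γ) (mk_sprod_lt' (infL K) ?_ (mk_Lev γ))).le)
  · obtain ⟨γ0, h0⟩ := r.c.lev
    obtain ⟨γ, h1, h2, h3⟩ := RS.gt3 γ0 r.c.i r.c.U.β
    exact mem_iUnion.2 ⟨γ, h2, fun y ⟨k, j⟩ => ⟨(r.c.sup _ _ _ j).trans h2,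
      (h0 _ _ _ j).mono h1.le, k.1.mono h3.le⟩, r.b.2.1.mono h3.le⟩
  · rw [mk_powerset]
    exact (inacL K).isStrongLimit.isStrongPrelimit
      (mk_sprod_lt' (infL K) (iioL γ) (mk_sprod_lt' (infL K) (mk_Lev γ) (mk_Lev γ)))

noncomputable instance : Sm K (RTm a) := Sm.ofCard mk_RTm

/-- a condition of the two-step iteration extends a coded condition -/
def Bl (q : (RS a).C) (c : Cd K) (b : BB c.U) : Prop := Le q.2.c (q.2.at q.1) c b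

lemma Bl.mono {q' q : (RS a).C} {c : Cd K} {b : BB c.U} (h : Bl q c b) (k : q' ≤ q) : Bl q' c b :=
  (RS.tle_iff.1 k).trans h

lemma Bl.dense {q : (RS a).C} {c : Cd K} {b : BB c.U} (h : Bl q c b) (D : BB c.U → Prop)
    (hD : hull D b) : ∃ q' ≤ q, ∃ w ≤ b, D w ∧ Bl q' c w := by
  obtain ⟨d, h1, w, h2, h3, h4⟩ := Le.dense h D hD
  obtain ⟨q', -, h5⟩ := RS.of_cd q.2.c q.2.hU d
  exact ⟨q', RS.tle_iff.2 (h5.up h1), w, h2, h3, h5.trans h4⟩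

/-- conditions of the two-step iteration are dense below the links -/
theorem exists_bl {c c0 : Cd K} {b : BB c.U} (h : Le c b c0 ⊤) (h0 : ∀ j, c0.U.le (a.u j)) :
    ∃ q : (RS a).C, Bl q c b := by
  obtain ⟨γ, i0, h1⟩ := absLe h
  obtain ⟨j, j1, j2, -⟩ := RS.gt3 γ i0 i0
  obtain ⟨x, op, sup, lev, d, h2⟩ := h1 (a.u j) (h0 j) (j1.trans (a.lev j)) j j2
  obtain ⟨q, -, h3⟩ := RS.of_cd (a := a) ⟨a.u j, j, x, op, sup, lev⟩ rfl d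
  exact ⟨q, h3.trans h2⟩

end Pool.Agent.Lib.MP_491cc4_lc.Cx
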