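import Pool.Agent.Lib.MP_491cc4_lc.Cx.US
import Pool.Agent.Lib.MP_491cc4_lc.Cx.RS
import Pool.Agent.Lib.MP_491cc4_lc.Cx.Out

set_option autoImplicit false
set_option linter.unusedSectionVars false

namespace Pool.Agent.Lib.MP_491cc4_lc.Cx

open Set Cardinal Filter Pool.Agent.Lib.MP_d4b40b_lc

variable {K : Type} [LinearOrder K] [WellFoundedLT K] [OrderBot K] [Lc K] [It K]

lemma exists_aux (u : UI K) (s0 : u.S) : ∃ a : Aux K, ∀ j, (u.sys s0).le (a.u j) := by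
  obtain ⟨f, h1, h2⟩ := exists_chain (W := LL K) u.le u.trans s0 (fun w f _ h => by
      obtain ⟨s, k, -⟩ := u.lim _ f (iioL w) fun i j => by
        rcases lt_trichotomy i j with l | l | l
        · exact Or.inr (h i j l)
        · exact Or.inl (l ▸ u.refl _)
        · exact Or.inl (h j i l)
      exact ⟨s, k⟩)
    (fun w s => w < (u.sys s).β) fun w s => (u.ext s w fun _ => false).imp fun _ k => ⟨k.1, k.2.1⟩
  refine ⟨⟨fun i => u.sys (f i), fun i j l => ?_, fun i => (h2 i).2⟩, fun j => u.mono _ _ (h2 j).1⟩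
  rcases l.eq_or_lt with l | l
  · exact l ▸ Sys.le_refl _
  · exact u.mono _ _ (h1 i j l)

variable {a : Aux K}

/-- the interpretation given by a link -/
def IL (c : Cd K) (d : TT K) (q : (RS a).C) : Prop := Sp c.U.β d ∧ ∃ b, Bl q c b ∧ b.1.c ≤ d

lemma Bl.cmpt {q : (RS a).C} {c : Cd K} {b1 b2 : BB c.U} (h : Bl q c b1) (k : Bl q c b2) :
    ∃ w, w ≤ b1 ∧ w ≤ b2 := by
  obtain ⟨d1, l1, k1⟩ := h.mem _ le_rfl
  obtain ⟨d2, l2, k2⟩ := k.mem _ l1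
  obtain ⟨-, -, w, -, k3, k4⟩ :=
    h.gen.dir _ _ d2 (l2.trans l1) (Cd.rop _ _ _ _ _ k1 l2) k2
  exact ⟨w, k3, k4⟩

lemma Bl.dir {q : (RS a).C} {c : Cd K} {b1 b2 : BB c.U} (h : Bl q c b1) (k : Bl q c b2) :
    ∃ q' ≤ q, ∃ w, w ≤ b1 ∧ w ≤ b2 ∧ Bl q' c w := by
  obtain ⟨q', l, w, k1, k2, k3⟩ := h.dense (fun w => w ≤ b2 ∨ ng (· ≤ b2) w) fun w _ => dec _ w
  refine ⟨q', l, w, k1, k2.resolve_right fun j => ?_, k3⟩
  obtain ⟨v, k4, k5⟩ := k3.cmpt (k.mono l)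
  exact j v k4 k5

lemma intpL (c : Cd K) : Intp (IL (a := a) c) (fun q => Bl q c ⊤) c.U.β where
  zop _ _ h l := h.mono l
  op _ _ _ h l := ⟨h.1, h.2.imp fun _ k => ⟨k.1.mono l, k.2⟩⟩
  z _ _ h := h.2.elim fun _ k => Le.up k.1 le_top
  sp _ _ h := h.1
  dir c1 c2 q := by
    rintro ⟨-, b1, h1, l1⟩ ⟨-, b2, h2, l2⟩
    obtain ⟨q', l, w, k1, k2, k3⟩ := h1.dir h2
    exact ⟨q', l, w.1.c, ⟨w.2.1.1, w, k3, le_rfl⟩, k1.1.trans l1, k2.1.trans l2⟩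
  gen D hD q h := by
    obtain ⟨q', l, w, -, k2, k3⟩ := h.dense (fun w => D w.1.c) fun w _ => by
      obtain ⟨d, k1, k2, k3⟩ := hD _ w.2.1.1
      exact ⟨w.rc d k1 k2, w.rc_le _ _ _, k3⟩
    exact ⟨q', l, w.1.c, k2, w.2.1.1, w, k3, le_rfl⟩
  pr d q := by
    rintro ⟨-, b, h, l⟩
    exact ⟨q, le_rfl, le_trans (α := PP K) h.p l.1⟩

lemma ee_empty (t : Finset K) : EE t ∅ :=
  ⟨Finset.empty_subset _, fun _ _ _ _ h => absurd h (Finset.notMem_empty _)⟩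

lemma gval_agr {c' c : Cd K} (h : Agr c' ⊤ c) {ξ : LL K} (k : ξ < c.U.β) {η : K} {v : Bool × LL K}
    {q : (RS a).C} (j : gval (IL c') ξ η v q) : gval (IL c) ξ η v q := by
  obtain ⟨d, ⟨-, b, h1, h2⟩, h3⟩ := j
  exact ⟨cutT c.U.β d, ⟨sp_cut _ _, BB.full c.U _ (sp_cut _ d) ∅,
    Le.trans h1 ((h.mono le_top).le (BB.le_full _ (h2.trans (le_cutT _ _)) (ee_empty _))),
    le_rfl⟩, k, h3⟩

lemma Mst.agr {E : Emb (RS a)} {σ : St K} {c' c : Cd K} (h : Agr c' ⊤ c) {ξ : LL K}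
    (k : ξ < c.U.β) (j : Mst E (IL c) σ ξ) : Mst E (IL c') σ ξ :=
  j.congr fun _ _ _ n q' l =>
    ⟨q', le_rfl, gval_agr h k (n.imp fun d o => ⟨(intpL c').op d _ _ o.1 l, o.2⟩)⟩

lemma bl_agr {c' c : Cd K} (h : Agr c' ⊤ c) {q : (RS a).C} (j : Bl q c' ⊤) : Bl q c ⊤ :=
  Le.trans j (h.le (BB.le_full (sp_top _ _) le_top (EE.refl _)))

/-- a ladder point with a false bit -/
lemma false_bit {c : Cd K} {ξ : LL K} (h : ξ < c.U.β) (k : ∀ d, c.U.mem (An ξ false) d)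
    {q : (RS a).C} (j : Bl q c ⊤) :
    ∃ q' ≤ q, ∃ η v, (RS a).lad q'.1 q'.2 (some η) ∧ gval (IL c) ξ η (false, v) q' := by
  obtain ⟨q', l, w, -, ⟨η, k1, v, k2⟩, k3⟩ := j.dense
    (fun w => ∃ η ∈ w.1.t, ∃ v, w.1.c.2.1.val ξ η (false, v) w.1.c.1) fun w _ => by
      obtain ⟨w1, l1, -, -, k1⟩ := w.shrink (nr_An h false) (k _)
      obtain ⟨w2, l2, η, -, k2, k3, -⟩ := w1.step ⊥
      have k4 : η ∈ w2.1.t := k3 ▸ Finset.mem_insert_self _ _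
      obtain ⟨d, l3, v, k5⟩ :=
        k1 η _ (l2.2.2.1 η k4 fun n => lt_irrefl _ (k2 η n)) _ le_rfl
      exact ⟨w2.rc (cutT c.U.β d) (cutT_le l3 w2.2.1.1) (sp_cut _ _),
        (w2.rc_le _ _ _).trans (l2.trans l1), η, k4, v, h, k5⟩
  refine ⟨q', l, η, v, fun ζ n => ?_, w.1.c, ⟨w.2.1.1, w, k3, le_rfl⟩, k2⟩
  cases n
  exact k3.t.1 k1

variable (u : UI K) (E : Emb (RS a)) (c0 : Cd K)

/-- global states -/
structure GS where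
  s : u.S
  c : Cd K
  w : St K
  hU : c.U = u.sys s
  hβ : w.β = c.U.β
  ms : ∀ ξ < c.U.β, Mst E (IL c) w ξ
  agr : Agr c ⊤ c0

variable {u E c0}

def GS.le (g' g : GS u E c0) : Prop := u.le g'.s g.s ∧ g'.w.le g.w ∧ Agr g'.c ⊤ g.c

lemma GS.le.trans {g'' g' g : GS u E c0} (h : g''.le g') (k : g'.le g) : g''.le g :=
  ⟨u.trans _ _ _ h.1 k.1, h.2.1.trans k.2.1,
    h.2.2.trans (BB.le_full (sp_top _ _) le_top (EE.refl _)) k.2.2⟩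

/-- moving to a new link -/
lemma GS.move (g : GS u E c0) {s : u.S} (h1 : u.le s g.s) {c : Cd K} (h2 : c.U = u.sys s)
    (h3 : Agr c ⊤ g.c) (h4 : ∀ ξ, g.c.U.β ≤ ξ → ξ < c.U.β → (∀ d, c.U.mem (An ξ false) d) ∨
      ∃ B, Is ξ B ∧ ∀ q, Bl q c ⊤ → pos E g.w B q) :
    ∃ g' : GS u E c0, g'.le g ∧ g'.c = c := by
  obtain ⟨σ, k1, k2, k3, -⟩ := add (E := E) (intpL c) g.w (g.hβ ▸ h3.U.1)
    (fun ξ l => Mst.agr h3 (g.hβ ▸ l) (g.ms ξ (g.hβ ▸ l))) (fun _ => false) fun ξ l n q j => by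
      rcases h4 ξ (g.hβ ▸ l) n with o | ⟨B, o1, o2⟩
      · exact (false_bit n o j).imp fun _ t => ⟨t.1, Or.inr (Or.inl t.2)⟩
      · exact ⟨q, le_rfl, Or.inr (Or.inr ⟨B, o1, o2 q j⟩)⟩
  exact ⟨⟨s, c, σ, h2, k2, k3, h3.trans (BB.le_full (sp_top _ _) le_top (EE.refl _)) g.agr⟩,
    ⟨h1, k1, h3⟩, rfl⟩

lemma GS.dec (g : GS u E c0) {A : Nm K} (h : NR g.c.U.β A) : ∃ g' : GS u E c0, g'.le g ∧
    g'.c = g.c ∧ ∀ q, ∃ q' ≤ q, pos E g'.w A q' ∨ pos E g'.w (cm A) q' := by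
  obtain ⟨σ, k1, k2, k3⟩ := decide E g.w (A := A) (g.hβ ▸ h)
  exact ⟨⟨g.s, g.c, σ, g.hU, k2.trans g.hβ, fun ξ l => (g.ms ξ l).mono k1, g.agr⟩,
    ⟨u.refl _, k1, Agr.refl _ _⟩, rfl, k3⟩

lemma GS.ext (g : GS u E c0) (γ : LL K) : ∃ g' : GS u E c0, g'.le g ∧ γ < g'.c.U.β := by
  obtain ⟨s, k1, k2, k3⟩ := u.ext g.s γ fun _ => false
  obtain ⟨i, hi⟩ := gtL g.c.i
  obtain ⟨x, op, sup, lev, k4⟩ := agr_lim (J := Unit)
    (by simpa using one_lt_aleph0.trans_le (infL K)) (fun _ => g.c) (u.sys s)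
    (fun _ => g.hU ▸ u.mono _ _ k1) i (fun _ => hi) fun _ _ => Or.inl (Agr.refl _ _)
  obtain ⟨g', k5, k6⟩ := g.move k1 (c := ⟨u.sys s, i, x, op, sup, lev⟩) rfl (k4 ())
    fun ξ l n => Or.inl (k3 ξ (g.hU ▸ l) n)
  exact ⟨g', k5, k6 ▸ k2⟩

lemma GS.lim {J : Type} [Nonempty J] (hJ : #J < #(LL K)) (g : J → GS u E c0)
    (h : ∀ i j, (g i).le (g j) ∨ (g j).le (g i)) : ∃ g' : GS u E c0, ∀ i, g'.le (g i) := by
  obtain ⟨s, k1, k2⟩ := u.lim J (fun j => (g j).s) hJ fun i j => (h i j).imp And.left And.left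
  obtain ⟨i, hi⟩ := boundL (s := (univ : Set J)) (by rwa [mk_univ]) fun j => (g j).c.i
  have hU : ∀ j, (g j).c.U.le (u.sys s) := fun j => (g j).hU ▸ u.mono _ _ (k1 j)
  obtain ⟨x, op, sup, lev, k4⟩ := agr_lim hJ (fun j => (g j).c) (u.sys s) hU i
    (fun j => hi j trivial) fun i j => (h i j).imp (·.2.2) (·.2.2)
  obtain ⟨β, b1, b2, b3⟩ := exists_lub (fun j => (g j).c.U.β) fun j => (hU j).1
  obtain ⟨σ, k5, k6⟩ := St.lim hJ (fun j => (g j).w) (fun i j => (h i j).imp (·.2.1) (·.2.1)) β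
    fun j => (g j).hβ ▸ b2 j
  obtain ⟨σ', l1, l2, l3, -⟩ := add (E := E) (intpL ⟨u.sys s, i, x, op, sup, lev⟩) σ (k5 ▸ b1)
    (fun ξ l => by
      obtain ⟨j, n⟩ := b3 ξ (k5 ▸ l)
      exact Mst.agr (k4 j) n (((g j).ms ξ n).mono (k6 j))) (fun _ => false) fun ξ l n q j => by
      rcases k2 ξ n with ⟨j', o⟩ | o
      · exact absurd ((b2 j').trans (k5 ▸ l)) (not_le.2 ((g j').hU ▸ o))
      · exact (false_bit n o j).imp fun _ t => ⟨t.1, Or.inr (Or.inl t.2)⟩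
  obtain ⟨j0⟩ : Nonempty J := inferInstance
  exact ⟨⟨s, _, σ', rfl, l2, l3,
    (k4 j0).trans (BB.le_full (sp_top _ _) le_top (EE.refl _)) (g j0).agr⟩,
    fun j => ⟨k1 j, l1.trans (k6 j), k4 j⟩⟩

theorem GS.unav (h0 : ∀ j, c0.U.le (a.u j)) (g : GS u E c0) {A : Nm K} {d : TT K}
    (h1 : NR g.c.U.β A) (h2 : Sp g.c.U.β d) (h3 : g.c.U.mem A d) :
    ∃ d' ≤ d, ∃ δ, stem δ none d'.1 ∧ Sb A δ d' := by
  obtain ⟨q, hq⟩ := exists_bl (a := a) (b := BB.mk' d ∅ A h2 h1 h3)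
    ((g.agr.mono le_top).le (BB.le_full (sp_top _ _) le_top (EE.refl _))) h0
  have k1 : pos E g.w (Sb A) q := lad_sub (intpL g.c) g.ms h1.rn fun q' l η j => by
    obtain ⟨q'', l1, w, l2, k2, k3⟩ := (hq.mono l).dense
      (fun w => q'.2.b.1.t.card ≤ w.1.t.card) fun w _ => w.long _
    have k4 : EE w.1.t q'.2.b.1.t := EE.total (RS.tle_iff.1 l1).t k3.t k2
    exact ⟨q'', l1, w.1.c, ⟨w.2.1.1, w, k3, le_rfl⟩,
      l2.2.2.1 η (k4.1 (j η rfl)) (Finset.notMem_empty _)⟩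
  obtain ⟨q', l, k2⟩ := lift_le (intpL g.c) g.ms (c := d) (q := q) ⟨h2, _, hq, le_rfl⟩
  have k3 : pos E g.w (Sb A) q' := (reg_pos h1.sb.rn).1 _ _ k1 l
  have k4 := lad_pos (E := E) (r := g.w.r) (q := q') (o := none) fun _ n => by cases n
  obtain ⟨x, n1, n2, n3⟩ := (k2.and (k4.and k3)).exists
  exact ⟨_, n1, nu x, n2, n3⟩

end Pool.Agent.Lib.MP_491cc4_lc.Cx
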