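import Pool.Agent.Lib.MP_491cc4_lc.Cx.Stmt
import Pool.Agent.Lib.MP_d4b40b_lc.Inner

set_option autoImplicit false

namespace Pool.Agent.Lib.MP_491cc4_lc.Cx

open Pool.Agent.Lib.helper81 Pool.Agent.Lib.MP_fcebdf_lc Pool.Agent.Lib.MP_d4b40b_lc

/-- the ladder picture inside a model -/
structure Lad {M : Type} (E : M → M → Prop) (U k D S : M) : Prop where
  ord : IsOrd E k
  cmp : ∀ F, Le E k F ∨ ∃ x, E x k ∧ Le E F x
  ult : Ult E U k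
  tail : ∀ A z, E A U → E z k → ∃ y, E y A ∧ E z y
  diag : ∀ F C, (∀ i A, E i k → Rel E F i A → E A U) →
    (∀ i A A', E i k → Rel E F i A → Rel E F i A' → A = A') →
    (∀ x, E x C ↔ E x k ∧ ∀ i A, E i x → Rel E F i A → E x A) → E C U
  sub : Sub E D k
  lt : ∀ d y, Rel E S d y → E y k
  ne : ∀ d, E d D → ∃ y, Rel E S d y
  unb : ∀ d y, E d D → Rel E S d y → ∃ y', E y y' ∧ Rel E S d y'
  ram : ∀ X, Sub E X k → ∃ A, E A U ∧ ((∀ d, E d D → (∀ y, Rel E S d y → E y A) → E d X) ∨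
    ∀ d, E d D → (∀ y, Rel E S d y → E y A) → ¬ E d X)
  unav : ∀ A, E A U → ∃ d, E d D ∧ ∀ y, Rel E S d y → E y A

variable {M : Type} {E : M → M → Prop} {U k D S : M}

lemma inn_fn (h : IsZF E) {Φ : Pred} (hΦ : Def Φ) (v : ℕ → M) {X : M}
    (h1 : ∀ x, E x X → ∃! y, Φ M E (cons x (cons y v))) :
    ∃ f, ∀ x y, Rel E f x y ↔ E x X ∧ Φ M E (cons x (cons y v)) := by
  obtain ⟨φ, hφ⟩ : Def (fun M E v => ∃ y, Φ M E (cons (v 1) (cons y fun j => v (j + 2))) ∧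
      OP E (v 0) (v 1) y) :=
    Def.ex ((hΦ.cons2 2 0 fun j => j + 2 + 1).and (Def.op _ _ _))
  obtain ⟨f, hf⟩ := h.repl φ v X fun x hx => by
    obtain ⟨y, k1, k2⟩ := h1 x hx
    obtain ⟨p, hp⟩ := exists_op h x y
    refine ⟨p, (hφ _ _ _).1 ⟨y, k1, hp⟩, fun q hq => ?_⟩
    obtain ⟨y', k3, k4⟩ := (hφ _ _ _).2 hq
    exact OP.unique h.ext (k2 y' k3 ▸ k4) hp
  simp only [← hφ] at hf
  refine ⟨f, fun x y => ⟨?_, ?_⟩⟩
  · rintro ⟨p, k1, k2⟩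
    obtain ⟨x', k3, y', k4, k5⟩ := (hf p).1 k1
    obtain ⟨rfl, rfl⟩ := k2.inj h.pair k5
    exact ⟨k3, k4⟩
  · rintro ⟨k1, k2⟩
    obtain ⟨p, hp⟩ := exists_op h x y
    exact ⟨p, (hf p).2 ⟨x, k1, y, k2, hp⟩, hp⟩

/-- a function whose values are definable subsets of `Y` -/
lemma inn_fam (h : IsZF E) {Φ : Pred} (hΦ : Def Φ) (v : ℕ → M) (X Y : M) :
    ∃ f, (∀ x, E x X → ∃! A, Rel E f x A) ∧
      ∀ x A, Rel E f x A ↔ E x X ∧ ∀ y, E y A ↔ E y Y ∧ Φ M E (cons x (cons y v)) := by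
  have hd : Def (fun M E w => ∀ y, E y (w 1) ↔ E y (w 2) ∧
      Φ M E (cons (w 0) (cons y fun j => w (j + 3)))) :=
    Def.all ((Def.mem _ _).iff ((Def.mem _ _).and (hΦ.cons2 1 0 fun j => j + 3 + 1)))
  have key : ∀ x, ∃! A, ∀ y, E y A ↔ E y Y ∧ Φ M E (cons x (cons y v)) := fun x => by
    obtain ⟨A, hA⟩ := h.sepDef (Φ := fun M E w => Φ M E (cons (w 1) (cons (w 0) fun j => w (j + 2))))
      (hΦ.cons2 1 0 fun j => j + 2) (cons x v) Y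
    exact ⟨A, hA, fun B hB => h.ext _ _ fun y => (hB y).trans (hA y).symm⟩
  obtain ⟨f, hf⟩ := inn_fn h hd (cons Y v) (X := X) fun x _ => key x
  refine ⟨f, fun x hx => ?_, hf⟩
  obtain ⟨A, k1, k2⟩ := key x
  exact ⟨A, (hf x A).2 ⟨hx, k1⟩, fun B hB => k2 B ((hf x B).1 hB).2⟩

/-- almost all points have the property -/
def InnBig (E : M → M → Prop) (U : M) (Q : M → Prop) : Prop := ∃ A, E A U ∧ ∀ x, E x A → Q x

lemma InnBig.mono {Q Q' : M → Prop} (h : InnBig E U Q) (e : ∀ x, Q x → Q' x) : InnBig E U Q' :=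
  h.imp fun _ l => ⟨l.1, fun x hx => e x (l.2 x hx)⟩

lemma inn_inter (hZ : IsZF E) (A B : M) : ∃ C, ∀ x, E x C ↔ E x A ∧ E x B :=
  hZ.sepDef (Def.mem 0 1) (fun _ => B) A

lemma inn_compl (hZ : IsZF E) (A B : M) : ∃ C, ∀ x, E x C ↔ E x A ∧ ¬ E x B :=
  hZ.sepDef (Def.mem 0 1).not (fun _ => B) A

lemma InnBig.and (hZ : IsZF E) (hU : Ult E U k) {Q Q' : M → Prop} (h : InnBig E U Q)
    (h' : InnBig E U Q') : InnBig E U fun x => Q x ∧ Q' x := by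
  obtain ⟨A, k1, k2⟩ := h
  obtain ⟨B, k3, k4⟩ := h'
  obtain ⟨C, hC⟩ := inn_inter hZ A B
  exact ⟨C, hU.2.2.2.1 A B C k1 k3 hC, fun x hx => ⟨k2 x ((hC x).1 hx).1, k4 x ((hC x).1 hx).2⟩⟩

lemma InnBig.mem (hU : Ult E U k) {Q : M → Prop} (h : InnBig E U Q) {C : M} (h1 : Sub E C k)
    (h2 : ∀ x, E x k → Q x → E x C) : E C U := by
  obtain ⟨A, k1, k2⟩ := h
  exact hU.2.2.1 A C k1 (fun x hx => h2 x ((hU.1 A k1).1 x hx) (k2 x hx)) h1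

lemma InnBig.ex (hU : Ult E U k) {Q : M → Prop} (h : InnBig E U Q) : ∃ x, E x k ∧ Q x := by
  obtain ⟨A, k1, k2⟩ := h
  obtain ⟨k3, x, k4⟩ := hU.1 A k1
  exact ⟨x, k3 x k4, k2 x k4⟩

lemma Lad.big_tail (h : Lad E U k D S) (hZ : IsZF E) {z : M} (hz : E z k) :
    InnBig E U fun y => E z y := by
  obtain ⟨A, hA⟩ := hZ.sepDef (Def.mem 1 0) (fun _ => z) k
  obtain ⟨B, hB⟩ := inn_compl hZ k A
  rcases h.ult.2.2.2.2 A B (fun x hx => ((hA x).1 hx).1) hB with l | l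
  · exact ⟨A, l, fun x hx => ((hA x).1 hx).2⟩
  · obtain ⟨y, k1, k2⟩ := h.tail B z l hz
    exact absurd ((hA y).2 ⟨((hB y).1 k1).1, k2⟩) ((hB y).1 k1).2

lemma Lad.big_diag (h : Lad E U k D S) (hZ : IsZF E) {Φ : Pred} (hΦ : Def Φ) (v : ℕ → M)
    (h1 : ∀ i, E i k → InnBig E U fun y => Φ M E (cons i (cons y v))) :
    InnBig E U fun y => ∀ i, E i y → Φ M E (cons i (cons y v)) := by
  obtain ⟨F, f1, f2⟩ := inn_fam hZ hΦ v k k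
  obtain ⟨C, hC⟩ := hZ.sepDef
    (Φ := fun _ E w => ∀ i A, E i (w 0) → Rel E (w 1) i A → E (w 0) A)
    (Def.all (Def.all ((Def.mem _ _).imp ((Def.rel _ _ _).imp (Def.mem _ _))))) (fun _ => F) k
  refine ⟨C, h.diag F C (fun i A hi hA => ?_) (fun i A A' hi hA hA' => (f1 i hi).unique hA hA') hC,
    fun y hy i hi => ?_⟩
  · have k1 := ((f2 i A).1 hA).2
    exact (h1 i hi).mem h.ult (fun x hx => ((k1 x).1 hx).1) fun x k2 k3 => (k1 x).2 ⟨k2, k3⟩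
  · obtain ⟨k1, k2⟩ := (hC y).1 hy
    obtain ⟨A, k3, -⟩ := f1 i (h.ord.1 y k1 i hi)
    exact ((((f2 i A).1 k3).2 y).1 (k2 i A hi k3)).2

lemma Lad.big_small (h : Lad E U k D S) (hZ : IsZF E) (hw : WellFounded E) {Φ : Pred}
    (hΦ : Def Φ) (v : ℕ → M) {x : M} (hx : E x k)
    (h1 : ∀ i, E i k → InnBig E U fun y => Φ M E (cons i (cons y v))) :
    InnBig E U fun y => ∀ i, E i x → Φ M E (cons i (cons y v)) := by
  obtain ⟨A, k1, k2⟩ := (h.big_diag hZ hΦ v h1).and hZ h.ult (h.big_tail hZ hx)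
  exact ⟨A, k1, fun y hy i hi => (k2 y hy).1 i
    ((isOrd_mem hw h.ord ((h.ult.1 A k1).1 y hy)).1 x (k2 y hy).2 i hi)⟩

lemma Lad.big_ne (h : Lad E U k D S) (hZ : IsZF E) (hw : WellFounded E) (z : M) :
    InnBig E U fun y => y ≠ z := by
  by_cases hz : E z k
  · exact (h.big_tail hZ hz).mono fun y hy e => hw.irrefl.irrefl z (e ▸ hy)
  · exact ⟨k, h.ult.2.1, fun y hy e => hz (e ▸ hy)⟩

lemma Lad.card (h : Lad E U k D S) (hZ : IsZF E) (hw : WellFounded E) {x : M} (hx : E x k) :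
    ¬ Le E k x := by
  rintro ⟨f, hf⟩
  obtain ⟨y, k1, k2⟩ := (h.big_small hZ hw (Φ := fun _ E w => ¬ Rel E (w 2) (w 1) (w 0))
    (Def.rel _ _ _).not (fun _ => f) hx fun i _ => by
      by_cases l : ∃ z, Rel E f z i
      · obtain ⟨z, l⟩ := l
        exact (h.big_ne hZ hw z).mono fun y hy l' => hy (hf.2.2 y z i l' l)
      · exact ⟨k, h.ult.2.1, fun y _ l' => l ⟨y, l'⟩⟩).ex h.ult
  obtain ⟨i, k3, -⟩ := hf.2.1 y k1
  exact k2 i (Inj.rel_mem hZ hf k3).2 k3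

lemma Lad.big_lim (h : Lad E U k D S) (hZ : IsZF E) :
    InnBig E U fun y => ∀ i, E i y → ∃ z, E z y ∧ E i z :=
  h.big_diag hZ (Φ := fun _ E w => ∃ z, E z (w 1) ∧ E (w 0) z)
    (Def.ex ((Def.mem _ _).and (Def.mem _ _))) (fun _ => k) fun i hi => by
      obtain ⟨z, k1, k2⟩ := h.tail k i h.ult.2.1 hi
      exact (h.big_tail hZ k1).mono fun y hy => ⟨z, hy, k2⟩

lemma inn_ind (hw : WellFounded E) {y : M} (h0 : IsOrd E y) (h1 : ∃ z, E z y)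
    (h2 : ∀ i, E i y → ∃ z, E z y ∧ E i z) : Ind E y := by
  constructor
  · obtain ⟨e, k1, k2⟩ := hw.has_min {z | E z y} h1
    exact ⟨e, k1, fun z hz => k2 z (h0.1 e k1 z hz) hz⟩
  · intro x hx
    obtain ⟨s, ⟨k1, k2⟩, k3⟩ := hw.has_min {z | E z y ∧ E x z} (h2 x hx)
    refine ⟨s, k1, fun z => ⟨fun hz => ?_, ?_⟩⟩
    · rcases h0.2 z x (h0.1 s k1 z hz) hx with l | l | l
      · exact Or.inl l
      · exact Or.inr l
      · exact absurd hz (k3 z ⟨h0.1 s k1 z hz, l⟩)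
    · rintro (l | rfl)
      · exact (isOrd_mem hw h0 k1).1 x k2 z l
      · exact k2

lemma Lad.cpl (h : Lad E U k D S) (hZ : IsZF E) (hw : WellFounded E) : Cpl E U k k := by
  intro F C h1 h2 h3
  obtain ⟨x, hx, g, hg⟩ := (h.cmp F).resolve_left h2
  refine (h.big_small hZ hw (Φ := fun _ E w => ∀ A, Rel E (w 2) A (w 0) → E (w 1) A)
    (Def.all ((Def.rel _ _ _).imp (Def.mem _ _))) (fun _ => g) hx fun i _ => ?_).mem h.ult
    (fun y hy => ((h3 y).1 hy).1) fun y k1 k2 => (h3 y).2 ⟨k1, fun A hA => ?_⟩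
  · by_cases l : ∃ A, Rel E g A i
    · obtain ⟨A, l⟩ := l
      exact ⟨A, h1 A (Inj.rel_mem hZ hg l).1, fun y hy B l' => hg.2.2 A B i l l' ▸ hy⟩
    · exact ⟨k, h.ult.2.1, fun y _ B l' => absurd ⟨B, l'⟩ l⟩
  · obtain ⟨i, k3, -⟩ := hg.2.1 A hA
    exact k2 i (Inj.rel_mem hZ hg k3).2 A k3

theorem Lad.normal (h : Lad E U k D S) (hZ : IsZF E) (hC : Choice E) (hw : WellFounded E) :
    Normal E U k := by
  have _ := hC
  refine ⟨h.ord, fun x hx => h.card hZ hw hx, ?_, h.ult, h.cpl hZ hw, fun A x hA => ?_,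
    fun F C h1 h2 h3 => h.diag F C h1 (fun i A A' hi hA hA' => (h2 i hi).unique hA hA') h3⟩
  · rintro ⟨w, f, k1, k2⟩
    obtain ⟨z, hz⟩ := (h.ult.1 k h.ult.2.1).2
    obtain ⟨y, k3, k4, k5⟩ := ((h.big_lim hZ).and hZ h.ult (h.big_tail hZ hz)).ex h.ult
    exact h.card hZ hw k3 (Le.mono ⟨f, k2⟩
      (k1.2 y (inn_ind hw (isOrd_mem hw h.ord k3) ⟨z, k5⟩ k4)))
  · obtain ⟨y, -, k1, k2⟩ := (InnBig.and hZ h.ult ⟨A, hA, fun _ l => l⟩ (h.big_ne hZ hw x)).ex h.ult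
    exact ⟨y, k1, k2⟩

/-- a choice function for the nonempty subsets of `Y` -/
lemma inn_choice (hZ : IsZF E) (hC : Choice E) (Y : M) :
    ∃ f, ∀ T, Sub E T Y → (∃ y, E y T) → ∃ y, E y T ∧ ∀ z, Rel E f T z ↔ z = y := by
  obtain ⟨P, hP⟩ := hZ.pow Y
  obtain ⟨a, ha⟩ := hZ.sepDef (Φ := fun _ E w => ∃ y, E y (w 0)) (Def.ex (Def.mem _ _))
    (fun _ => Y) P
  obtain ⟨f, hf⟩ := hC a fun T hT => ((ha T).1 hT).2
  exact ⟨f, fun T h1 h2 => hf T ((ha T).2 ⟨(hP T).2 h1, h2⟩)⟩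

theorem Lad.tukey (h : Lad E U k D S) (hZ : IsZF E) (hC : Choice E) (hw : WellFounded E) :
    ∃ V, Ult E V k ∧ Cpl E V k k ∧ TukeyLE E V U ∧
      ∀ A B, E A U → (∀ d, E d B ↔ E d D ∧ ∀ y, Rel E S d y → E y A) → E B V := by
  obtain ⟨P, hP⟩ := hZ.pow k
  have hd : ∀ a b c d : ℕ, Def (fun _ E w => ∀ x, E x (w a) → (∀ y, Rel E (w b) x y → E y (w c)) →
      E x (w d)) := fun a b c d =>
    Def.all ((Def.mem _ _).imp ((Def.all ((Def.rel _ _ _).imp (Def.mem _ _))).imp (Def.mem _ _)))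
  obtain ⟨V, hV⟩ := hZ.sepDef (Φ := fun _ E w => ∃ A, E A (w 1) ∧ ∀ x, E x (w 2) →
      (∀ y, Rel E (w 3) x y → E y A) → E x (w 0))
    (Def.ex ((Def.mem _ _).and (hd 3 4 0 1))) (w3 U D S) P
  replace hV : ∀ B, E B V ↔ Sub E B k ∧ ∃ A, E A U ∧ ∀ x, E x D →
      (∀ y, Rel E S x y → E y A) → E x B := fun B => by
    rw [hV, hP]; rfl
  have last : ∀ A B, E A U → (∀ d, E d B ↔ E d D ∧ ∀ y, Rel E S d y → E y A) → E B V :=
    fun A B hA hB => (hV B).2 ⟨fun x hx => h.sub x ((hB x).1 hx).1, A, hA,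
      fun x k1 k2 => (hB x).2 ⟨k1, k2⟩⟩
  refine ⟨V, ⟨fun B hB => ?_, ?_, fun B B' hB k1 k2 => ?_, fun B B' C hB hB' e => ?_,
    fun X B hX e => ?_⟩, fun F C h1 h2 h3 => ?_, ?_, last⟩
  · obtain ⟨k1, A, k2, k3⟩ := (hV B).1 hB
    obtain ⟨d, k4, k5⟩ := h.unav A k2
    exact ⟨k1, d, k3 d k4 k5⟩
  · exact (hV k).2 ⟨fun _ l => l, k, h.ult.2.1, fun x hx _ => h.sub x hx⟩
  · obtain ⟨-, A, k3, k4⟩ := (hV B).1 hB
    exact (hV B').2 ⟨k2, A, k3, fun x l l' => k1 x (k4 x l l')⟩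
  · obtain ⟨k1, A, k2, k3⟩ := (hV B).1 hB
    obtain ⟨-, A', k4, k5⟩ := (hV B').1 hB'
    obtain ⟨A'', k6⟩ := inn_inter hZ A A'
    exact (hV C).2 ⟨fun x hx => k1 x ((e x).1 hx).1, A'', h.ult.2.2.2.1 A A' A'' k2 k4 k6,
      fun x l l' => (e x).2 ⟨k3 x l fun y hy => ((k6 y).1 (l' y hy)).1,
        k5 x l fun y hy => ((k6 y).1 (l' y hy)).2⟩⟩
  · obtain ⟨A, k1, k2 | k2⟩ := h.ram X hX
    · exact Or.inl ((hV X).2 ⟨hX, A, k1, k2⟩)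
    · exact Or.inr ((hV B).2 ⟨fun x hx => ((e x).1 hx).1, A, k1,
        fun x l l' => (e x).2 ⟨h.sub x l, k2 x l l'⟩⟩)
  · obtain ⟨x, hx, g, hg⟩ := (h.cmp F).resolve_left h2
    obtain ⟨c, hc⟩ := inn_choice hZ hC U
    obtain ⟨t, t1, t2⟩ := inn_fam hZ (Φ := fun _ E w => ∀ x, E x (w 2) →
      (∀ y, Rel E (w 3) x y → E y (w 1)) → E x (w 0)) (hd 2 3 1 0) (w2 D S) F U
    have key : ∀ B, E B F → ∃ T A, Rel E t B T ∧ E A T ∧ E A U ∧ (∀ z, Rel E c T z ↔ z = A) ∧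
        ∀ x, E x D → (∀ y, Rel E S x y → E y A) → E x B := fun B hB => by
      obtain ⟨T, k1, -⟩ := t1 B hB
      have k2 := ((t2 B T).1 k1).2
      obtain ⟨-, A, k3, k4⟩ := (hV B).1 (h1 B hB)
      obtain ⟨A', k5, k6⟩ := hc T (fun y hy => ((k2 y).1 hy).1) ⟨A, (k2 A).2 ⟨k3, k4⟩⟩
      exact ⟨T, A', k1, k5, ((k2 A').1 k5).1, k6, ((k2 A').1 k5).2⟩
    obtain ⟨A, k1, k2⟩ := h.big_small hZ hw (Φ := fun _ E w => ∀ B T A, Rel E (w 2) B (w 0) →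
        Rel E (w 3) B T → Rel E (w 4) T A → E (w 1) A)
      (Def.all (Def.all (Def.all ((Def.rel _ _ _).imp ((Def.rel _ _ _).imp
        ((Def.rel _ _ _).imp (Def.mem _ _))))))) (w3 g t c) hx fun i _ => by
      by_cases l : ∃ B, Rel E g B i
      · obtain ⟨B, l⟩ := l
        have hB := (Inj.rel_mem hZ hg l).1
        obtain ⟨T, A, m1, -, m3, m4, -⟩ := key B hB
        refine ⟨A, m3, fun y hy B' T' A' n1 n2 n3 => ?_⟩
        obtain rfl : B = B' := hg.2.2 B B' i l n1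
        obtain rfl : T = T' := (t1 B hB).unique m1 n2
        obtain rfl : A' = A := (m4 A').1 n3
        exact hy
      · exact ⟨k, h.ult.2.1, fun y _ B _ _ l' => absurd ⟨B, l'⟩ l⟩
    refine (hV C).2 ⟨fun y hy => ((h3 y).1 hy).1, A, k1, fun d l l' =>
      (h3 d).2 ⟨h.sub d l, fun B hB => ?_⟩⟩
    obtain ⟨T, A', m1, -, -, m4, m5⟩ := key B hB
    obtain ⟨i, k3, -⟩ := hg.2.1 B hB
    exact m5 d l fun y hy => k2 y (l' y hy) i (Inj.rel_mem hZ hg k3).2 B T A' k3 m1 ((m4 A').2 rfl)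
  · obtain ⟨f, f1, f2⟩ := inn_fam hZ (Φ := fun _ E w => ∀ y, Rel E (w 2) (w 1) y → E y (w 0))
      (Def.all ((Def.rel _ _ _).imp (Def.mem _ _))) (fun _ => S) U D
    refine ⟨f, f1, fun A B hA k1 => last A B hA ((f2 A B).1 k1).2,
      fun A A' B B' _ _ k1 k2 k3 d hd' => ?_, fun C hC' => ?_⟩
    · obtain ⟨l1, l2⟩ := (((f2 A' B').1 k2).2 d).1 hd'
      exact (((f2 A B).1 k1).2 d).2 ⟨l1, fun y hy => k3 y (l2 y hy)⟩
    · obtain ⟨-, A, k1, k2⟩ := (hV C).1 hC'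
      obtain ⟨B, k3, -⟩ := f1 A k1
      refine ⟨A, B, k1, k3, fun d hd' => ?_⟩
      obtain ⟨l1, l2⟩ := (((f2 A B).1 k3).2 d).1 hd'
      exact k2 d l1 l2

end Pool.Agent.Lib.MP_491cc4_lc.Cx
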