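import Pool.Agent.Lib.MP_491cc4_lc.Cx.Inn

set_option autoImplicit false

namespace Pool.Agent.Lib.MP_491cc4_lc.Cx

open Pool.Agent.Lib.helper81 Pool.Agent.Lib.MP_fcebdf_lc Pool.Agent.Lib.MP_d4b40b_lc

variable {M : Type} {E : M → M → Prop} {U k D S : M}

lemma innb_set (h : IsZF E) {Φ : Pred} (hΦ : Def Φ) (v : ℕ → M) (X Y : M) :
    ∃ R, ∀ p, E p R ↔ ∃ x y, E x X ∧ E y Y ∧ OP E p x y ∧ Φ M E (cons x (cons y v)) := by
  obtain ⟨c, hc⟩ := h.pair X Y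
  obtain ⟨Z, hZ⟩ := h.union c
  obtain ⟨P, hP⟩ := h.pow Z
  obtain ⟨Q, hQ⟩ := h.pow P
  obtain ⟨R, hR⟩ := h.sepDef (Φ := fun M E w => ∃ x y, E x (w 1) ∧ E y (w 2) ∧ OP E (w 0) x y ∧
      Φ M E (cons x (cons y fun j => w (j + 3))))
    (Def.ex (Def.ex ((Def.mem _ _).and ((Def.mem _ _).and ((Def.op _ _ _).and
      (hΦ.cons2 1 0 fun j => j + 3 + 1 + 1)))))) (cons X (cons Y v)) Q
  refine ⟨R, fun p => (hR p).trans ⟨fun l => l.2, fun l => ⟨?_, l⟩⟩⟩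
  obtain ⟨x, y, k1, k2, k3, -⟩ := l
  have kx : E x Z := (hZ x).2 ⟨X, (hc X).2 (Or.inl rfl), k1⟩
  have ky : E y Z := (hZ y).2 ⟨Y, (hc Y).2 (Or.inr rfl), k2⟩
  refine (hQ p).2 fun z hz => (hP z).2 fun w hw => ?_
  rcases (k3 z).1 hz with l | l
  · exact (l w).1 hw ▸ kx
  · rcases (l w).1 hw with rfl | rfl
    · exact kx
    · exact ky

lemma innb_rel (h : IsZF E) {Φ : Pred} (hΦ : Def Φ) (v : ℕ → M) (X Y : M) :
    ∃ R, ∀ x y, Rel E R x y ↔ E x X ∧ E y Y ∧ Φ M E (cons x (cons y v)) := by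
  obtain ⟨R, hR⟩ := innb_set h hΦ v X Y
  refine ⟨R, fun x y => ⟨?_, ?_⟩⟩
  · rintro ⟨p, k1, k2⟩
    obtain ⟨x', y', k3, k4, k5, k6⟩ := (hR p).1 k1
    obtain ⟨rfl, rfl⟩ := k2.inj h.pair k5
    exact ⟨k3, k4, k6⟩
  · rintro ⟨k1, k2, k3⟩
    obtain ⟨p, hp⟩ := exists_op h x y
    exact ⟨p, (hR p).2 ⟨x, y, k1, k2, hp, k3⟩, hp⟩

theorem fpow_ex (hZ : IsZF E) (U k : M) (n : ℕ) : ∃ W Y, FPow E U k n W Y := by
  induction n with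
  | zero =>
    obtain ⟨Y, hY⟩ := hZ.pair U U
    obtain ⟨W, hW⟩ := hZ.pair Y Y
    exact ⟨W, Y, ⟨U, fun x => (hY x).trans or_self_iff⟩, fun A => (hW A).trans or_self_iff⟩
  | succ n ih =>
    obtain ⟨W', Y', h'⟩ := ih
    obtain ⟨Y, hY⟩ := innb_set hZ (Def.const True) (fun _ => U) k Y'
    obtain ⟨P, hP⟩ := hZ.pow Y
    obtain ⟨W, hW⟩ := hZ.sepDef (Φ := fun _ E w => ∃ B, E B (w 1) ∧ ∀ x, E x B ↔ E x (w 2) ∧
        ∃ C, E C (w 3) ∧ ∀ y, E y C ↔ E y (w 4) ∧ Rel E (w 0) x y)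
      (Def.ex ((Def.mem _ _).and (Def.all ((Def.mem _ _).iff ((Def.mem _ _).and (Def.ex
        ((Def.mem _ _).and (Def.all ((Def.mem _ _).iff ((Def.mem _ _).and (Def.rel _ _ _)))))))))))
      (w4 U k W' Y') P
    refine ⟨W, Y, W', Y', h', fun p => ?_, fun A => ?_⟩
    · simpa only [and_true] using hY p
    · rw [hW, hP]; rfl

lemma innb_in {W Y : M} (hU : Ult E W Y) {Q : M → Prop} (h : InnBig E W Q) :
    InnBig E W fun x => E x Y ∧ Q x :=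
  h.imp fun A l => ⟨l.1, fun x hx => ⟨(hU.1 A l.1).1 x hx, l.2 x hx⟩⟩

lemma innb_dich (hZ : IsZF E) {W Y : M} (hU : Ult E W Y) {Φ : Pred} (hΦ : Def Φ) (v : ℕ → M) :
    InnBig E W (fun x => Φ M E (cons x v)) ∨ InnBig E W fun x => ¬ Φ M E (cons x v) := by
  obtain ⟨A, hA⟩ := hZ.sepDef hΦ v Y
  obtain ⟨B, hB⟩ := inn_compl hZ Y A
  rcases hU.2.2.2.2 A B (fun x hx => ((hA x).1 hx).1) hB with l | l
  · exact Or.inl ⟨A, l, fun x hx => ((hA x).1 hx).2⟩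
  · exact Or.inr ⟨B, l, fun x hx e => ((hB x).1 hx).2 ((hA x).2 ⟨((hB x).1 hx).1, e⟩)⟩

lemma innb_elim {W' Y' W Y : M} (hF : Fub E U k W' Y' W Y) {Q : M → Prop} (h : InnBig E W Q) :
    InnBig E U fun a => InnBig E W' fun u => ∃ p, OP E p a u ∧ Q p := by
  obtain ⟨A, k1, k2⟩ := h
  obtain ⟨-, B, k3, k4⟩ := (hF.2 A).1 k1
  refine ⟨B, k3, fun a ha => ?_⟩
  obtain ⟨-, C, k5, k6⟩ := (k4 a).1 ha
  refine ⟨C, k5, fun u hu => ?_⟩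
  obtain ⟨-, p, k7, k8⟩ := (k6 u).1 hu
  exact ⟨p, k8, k2 p k7⟩

lemma innb_mem (hZ : IsZF E) {W' Y' W Y A : M} (hF : Fub E U k W' Y' W Y) (hU : Ult E U k)
    (hW : Ult E W' Y') (hA : Sub E A Y)
    (h : InnBig E U fun a => InnBig E W' fun u => Rel E A a u) : E A W := by
  obtain ⟨B, hB⟩ := hZ.sepDef (Φ := fun _ E w =>
      ∃ C, E C (w 1) ∧ ∀ y, E y C ↔ E y (w 2) ∧ Rel E (w 3) (w 0) y)
    (Def.ex ((Def.mem _ _).and (Def.all ((Def.mem _ _).iff ((Def.mem _ _).and (Def.rel _ _ _))))))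
    (w3 W' Y' A) k
  refine (hF.2 A).2 ⟨hA, B, h.mem hU (fun x hx => ((hB x).1 hx).1) fun a k1 k2 => ?_, hB⟩
  obtain ⟨C, hC⟩ := hZ.sepDef (Def.rel 1 2 0) (w2 A a) Y'
  exact (hB a).2 ⟨k1, C, k2.mem hW (fun x hx => ((hC x).1 hx).1) fun u l l' => (hC u).2 ⟨l, l'⟩, hC⟩

lemma innb_intro (hZ : IsZF E) {W' Y' W Y : M} (hF : Fub E U k W' Y' W Y) (hU : Ult E U k)
    (hW : Ult E W' Y') {Φ : Pred} (hΦ : Def Φ) (v : ℕ → M)
    (h : InnBig E U fun a => InnBig E W' fun u => ∃ p, OP E p a u ∧ Φ M E (cons p v)) :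
    InnBig E W fun p => Φ M E (cons p v) := by
  obtain ⟨A, hA⟩ := hZ.sepDef hΦ v Y
  refine ⟨A, innb_mem hZ hF hU hW (fun x hx => ((hA x).1 hx).1) ((innb_in hU h).mono fun a ha =>
    (innb_in hW ha.2).mono fun u hu => ?_), fun p hp => ((hA p).1 hp).2⟩
  obtain ⟨k1, p, k2, k3⟩ := hu
  exact ⟨p, (hA p).2 ⟨(hF.1 p).2 ⟨a, u, ha.1, k1, k2⟩, k3⟩, k2⟩

lemma innb_fub_ult (hZ : IsZF E) {W' Y' W Y : M} (hF : Fub E U k W' Y' W Y) (hU : Ult E U k)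
    (hW : Ult E W' Y') : Ult E W Y := by
  have el : ∀ A, E A W → InnBig E U fun a => InnBig E W' fun u => ∃ p, OP E p a u ∧ E p A :=
    fun A hA => innb_elim hF ⟨A, hA, fun _ l => l⟩
  refine ⟨fun A hA => ⟨((hF.2 A).1 hA).1, ?_⟩, ?_, fun A B hA k1 k2 => ?_,
    fun A B C hA hB e => ?_, fun A B hA e => ?_⟩
  · obtain ⟨a, -, k1⟩ := (el A hA).ex hU
    obtain ⟨u, -, p, -, k2⟩ := k1.ex hW
    exact ⟨p, k2⟩
  · refine innb_mem hZ hF hU hW (fun _ l => l) ⟨k, hU.2.1, fun a ha => ⟨Y', hW.2.1, fun u hu => ?_⟩⟩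
    obtain ⟨p, hp⟩ := exists_op hZ a u
    exact ⟨p, (hF.1 p).2 ⟨a, u, ha, hu, hp⟩, hp⟩
  · exact innb_mem hZ hF hU hW k2 ((el A hA).mono fun a ha => ha.mono fun u ⟨p, l, l'⟩ =>
      ⟨p, k1 p l', l⟩)
  · refine innb_mem hZ hF hU hW (fun x hx => ((hF.2 A).1 hA).1 x ((e x).1 hx).1)
      (((el A hA).and hZ hU (el B hB)).mono fun a ha => (ha.1.and hZ hW ha.2).mono fun u hu => ?_)
    obtain ⟨⟨p, k1, k2⟩, q, k3, k4⟩ := hu
    obtain rfl : p = q := OP.unique hZ.ext k1 k3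
    exact ⟨p, (e p).2 ⟨k2, k4⟩, k1⟩
  · rcases innb_dich hZ hU (Φ := fun _ E w => ∃ C, E C (w 1) ∧ ∀ u, E u C → Rel E (w 2) (w 0) u)
      (Def.ex ((Def.mem _ _).and (Def.all ((Def.mem _ _).imp (Def.rel _ _ _))))) (w2 W' A)
      with l | l
    · exact Or.inl (innb_mem hZ hF hU hW hA l)
    · refine Or.inr (innb_mem hZ hF hU hW (fun x hx => ((e x).1 hx).1)
        ((innb_in hU l).mono fun a ha => ?_))
      refine (innb_in hW ((innb_dich hZ hW (Def.rel 1 2 0) (w2 A a)).resolve_left ha.2)).mono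
        fun u hu => ?_
      obtain ⟨p, hp⟩ := exists_op hZ a u
      exact ⟨p, (e p).2 ⟨(hF.1 p).2 ⟨a, u, ha.1, hu.1, hp⟩, fun l' => hu.2 ⟨p, l', hp⟩⟩, hp⟩

lemma innb_ult (hZ : IsZF E) (hU : Ult E U k) (n : ℕ) :
    ∀ {W Y : M}, FPow E U k n W Y → Ult E W Y := by
  induction n with
  | zero =>
    rintro W Y ⟨⟨a, ha⟩, hW⟩
    refine ⟨fun A hA => ?_, (hW Y).2 rfl, fun A B hA k1 k2 => ?_, fun A B C hA hB e => ?_,
      fun A B hA e => ?_⟩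
    · obtain rfl := (hW A).1 hA
      exact ⟨fun _ l => l, a, (ha a).2 rfl⟩
    · obtain rfl := (hW A).1 hA
      exact (hW B).2 (hZ.ext _ _ fun x => ⟨k2 x, k1 x⟩)
    · obtain rfl := (hW A).1 hA
      obtain rfl := (hW B).1 hB
      exact (hW C).2 (hZ.ext _ _ fun x => (e x).trans and_self_iff)
    · by_cases l : E a A
      · exact Or.inl ((hW A).2 (hZ.ext _ _ fun x => ⟨hA x, fun l' => (ha x).1 l' ▸ l⟩))
      · exact Or.inr ((hW B).2 (hZ.ext _ _ fun x =>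
          ⟨fun l' => ((e x).1 l').1, fun l' => (e x).2 ⟨l', (ha x).1 l' ▸ l⟩⟩))
  | succ n ih =>
    rintro W Y ⟨W', Y', h1, h2⟩
    exact innb_fub_ult hZ h2 hU (ih h1)

lemma Lad.innb_fodor (h : Lad E U k D S) (hZ : IsZF E) {Φ : Pred} (hΦ : Def Φ) (v : ℕ → M)
    (h1 : InnBig E U fun a => ∃ y, E y a ∧ Φ M E (cons y (cons a v))) :
    ∃ y, InnBig E U fun a => Φ M E (cons y (cons a v)) := by
  by_contra h2
  obtain ⟨a, -, ⟨y, k1, k2⟩, k3⟩ := (h1.and hZ h.ult (h.big_diag hZ hΦ.not v fun i _ =>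
    (innb_dich hZ h.ult (hΦ.cons2 1 0 fun j => j + 2) (cons i v)).resolve_left
      fun l => h2 ⟨i, l⟩)).ex h.ult
  exact k3 y k1 k2

lemma Lad.innb_dchoice (h : Lad E U k D S) (hZ : IsZF E) (hC : Choice E) {Φ : Pred} (hΦ : Def Φ)
    (v : ℕ → M) : ∃ A, E A U ∧ ∀ a, E a k → (∃ B, E B U ∧ Φ M E (cons a (cons B v))) →
      ∃ B, Φ M E (cons a (cons B v)) ∧ ∀ y, E y A → E a y → E y B := by
  obtain ⟨c, hc⟩ := inn_choice hZ hC U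
  obtain ⟨t, t1, t2⟩ := inn_fam hZ hΦ v k U
  obtain ⟨A, k1, k2⟩ := h.big_diag hZ (Φ := fun _ E w => ∀ T B, Rel E (w 2) (w 0) T →
      Rel E (w 3) T B → E B T → E (w 1) B)
    (Def.all (Def.all ((Def.rel _ _ _).imp ((Def.rel _ _ _).imp ((Def.mem _ _).imp
      (Def.mem _ _)))))) (w2 t c) fun i hi => by
    obtain ⟨T, m1, m2⟩ := t1 i hi
    have m3 := ((t2 i T).1 m1).2
    by_cases l : ∃ B, E B T
    · obtain ⟨B, m4, m5⟩ := hc T (fun y hy => ((m3 y).1 hy).1) l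
      refine ⟨B, ((m3 B).1 m4).1, fun y hy T' B' n1 n2 _ => ?_⟩
      obtain rfl : T' = T := m2 T' n1
      obtain rfl : B' = B := (m5 B').1 n2
      exact hy
    · refine ⟨k, h.ult.2.1, fun y _ T' B' n1 _ n3 => ?_⟩
      obtain rfl : T' = T := m2 T' n1
      exact absurd ⟨B', n3⟩ l
  refine ⟨A, k1, fun a ha ⟨B, k3, k4⟩ => ?_⟩
  obtain ⟨T, m1, -⟩ := t1 a ha
  have m3 := ((t2 a T).1 m1).2
  obtain ⟨B', m4, m5⟩ := hc T (fun y hy => ((m3 y).1 hy).1) ⟨B, (m3 B).2 ⟨k3, k4⟩⟩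
  exact ⟨B', ((m3 B').1 m4).2, fun y hy l => k2 y hy a l T B' m1 ((m5 B').2 rfl) m4⟩

/-- bounded choices are constant on a large set -/
def InnbCmp (E : M → M → Prop) (k W : M) : Prop :=
  ∀ R z, E z k → InnBig E W (fun u => ∃ y, E y z ∧ Rel E R u y) →
    ∃ y, InnBig E W fun u => Rel E R u y

lemma Lad.innb_step (h : Lad E U k D S) (hZ : IsZF E) {W' Y' W Y R : M}
    (hF : Fub E U k W' Y' W Y) (hW : Ult E W' Y') (hc : InnbCmp E k W')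
    (h1 : InnBig E U fun a => InnBig E W' fun u => ∃ p, OP E p a u ∧ ∃ y, E y a ∧ Rel E R p y) :
    ∃ y, InnBig E W fun p => Rel E R p y := by
  obtain ⟨y, hy⟩ := h.innb_fodor hZ (Φ := fun _ E w => ∃ C, E C (w 2) ∧ ∀ u, E u C →
      ∃ p, OP E p (w 1) u ∧ Rel E (w 3) p (w 0))
    (Def.ex ((Def.mem _ _).and (Def.all ((Def.mem _ _).imp (Def.ex ((Def.op _ _ _).and
      (Def.rel _ _ _))))))) (w2 W' R) ((innb_in h.ult h1).mono fun a ha => by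
    obtain ⟨R', hR⟩ := innb_rel hZ (Φ := fun _ E w => ∃ p, OP E p (w 2) (w 0) ∧ Rel E (w 3) p (w 1))
      (Def.ex ((Def.op _ _ _).and (Def.rel _ _ _))) (w2 a R) Y' a
    obtain ⟨y, hy⟩ := hc R' a ha.1 ((innb_in hW ha.2).mono fun u ⟨l1, p, l2, y, l3, l4⟩ =>
      ⟨y, l3, (hR u y).2 ⟨l1, l3, p, l2, l4⟩⟩)
    obtain ⟨u, -, l⟩ := hy.ex hW
    exact ⟨y, ((hR u y).1 l).2.1, hy.mono fun u l' => ((hR u y).1 l').2.2⟩)
  exact ⟨y, innb_intro hZ hF h.ult hW (Def.rel 1 0 2) (w2 R y) hy⟩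

lemma Lad.innb_cmp (h : Lad E U k D S) (hZ : IsZF E) (hw : WellFounded E) (n : ℕ) :
    ∀ {W Y : M}, FPow E U k n W Y → InnbCmp E k W := by
  induction n with
  | zero =>
    rintro W Y ⟨⟨a, ha⟩, hW⟩ R z - ⟨A, k1, k2⟩
    obtain rfl := (hW A).1 k1
    obtain ⟨y, -, k3⟩ := k2 a ((ha a).2 rfl)
    exact ⟨y, A, k1, fun u hu => (ha u).1 hu ▸ k3⟩
  | succ n ih =>
    rintro W Y ⟨W', Y', h1, h2⟩ R z hz h3
    refine h.innb_step hZ h2 (innb_ult hZ h.ult n h1) (ih h1)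
      ((innb_in h.ult ((innb_elim h2 h3).and hZ h.ult (h.big_tail hZ hz))).mono fun a ha =>
        ha.2.1.mono fun u ⟨p, l1, y, l2, l3⟩ => ⟨p, l1, y, ?_, l3⟩)
    exact (isOrd_mem hw h.ord ha.1).1 z ha.2.2 y l2

lemma Lad.innb_esc (h : Lad E U k D S) (hZ : IsZF E) (hC : Choice E) (hw : WellFounded E) (n : ℕ) :
    ∀ {W Y : M}, FPow E U k n W Y → ∀ R, InnBig E W (fun u => (∃ y, Rel E R u y) ∧
      ∀ y, Rel E R u y → E y k ∧ ∃ y', E y y' ∧ Rel E R u y') →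
      ∃ A, E A U ∧ InnBig E W fun u => ∃ y, Rel E R u y ∧ ¬ E y A := by
  have cst : ∀ W R, (∃ y, InnBig E W fun u => Rel E R u y) →
      ∃ A, E A U ∧ InnBig E W fun u => ∃ y, Rel E R u y ∧ ¬ E y A := fun W R ⟨y, hy⟩ => by
    obtain ⟨A, k1, k2⟩ := h.big_ne hZ hw y
    exact ⟨A, k1, hy.mono fun u l => ⟨y, l, fun l' => k2 y l' rfl⟩⟩
  induction n with
  | zero =>
    rintro W Y ⟨⟨a, ha⟩, hW⟩ R ⟨A, k1, k2⟩
    obtain rfl := (hW A).1 k1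
    obtain ⟨⟨y, k3⟩, -⟩ := k2 a ((ha a).2 rfl)
    exact cst W R ⟨y, A, k1, fun u hu => (ha u).1 hu ▸ k3⟩
  | succ n ih =>
    rintro W Y ⟨W', Y', h1, h2⟩ R h3
    have hW := innb_ult hZ h.ult n h1
    rcases innb_dich hZ h.ult (Φ := fun _ E w => ∃ C, E C (w 1) ∧ ∀ u, E u C →
        ∃ p, OP E p (w 0) u ∧ ∃ y, E y (w 0) ∧ Rel E (w 2) p y)
      (Def.ex ((Def.mem _ _).and (Def.all ((Def.mem _ _).imp (Def.ex ((Def.op _ _ _).and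
        (Def.ex ((Def.mem _ _).and (Def.rel _ _ _))))))))) (w2 W' R) with l | l
    · exact cst W R (h.innb_step hZ h2 hW (h.innb_cmp hZ hw n h1) l)
    obtain ⟨A, k1, k2⟩ := h.innb_dchoice hZ hC (Φ := fun _ E w => ∃ C, E C (w 2) ∧ ∀ u, E u C →
        ∃ p, OP E p (w 0) u ∧ ∃ y, Rel E (w 3) p y ∧ E (w 0) y ∧ ¬ E y (w 1))
      (Def.ex ((Def.mem _ _).and (Def.all ((Def.mem _ _).imp (Def.ex ((Def.op _ _ _).and
        (Def.ex ((Def.rel _ _ _).and ((Def.mem _ _).and (Def.mem _ _).not))))))))) (w2 W' R)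
    refine ⟨A, k1, innb_intro hZ h2 h.ult hW
      (Φ := fun _ E w => ∃ y, Rel E (w 1) (w 0) y ∧ ¬ E y (w 2))
      (Def.ex ((Def.rel _ _ _).and (Def.mem _ _).not)) (w2 R A)
      ((innb_in h.ult (l.and hZ h.ult (innb_elim h2 h3))).mono fun a ⟨ha, k3, k4⟩ => ?_)⟩
    have k5 := (innb_dich hZ hW (Φ := fun _ E w => ∃ p, OP E p (w 1) (w 0) ∧
        ∃ y, E y (w 1) ∧ Rel E (w 2) p y)
      (Def.ex ((Def.op _ _ _).and (Def.ex ((Def.mem _ _).and (Def.rel _ _ _))))) (w2 a R)).resolve_left k3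
    obtain ⟨R', hR⟩ := innb_rel hZ (Φ := fun _ E w => E (w 2) (w 1) ∧
        ∃ p, OP E p (w 2) (w 0) ∧ Rel E (w 3) p (w 1))
      ((Def.mem _ _).and (Def.ex ((Def.op _ _ _).and (Def.rel _ _ _)))) (w2 a R) Y' k
    obtain ⟨B, k6, k7⟩ := ih h1 R' ((innb_in hW (k4.and hZ hW k5)).mono
      fun u ⟨m1, ⟨p, m2, ⟨y, m3⟩, m4⟩, m5⟩ => by
        have up : ∀ y, Rel E R p y → (y = a ∨ E a y) → ∃ y', E y y' ∧ Rel E R' u y' :=
          fun y n1 n2 => by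
            obtain ⟨-, y', n3, n4⟩ := m4 y n1
            refine ⟨y', n3, (hR u y').2 ⟨m1, (m4 y' n4).1, ?_, p, m2, n4⟩⟩
            rcases n2 with rfl | n2
            · exact n3
            · exact (isOrd_mem hw h.ord (m4 y' n4).1).1 y n3 a n2
        refine ⟨?_, fun y' n1 => ?_⟩
        · obtain ⟨y', -, n1⟩ := up y m3 ((h.ord.2 y a (m4 y m3).1 ha).resolve_left
            fun n => m5 ⟨p, m2, y, n, m3⟩)
          exact ⟨y', n1⟩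
        · obtain ⟨-, n2, n3, q, n4, n5⟩ := (hR u y').1 n1
          obtain rfl : p = q := OP.unique hZ.ext m2 n4
          exact ⟨n2, up y' n5 (Or.inr n3)⟩)
    obtain ⟨B', k8, k9⟩ := k2 a ha ⟨B, k6, k7.mono fun u ⟨y, m1, m2⟩ => by
      obtain ⟨-, -, n3, q, n4, n5⟩ := (hR u y).1 m1
      exact ⟨q, n4, y, n5, n3, m2⟩⟩
    exact InnBig.mono k8 fun u ⟨p, m1, y, m2, m3, m4⟩ =>
      ⟨p, m1, y, m2, fun m5 => m4 (k9 y m5 m3)⟩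

theorem Lad.not_rk (h : Lad E U k D S) (hZ : IsZF E) (hC : Choice E) (hw : WellFounded E) {V : M}
    (hV : ∀ A B, E A U → (∀ d, E d B ↔ E d D ∧ ∀ y, Rel E S d y → E y A) → E B V) (n : ℕ) {W Y : M}
    (hW : FPow E U k n W Y) : ¬ RKLE E V k W Y := by
  rintro ⟨g, g1, -, g3⟩
  have hU := innb_ult hZ h.ult n hW
  obtain ⟨R, hR⟩ := innb_rel hZ (Φ := fun _ E w => ∃ d, E d (w 2) ∧ Rel E (w 3) (w 0) d ∧
      Rel E (w 4) d (w 1))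
    (Def.ex ((Def.mem _ _).and ((Def.rel _ _ _).and (Def.rel _ _ _)))) (w3 D g S) Y k
  obtain ⟨-, C, k1, k2⟩ := (g3 D).1 (hV k D h.ult.2.1 fun d =>
    ⟨fun l => ⟨l, fun y hy => h.lt d y hy⟩, fun l => l.1⟩)
  obtain ⟨A, k3, k4⟩ := h.innb_esc hZ hC hw n hW R ⟨C, k1, fun u hu => by
    obtain ⟨m1, d, m2, m3⟩ := (k2 u).1 hu
    obtain ⟨y, m4⟩ := h.ne d m2
    refine ⟨⟨y, (hR u y).2 ⟨m1, h.lt d y m4, d, m2, m3, m4⟩⟩, fun y' n1 => ?_⟩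
    obtain ⟨-, n2, d', n3, n4, n5⟩ := (hR u y').1 n1
    obtain ⟨y'', n6, n7⟩ := h.unb d' y' n3 n5
    exact ⟨n2, y'', n6, (hR u y'').2 ⟨m1, h.lt d' y'' n7, d', n3, n4, n7⟩⟩⟩
  obtain ⟨B, hB⟩ := hZ.sepDef (Φ := fun _ E w => ∀ y, Rel E (w 1) (w 0) y → E y (w 2))
    (Def.all ((Def.rel _ _ _).imp (Def.mem _ _))) (w2 S A) D
  obtain ⟨-, C', k5, k6⟩ := (g3 B).1 (hV A B k3 hB)
  obtain ⟨u, m1, ⟨y, m2, m3⟩, m4⟩ := (k4.and hZ hU ⟨C', k5, fun _ l => l⟩).ex hU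
  obtain ⟨-, x, m5, m6⟩ := (k6 u).1 m4
  obtain ⟨-, -, d, -, n4, n5⟩ := (hR u y).1 m2
  obtain rfl : d = x := (g1 u m1).unique n4 m6
  exact m3 (((hB d).1 m5).2 y n5)

end Pool.Agent.Lib.MP_491cc4_lc.Cx
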