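import Pool.Agent.Lib.MP_491cc4_lc.Cx.Un

set_option autoImplicit false
set_option linter.unusedSectionVars false

namespace Pool.Agent.Lib.MP_491cc4_lc.Cx

open Set Cardinal Filter Pool.Agent.Lib.MP_d4b40b_lc

variable {K : Type} [LinearOrder K] [WellFoundedLT K] [OrderBot K] [Lc K]

lemma East.mono {s t : Set K} (h : East t) (k : s ⊆ t) : East s := by
  exact ⟨k.trans h.1, h.2.1.imp fun _ j => k.trans j, fun ν j => (h.2.2 ν j).imp fun _ l =>
    ⟨l.1, fun a n => l.2 a (k n)⟩⟩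

lemma East.union {s t : Set K} (h : East s) (k : East t) : East (s ∪ t) := by
  obtain ⟨b, hb⟩ := h.2.1
  obtain ⟨c, hc⟩ := k.2.1
  refine ⟨union_subset h.1 k.1, ⟨max b c,
    union_subset (hb.trans (Iio_subset_Iio (le_max_left _ _)))
      (hc.trans (Iio_subset_Iio (le_max_right _ _)))⟩, fun ν j => ?_⟩
  obtain ⟨x, x1, x2⟩ := h.2.2 ν j
  obtain ⟨y, y1, y2⟩ := k.2.2 ν j
  exact ⟨max x y, max_lt x1 y1, fun a n l => n.elim
    (fun o => (x2 a o l).trans_le (le_max_left _ _)) fun o => (y2 a o l).trans_le (le_max_right _ _)⟩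

lemma east_empty : East (∅ : Set K) := by
  exact ⟨empty_subset _, ⟨⊥, empty_subset _⟩, fun ν j => (Lc.Y_bg ν j).ne.imp fun _ k =>
    ⟨k, fun _ n => n.elim⟩⟩

lemma east_single {ν : K} (h : ν ∈ YY K) : East {ν} := by
  refine ⟨singleton_subset_iff.2 h, ⟨th ν, singleton_subset_iff.2 (Lc.lt_th ν)⟩, fun δ j => ?_⟩
  by_cases l : ν < δ
  · obtain ⟨b, k1, k2⟩ := (Lc.Y_bg δ j).gt l
    exact ⟨b, k1, fun a n _ => (mem_singleton_iff.1 n).trans_lt k2⟩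
  · obtain ⟨b, k1⟩ := (Lc.Y_bg δ j).ne
    exact ⟨b, k1, fun a n o => absurd ((mem_singleton_iff.1 n).symm.trans_lt o) l⟩

/-- a union of few Easton sets above `ν` -/
lemma east_iUnion (ν : K) {J : Type} {I : Set J} (h1 : #I < #K)
    (h2 : ∀ δ ∈ YY K, ν < δ → #I < #(Iio δ)) (s : J → Set K) (h3 : ∀ j ∈ I, East (s j)) :
    East {δ | ν < δ ∧ ∃ j ∈ I, δ ∈ s j} := by
  refine ⟨fun δ ⟨_, j, k1, k2⟩ => (h3 j k1).1 k2, ?_, fun δ hδ => ?_⟩
  · have : ∀ j, ∃ b, j ∈ I → s j ⊆ Iio b := fun j => by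
      by_cases l : j ∈ I
      · exact (h3 j l).2.1.imp fun _ k _ => k
      · exact ⟨⊥, fun k => absurd k l⟩
    choose f hf using this
    obtain ⟨b, hb⟩ := boundK h1 f
    exact ⟨b, fun δ ⟨_, j, k1, k2⟩ => lt_trans (hf j k1 k2) (hb j k1)⟩
  · by_cases l : ν < δ
    · have : ∀ j, ∃ ζ, j ∈ I → ζ < δ ∧ ∀ a ∈ s j, a < δ → a < ζ := fun j => by
        by_cases o : j ∈ I
        · exact ((h3 j o).2.2 δ hδ).imp fun _ k _ => k
        · exact ⟨⊥, fun k => absurd k o⟩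
      choose f hf using this
      obtain ⟨b, k1, k2⟩ := (Lc.Y_bg δ hδ).bound' (h2 δ hδ l) f fun j k => (hf j k).1
      exact ⟨b, k1, fun a ⟨_, j, k3, k4⟩ o => ((hf j k3).2 a k4 o).trans (k2 j k3)⟩
    · obtain ⟨b, k1⟩ := (Lc.Y_bg δ hδ).ne
      exact ⟨b, k1, fun a n o => absurd (n.1.trans o) l⟩

namespace It0

variable [It0 K]

lemma le_of_dle {p' p : P K} (h : ∀ μ, Un.dle (tr μ p') (co μ p') (co μ p)) : p' ≤ p :=
  (le_iff _ _).2 ⟨fun μ => (h μ).le, finite_empty.subset fun μ k => k (h μ)⟩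

lemma tr_mono (ν : K) {p' p : P K} (h : p' ≤ p) : tr ν p' ≤ tr ν p := by
  have e : ∀ μ < ν, tr μ (up ν (tr ν p')) = tr μ p' := fun μ l =>
    tr_ext _ _ _ fun a k => co_up_lt _ _ _ (k.trans l)
  obtain ⟨h1, h2⟩ := (le_iff _ _).1 h
  refine (up_le ν _ _).1 ((le_iff _ _).2 ⟨fun μ => ?_, h2.subset fun μ k => ?_⟩)
  · by_cases l : μ < ν
    · rw [e μ l, co_up_lt _ _ _ l, co_up_lt _ _ _ l]
      exact h1 μ
    · rw [co_up_ge _ _ (tr ν p) (not_lt.1 l)]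
      exact (Un.dle_top _ _).le
  · by_cases l : μ < ν
    · rwa [mem_ofPred_eq, e μ l, co_up_lt _ _ _ l, co_up_lt _ _ _ l] at k
    · rw [mem_ofPred_eq, co_up_ge _ _ (tr ν p) (not_lt.1 l)] at k
      exact absurd (Un.dle_top _ _) k

lemma tr_up_tr {μ ν : K} (h : μ ≤ ν) (p : P K) : tr μ (up ν (tr ν p)) = tr μ p := by
  exact tr_ext _ _ _ fun a k => co_up_lt _ _ _ (k.trans_le h)

lemma le_up_tr (ν : K) (p : P K) : p ≤ up ν (tr ν p) := by
  refine le_of_dle fun μ => ?_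
  by_cases l : μ < ν
  · rw [co_up_lt _ _ _ l]
    exact Un.drefl _ _
  · rw [co_up_ge _ _ _ (not_lt.1 l)]
    exact Un.dle_top _ _

lemma exists_pw (A : Set K) (p q : P K) :
    ∃ r : P K, ∀ μ, (μ ∈ A → co μ r = co μ p) ∧ (μ ∉ A → co μ r = co μ q) := by
  classical
  obtain ⟨r, hr⟩ := build _ ((east p).union (east q)) fun δ _ => if δ ∈ A then co δ p else co δ q
  refine ⟨r, fun μ => ?_⟩
  by_cases l : μ ∈ {μ | co μ p ≠ Un.top} ∪ {μ | co μ q ≠ Un.top}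
  · rw [(hr μ).1 l]
    exact ⟨fun k => if_pos k, fun k => if_neg k⟩
  · rw [(hr μ).2 l]
    simp only [mem_union, mem_ofPred_eq, not_or, not_not] at l
    exact ⟨fun _ => l.1.symm, fun _ => l.2.symm⟩

/-- `p` on `A` and `q` off `A` -/
noncomputable def pw (A : Set K) (p q : P K) : P K := (exists_pw A p q).choose

lemma co_pw {A : Set K} (p q : P K) {μ : K} (h : μ ∈ A) : co μ (pw A p q) = co μ p :=
  ((exists_pw A p q).choose_spec μ).1 h

lemma co_pw' {A : Set K} (p q : P K) {μ : K} (h : μ ∉ A) : co μ (pw A p q) = co μ q :=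
  ((exists_pw A p q).choose_spec μ).2 h

lemma tr_pw {A : Set K} (p q : P K) {μ : K} (h : ∀ a < μ, a ∈ A) : tr μ (pw A p q) = tr μ p :=
  tr_ext _ _ _ fun a k => co_pw p q (h a k)

lemma exists_top : ∃ t : P K, (∀ μ, co μ t = Un.top) ∧ ∀ p, p ≤ t := by
  obtain ⟨t, ht⟩ := build _ (east_empty (K := K)) fun _ _ => Un.top
  have h : ∀ μ, co μ t = Un.top := fun μ => (ht μ).2 (notMem_empty μ)
  exact ⟨t, h, fun p => le_of_dle fun μ => h μ ▸ Un.dle_top _ _⟩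

noncomputable instance : OrderTop (P K) where
  top := exists_top.choose
  le_top := exists_top.choose_spec.2

lemma co_top (μ : K) : co μ (⊤ : P K) = Un.top := exists_top.choose_spec.1 μ

def Lo0 (ν : K) (p : P K) : Prop := ∀ μ, ν ≤ μ → co μ p = Un.top

noncomputable def res0 (ν : K) (p : P K) : P K := pw (Iic ν) p ⊤

/-- direct above `ν` -/
def Dir (ν : K) (p' p : P K) : Prop := ∀ δ, ν < δ → Un.dle (tr δ p') (co δ p') (co δ p)

lemma co_res0 {ν μ : K} (p : P K) (h : μ ≤ ν) : co μ (res0 ν p) = co μ p := co_pw _ _ h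

lemma co_res0' {ν μ : K} (p : P K) (h : ν < μ) : co μ (res0 ν p) = Un.top :=
  (co_pw' _ _ (notMem_Iic.2 h)).trans (co_top μ)

lemma tr_res0 {ν μ : K} (p : P K) (h : μ ≤ ν) : tr μ (res0 ν p) = tr μ p :=
  tr_pw _ _ fun _ k => k.le.trans h

lemma up_tr {ν : K} {p : P K} (h : Lo0 ν p) : up ν (tr ν p) = p := by
  refine ext _ _ fun μ => ?_
  by_cases l : μ < ν
  · exact co_up_lt _ _ _ l
  · rw [co_up_ge _ _ _ (not_lt.1 l), h μ (not_lt.1 l)]

lemma le_res0 (ν : K) (p : P K) : p ≤ res0 ν p := by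
  refine le_of_dle fun μ => ?_
  by_cases l : μ ≤ ν
  · rw [co_res0 p l]
    exact Un.drefl _ _
  · rw [co_res0' p (not_le.1 l)]
    exact Un.dle_top _ _

lemma res0_mono (ν : K) {p' p : P K} (h : p' ≤ p) : res0 ν p' ≤ res0 ν p := by
  obtain ⟨h1, h2⟩ := (le_iff _ _).1 h
  refine (le_iff _ _).2 ⟨fun μ => ?_, h2.subset fun μ k => ?_⟩
  · by_cases l : μ ≤ ν
    · rw [tr_res0 p' l, co_res0 p' l, co_res0 p l]
      exact h1 μ
    · rw [co_res0' p (not_le.1 l)]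
      exact (Un.dle_top _ _).le
  · by_cases l : μ ≤ ν
    · rwa [mem_ofPred_eq, tr_res0 p' l, co_res0 p' l, co_res0 p l] at k
    · rw [mem_ofPred_eq, co_res0' p (not_le.1 l)] at k
      exact absurd (Un.dle_top _ _) k

lemma res0_pw (ν : K) (p q : P K) : res0 ν (pw (Iic ν) p q) = res0 ν p := by
  refine ext _ _ fun μ => ?_
  by_cases l : μ ≤ ν
  · rw [co_res0 _ l, co_res0 _ l, co_pw _ _ (mem_Iic.2 l)]
  · rw [co_res0' _ (not_le.1 l), co_res0' _ (not_le.1 l)]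

lemma res0_res0 (ν : K) (p : P K) : res0 ν (res0 ν p) = res0 ν p := res0_pw ν p ⊤

lemma res0_up_tr {ν δ : K} (h : ν < δ) (p : P K) : res0 ν (up δ (tr δ p)) = res0 ν p := by
  refine ext _ _ fun μ => ?_
  by_cases l : μ ≤ ν
  · rw [co_res0 _ l, co_res0 _ l, co_up_lt _ _ _ (l.trans_lt h)]
  · rw [co_res0' _ (not_le.1 l), co_res0' _ (not_le.1 l)]

lemma pw_le_res0 {ν : K} {q' q : P K} (h : q' ≤ res0 ν q) (r : P K) :
    pw (Iic ν) q' r ≤ res0 ν q :=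
  (le_res0 ν _).trans ((res0_pw ν q' r).le.trans ((res0_mono ν h).trans (res0_res0 ν q).le))

lemma le_of_dir {ν : K} {p' p : P K} (h : p' ≤ res0 ν p) (k : Dir ν p' p) : p' ≤ p := by
  obtain ⟨h1, h2⟩ := (le_iff _ _).1 h
  refine (le_iff _ _).2 ⟨fun μ => ?_, h2.subset fun μ j => ?_⟩
  · by_cases l : μ ≤ ν
    · exact co_res0 p l ▸ h1 μ
    · exact (k μ (not_le.1 l)).le
  · by_cases l : μ ≤ ν
    · rwa [mem_ofPred_eq, co_res0 p l]
    · exact absurd (k μ (not_le.1 l)) j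

lemma Dir.trans {ν : K} {p'' p' p : P K} (h : Dir ν p'' p') (l : p'' ≤ p') (k : Dir ν p' p) :
    Dir ν p'' p := by
  exact fun δ j => (h δ j).trans ((k δ j).mono (tr_mono δ l))

/-- strengthen the part up to `ν` -/
lemma pw_le {ν : K} {q p : P K} (h : q ≤ res0 ν p) : pw (Iic ν) q p ≤ p ∧ Dir ν (pw (Iic ν) q p) p := by
  have k : Dir ν (pw (Iic ν) q p) p := fun δ l => by
    rw [co_pw' _ _ (notMem_Iic.2 l)]
    exact Un.drefl _ _
  exact ⟨le_of_dir (pw_le_res0 h p) k, k⟩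

/-- strengthen the part below `ν` -/
lemma pw_le' {ν : K} {s : PO ν} {p : P K} (h : s ≤ tr ν p) :
    pw (Iio ν) (up ν s) p ≤ p ∧ tr ν (pw (Iio ν) (up ν s) p) = s := by
  refine ⟨?_, (tr_pw _ _ fun _ k => k).trans (tr_up _ _)⟩
  obtain ⟨h1, h2⟩ := (le_iff _ _).1 ((up_le ν _ _).2 h)
  refine (le_iff _ _).2 ⟨fun μ => ?_, h2.subset fun μ k => ?_⟩
  · by_cases l : μ < ν
    · rw [tr_pw _ _ fun a k => mem_Iio.2 (k.trans l), co_pw _ _ (mem_Iio.2 l), ← co_up_lt _ _ p l]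
      exact h1 μ
    · rw [co_pw' _ _ (notMem_Iio.2 (not_lt.1 l))]
      exact (Un.drefl _ _).le
  · by_cases l : μ < ν
    · rwa [mem_ofPred_eq, tr_pw _ _ fun a k => mem_Iio.2 (k.trans l), co_pw _ _ (mem_Iio.2 l),
        ← co_up_lt _ _ p l] at k
    · rw [mem_ofPred_eq, co_pw' _ _ (notMem_Iio.2 (not_lt.1 l))] at k
      exact absurd (Un.drefl _ _) k

/-- the lower part and the tail can be weakened separately -/
lemma le_pw {ν : K} {p q r : P K} (h : p ≤ res0 ν q) (k : ∀ δ, ν < δ → Un.le (tr δ p) (co δ p) (co δ r))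
    (l : {δ | ν < δ ∧ ¬ Un.dle (tr δ p) (co δ p) (co δ r)}.Finite) : p ≤ pw (Iic ν) q r := by
  obtain ⟨h1, h2⟩ := (le_iff _ _).1 h
  refine (le_iff _ _).2 ⟨fun μ => ?_, (h2.union l).subset fun μ j => ?_⟩
  · by_cases o : μ ≤ ν
    · rw [co_pw _ _ (mem_Iic.2 o), ← co_res0 q o]
      exact h1 μ
    · rw [co_pw' _ _ (notMem_Iic.2 (not_le.1 o))]
      exact k μ (not_le.1 o)
  · by_cases o : μ ≤ ν
    · left
      rwa [mem_ofPred_eq, co_pw _ _ (mem_Iic.2 o), ← co_res0 q o] at j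
    · right
      rw [mem_ofPred_eq, co_pw' _ _ (notMem_Iic.2 (not_le.1 o))] at j
      exact ⟨not_le.1 o, j⟩

lemma pw_self (A : Set K) (p : P K) : pw A p p = p := by
  refine ext _ _ fun μ => ?_
  by_cases l : μ ∈ A
  · exact co_pw _ _ l
  · exact co_pw' _ _ l

lemma pw_pw (A : Set K) (p q r : P K) : pw A (pw A p q) r = pw A p r := by
  refine ext _ _ fun μ => ?_
  by_cases l : μ ∈ A
  · rw [co_pw _ _ l, co_pw _ _ l, co_pw _ _ l]
  · rw [co_pw' _ _ l, co_pw' _ _ l]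

lemma pw_mono {ν : K} {q' q : P K} (h : q' ≤ res0 ν q) (r : P K) :
    pw (Iic ν) q' r ≤ pw (Iic ν) q r := by
  have k : ∀ δ, ν < δ → Un.dle (tr δ (pw (Iic ν) q' r)) (co δ (pw (Iic ν) q' r)) (co δ r) :=
    fun δ l => by
      rw [co_pw' _ _ (notMem_Iic.2 l)]
      exact Un.drefl _ _
  exact le_pw (pw_le_res0 h r) (fun δ l => (k δ l).le)
    (finite_empty.subset fun δ j => j.2 (k δ j.1))

/-- a condition with prescribed part up to `δ` -/
lemma one {δ : K} (h : δ ∈ YY K) (s : PO δ) (z : Un (PO δ) (Iio (th δ)) (Iio δ)) :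
    ∃ c : P K, tr δ c = s ∧ co δ c = z ∧ ∀ μ, δ < μ → co μ c = Un.top := by
  classical
  obtain ⟨c, hc⟩ := build _ (east_single h)
    (Function.update (β := fun μ => PO μ → Un (PO μ) (Iio (th μ)) (Iio μ)) (fun _ _ => Un.top) δ
      fun _ => z)
  refine ⟨pw (Iio δ) (up δ s) c, (tr_pw _ _ fun _ k => k).trans (tr_up _ _), ?_, fun μ l => ?_⟩
  · rw [co_pw' _ _ (notMem_Iio.2 le_rfl), (hc δ).1 rfl, Function.update_self]
  · rw [co_pw' _ _ (notMem_Iio.2 l.le), (hc μ).2 l.ne']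

lemma le_res0_of {δ : K} {c q : P K} (h : tr δ c ≤ tr δ q) (k : Un.le (tr δ c) (co δ c) (co δ q)) :
    c ≤ res0 δ q := by
  obtain ⟨h1, h2⟩ := (le_iff _ _).1 ((up_le δ _ _).2 h)
  refine (le_iff _ _).2 ⟨fun μ => ?_, (h2.insert δ).subset fun μ j => ?_⟩
  · rcases lt_trichotomy μ δ with l | l | l
    · have := h1 μ
      rwa [tr_up_tr l.le, co_up_lt _ _ _ l, co_up_lt _ _ _ l, ← co_res0 q l.le] at this
    · subst l
      rwa [co_res0 q le_rfl]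
    · rw [co_res0' q l]
      exact (Un.dle_top _ _).le
  · rcases lt_trichotomy μ δ with l | l | l
    · right
      rwa [mem_ofPred_eq, tr_up_tr l.le, co_up_lt _ _ _ l, co_up_lt _ _ _ l, ← co_res0 q l.le]
    · exact Or.inl l
    · rw [mem_ofPred_eq, co_res0' q l] at j
      exact absurd (Un.dle_top _ _) j

lemma lo0_ex (p : P K) : ∃ ν, Lo0 ν p := by
  obtain ⟨b, hb⟩ := (east p).2.1
  exact ⟨b, fun μ l => by_contra fun k => absurd (hb k) (notMem_Iio.2 l)⟩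

lemma lo0_lim {ν : K} (h : ν ∈ YY K) {p : P K} (k : Lo0 ν p) : ∃ ζ < ν, Lo0 ζ p := by
  obtain ⟨ζ, k1, k2⟩ := (east p).2.2 ν h
  exact ⟨ζ, k1, fun μ l => by_contra fun j =>
    absurd (k2 μ j (not_le.1 fun o => j (k μ o))) (not_lt.2 l)⟩

lemma lo0_le (ν : K) : #{p : P K | Lo0 ν p} ≤ #(PO ν) := by
  exact mk_le_of_injective (f := fun p => tr ν p.1) fun p q e =>
    Subtype.ext ((up_tr p.2).symm.trans ((congrArg (up ν) e).trans (up_tr q.2)))

lemma lo0_small {ν : K} (h : ν ∈ YY K) : #{p : P K | Lo0 ν p} ≤ #(Iio (th ν)) := by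
  have h1 : #(Iio ν) ≤ #(Iio (th ν)) := mk_le_mk_of_subset (Iio_subset_Iio (Lc.lt_th ν).le)
  have h2 : {p : P K | Lo0 ν p} ⊆ ⋃ ζ ∈ Iio ν, {p : P K | Lo0 ζ p} := fun p k => by
    obtain ⟨ζ, k1, k2⟩ := lo0_lim h k
    exact mem_biUnion k1 k2
  exact (mk_le_mk_of_subset h2).trans (mk_biUnion_le' ((Lc.Y_bg ν h).inf.trans h1) h1
    fun ζ k => (lo0_le ζ).trans (((card ζ).2 ν h k).le.trans h1))

/-- mixing tails along a name of the part up to `ν` -/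
theorem tmix (ν : K) {J : Type} (S : J → P K → Prop) (h1 : ∀ j, Op (S j))
    (h2 : ∀ i j p, S i p → S j p → i = j) (r : J → P K) :
    ∃ r' : P K, (∀ μ ≤ ν, co μ r' = Un.top) ∧ ∀ j q, S j (res0 ν q) →
      Dir ν (pw (Iic ν) q r') (r j) ∧ Dir ν (pw (Iic ν) q (r j)) r' := by
  have h3 : #{j | ∃ q, S j (res0 ν q)} ≤ #(PO (th ν)) := by
    refine le_trans (mk_le_of_injective (β := {p : P K | Lo0 (th ν) p})
      (f := fun j => ⟨res0 ν j.2.choose, fun μ l => co_res0' _ ((Lc.lt_th ν).trans_le l)⟩)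
      fun i j e => Subtype.ext (h2 _ _ _ i.2.choose_spec ?_)) (lo0_le _)
    have e' : res0 ν i.2.choose = res0 ν j.2.choose := congrArg Subtype.val e
    rw [e']
    exact j.2.choose_spec
  obtain ⟨r', hr⟩ := build _ (east_iUnion ν (h3.trans_lt (card _).1)
    (fun δ k l => h3.trans_lt ((card _).2 δ k (Lc.Y_th δ k ν l)))
    (fun j => {μ | co μ (r j) ≠ Un.top}) fun j _ => east (r j))
    fun δ _ => Un.mix (fun j s => S j (res0 ν (up δ s)))
      (fun j _ _ k l => h1 j _ _ k (res0_mono ν ((up_le δ _ _).2 l))) (fun i j _ => h2 i j _)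
      fun j => co δ (r j)
  refine ⟨r', fun μ l => (hr μ).2 fun k => absurd k.1 (not_lt.2 l), fun j q hj => ?_⟩
  have h4 : ∀ δ, ν < δ → ∀ t, ∀ s ≤ tr δ (pw (Iic ν) q t), S j (res0 ν (up δ s)) :=
    fun δ l t s k => by
      refine h1 j _ _ hj ((res0_mono ν ((up_le δ _ _).2 k)).trans (le_of_eq ?_))
      rw [res0_up_tr l, res0_pw]
  refine ⟨fun δ l => ?_, fun δ l => ?_⟩
  · by_cases o : co δ (r j) = Un.top
    · rw [o]
      exact Un.dle_top _ _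
    · rw [co_pw' _ _ (notMem_Iic.2 l), (hr δ).1 ⟨l, j, ⟨q, hj⟩, o⟩]
      exact Un.of_imp fun s k y n => ⟨j, h4 δ l _ s k, n⟩
  · by_cases o : δ ∈ {δ | ν < δ ∧ ∃ j ∈ {j | ∃ q, S j (res0 ν q)}, δ ∈ {μ | co μ (r j) ≠ Un.top}}
    · rw [co_pw' _ _ (notMem_Iic.2 l), (hr δ).1 o]
      exact Un.of_imp fun s k y ⟨i, n1, n2⟩ => h2 i j _ n1 (h4 δ l _ s k) ▸ n2
    · rw [(hr δ).2 o]
      exact Un.dle_top _ _

/-- tails with uniform heights -/
structure Tl0 (ν : K) where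
  r : P K
  low : ∀ μ ≤ ν, co μ r = Un.top
  uh : ∀ δ, co δ r ≠ Un.top → ∃ h : Iio δ, th ν ≤ h.1 ∧ (co δ r).Uht h

instance (ν : K) : Preorder (Tl0 ν) where
  le r' r := Dir ν r'.r r.r
  le_refl _ _ _ := Un.drefl _ _
  le_trans a b _ h k := Dir.trans h (le_of_dle fun μ => by
    by_cases l : μ ≤ ν
    · rw [b.low μ l]
      exact Un.dle_top _ _
    · exact h μ (not_le.1 l)) k

lemma tl_fill (ν : K) (r : P K) (h : ∀ μ ≤ ν, co μ r = Un.top) :
    ∃ r' : Tl0 ν, ∀ δ s, Un.dle s (co δ r'.r) (co δ r) := by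
  have h1 : ∀ δ, ∃ z : Un (PO δ) (Iio (th δ)) (Iio δ), co δ r ≠ Un.top →
      (∃ h : Iio δ, th ν ≤ h.1 ∧ z.Uht h) ∧ ∀ s, Un.dle s z (co δ r) := fun δ => by
    by_cases o : co δ r = Un.top
    · exact ⟨Un.top, fun k => absurd o k⟩
    · have k1 : δ ∈ YY K := (east r).1 o
      have k2 : th ν < δ := Lc.Y_th δ k1 ν (not_le.1 fun l => o (h δ l))
      obtain ⟨a, k3, z, k4, k5⟩ := Un.fill (fun s hs f => by
        obtain ⟨b, l1, l2⟩ := (Lc.Y_bg δ k1).bound' hs (fun i => (f i).1) fun i _ => (f i).2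
        exact ⟨⟨b, l1⟩, l2⟩) (co δ r) ⟨th ν, k2⟩
      exact ⟨z, fun _ => ⟨⟨a, k3, k4⟩, k5⟩⟩
  choose z hz using h1
  obtain ⟨p, hp⟩ := build _ (east r) fun δ _ => z δ
  refine ⟨⟨p, fun μ l => (hp μ).2 fun k => k (h μ l), fun δ k => ?_⟩, fun δ s => ?_⟩
  · have o : co δ r ≠ Un.top := fun o => k ((hp δ).2 fun j => j o)
    rw [(hp δ).1 o]
    exact (hz δ o).1
  · by_cases o : co δ r = Un.top
    · rw [o]
      exact Un.dle_top _ _
    · show Un.dle s (co δ p) _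
      rw [(hp δ).1 o]
      exact (hz δ o).2 s

noncomputable def gl0 (ν : K) (q : P K) (r : Tl0 ν) : P K := pw (Iic ν) q r.r

lemma gl0_le (ν : K) (q : P K) (r : Tl0 ν) : gl0 ν q r ≤ res0 ν q := by
  exact pw_le_res0 (le_res0 ν q) r.r

lemma gl0_mono (ν : K) (q q' : P K) (r r' : Tl0 ν) (h : q' ≤ res0 ν q) (k : r' ≤ r) :
    gl0 ν q' r' ≤ gl0 ν q r := by
  have h1 : pw (Iic ν) q' r'.r ≤ r'.r := (pw_le (le_of_dle fun μ => by
    by_cases l : μ ≤ ν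
    · rw [co_res0 _ l, r'.low μ l]
      exact Un.dle_top _ _
    · rw [co_res0' _ (not_le.1 l)]
      exact Un.dle_top _ _)).1
  have h2 : ∀ δ, ν < δ →
      Un.dle (tr δ (pw (Iic ν) q' r'.r)) (co δ (pw (Iic ν) q' r'.r)) (co δ r.r) := fun δ l => by
    rw [co_pw' _ _ (notMem_Iic.2 l)]
    exact (k δ l).mono (tr_mono δ h1)
  exact le_pw (pw_le_res0 h _) (fun δ l => (h2 δ l).le)
    (finite_empty.subset fun δ j => j.2 (h2 δ j.1))

lemma gl0_mid (ν : K) (p q q' : P K) (r : Tl0 ν) (h : p ≤ gl0 ν q r) (k : q' ≤ res0 ν p) :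
    ∃ p' ≤ p, p' ≤ gl0 ν q' r := by
  obtain ⟨h1, h2⟩ := (le_iff _ _).1 ((pw_le k).1.trans h)
  refine ⟨pw (Iic ν) q' p, (pw_le k).1, le_pw (pw_le_res0 (le_res0 ν q') p) (fun δ l => ?_)
    (h2.subset fun δ j => ?_)⟩
  · have := h1 δ
    rwa [gl0, co_pw' q r.r (notMem_Iic.2 l)] at this
  · rw [mem_ofPred_eq, gl0, co_pw' q r.r (notMem_Iic.2 j.1)]
    exact j.2

/-- the ladders -/
def stem0 (δ : K) (o : Option K) : P K → Prop :=
  hull fun p => ∃ o', o = o'.map Subtype.val ∧ Un.lad (tr δ p) (co δ p) o'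

end It0

end Pool.Agent.Lib.MP_491cc4_lc.Cx
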