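import Pool.Agent.Lib.MP_491cc4_lc.Cx.ItA

set_option autoImplicit false
set_option linter.unusedSectionVars false

namespace Pool.Agent.Lib.MP_491cc4_lc.Cx.It0

open Set Cardinal Filter Pool.Agent.Lib.MP_d4b40b_lc

variable {K : Type} [LinearOrder K] [WellFoundedLT K] [OrderBot K] [Lc K] [It0 K]

lemma pw_pw' (A : Set K) (p q r : P K) : pw A p (pw A q r) = pw A p r := by
  refine ext _ _ fun μ => ?_
  by_cases l : μ ∈ A
  · rw [co_pw _ _ l, co_pw _ _ l]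
  · rw [co_pw' _ _ l, co_pw' _ _ l, co_pw' _ _ l]

lemma pw_le_pw {ν : K} {q r' r : P K} (h : Dir ν (pw (Iic ν) q r') r) :
    pw (Iic ν) q r' ≤ pw (Iic ν) q r :=
  le_pw (pw_le_res0 (le_res0 ν q) r') (fun δ l => (h δ l).le)
    (finite_empty.subset fun δ j => j.2 (h δ j.1))

lemma pw_mid {ν : K} {p q' r : P K} (h : p ≤ r) (k : q' ≤ res0 ν p) :
    pw (Iic ν) q' p ≤ pw (Iic ν) q' r := by
  obtain ⟨h1, h2⟩ := (le_iff _ _).1 ((pw_le k).1.trans h)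
  exact le_pw (pw_le_res0 (le_res0 ν q') p) (fun δ _ => h1 δ) (h2.subset fun δ j => j.2)

lemma Dir.pw_mono {ν : K} {q' q j t : P K} (h : Dir ν (pw (Iic ν) q j) t) (k : q' ≤ res0 ν q) :
    Dir ν (pw (Iic ν) q' j) t := fun δ l => by
  have := (h δ l).mono (tr_mono δ (It0.pw_mono k j))
  rwa [co_pw' _ _ (notMem_Iic.2 l), ← co_pw' q' j (notMem_Iic.2 l)] at this

/-- mixing witnesses into one tail -/
lemma mixS (ν : K) (φ : P K → Prop)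
    (h : ∀ q' q j, q' ≤ res0 ν q → φ (pw (Iic ν) q j) → φ (pw (Iic ν) q' j)) :
    ∃ r' : P K, (∀ μ ≤ ν, co μ r' = Un.top) ∧ ∀ q, (∃ q1 ≤ q, ∃ j, φ (pw (Iic ν) q1 j)) →
      ∃ q1 ≤ q, ∃ j, φ (pw (Iic ν) q1 j) ∧ Dir ν (pw (Iic ν) q1 r') j := by
  let S : P K → P K → Prop := fun j q => φ (pw (Iic ν) q j)
  have hS : ∀ j, Op (S j) := fun j q q' k l => h q' q j (l.trans (le_res0 ν q)) k
  obtain ⟨r', k1, k2⟩ := tmix ν (Lst S) (op_lst hS) (fun _ _ _ => Lst.uniq) id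
  refine ⟨r', k1, fun q l => ?_⟩
  obtain ⟨q1, k3, j, k4⟩ := exists_lst S (q := q) l
  refine ⟨q1, k3, j, k4.1, (k2 j q1 ⟨h _ q1 j le_rfl k4.1, fun i n s o u => ?_⟩).1⟩
  exact k4.2 i n _ (pw_le o).1 (h _ s i (pw_le_res0 (le_res0 ν s) q1) u)

lemma dle_of_dense {ν δ : K} (l : ν < δ) {p r t : P K} (h : p ≤ r)
    (k : ∀ q ≤ p, ∃ q1 ≤ res0 ν q, ∃ j, Dir ν (pw (Iic ν) q1 j) t ∧ Dir ν (pw (Iic ν) q1 r) j) :
    Un.dle (tr δ p) (co δ r) (co δ t) := by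
  refine (Un.reg_dle _ _).2 _ fun s o => ?_
  obtain ⟨a1, a2⟩ := pw_le' o
  obtain ⟨q1, b1, j, b2, b3⟩ := k _ a1
  have c1 := pw_mid (a1.trans h) b1
  have c2 := (b3 δ l).mono (tr_mono δ c1)
  have c3 := (b2 δ l).mono (tr_mono δ (c1.trans (pw_le_pw b3)))
  rw [co_pw' _ _ (notMem_Iic.2 l)] at c2 c3
  exact ⟨_, (tr_mono δ (pw_le b1).1).trans a2.le, c2.trans c3⟩

/-- the Prikry property -/
theorem pp (ν : K) (p : P K) (a : P K → Prop) (ha : Op a) :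
    ∃ p' ≤ p, Dir ν p' p ∧ (hull a p' ∨ ng a p') := by
  let φ : K → P K → Prop := fun d c => Dir d c p ∧ hull a c
  have hφ : ∀ d q' q j, q' ≤ res0 d q → φ d (pw (Iic d) q j) → φ d (pw (Iic d) q' j) :=
    fun d q' q j l k => ⟨k.1.pw_mono l, op_hull _ _ k.2 (pw_mono l j)⟩
  let A : ∀ d, PO d → Un (PO d) (Iio (th d)) (Iio d) → Prop := fun d s z =>
    ∃ c, tr d c = s ∧ co d c = z ∧ ∃ j, φ d (pw (Iic d) c j)
  have hA : ∀ d ∈ YY K, ∀ s s' z z', A d s z → s' ≤ s → Un.le s' z' z → A d s' z' := by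
    rintro d hd _ s' _ z' ⟨c, rfl, rfl, j, k⟩ l n
    obtain ⟨c', rfl, rfl, -⟩ := one hd s' z'
    exact ⟨c', rfl, rfl, j, hφ d c' c j (le_res0_of l n) k⟩
  have h1 : ∀ d, ∃ z' : Un (PO d) (Iio (th d)) (Iio d), d ∈ YY K →
      (∀ s, Un.dle s z' (co d p)) ∧ ∀ s, ∃ s' ≤ s,
        (∀ q ≤ s', ∀ z2, Un.le q z2 z' → ∃ q' ≤ q, ∃ z3, Un.le q' z3 z2 ∧ A d q' z3) ∨
          ∀ q ≤ s', ∀ z2, Un.le q z2 z' → ¬ A d q z2 := fun d => by
    by_cases l : d ∈ YY K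
    · exact (Un.prik (A d) (hA d l) (co d p)).imp fun _ k _ => k
    · exact ⟨Un.top, fun k => absurd k l⟩
  choose z hz using h1
  obtain ⟨pb, hb⟩ := build _ (east p) fun d _ => z d
  have h2 : ∀ d s, Un.dle s (co d pb) (co d p) := fun d s => by
    by_cases o : co d p = Un.top
    · rw [o]
      exact Un.dle_top _ _
    · rw [(hb d).1 o]
      exact (hz d ((east p).1 o)).1 s
  have h3 : pb ≤ p := le_of_dle fun d => h2 d _
  by_cases h4 : ng a pb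
  · exact ⟨pb, h3, fun d _ => h2 d _, Or.inr h4⟩
  have key : ∀ d1, ∀ p1 ≤ p, p1 ≤ up d1 (tr d1 pb) →
      (∀ d, d1 ≤ d → ν < d → Un.dle (tr d p1) (co d p1) (co d p)) → hull a p1 →
      ∃ p' ≤ p, Dir ν p' p ∧ hull a p' := by
    intro d1
    induction d1 using (wellFounded_lt (α := K)).induction with
    | _ d1 ih =>
    intro p1 k1 k2 k3 k4
    have f1 : {d | ν < d ∧ ¬ Un.dle (tr d p1) (co d p1) (co d p)}.Finite :=
      ((le_iff _ _).1 k1).2.subset fun _ j => j.2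
    rcases eq_empty_or_nonempty {d | ν < d ∧ ¬ Un.dle (tr d p1) (co d p1) (co d p)} with e | e
    · exact ⟨p1, k1, fun d l => by_contra fun o => (eq_empty_iff_forall_notMem.1 e d) ⟨l, o⟩, k4⟩
    obtain ⟨d, ⟨d2, d3⟩, d4⟩ := Set.exists_max_image _ id f1 e
    have d5 : d < d1 := not_le.1 fun l => d3 (k3 d l d2)
    have d6 : co d p ≠ Un.top := fun o => d3 (o ▸ Un.dle_top _ _)
    have d7 : d ∈ YY K := (east p).1 d6
    have d8 : Dir d p1 p := fun δ l => by_contra fun o => absurd (d4 δ ⟨d2.trans l, o⟩) (not_le.2 l)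
    have d9 : Un.le (tr d p1) (co d p1) (z d) := by
      have := ((le_iff _ _).1 k2).1 d
      rwa [co_up_lt _ _ _ d5, (hb d).1 d6] at this
    have e1 : tr d p1 ≤ tr d pb := tr_up_tr d5.le pb ▸ tr_mono d k2
    obtain ⟨s', e2, e3 | e3⟩ := (hz d d7).2 (tr d p1)
    swap
    · refine absurd (hA d d7 _ s' _ _ ⟨p1, rfl, rfl, p1, ?_⟩ e2 (Un.drefl _ _).le)
        (e3 s' le_rfl _ (d9.mono e2))
      rw [pw_self]
      exact ⟨d8, k4⟩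
    obtain ⟨c, c1, c2, -⟩ := one d7 s' (z d)
    obtain ⟨r, -, r2⟩ := mixS d (φ d) (hφ d)
    have c3 : tr d (pw (Iic d) c r) = s' := (tr_pw _ _ fun _ l => mem_Iic.2 l.le).trans c1
    have c4 : co d (pw (Iic d) c r) = z d := (co_pw _ _ (mem_Iic.2 le_rfl)).trans c2
    have c5 : ∀ q ≤ pw (Iic d) c r, ∃ q1 ≤ res0 d q, ∃ j, φ d (pw (Iic d) q1 j) ∧
        Dir d (pw (Iic d) q1 (pw (Iic d) c r)) j := fun q l => by
      obtain ⟨q', g1, z3, g2, c', g3, g4, j, g5⟩ := e3 (tr d q) (c3 ▸ tr_mono d l) (co d q)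
        (c4 ▸ ((le_iff _ _).1 l).1 d)
      obtain ⟨q1, g6, j', g7, g8⟩ := r2 (res0 d q)
        ⟨c', le_res0_of (g3 ▸ g1) (by rw [g3, g4]; exact g2), j, g5⟩
      exact ⟨q1, g6, j', g7, by rwa [pw_pw']⟩
    have c6 : Dir d (pw (Iic d) c r) p := fun δ l =>
      dle_of_dense l le_rfl fun q o => (c5 q o).imp fun _ u => ⟨u.1, u.2.imp fun _ v => ⟨v.1.1, v.2⟩⟩
    have c7 : Un.dle (tr d (pw (Iic d) c r)) (co d (pw (Iic d) c r)) (co d p) :=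
      c4 ▸ (hz d d7).1 _
    refine ih d d5 (pw (Iic d) c r)
      (le_of_dir (le_res0_of (c3 ▸ e2.trans (tr_mono d k1)) c7.le) c6)
      ((le_up_tr d _).trans ((up_le d _ _).2 (c3 ▸ e2.trans e1)))
      (fun δ l _ => l.eq_or_lt.elim (fun e => e ▸ c7) (c6 δ)) fun q l => ?_
    obtain ⟨q1, g1, j, g2, g3⟩ := c5 q l
    obtain ⟨t, g4, g5⟩ := g2.2 _ ((pw_mid l g1).trans (pw_le_pw g3))
    exact ⟨t, g4.trans (pw_le g1).1, g5⟩
  obtain ⟨p1, k1, k2⟩ : ∃ p1 ≤ pb, a p1 := by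
    by_contra o
    exact h4 fun q l n => o ⟨q, l, n⟩
  obtain ⟨d1, k3⟩ := lo0_ex p
  obtain ⟨p', k4, k5, k6⟩ := key d1 p1 (k1.trans h3) (k1.trans (le_up_tr d1 pb))
    (fun d l _ => k3 d l ▸ Un.dle_top _ _) (ha.hull k2)
  exact ⟨p', k4, k5, Or.inl k6⟩

theorem tl0_dec (ν : K) (r : Tl0 ν) (a : P K → Prop) (ha : Op a) :
    ∃ r' ≤ r, ∀ q, ∃ q' ≤ res0 ν q, hull a (gl0 ν q' r') ∨ ng a (gl0 ν q' r') := by
  obtain ⟨t, t1, t2⟩ := mixS ν (fun c => Dir ν c r.r ∧ (hull a c ∨ ng a c))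
    fun q' q j l k => ⟨k.1.pw_mono l, (op_hull.or op_ng) _ _ k.2 (pw_mono l j)⟩
  have h1 : ∀ q, ∃ q1 ≤ res0 ν q, ∃ j, (Dir ν (pw (Iic ν) q1 j) r.r ∧
      (hull a (pw (Iic ν) q1 j) ∨ ng a (pw (Iic ν) q1 j))) ∧ Dir ν (pw (Iic ν) q1 t) j := fun q => by
    obtain ⟨p', k1, k2, k3⟩ := pp ν (pw (Iic ν) q r.r) a ha
    refine t2 _ ⟨p', k1.trans (pw_le_res0 (le_res0 ν q) _), p', ?_⟩
    rw [pw_self]
    exact ⟨fun δ l => co_pw' q r.r (notMem_Iic.2 l) ▸ k2 δ l, k3⟩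
  obtain ⟨r', hr⟩ := tl_fill ν t t1
  refine ⟨r', fun δ l => (hr δ _).trans (dle_of_dense l (le_of_dle fun μ => hr μ _) fun q _ =>
    (h1 q).imp fun _ u => ⟨u.1, u.2.imp fun _ v => ⟨v.1.1, v.2⟩⟩), fun q => ?_⟩
  obtain ⟨q1, k1, j, k2, k3⟩ := h1 q
  refine ⟨q1, k1, (op_hull.or op_ng) _ _ k2.2 (le_trans (pw_le_pw fun δ l => ?_) (pw_le_pw k3))⟩
  rw [co_pw' _ _ (notMem_Iic.2 l)]
  exact hr δ _

end Pool.Agent.Lib.MP_491cc4_lc.Cx.It0
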