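import Pool.Agent.Lib.MP_491cc4_lc.Cx.ItA

set_option autoImplicit false
set_option linter.unusedSectionVars false

namespace Pool.Agent.Lib.MP_491cc4_lc.Cx.It0

open Set Cardinal Filter Pool.Agent.Lib.MP_d4b40b_lc

variable {K : Type} [LinearOrder K] [WellFoundedLT K] [OrderBot K] [Lc K] [It0 K]

lemma tr_le_of_dle {δ : K} {p' p : P K}
    (h : ∀ μ < δ, Un.dle (tr μ p') (co μ p') (co μ p)) : tr δ p' ≤ tr δ p := by
  refine (up_le δ _ _).1 (le_of_dle fun μ => ?_)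
  by_cases l : μ < δ
  · rw [tr_up_tr l.le, co_up_lt _ _ _ l, co_up_lt _ _ _ l]
    exact h μ l
  · rw [co_up_ge _ _ (tr δ p) (not_lt.1 l)]
    exact Un.dle_top _ _

theorem tl0_clos (ν : K) (I : Type) (r : I → Tl0 ν) (h : #I ≤ #(Iio (th ν)))
    (k : ∀ i j, r i ≤ r j ∨ r j ≤ r i) : ∃ r', ∀ i, r' ≤ r i := by
  classical
  have h0 : #(univ : Set I) ≤ #(Iio (th ν)) := by rwa [mk_univ]
  obtain ⟨p, hp⟩ := build _ (east_iUnion ν (h0.trans_lt (iioK _))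
    (fun δ k l => h0.trans_lt ((Lc.Y_bg δ k).init _ (Lc.Y_th δ k ν l)))
    (fun j => {μ | co μ (r j).r ≠ Un.top}) fun j _ => east (r j).r)
    fun δ s => if o : ∃ z', ∀ i, Un.dle s z' (co δ (r i).r) then o.choose else Un.top
  have key : ∀ δ i, Un.dle (tr δ p) (co δ p) (co δ (r i).r) := by
    intro δ
    induction δ using (wellFounded_lt (α := K)).induction with
    | _ δ ih =>
    intro i
    by_cases o : co δ (r i).r = Un.top
    · rw [o]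
      exact Un.dle_top _ _
    · have l : ν < δ := not_le.1 fun l => o ((r i).low δ l)
      have k1 : δ ∈ YY K := (east (r i).r).1 o
      have k2 : th ν < δ := Lc.Y_th δ k1 ν l
      have k3 : ∀ j, tr δ p ≤ tr δ (r j).r := fun j => tr_le_of_dle fun μ n => ih μ n j
      have k4 : ∃ z', ∀ i, Un.dle (tr δ p) z' (co δ (r i).r) := by
        choose ht h1 h2 using fun j : {j // co δ (r j).r ≠ Un.top} => (r j.1).uh δ j.2
        obtain ⟨z', hz⟩ := Un.clos (⟨th ν, k2⟩ : Iio δ) (J := {j // co δ (r j).r ≠ Un.top})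
          ((mk_subtype_le _).trans (h.trans (mk_Iio_sub (isLowerSet_Iio δ) ⟨th ν, k2⟩).ge))
          (fun j => co δ (r j.1).r) ht (tr δ p) h2 h1 fun a b =>
            (k b.1 a.1).imp (fun n => (n δ l).mono (k3 _)) fun n => (n δ l).mono (k3 _)
        refine ⟨z', fun j => ?_⟩
        by_cases n : co δ (r j).r = Un.top
        · rw [n]
          exact Un.dle_top _ _
        · exact hz ⟨j, n⟩
      rw [(hp δ).1 ⟨l, i, trivial, o⟩, dif_pos k4]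
      exact k4.choose_spec i
  obtain ⟨r', hr⟩ := tl_fill ν p fun μ l => (hp μ).2 fun n => absurd n.1 (not_lt.2 l)
  exact ⟨r', fun i δ _ =>
    (hr δ _).trans ((key δ i).mono (tr_mono δ (le_of_dle fun μ => hr μ _)))⟩

theorem cc0 : CC (P K) #K := by
  intro I S h1 h2
  have h3 : ∀ s : P K, ∃ b, (∃ i, ∃ p ≤ s, S i p) → ∃ i, ∃ p ≤ s, S i p ∧ Lo0 b p := fun s => by
    by_cases o : ∃ i, ∃ p ≤ s, S i p
    · obtain ⟨i, p, k1, k2⟩ := o
      obtain ⟨b, hb⟩ := lo0_ex p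
      exact ⟨b, fun _ => ⟨i, p, k1, k2, hb⟩⟩
    · exact ⟨⊥, fun k => absurd k o⟩
  choose b hb using h3
  choose g hg using fun ζ : K => boundK ((lo0_le ζ).trans_lt (card ζ).1) b
  obtain ⟨ν, k1, k2⟩ := Y_cl g
  have h4 : ∀ i : {i | ∃ p, S i p}, ∃ p : {p : P K | Lo0 ν p}, S i.1 p.1 := fun ⟨i, p, hp⟩ => by
    obtain ⟨ζ, l1, l2⟩ := lo0_lim k1 (p := up ν (tr ν p)) fun μ l => co_up_ge _ _ _ l
    obtain ⟨j, q, l3, l4, l5⟩ := hb _ ⟨i, p, le_up_tr ν p, hp⟩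
    have l6 : Lo0 ν q := fun μ l => l5 μ (((hg ζ _ l2).trans (k2 ζ l1)).le.trans l)
    obtain ⟨l7, l8⟩ := pw_le' (p := p) ((tr_mono ν l3).trans (tr_up ν _).le)
    have l9 := le_up_tr ν (pw (Iio ν) (up ν (tr ν q)) p)
    rw [l8] at l9
    have l10 := h2 i j _ (h1 i _ _ hp l7) (h1 j _ _ l4 (l9.trans (up_tr l6).le))
    exact ⟨⟨q, l6⟩, l10 ▸ l4⟩
  choose f hf using h4
  refine (mk_le_of_injective (f := f) fun i j e => Subtype.ext (h2 _ _ _ (hf i) (e ▸ hf j))).trans_lt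
    ((lo0_le ν).trans_lt (card ν).1)

lemma stem0_Y (δ : K) (o : Option K) (p : P K) (h : stem0 δ o p) : δ ∈ YY K := by
  obtain ⟨r, -, o', -, y, k, -⟩ := h p le_rfl
  refine (east r).1 fun j => ?_
  rw [j] at k
  exact k

lemma stem0_lt (δ η : K) (p : P K) (h : stem0 δ (some η) p) : η < δ := by
  obtain ⟨r, -, o', k, -⟩ := h p le_rfl
  cases o' with
  | none => exact absurd k (by simp)
  | some a => exact (Option.some.inj k) ▸ a.2

lemma stem0_of_lad {δ : K} {p : P K} {o : Option (Iio δ)} (h : Un.lad (tr δ p) (co δ p) o) :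
    stem0 δ (o.map Subtype.val) p := fun q l => by
  obtain ⟨s, k1, k2⟩ := Un.lad_mono h (tr_mono δ l) (((le_iff _ _).1 l).1 δ)
  obtain ⟨k3, k4⟩ := pw_le' k1
  refine ⟨_, k3, o, rfl, ?_⟩
  rwa [k4, co_pw' _ _ (notMem_Iio.2 le_rfl)]

lemma stem0_unb (δ : K) (p : P K) (h : stem0 δ none p) (η : K) (k : η < δ) :
    ∃ p' ≤ p, ∃ η', η < η' ∧ stem0 δ (some η') p' := by
  obtain ⟨r, k1, o', k2, k3⟩ := h p le_rfl
  cases o' with
  | some a => exact absurd k2 (by simp)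
  | none =>
    obtain ⟨s, l1, z, l2, η', l3, l4⟩ := Un.lad_unb k3 ⟨η, k⟩
    obtain ⟨c, c1, c2, -⟩ := one (stem0_Y δ _ p h) s z
    have l5 : c ≤ res0 δ r := le_res0_of (c1 ▸ l1) (c1 ▸ c2 ▸ l2)
    refine ⟨pw (Iic δ) c r, (pw_le l5).1.trans k1, η'.1, l3, stem0_of_lad (o := some η') ?_⟩
    rwa [tr_pw _ _ fun a n => mem_Iic.2 n.le, co_pw _ _ (mem_Iic.2 le_rfl), c1, c2]

/-- pulling a nice step back along an order isomorphism and a surjection of terms -/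
lemma _root_.Pool.Agent.Lib.MP_491cc4_lc.Cx.Nice.pull {P P' T T' H : Type} [Preorder P] [Preorder P']
    [LinearOrder H] (Q : Sh P T H) [Nice Q] (e : P' ≃o P) (π : T' → T) (hπ : Function.Surjective π) :
    Nice (⟨fun p a b => Q.le (e p) (π a) (π b), fun p a b => Q.dle (e p) (π a) (π b),
      fun a => Q.ht (π a), fun p a o => Q.lad (e p) (π a) o⟩ : Sh P' T' H) := by
  refine ⟨(Nice.ne Q).elim fun t => ⟨(hπ t).choose⟩, fun _ _ => Nice.drefl (Q := Q) _ _,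
    fun _ _ _ => Nice.dle_le (Q := Q) _ _ _, fun _ _ _ _ => Nice.trans (Q := Q) _ _ _ _,
    fun _ _ _ _ => Nice.dtrans (Q := Q) _ _ _ _,
    fun _ _ _ _ h k => Nice.mono (Q := Q) _ _ _ _ h (e.monotone k),
    fun _ _ _ _ h k => Nice.dmono (Q := Q) _ _ _ _ h (e.monotone k), fun τ h k => ?_,
    fun a ha p τ => ?_, fun w I nm h p0 h1 h2 h3 h4 h5 h6 h7 => ?_,
    fun o q q' h k => Nice.lad_mono (Q := Q) o (e q.1, π q.2) (e q'.1, π q'.2) h
      ⟨e.monotone k.1, k.2⟩, fun q η h => ?_⟩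
  · obtain ⟨τ', k1, k2⟩ := Nice.fill (Q := Q) (π τ) h k
    obtain ⟨b, rfl⟩ := hπ τ'
    exact ⟨b, k1, fun p => k2 (e p)⟩
  · obtain ⟨p1, k1, τ1, k2, k3⟩ := Nice.prik (Q := Q)
      (fun q => ∃ p b, q = (e p, π b) ∧ a (p, b)) (by
        rintro _ ⟨p', t'⟩ ⟨p, b, rfl, l1⟩ l2
        obtain ⟨p', rfl⟩ := e.surjective p'
        obtain ⟨b', rfl⟩ := hπ t'
        exact ⟨p', b', rfl, ha _ _ l1 ⟨e.le_iff_le.1 l2.1, l2.2⟩⟩) (e p) (π τ)
    obtain ⟨p1, rfl⟩ := e.surjective p1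
    obtain ⟨b1, rfl⟩ := hπ τ1
    refine ⟨p1, e.le_iff_le.1 k1, b1, k2, k3.imp (fun l q n => ?_) fun l q n j =>
      l (e q.1, π q.2) ⟨e.monotone n.1, n.2⟩ ⟨q.1, q.2, rfl, j⟩⟩
    obtain ⟨_, l1, p2, b2, rfl, l2⟩ := l (e q.1, π q.2) ⟨e.monotone n.1, n.2⟩
    exact ⟨(p2, b2), ⟨e.le_iff_le.1 l1.1, l1.2⟩, l2⟩
  · obtain ⟨p1, k1, σ, k2⟩ := Nice.clos (Q := Q) w I
      (fun i p t => ∃ b, π b = t ∧ nm i (e.symm p) b) h (e p0) h1
      (fun i j τ p q ⟨b, l1, l2⟩ l => ⟨b, l1, h2 i j b _ _ l2 (e.symm.monotone l)⟩)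
      (fun i j p τ τ' ⟨b, l1, l2⟩ ⟨b', l3, l4⟩ => l1 ▸ l3 ▸ congrArg π (h3 i j _ _ _ l2 l4))
      (fun i j q l => by
        obtain ⟨q, rfl⟩ := e.surjective q
        obtain ⟨r, l1, b, l2⟩ := h4 i j q (e.le_iff_le.1 l)
        exact ⟨e r, e.monotone l1, π b, b, rfl, by rwa [e.symm_apply_apply]⟩)
      (fun i j p τ ⟨b, l1, l2⟩ => l1 ▸ h5 i j _ b l2) h6
      (by
        rintro i hi j hj p l _ _ ⟨b, rfl, l1⟩ ⟨b', rfl, l2⟩
        obtain ⟨p', l3, l4⟩ := h7 i hi j hj (e.symm p) (e.symm_apply_le.2 l) b b' l1 l2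
        exact ⟨e p', e.le_symm_apply.1 l3, l4⟩)
    obtain ⟨p1, rfl⟩ := e.surjective p1
    obtain ⟨b, rfl⟩ := hπ σ
    refine ⟨p1, e.le_iff_le.1 k1, b, fun i hi p l τ n => ?_⟩
    obtain ⟨p', l1, l2⟩ := k2 i hi (e p) (e.monotone l) (π τ) ⟨τ, rfl, by rwa [e.symm_apply_apply]⟩
    obtain ⟨p', rfl⟩ := e.surjective p'
    exact ⟨p', e.le_iff_le.1 l1, l2⟩
  · obtain ⟨⟨p', t'⟩, k1, k2⟩ := Nice.lad_unb (Q := Q) (e q.1, π q.2) η h
    obtain ⟨p', rfl⟩ := e.surjective p'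
    obtain ⟨b', rfl⟩ := hπ t'
    exact ⟨(p', b'), ⟨e.le_iff_le.1 k1.1, k1.2⟩, k2⟩

/-- the stage `ν` and the conditions supported below `ν` -/
def isoLo (ν : K) : PO ν ≃o {p : P K // Lo0 ν p} where
  toFun s := ⟨up ν s, fun _ l => co_up_ge _ _ _ l⟩
  invFun p := tr ν p.1
  left_inv := tr_up ν
  right_inv p := Subtype.ext (up_tr p.2)
  map_rel_iff' := up_le ν _ _

theorem emb0 (ν : K) (hν : ν ∈ YY K) (hc : CC {p : P K // Lo0 ν p} #(Iio ν)) (T : Type)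
    (Q : Sh {p : P K // Lo0 ν p} T (Iio ν)) (hT : #T ≤ #(Iio (th ν))) (hQ : Nice Q) :
    ∃ f, Star (Lo0 ν) ν (res0 ν) (stem0 ν) Q f := by
  have : Nonempty T := Nice.ne Q
  obtain ⟨g⟩ := (Cardinal.le_def _ _).1 hT
  obtain ⟨π, hπ⟩ : ∃ π : Iio (th ν) → T, ∀ t, π (g t) = t :=
    ⟨_, Function.leftInverse_invFun g.injective⟩
  let e := isoLo (K := K) ν
  have hQ' := Nice.pull Q e π fun t => ⟨g t, hπ t⟩
  have hc' : CC (PO ν) #(Iio ν) := fun I S h1 h2 =>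
    lt_of_le_of_lt (mk_le_mk_of_subset (t := {i | ∃ p, S i (e.symm p)})
      fun i ⟨s, k⟩ => ⟨e s, by rwa [e.symm_apply_apply]⟩) (hc I (fun i p => S i (e.symm p)) (fun i p q k l => h1 i _ _ k (e.symm.monotone l))
        fun i j p => h2 i j _)
  choose f f1 f2 f3 using fun q : {p : P K // Lo0 ν p} × T =>
    one hν (e.symm q.1) (Un.iota _ hQ' hc' (g q.2))
  have f4 : ∀ q, res0 ν (f q) = f q := fun q => ext _ _ fun μ => by
    by_cases l : μ ≤ ν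
    · exact co_res0 _ l
    · rw [co_res0' _ (not_le.1 l), f3 q μ (not_le.1 l)]
  have key : ∀ q r, r ≤ f q → ∃ s ≤ tr ν r, ∃ τ, (co ν r).z s (_, τ) ∧ Q.tle (e s, π τ) q ∧
      f (e s, π τ) ≤ res0 ν r := fun q r l => by
    have k0 := ((le_iff _ _).1 l).1 ν
    rw [f2] at k0
    obtain ⟨s, k1, τ, k2, k3⟩ := k0 _ le_rfl _ rfl
    refine ⟨s, k1, τ, k2, ⟨e.le_symm_apply.1 (k1.trans ((tr_mono ν l).trans (f1 q).le)),
      hπ q.2 ▸ k3⟩, le_res0_of ?_ ?_⟩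
    · rwa [f1, e.symm_apply_apply]
    · rw [f1, f2, e.symm_apply_apply]
      refine Un.iota_le hQ' hc' k2 ?_
      show Q.le _ (π (g _)) _
      rw [hπ]
      exact Nice.refl Q _ _
  refine ⟨f, fun q => ?_, fun q => (f4 q).le, fun q' q h => ?_, fun q p h => ?_, fun q o h => ?_,
    fun q p o h k => ?_, fun q' q h => ?_⟩
  · refine (le_up_tr ν _).trans (le_of_eq ?_)
    rw [f1]
    exact up_tr q.1.2
  · rw [← f4 q]
    refine le_res0_of ?_ ?_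
    · rw [f1, f1]
      exact e.symm.monotone h.1
    · rw [f1, f2, f2]
      refine Un.le_iota hQ' hc' rfl ?_
      show Q.le (e (e.symm _)) (π (g _)) (π (g _))
      rw [hπ, hπ, e.apply_symm_apply]
      exact h.2
  · obtain ⟨s, -, τ, -, k⟩ := key q p h
    exact ⟨_, k⟩
  · refine stem0_of_lad ?_
    rw [f1, f2]
    refine ⟨_, rfl, ?_⟩
    show Q.lad (e (e.symm _)) (π (g _)) o
    rwa [hπ, e.apply_symm_apply]
  · obtain ⟨r, k1, o', k2, y, k3, k4⟩ := k p le_rfl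
    obtain ⟨s, l1, τ, l2, l3, l4⟩ := key q r (k1.trans h)
    obtain rfl := (co ν r).fn s _ _ ((co ν r).op y _ _ k3 l1) l2
    exact ⟨_, l3, l4.trans (res0_mono ν k1), o', k2,
      Nice.lad_mono o' (e (tr ν r), π τ) (e s, π τ) k4 ⟨e.monotone l1, Nice.refl Q _ _⟩⟩
  · obtain ⟨s, l1, τ, l2, l3, -⟩ := key q _ h
    rw [f2] at l2
    rw [f1] at l1
    have l4 : τ = g q'.2 := congrArg Prod.snd l2
    rw [l4, hπ] at l3
    exact ⟨e s, e.le_symm_apply.1 l1, l3⟩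

end Pool.Agent.Lib.MP_491cc4_lc.Cx.It0
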