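import Pool.Agent.Lib.MP_491cc4_lc.Cx.Un

set_option autoImplicit false
set_option linter.unusedSectionVars false

namespace Pool.Agent.Lib.MP_491cc4_lc.Cx

open Set Cardinal Filter Pool.Agent.Lib.MP_d4b40b_lc

namespace Rc

variable (K : Type) [LinearOrder K] [WellFoundedLT K] [OrderBot K] [Lc K]

lemma exists_code (A : Type) (a0 : A) : ∃ (e : A → K) (d : K → A), e a0 = ⊥ ∧
    (#A ≤ #K → ∀ a, d (e a) = a ∧ #(Iio (e a)) ≤ #A) := by
  classical
  by_cases h : #A ≤ #K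
  · obtain ⟨e0⟩ := (Cardinal.le_def _ _).1 (le_mk_Lt h)
    have : Nonempty A := ⟨a0⟩
    let e : A → K := fun a => Equiv.swap (e0 a0).1 ⊥ (e0 a).1
    have he : Function.Injective e := fun a b k =>
      e0.injective (Subtype.ext ((Equiv.swap _ _).injective k))
    refine ⟨e, Function.invFun e, Equiv.swap_apply_left _ _, fun _ a =>
      ⟨Function.leftInverse_invFun he a, ?_⟩⟩
    simp only [e, Equiv.swap_apply_def]
    split_ifs
    · simp
    · exact le_of_lt (e0 a0).2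
    · exact le_of_lt (e0 a).2
  · exact ⟨fun _ => ⊥, fun _ => a0, rfl, fun k => absurd k h⟩

/-- the data of a stage -/
abbrev Dt : Type := ((K → K) → Prop) × ((K → K) → (K → K) → Prop)

variable {K}

/-- the conditions of a stage -/
def PO (D : Dt K) : Type := {p // D.1 p}

instance (D : Dt K) : Preorder (PO D) where
  le := Relation.ReflTransGen fun a b => D.2 a.1 b.1
  le_refl _ := Relation.ReflTransGen.refl
  le_trans _ _ _ := Relation.ReflTransGen.trans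

abbrev UU (D : Dt K) (μ : K) : Type := Un (PO D) (Iio (th μ)) (Iio μ)

noncomputable def enc (D : Dt K) (μ : K) : UU D μ → K := (exists_code K (UU D μ) Un.top).choose

noncomputable def dec (D : Dt K) (μ : K) : K → UU D μ :=
  (exists_code K (UU D μ) Un.top).choose_spec.choose

lemma enc_top (D : Dt K) (μ : K) : enc D μ Un.top = ⊥ :=
  (exists_code K (UU D μ) Un.top).choose_spec.choose_spec.1

lemma dec_enc {D : Dt K} {μ : K} (h : #(UU D μ) ≤ #K) (z : UU D μ) :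
    dec D μ (enc D μ z) = z ∧ #(Iio (enc D μ z)) ≤ #(UU D μ) :=
  (exists_code K (UU D μ) Un.top).choose_spec.choose_spec.2 h z

noncomputable def trunc (μ : K) (p : K → K) : K → K := fun a => if _ : a < μ then p a else ⊥

lemma trunc_lt {μ a : K} (h : a < μ) (p : K → K) : trunc μ p a = p a := dif_pos h

lemma trunc_ge {μ a : K} (h : ¬ a < μ) (p : K → K) : trunc μ p a = ⊥ := dif_neg h

/-- one step of the recursion -/
def stp (ν : K) (g : ∀ μ, μ < ν → Dt K) : Dt K :=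
  (fun p => (∀ μ, ¬ μ < ν → p μ = ⊥) ∧ (∀ μ (h : μ < ν), ∃ z, p μ = enc (g μ h) μ z) ∧
      East {μ | p μ ≠ ⊥},
    fun p' p => (∀ μ (h : μ < ν) (k : (g μ h).1 (trunc μ p')),
        Un.le (P := PO (g μ h)) ⟨_, k⟩ (dec (g μ h) μ (p' μ)) (dec (g μ h) μ (p μ))) ∧
      {μ | ∃ (h : μ < ν) (k : (g μ h).1 (trunc μ p')),
        ¬ Un.dle (P := PO (g μ h)) ⟨_, k⟩ (dec (g μ h) μ (p' μ)) (dec (g μ h) μ (p μ))}.Finite)

noncomputable def F : K → Dt K := (wellFounded_lt (α := K)).fix stp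

lemma F_eq (ν : K) : F ν = stp ν fun μ _ => F μ := (wellFounded_lt (α := K)).fix_eq _ ν

lemma F1 {ν : K} {p : K → K} : (F ν).1 p ↔ (∀ μ, ¬ μ < ν → p μ = ⊥) ∧
    (∀ μ < ν, ∃ z, p μ = enc (F μ) μ z) ∧ East {μ | p μ ≠ ⊥} := by
  rw [F_eq]; rfl

lemma F2 {ν : K} {p' p : K → K} : (F ν).2 p' p ↔ (∀ μ < ν, ∀ k : (F μ).1 (trunc μ p'),
      Un.le (P := PO (F μ)) ⟨_, k⟩ (dec (F μ) μ (p' μ)) (dec (F μ) μ (p μ))) ∧
    {μ | ∃ (_ : μ < ν) (k : (F μ).1 (trunc μ p')),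
      ¬ Un.dle (P := PO (F μ)) ⟨_, k⟩ (dec (F μ) μ (p' μ)) (dec (F μ) μ (p μ))}.Finite := by
  rw [F_eq]; rfl

lemma card_UU {B : Set K} (hB : Bg B) (ht : ∀ a ∈ B, th a ∈ B) {μ : K} (h : μ ∈ B)
    (k : #(PO (F μ)) < #B) : #(UU (F μ) μ) < #B :=
  Un.card hB.inac k (hB.init _ (ht _ h)) (hB.init _ h)

lemma card_PO (ν : K) : ∀ B : Set K, Bg B → (∀ a ∈ B, th a ∈ B) → ν ∈ B → #(PO (F ν)) < #B := by
  induction ν using (wellFounded_lt (α := K)).induction with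
  | _ ν ih =>
  intro B hB ht hν
  have h1 : ∀ μ : Iio ν, ∃ b ∈ B, ∀ z, enc (F μ.1) μ.1 z < b := fun μ => by
    have k1 := card_UU hB ht (hB.low (le_of_lt μ.2) hν) (ih _ μ.2 B hB ht (hB.low (le_of_lt μ.2) hν))
    have k2 := card_UU Lc.bgK (fun _ _ => trivial) (mem_univ _)
      (ih _ μ.2 _ Lc.bgK (fun _ _ => trivial) trivial)
    rw [mk_univ] at k2
    obtain ⟨b, k3, k4⟩ := hB.exists_ge (inacc_succ_lt hB.inac k1)
    refine ⟨b, k3, fun z => not_le.1 fun l => ?_⟩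
    exact absurd ((k4.trans (mk_le_mk_of_subset (Iio_subset_Iio l))).trans (dec_enc k2.le z).2)
      (not_le.2 (Order.lt_succ _))
  choose g h2 h3 using h1
  obtain ⟨b, h4, h5⟩ := hB.bound (hB.init _ hν) g h2
  have h6 : ∀ (s : PO (F ν)) (μ : Iio ν), s.1 μ.1 < b := fun s μ => by
    obtain ⟨z, k⟩ := (F1.1 s.2).2.1 μ.1 μ.2
    exact k ▸ (h3 μ z).trans (h5 μ)
  have h7 : #(PO (F ν)) ≤ #(Iio ν → Iio b) :=
    mk_le_of_injective (f := fun s μ => ⟨s.1 μ.1, h6 s μ⟩) fun s t e => Subtype.ext (funext fun μ => by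
      by_cases l : μ < ν
      · exact congrArg Subtype.val (congrFun e ⟨μ, l⟩)
      · rw [(F1.1 s.2).1 μ l, (F1.1 t.2).1 μ l])
  refine h7.trans_lt ?_
  rw [← power_def]
  exact inacc_pow_lt hB.inac (hB.init _ h4) (hB.init _ hν)

lemma card_PO' (ν : K) : #(PO (F ν)) < #K :=
  mk_univ (α := K) ▸ card_PO ν _ Lc.bgK (fun _ _ => trivial) trivial

lemma de (μ : K) (z : UU (F μ) μ) : dec (F μ) μ (enc (F μ) μ z) = z :=
  (dec_enc (mk_univ (α := K) ▸ (card_UU Lc.bgK (fun _ _ => trivial) (mem_univ _)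
    (by rw [mk_univ]; exact card_PO' μ)).le) z).1

lemma dec_bot (μ : K) : dec (F μ) μ ⊥ = Un.top := enc_top (F μ) μ ▸ de μ _

lemma east_mono {s t : Set K} (h : East t) (k : s ⊆ t) : East s :=
  ⟨k.trans h.1, h.2.1.imp fun _ j => k.trans j, fun ν j => (h.2.2 ν j).imp fun _ l =>
    ⟨l.1, fun a n => l.2 a (k n)⟩⟩

variable (K) in
/-- the conditions of the whole iteration -/
def PW : Type := {p : K → K // (∀ μ, ∃ z, p μ = enc (F μ) μ z) ∧ East {μ | p μ ≠ ⊥}}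

noncomputable def tr (ν : K) (p : PW K) : PO (F ν) :=
  ⟨trunc ν p.1, F1.2 ⟨fun _ h => trunc_ge h _, fun μ h => trunc_lt h p.1 ▸ p.2.1 μ,
    east_mono p.2.2 fun μ h k => h (by
      by_cases l : μ < ν
      · exact (trunc_lt l _).trans k
      · exact trunc_ge l _)⟩⟩

def up (ν : K) (s : PO (F ν)) : PW K := ⟨s.1, fun μ => by
  by_cases l : μ < ν
  · exact (F1.1 s.2).2.1 μ l
  · exact ⟨Un.top, ((F1.1 s.2).1 μ l).trans (enc_top _ _).symm⟩, (F1.1 s.2).2.2⟩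

noncomputable def co (ν : K) (p : PW K) : UU (F ν) ν := dec (F ν) ν (p.1 ν)

lemma enc_co (ν : K) (p : PW K) : enc (F ν) ν (co ν p) = p.1 ν := by
  obtain ⟨z, h⟩ := p.2.1 ν
  rw [co, h, de]

def LW (p' p : PW K) : Prop := (∀ μ, Un.le (tr μ p') (co μ p') (co μ p)) ∧
  {μ | ¬ Un.dle (tr μ p') (co μ p') (co μ p)}.Finite

lemma co_up_ge {ν μ : K} (s : PO (F ν)) (h : ν ≤ μ) : co μ (up ν s) = Un.top := by
  rw [co, ← dec_bot]
  exact congrArg _ ((F1.1 s.2).1 μ (not_lt.2 h))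

lemma F2_iff {ν : K} {s' s : PO (F ν)} : (F ν).2 s'.1 s.1 ↔ LW (up ν s') (up ν s) := by
  rw [F2]
  refine and_congr ⟨fun h μ => ?_, fun h μ _ _ => h μ⟩ ⟨fun h => h.subset fun μ k => ?_,
    fun h => h.subset fun μ ⟨_, _, k⟩ => k⟩
  · by_cases l : μ < ν
    · exact h μ l (tr μ (up ν s')).2
    · rw [co_up_ge s (not_lt.1 l)]
      exact (Un.dle_top _ _).le
  · by_cases l : μ < ν
    · exact ⟨l, (tr μ (up ν s')).2, k⟩
    · rw [mem_ofPred, co_up_ge s (not_lt.1 l)] at k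
      exact absurd (Un.dle_top _ _) k

lemma co_up_lt {ν μ : K} (p : PW K) (h : μ < ν) : co μ (up ν (tr ν p)) = co μ p :=
  congrArg (dec (F μ) μ) (trunc_lt h p.1)

lemma tr_ext {ν : K} {p p' : PW K} (h : ∀ μ < ν, co μ p = co μ p') : tr ν p = tr ν p' :=
  Subtype.ext (funext fun μ => by
    show trunc ν p.1 μ = trunc ν p'.1 μ
    by_cases l : μ < ν
    · rw [trunc_lt l, trunc_lt l, ← enc_co, h μ l, enc_co]
    · rw [trunc_ge l, trunc_ge l])

lemma LW.tr {p' p : PW K} (h : LW p' p) (ν : K) : tr ν p' ≤ tr ν p := by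
  have e : ∀ μ < ν, Rc.tr μ (up ν (Rc.tr ν p')) = Rc.tr μ p' := fun μ l =>
    tr_ext fun a k => co_up_lt _ (k.trans l)
  refine Relation.ReflTransGen.single (F2_iff.2 ⟨fun μ => ?_, h.2.subset fun μ k => ?_⟩)
  · by_cases l : μ < ν
    · rw [e μ l, co_up_lt _ l, co_up_lt _ l]
      exact h.1 μ
    · rw [co_up_ge (Rc.tr ν p) (not_lt.1 l)]
      exact (Un.dle_top _ _).le
  · by_cases l : μ < ν
    · rwa [mem_ofPred, e μ l, co_up_lt _ l, co_up_lt _ l] at k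
    · rw [mem_ofPred, co_up_ge (Rc.tr ν p) (not_lt.1 l)] at k
      exact absurd (Un.dle_top _ _) k

instance : Preorder (PW K) where
  le := LW
  le_refl _ := ⟨fun _ => (Un.drefl _ _).le, finite_empty.subset fun _ h => h (Un.drefl _ _)⟩
  le_trans _ _ _ h k := ⟨fun μ => (h.1 μ).trans ((k.1 μ).mono (h.tr μ)),
    (h.2.union k.2).subset fun μ j => by
      by_contra l
      simp only [mem_union, mem_ofPred, not_or, not_not] at l
      exact j (l.1.trans (l.2.mono (h.tr μ)))⟩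

lemma up_le {ν : K} {s' s : PO (F ν)} : up ν s' ≤ up ν s ↔ s' ≤ s := by
  refine ⟨fun h => Relation.ReflTransGen.single (F2_iff.2 h), fun h => ?_⟩
  induction h with
  | refl => exact le_rfl
  | tail _ k ih => exact le_trans ih (F2_iff.1 k)

lemma build (s : Set K) (hs : East s) (G : ∀ δ : K, PO (F δ) → UU (F δ) δ) :
    ∃ p : PW K, ∀ δ, (δ ∈ s → co δ p = G δ (tr δ p)) ∧ (δ ∉ s → co δ p = Un.top) := by
  classical
  let f : K → K := (wellFounded_lt (α := K)).fix fun δ g =>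
    if h : δ ∈ s ∧ (F δ).1 (fun a => if k : a < δ then g a k else ⊥) then
      enc (F δ) δ (G δ ⟨_, h.2⟩) else ⊥
  have hf : ∀ δ, f δ = if h : δ ∈ s ∧ (F δ).1 (trunc δ f) then enc (F δ) δ (G δ ⟨_, h.2⟩) else ⊥ :=
    fun δ => (wellFounded_lt (α := K)).fix_eq _ δ
  let p : PW K := ⟨f, fun μ => by
    rw [hf]
    split_ifs
    · exact ⟨_, rfl⟩
    · exact ⟨Un.top, (enc_top _ _).symm⟩, east_mono hs fun μ h => by
      by_contra k
      exact h (by rw [hf, dif_neg fun j => k j.1])⟩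
  refine ⟨p, fun δ => ⟨fun h => ?_, fun h => ?_⟩⟩
  · show dec _ _ (f δ) = _
    rw [hf, dif_pos ⟨h, (tr δ p).2⟩, de]
    rfl
  · show dec _ _ (f δ) = _
    rw [hf, dif_neg fun j => h j.1, dec_bot]

end Rc

open Rc in
theorem exists_it0 (K : Type) [LinearOrder K] [WellFoundedLT K] [OrderBot K] [Lc K] :
    Nonempty (It0 K) := ⟨{
  P := PW K
  PO ν := PO (F ν)
  tr := tr
  up := up
  co := co
  le_iff _ _ := Iff.rfl
  up_le _ _ _ := up_le
  tr_up ν s := Subtype.ext (funext fun μ => by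
    show trunc ν s.1 μ = s.1 μ
    by_cases l : μ < ν
    · exact trunc_lt l _
    · rw [trunc_ge l, (F1.1 s.2).1 μ l])
  co_up_ge _ _ := co_up_ge
  co_up_lt _ _ := co_up_lt
  tr_ext _ _ _ := tr_ext
  ext p p' h := Subtype.ext (funext fun μ => by rw [← enc_co, h μ, enc_co])
  east p := east_mono p.2.2 fun μ h k => h (by rw [co, k, dec_bot])
  build := build
  card ν := ⟨card_PO' ν, fun δ h k => card_PO ν _ (Lc.Y_bg δ h) (Lc.Y_th δ h) k⟩ }⟩

end Pool.Agent.Lib.MP_491cc4_lc.Cx
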