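import Pool.Agent.Lib.MP_491cc4_lc.Cx.ItB
import Pool.Agent.Lib.MP_491cc4_lc.Cx.ItC
import Pool.Agent.Lib.MP_491cc4_lc.Cx.Rec

set_option autoImplicit false
set_option linter.unusedSectionVars false

namespace Pool.Agent.Lib.MP_491cc4_lc.Cx

open Set Cardinal Filter Pool.Agent.Lib.MP_d4b40b_lc It0

theorem exists_it (K : Type) [LinearOrder K] [WellFoundedLT K] [OrderBot K] [Lc K] :
    Nonempty (It K) := by
  obtain ⟨_⟩ := exists_it0 K
  exact ⟨{
    P := It0.P K
    Lo := Lo0
    res := res0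
    stem := stem0
    Tl := Tl0
    gl := gl0
    cc := cc0
    lo_ex := lo0_ex
    lo_mono := fun _ _ _ h k μ l => h μ (k.trans l)
    lo_lim := fun _ h _ k => lo0_lim h k
    lo_card := fun ν => (lo0_le ν).trans_lt (It0.card ν).1
    lo_small := fun _ h => lo0_small h
    le_res := le_res0
    res_mono := fun ν _ _ h => res0_mono ν h
    gl_le := gl0_le
    gl_mono := gl0_mono
    gl_mid := gl0_mid
    tl_dec := tl0_dec
    tl_clos := tl0_clos
    stem_reg := fun _ _ => reg_hull
    stem_Y := stem0_Y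
    stem_lt := stem0_lt
    stem_unb := stem0_unb
    emb := emb0 }⟩

end Pool.Agent.Lib.MP_491cc4_lc.Cx
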