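import Pool.Agent.Lib.MP_491cc4_lc.Cx.Base

set_option autoImplicit false
set_option linter.unusedSectionVars false

namespace Pool.Agent.Lib.MP_491cc4_lc.Cx

open Set Cardinal Filter Pool.Agent.Lib.MP_d4b40b_lc

/-- the large cardinal data -/
class Lc (K : Type) [LinearOrder K] where
  L : Type
  [lin : LinearOrder L]
  [wf : WellFoundedLT L]
  [bot : OrderBot L]
  X : Type
  bgK : Bg (univ : Set K)
  bgL : Bg (univ : Set L)
  KL : #K < #L
  mahlo : ∀ g : L → L, ∃ b, Bg (Iio b) ∧ ∀ a < b, g a < b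
  Y : Set K
  th : K → K
  Y_bg : ∀ ν ∈ Y, Bg (Iio ν)
  Y_th : ∀ ν ∈ Y, ∀ a < ν, th a < ν
  lt_th : ∀ a, a < th a
  m : Ultrafilter X
  cpl : CardinalInterFilter (m : Filter X) #K
  nu : X → K
  nuY : ∀ᶠ x in (m : Filter X), nu x ∈ Y
  nu_gt : ∀ a, ∀ᶠ x in (m : Filter X), a < nu x
  nu_norm : ∀ f : X → K, (∀ᶠ x in (m : Filter X), f x < nu x) →
    ∃ a, ∀ᶠ x in (m : Filter X), f x = a
  In : X → L → Prop
  fine : ∀ a, ∀ᶠ x in (m : Filter X), In x a
  norm : ∀ f : X → L, (∀ᶠ x in (m : Filter X), In x (f x)) → ∃ a, ∀ᶠ x in (m : Filter X), f x = a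
  small : ∀ᶠ x in (m : Filter X), #{a | In x a} ≤ #(Iio (th (nu x)))

attribute [instance_reducible] Lc.lin Lc.bot
attribute [instance] Lc.lin Lc.wf Lc.bot Lc.cpl

export Lc (th nu)

variable (K : Type) [LinearOrder K] [Lc K]

abbrev LL : Type := Lc.L K

abbrev XX : Type := Lc.X K

abbrev YY : Set K := Lc.Y

/-- the ultrafilter -/
abbrev mu : Ultrafilter (XX K) := Lc.m

/-- the ultrafilter as a filter -/
abbrev mm : Filter (XX K) := (mu K : Filter (XX K))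

lemma inacK : (#K).IsInaccessible := mk_univ (α := K) ▸ (Lc.bgK (K := K)).inac

lemma inacL : (#(LL K)).IsInaccessible := mk_univ (α := LL K) ▸ (Lc.bgL (K := K)).inac

lemma infK : ℵ₀ ≤ #K := (inacK K).1.le

lemma infL : ℵ₀ ≤ #(LL K) := (inacL K).1.le

variable {K}

lemma iioK (a : K) : #(Iio a) < #K := mk_univ (α := K) ▸ Lc.bgK.init a trivial

lemma iicK (a : K) : #(Iic a) < #K := mk_Iic_lt (infK K) (iioK a)

lemma iioL (a : LL K) : #(Iio a) < #(LL K) := mk_univ (α := LL K) ▸ Lc.bgL.init a trivial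

lemma iicL (a : LL K) : #(Iic a) < #(LL K) := mk_Iic_lt (infL K) (iioL a)

lemma boundK {I : Type} {s : Set I} (hs : #s < #K) (f : I → K) : ∃ b, ∀ i ∈ s, f i < b :=
  (Lc.bgK.bound' (by rwa [mk_univ]) f fun _ _ => trivial).imp fun _ k => k.2

lemma boundL {I : Type} {s : Set I} (hs : #s < #(LL K)) (f : I → LL K) : ∃ b, ∀ i ∈ s, f i < b :=
  (Lc.bgL.bound' (by rwa [mk_univ]) f fun _ _ => trivial).imp fun _ k => k.2

lemma gtK (a : K) : ∃ b, a < b := ⟨_, Lc.lt_th a⟩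

lemma gtL (a : LL K) : ∃ b, a < b := (Lc.bgL.gt (mem_univ a)).imp fun _ k => k.2

lemma aeK {J : Type} {R : Set J} (hR : #R < #K) {Q : XX K → J → Prop}
    (h : ∀ r ∈ R, ∀ᶠ x in mm K, Q x r) : ∀ᶠ x in mm K, ∀ r ∈ R, Q x r := ae_ball _ _ hR h

lemma ae_not {Q : XX K → Prop} : (∀ᶠ x in mm K, ¬ Q x) ↔ ¬ ∀ᶠ x in mm K, Q x :=
  Ultrafilter.eventually_not

lemma ae_or {Q R : XX K → Prop} :
    (∀ᶠ x in mm K, Q x ∨ R x) ↔ (∀ᶠ x in mm K, Q x) ∨ ∀ᶠ x in mm K, R x :=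
  Ultrafilter.eventually_or

variable (K) in
/-- types whose elements can be caught by the small sets -/
class Sm (Z : Type) where
  inn : XX K → Z → Prop
  fine : ∀ z, ∀ᶠ x in mm K, inn x z
  norm : ∀ f : XX K → Z, (∀ᶠ x in mm K, inn x (f x)) → ∃ z, ∀ᶠ x in mm K, f x = z
  small : ∀ᶠ x in mm K, #{z | inn x z} ≤ #(Iio (th (nu x)))

export Sm (inn)

lemma Y_cl (g : K → K) : ∃ ν ∈ YY K, ∀ a < ν, g a < ν := by
  have : ∀ᶠ x in mm K, ∀ a < nu x, g a < nu x := by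
    by_contra h
    rw [← ae_not] at h
    simp only [not_forall] at h
    obtain ⟨f, hf⟩ := h.choice
    obtain ⟨a, ha⟩ := Lc.nu_norm f (hf.mono fun _ k => k.1)
    obtain ⟨x, k1, k2, k3⟩ := (ha.and (hf.and (Lc.nu_gt (g a)))).exists
    exact k2.2 (k1 ▸ k3)
  obtain ⟨x, k1, k2⟩ := (Lc.nuY.and this).exists
  exact ⟨_, k1, k2⟩

lemma th_inf : ∀ᶠ x in mm K, ℵ₀ ≤ #(Iio (th (nu x))) := Lc.nuY.mono fun _ h =>
  (Lc.Y_bg _ h).inf.trans (mk_le_mk_of_subset (Iio_subset_Iio (Lc.lt_th _).le))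

section
variable {Z W : Type} [Sm K Z] [Sm K W]

lemma ae_exi {φ : XX K → Z → Prop} (h : ∀ᶠ x in mm K, ∃ z, inn x z ∧ φ x z) :
    ∃ z, ∀ᶠ x in mm K, φ x z := by
  obtain ⟨x0, z0, -⟩ := h.exists
  have : Nonempty Z := ⟨z0⟩
  obtain ⟨f, hf⟩ := h.choice
  obtain ⟨z, hz⟩ := Sm.norm f (hf.mono fun _ k => k.1)
  exact ⟨z, (hz.and hf).mono fun _ k => k.1 ▸ k.2.2⟩

lemma diag {φ : XX K → Z → Prop} (h : ∀ z, ∀ᶠ x in mm K, φ x z) :
    ∀ᶠ x in mm K, ∀ z, inn x z → φ x z := by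
  by_contra k
  rw [← ae_not] at k
  obtain ⟨z, hz⟩ := ae_exi (φ := fun x z => ¬ φ x z) (k.mono fun x j => by simpa using j)
  exact ae_not.1 hz (h z)

lemma skolem {φ : XX K → Z → W → Prop} (h : ∀ z, ∃ w, ∀ᶠ x in mm K, φ x z w) :
    ∀ᶠ x in mm K, ∀ z, inn x z → ∃ w, inn x w ∧ φ x z w :=
  diag fun z => (h z).elim fun w k => ((Sm.fine w).and k).mono fun _ j => ⟨w, j⟩

lemma smallK : ∀ᶠ x in mm K, #{z : Z | inn x z} < #K :=
  Sm.small.mono fun _ h => h.trans_lt (iioK _)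

instance : Sm K (Z × W) where
  inn x z := inn x z.1 ∧ inn x z.2
  fine z := (Sm.fine z.1).and (Sm.fine z.2)
  norm f h := by
    obtain ⟨a, ha⟩ := Sm.norm (fun x => (f x).1) (h.mono fun _ k => k.1)
    obtain ⟨b, hb⟩ := Sm.norm (fun x => (f x).2) (h.mono fun _ k => k.2)
    exact ⟨(a, b), (ha.and hb).mono fun _ k => Prod.ext k.1 k.2⟩
  small := ((Sm.small (Z := Z)).and ((Sm.small (Z := W)).and th_inf)).mono fun _ k =>
    mk_sprod_le' k.2.2 k.1 k.2.1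

end

instance : Sm K K where
  inn x a := a < nu x
  fine := Lc.nu_gt
  norm := Lc.nu_norm
  small := Eventually.of_forall fun _ => mk_le_mk_of_subset (Iio_subset_Iio (Lc.lt_th _).le)

instance : Sm K (LL K) := ⟨Lc.In, Lc.fine, Lc.norm, Lc.small⟩

instance : Sm K Bool where
  inn _ _ := True
  fine _ := Eventually.of_forall fun _ => trivial
  norm f _ := ae_cst' (mu K) #K (by simpa using (natCast_lt_aleph0 (n := 2)).trans_le (infK K)) f
  small := th_inf.mono fun _ k => mk_le_aleph0.trans k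

/-- a type of size at most `|L|` -/
@[reducible] noncomputable def Sm.ofCard {Z : Type} (h : #Z ≤ #(LL K)) : Sm K Z :=
  let e : Z ↪ LL K := ((Cardinal.le_def _ _).1 h).some
  { inn x z := inn x (e z)
    fine z := Sm.fine (e z)
    norm f k := by
      obtain ⟨a, ha⟩ := Sm.norm (fun x => e (f x)) k
      obtain ⟨x0, h0⟩ := ha.exists
      exact ⟨f x0, ha.mono fun _ j => e.injective (j.trans h0.symm)⟩
    small := (Sm.small (Z := LL K)).mono fun x k =>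
      (mk_preimage_of_injective e {a | inn x a} e.injective).trans k }

end Pool.Agent.Lib.MP_491cc4_lc.Cx
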