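import Pool.Agent.Lib.MP_d4b40b_lc.Defs

set_option autoImplicit false

namespace Pool.Agent.Lib.MP_491cc4_lc.Cx

open Pool.Agent.Lib.helper81 Pool.Agent.Lib.MP_fcebdf_lc

/-- `c` is a Mahlo cardinal: inaccessible, and every map of `c` into itself has an inaccessible
closure point below `c`. -/
def Mahlo (c : Cardinal.{0}) : Prop :=
  c.IsInaccessible ∧ ∀ f : Ordinal.{0} → Ordinal.{0}, (∀ a < c.ord, f a < c.ord) →
    ∃ b < c, b.IsInaccessible ∧ ∀ a < b.ord, f a < b.ord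

variable {M : Type} (E : M → M → Prop)

/-- `U` is an ultrafilter on `X`. -/
def Ult (U X : M) : Prop :=
  (∀ A, E A U → Sub E A X ∧ ∃ x, E x A) ∧ E X U ∧
    (∀ A B, E A U → Sub E A B → Sub E B X → E B U) ∧
    (∀ A B C, E A U → E B U → (∀ x, E x C ↔ E x A ∧ E x B) → E C U) ∧
    ∀ A B, Sub E A X → (∀ x, E x B ↔ E x X ∧ ¬ E x A) → E A U ∨ E B U

/-- `U` is closed under intersections of fewer than `|k|` sets. -/
def Cpl (U X k : M) : Prop :=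
  ∀ F C, Sub E F U → ¬ Le E k F → (∀ x, E x C ↔ E x X ∧ ∀ A, E A F → E x A) → E C U

/-- `k` is an uncountable cardinal and `U` is a normal ultrafilter on `k`. -/
def Normal (U k : M) : Prop :=
  IsOrd E k ∧ (∀ x, E x k → ¬ Le E k x) ∧ ¬ Ctbl E k ∧ Ult E U k ∧ Cpl E U k k ∧
    (∀ A x, E A U → ∃ y, E y A ∧ y ≠ x) ∧
    ∀ F D, (∀ i A, E i k → Rel E F i A → E A U) → (∀ i, E i k → ∃! A, Rel E F i A) →
      (∀ x, E x D ↔ E x k ∧ ∀ i A, E i x → Rel E F i A → E x A) → E D U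

/-- `V ≤_T U`: there is a monotone map from `U` to `V` with cofinal image. -/
def TukeyLE (V U : M) : Prop :=
  ∃ f, (∀ A, E A U → ∃! B, Rel E f A B) ∧ (∀ A B, E A U → Rel E f A B → E B V) ∧
    (∀ A A' B B', E A U → E A' U → Rel E f A B → Rel E f A' B' → Sub E A' A → Sub E B' B) ∧
    ∀ C, E C V → ∃ A B, E A U ∧ Rel E f A B ∧ Sub E B C

/-- `V ≤_RK W`, for `V` on `X` and `W` on `Y`. -/
def RKLE (V X W Y : M) : Prop :=
  ∃ g, (∀ y, E y Y → ∃! x, Rel E g y x) ∧ (∀ y x, E y Y → Rel E g y x → E x X) ∧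
    ∀ B, E B V ↔ Sub E B X ∧ ∃ C, E C W ∧ ∀ y, E y C ↔ E y Y ∧ ∃ x, E x B ∧ Rel E g y x

/-- `Z` on `Y = X × X'` is the Fubini product of `W` on `X` and `W'` on `X'`. -/
def Fub (W X W' X' Z Y : M) : Prop :=
  (∀ p, E p Y ↔ ∃ x y, E x X ∧ E y X' ∧ OP E p x y) ∧
    ∀ A, E A Z ↔ Sub E A Y ∧ ∃ B, E B W ∧ ∀ x, E x B ↔ E x X ∧
      ∃ C, E C W' ∧ ∀ y, E y C ↔ E y X' ∧ Rel E A x y

/-- `W` on `Y` is the `n`-th Fubini power of `U` on `k`. -/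
def FPow (U k : M) : ℕ → M → M → Prop
  | 0, W, Y => (∃ a, ∀ x, E x Y ↔ x = a) ∧ ∀ A, E A W ↔ A = Y
  | n + 1, W, Y => ∃ W' Y', FPow U k n W' Y' ∧ Fub E U k W' Y' W Y

end Pool.Agent.Lib.MP_491cc4_lc.Cx
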