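import Pool.Agent.Lib.MP_491cc4_lc.Cx.Lc
import Pool.Agent.Lib.MP_491cc4_lc.Cx.Stmt

set_option autoImplicit false
set_option linter.unusedSectionVars false

namespace Pool.Agent.Lib.MP_491cc4_lc.Cx

open Set Cardinal Filter Pool.Agent.Lib.MP_d4b40b_lc

namespace LcEx

section order

variable {W W' : Type} [LinearOrder W] [LinearOrder W']

/-- the order type of `S` is an inaccessible cardinal -/
def Bq (S : Set W) : Prop := (#S).IsInaccessible ∧ ∀ a ∈ S, #(S ∩ Iio a : Set W) < #S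

/-- the order type of `S` is a Mahlo cardinal -/
def Mq (S : Set W) : Prop :=
  Bq S ∧ ∀ g : W → W, MapsTo g S S → ∃ b ∈ S, Bq (S ∩ Iio b) ∧ ∀ a ∈ S, a < b → g a < b

lemma img_inter {f : W → W'} {S : Set W} (h : StrictMonoOn f S) {a : W} (ha : a ∈ S) :
    f '' (S ∩ Iio a) = f '' S ∩ Iio (f a) := by
  ext y
  constructor
  · rintro ⟨b, ⟨k1, k2⟩, rfl⟩
    exact ⟨⟨b, k1, rfl⟩, h k1 ha k2⟩
  · rintro ⟨⟨b, k1, rfl⟩, k2⟩
    exact ⟨b, ⟨k1, (h.lt_iff_lt k1 ha).1 k2⟩, rfl⟩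

lemma Bq.of_img {f : W → W'} {S : Set W} (h : StrictMonoOn f S) (k : Bq (f '' S)) : Bq S := by
  have e := mk_image_eq_of_injOn f S h.injOn
  refine ⟨e ▸ k.1, fun a ha => ?_⟩
  have := k.2 (f a) ⟨a, ha, rfl⟩
  rwa [← img_inter h ha, e, mk_image_eq_of_injOn f _ (h.injOn.mono inter_subset_left)] at this

lemma Mq.of_img {f : W → W'} {S : Set W} (h : StrictMonoOn f S) (k : Mq (f '' S)) : Mq S := by
  classical
  refine ⟨k.1.of_img h, fun g hg => ?_⟩
  let g' : W' → W' := fun y => if j : ∃ a ∈ S, f a = y then f (g j.choose) else y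
  have e : ∀ a ∈ S, g' (f a) = f (g a) := fun a ha => by
    have j : ∃ b ∈ S, f b = f a := ⟨a, ha, rfl⟩
    simp only [g', dif_pos j]
    rw [h.injOn j.choose_spec.1 ha j.choose_spec.2]
  obtain ⟨_, ⟨b, hb, rfl⟩, k1, k2⟩ := k.2 g' (by
    rintro _ ⟨a, ha, rfl⟩
    rw [e a ha]
    exact ⟨_, hg ha, rfl⟩)
  refine ⟨b, hb, Bq.of_img (h.mono inter_subset_left) (by rwa [img_inter h hb]), fun a ha l => ?_⟩
  have := k2 (f a) ⟨a, ha, rfl⟩ (h ha hb l)
  rw [e a ha] at this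
  exact (h.lt_iff_lt (hg ha) hb).1 this

lemma Bq.bound {S : Set W} (h : Bq S) {I : Type} {s : Set I} (hs : #s < #S) (f : I → W)
    (hf : ∀ i ∈ s, f i ∈ S) : ∃ b ∈ S, ∀ i ∈ s, f i < b := by
  have h1 : #(⋃ i ∈ s, insert (f i) (S ∩ Iio (f i))) < #S :=
    (card_biUnion_lt_iff_forall_of_isRegular (t := fun i _ => insert (f i) (S ∩ Iio (f i)))
      h.1.isRegular hs).2 fun i k => mk_insert_le.trans_lt
        (add_lt_of_lt h.1.1.le (h.2 _ (hf i k)) (one_lt_aleph0.trans h.1.1))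
  by_contra h2
  refine absurd (mk_le_mk_of_subset fun b hb => ?_) (not_le.2 h1)
  by_contra h3
  refine h2 ⟨b, hb, fun i k => not_le.1 fun l => h3 (mem_biUnion k ?_)⟩
  rcases l.eq_or_lt with l | l
  · exact Or.inl l
  · exact Or.inr ⟨hb, l⟩

lemma iio_iio {a b : W} (h : a < b) : (Iio b ∩ Iio a : Set W) = Iio a :=
  inter_eq_right.2 (Iio_subset_Iio h.le)

lemma Bq.bg {b : W} (h : Bq (Iio b)) : Bg (Iio b) :=
  ⟨isLowerSet_Iio b, h.1, fun a ha => by rw [← iio_iio ha]; exact h.2 a ha⟩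

lemma Bq.bgu (h : Bq (univ : Set W)) : Bg (univ : Set W) :=
  ⟨isLowerSet_univ, h.1, fun a ha => by simpa using h.2 a ha⟩

/-- the index set of the boundedness criterion -/
def Ix (a : W) : Set (ℕ × Set W) := {i | i.2 ⊆ Iio a}

lemma mk_Ix (a : W) : #(Ix a) = ℵ₀ * 2 ^ #(Iio a) := by
  have : Ix a = (univ : Set ℕ) ×ˢ (𝒫 (Iio a)) := by
    ext i
    simp [Ix]
  rw [this, mk_setProd, mk_powerset, mk_univ, mk_nat]

lemma ix_lt {c d : Cardinal.{0}} (h : c.IsInaccessible) (k : d < c) : ℵ₀ * 2 ^ d < c :=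
  mul_lt_of_lt h.1.le h.1 (h.isStrongPrelimit k)

lemma bq_of_bound [WellFoundedLT W] {z : W} (h0 : ∃ a, a < z)
    (h : ∀ a < z, ∀ F : ℕ × Set W → W, (∀ i ∈ Ix a, F i < z) → ∃ b < z, ∀ i ∈ Ix a, F i < b) :
    Bq (Iio z) := by
  have hb : ∀ a < z, ∀ (I : Type) (f : I → W), #I ≤ #(Ix a) → (∀ i, f i < z) →
      ∃ b < z, ∀ i, f i < b := by
    intro a ha I f hI hf
    obtain ⟨e⟩ := (Cardinal.le_def _ _).1 hI
    have hi : Function.Injective fun i => (e i).1 := fun _ _ j => e.injective (Subtype.ext j)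
    obtain ⟨b, k1, k2⟩ := h a ha (Function.extend (fun i => (e i).1) f fun _ => a) (by
      intro i _
      by_cases j : ∃ t, (e t).1 = i
      · obtain ⟨t, rfl⟩ := j
        rw [hi.extend_apply]
        exact hf t
      · rw [Function.extend_apply' _ _ _ j]
        exact ha)
    refine ⟨b, k1, fun i => ?_⟩
    have := k2 _ (e i).2
    rwa [hi.extend_apply] at this
  have h1 : ∀ a < z, ℵ₀ * 2 ^ #(Iio a) < #(Iio z) := by
    intro a ha
    by_contra k
    obtain ⟨b, k1, k2⟩ := hb a ha (Iio z) Subtype.val (by rw [mk_Ix]; exact not_lt.1 k) fun i => i.2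
    exact lt_irrefl _ (k2 ⟨b, k1⟩)
  have h2 : ∀ d < #(Iio z), ∃ a < z, d ≤ #(Iio a) := by
    intro d hd
    by_contra j
    refine absurd ((mk_le_mk_of_subset (t := Lt W d) fun b hb => ?_).trans (mk_Lt_le d))
      (not_le.2 hd)
    exact not_le.1 fun l => j ⟨b, hb, l⟩
  have h3 : ∀ d : Cardinal.{0}, d ≤ ℵ₀ * 2 ^ d := fun d =>
    (cantor d).le.trans (le_mul_left aleph0_ne_zero)
  have h4 : ∀ d : Cardinal.{0}, ℵ₀ ≤ ℵ₀ * 2 ^ d := fun d =>
    le_mul_right (power_ne_zero d two_ne_zero)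
  obtain ⟨a0, ha0⟩ := h0
  have h5 : ℵ₀ < #(Iio z) := (h4 _).trans_lt (h1 a0 ha0)
  have h6 : ∀ (I : Type) (f : I → W), #I < #(Iio z) → (∀ i, f i < z) → ∃ b < z, ∀ i, f i < b := by
    intro I f hI hf
    obtain ⟨a, k1, k2⟩ := h2 _ hI
    exact hb a k1 I f (by rw [mk_Ix]; exact k2.trans (h3 _)) hf
  refine ⟨⟨h5, ?_, fun d hd => ?_⟩, fun a ha => ?_⟩
  · by_contra k
    rw [← Ordinal.cof_toType, not_le] at k
    obtain ⟨s, hs, hs'⟩ := Order.exists_cof_eq (#(Iio z)).ord.ToType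
    obtain ⟨e⟩ : Nonempty ((#(Iio z)).ord.ToType ≃ Iio z) := by
      rw [← Cardinal.eq]; simp
    have k1 : ∀ r : (#(Iio z)).ord.ToType, ∃ b < z, ∀ i : Iic r, (e i.1).1 < b := fun r =>
      h6 _ _ (mk_Iic_lt h5.le (by simpa using mk_Iio_lt r)) fun i => (e i.1).2
    choose bb k2 k3 using k1
    obtain ⟨b, k4, k5⟩ := h6 s (fun r => bb r.1) (hs'.trans_lt k) fun r => k2 r.1
    obtain ⟨r, k6, k7⟩ := hs (e.symm ⟨b, k4⟩)
    have := (k3 r ⟨_, k7⟩).trans (k5 ⟨r, k6⟩)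
    simp at this
  · obtain ⟨a, k1, k2⟩ := h2 _ hd
    exact ((power_le_power_left two_ne_zero k2).trans (le_mul_left aleph0_ne_zero)).trans_lt
      (h1 a k1)
  · rw [iio_iio ha]
    exact (h3 _).trans_lt (h1 a ha)

lemma exists_col [WellFoundedLT W] [WellFoundedLT W'] (x : Set W) (h : #x < #W') {t : W'}
    (ht : #(Iio t) < #x) :
    ∃ z ∈ x, ∃ f : W → W', StrictMonoOn f (x ∩ Iio z) ∧ f '' (x ∩ Iio z) = Iio t := by
  classical
  rcases InitialSeg.total ((· < ·) : x → x → Prop) ((· < ·) : W' → W' → Prop) with e | e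
  · have h1 : t ∈ range e := by
      by_contra k
      refine absurd (mk_le_of_injective (f := fun a : x => (⟨e a, ?_⟩ : Iio t))
        fun a b j => e.injective (congrArg Subtype.val j)) (not_le.2 ht)
      exact not_le.1 fun l => k (InitialSeg.mem_range_of_le e l)
    obtain ⟨z, rfl⟩ := h1
    refine ⟨z.1, z.2, fun a => if j : a ∈ x then e ⟨a, j⟩ else e z, fun a ha b hb l => ?_, ?_⟩
    · simp only [dif_pos ha.1, dif_pos hb.1]
      exact e.map_rel_iff.2 l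
    · ext y
      constructor
      · rintro ⟨a, ha, rfl⟩
        simp only [dif_pos ha.1]
        exact e.map_rel_iff.2 ha.2
      · intro hy
        obtain ⟨a, rfl, k⟩ := e.exists_eq_iff_rel.1 hy
        exact ⟨a.1, ⟨a.2, k⟩, by simp only [dif_pos a.2]⟩
  · exact absurd (mk_le_of_injective e.injective) (not_le.2 h)

end order

lemma bq_toType {c : Cardinal.{0}} (h : c.IsInaccessible) : Bq (univ : Set c.ord.ToType) :=
  ⟨by simpa using h, fun a _ => by simpa using mk_Iio_lt a⟩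

lemma mq_toType {c : Cardinal.{0}} (h : Mahlo c) : Mq (univ : Set c.ord.ToType) := by
  classical
  refine ⟨bq_toType h.1, fun g _ => ?_⟩
  let ty : c.ord.ToType → Ordinal.{0} := fun a => Ordinal.typein (α := c.ord.ToType) (· < ·) a
  have t1 : ∀ a, ty a < c.ord := fun a => by
    simpa using Ordinal.typein_lt_type (α := c.ord.ToType) (· < ·) a
  have t2 : ∀ a b, ty a < ty b ↔ a < b := fun a b => Ordinal.typein_lt_typein _
  have t3 : ∀ a, (ty a).card = #(Iio a) := fun a => Ordinal.card_typein a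
  let f : Ordinal.{0} → Ordinal.{0} := fun o => if j : ∃ a, ty a = o then ty (g j.choose) else o
  have e : ∀ a, f (ty a) = ty (g a) := fun a => by
    have j : ∃ b, ty b = ty a := ⟨a, rfl⟩
    simp only [f, dif_pos j]
    rw [Ordinal.typein_injective _ j.choose_spec]
  have t4 : ∀ o < c.ord, ∃ a, ty a = o := fun o ho =>
    Ordinal.typein_surj (α := c.ord.ToType) (· < ·) (by simpa using ho)
  obtain ⟨b, k1, k2, k3⟩ := h.2 f fun o ho => by
    obtain ⟨a, rfl⟩ := t4 o ho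
    rw [e]
    exact t1 _
  obtain ⟨z, hz⟩ := t4 b.ord (ord_lt_ord.2 k1)
  have k4 : #(Iio z) = b := by rw [← t3, hz, card_ord]
  refine ⟨z, trivial, ?_, fun a _ l => ?_⟩
  · rw [univ_inter]
    refine ⟨k4 ▸ k2, fun a ha => ?_⟩
    rw [iio_iio ha, k4, ← t3, ← lt_ord, ← hz]
    exact (t2 _ _).2 ha
  · rw [← t2, ← e, hz]
    exact k3 _ (hz ▸ (t2 _ _).2 l)

theorem exists_min (c d : Cardinal.{0}) (h1 : c < d) (h2 : Mahlo d) :
    ∃ (M : Type) (_ : LinearOrder M) (_ : WellFoundedLT M), c < #M ∧ #M ≤ d ∧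
      Mq (univ : Set M) ∧ ∀ z : M, c < #(Iio z) → ¬ Mq (Iio z) := by
  obtain ⟨l, ⟨M, i1, i2, rfl, k1, k2⟩, k3⟩ := (wellFounded_lt (α := Cardinal.{0})).has_min
    {l | ∃ (M : Type) (_ : LinearOrder M) (_ : WellFoundedLT M), #M = l ∧ c < #M ∧
      Mq (univ : Set M)} ⟨d, d.ord.ToType, inferInstance, inferInstance, by simp, by simpa using h1,
        mq_toType h2⟩
  refine ⟨M, i1, i2, k1, not_lt.1 (k3 d ⟨d.ord.ToType, inferInstance, inferInstance, by simp,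
    by simpa using h1, mq_toType h2⟩), k2, fun z l j => ?_⟩
  refine k3 (#(Iio z)) ⟨Iio z, inferInstance, inferInstance, rfl, l, ?_⟩
    (by simpa using k2.1.2 z trivial)
  exact Mq.of_img (f := Subtype.val) (fun _ _ _ _ l => l)
    (by rw [image_univ, Subtype.range_coe]; exact j)

section ultra

variable {L : Type} {c : Cardinal.{0}} {W : Ultrafilter (Set L)}

lemma exi (h : SC c W) {Z : Type} (e : Z ↪ L) {φ : Set L → Z → Prop}
    (k : ∀ᶠ x in (W : Filter (Set L)), ∃ z, e z ∈ x ∧ φ x z) :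
    ∃ z, ∀ᶠ x in (W : Filter (Set L)), φ x z := by
  obtain ⟨x0, z0, -⟩ := k.exists
  have : Nonempty Z := ⟨z0⟩
  obtain ⟨f, hf⟩ := k.choice
  obtain ⟨β, hβ⟩ := h.2.2.2 (fun x => e (f x)) (hf.mono fun _ j => j.1)
  have hβ' : ∀ᶠ x in (W : Filter (Set L)), e (f x) = β := hβ
  obtain ⟨x1, h1⟩ := hβ'.exists
  exact ⟨f x1, (hβ'.and hf).mono fun x j => e.injective (j.1.trans h1.symm) ▸ j.2.2⟩

lemma dia (h : SC c W) {Z : Type} (e : Z ↪ L) {φ : Set L → Z → Prop}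
    (k : ∀ z, ∀ᶠ x in (W : Filter (Set L)), φ x z) :
    ∀ᶠ x in (W : Filter (Set L)), ∀ z, e z ∈ x → φ x z := by
  by_contra j
  rw [← Ultrafilter.eventually_not] at j
  obtain ⟨z, hz⟩ := exi h e (φ := fun x z => ¬ φ x z) (j.mono fun x l => by simpa using l)
  exact Ultrafilter.eventually_not.1 hz (k z)

lemma fin (h : SC c W) (β : L) : ∀ᶠ x in (W : Filter (Set L)), β ∈ x := h.2.2.1 β

variable {M : Type} [LinearOrder M] [WellFoundedLT M]

lemma up_bq (h : SC c W) (hM : Bq (univ : Set M)) (e : M ↪ L) {z : M}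
    (k : ∀ᶠ x in (W : Filter (Set L)), Bq (e ⁻¹' x ∩ Iio z)) : Bq (Iio z) := by
  refine bq_of_bound ?_ fun a ha F hF => ?_
  · obtain ⟨x, hx⟩ := k.exists
    obtain ⟨a, ha⟩ := nonempty_coe_sort.1 (mk_ne_zero_iff.1 hx.1.pos.ne')
    exact ⟨a, ha.2⟩
  have h1 : #(Ix a) < #M := by
    rw [mk_Ix]
    exact ix_lt (by simpa using hM.1) (by simpa using hM.2 a trivial)
  obtain ⟨u⟩ := (Cardinal.le_def _ _).1 h1.le
  let v : Ix a ↪ L := u.trans e
  have d1 := dia h v (φ := fun x i => e (F i.1) ∈ x) fun i => fin h _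
  have d2 := dia h v (φ := fun x i => ∀ j : Ix a, v j ∈ x →
      i.1.2 ∩ e ⁻¹' x = j.1.2 ∩ e ⁻¹' x → i.1.2 = j.1.2) fun i => dia h v fun j => by
    by_cases l : i.1.2 = j.1.2
    · exact Eventually.of_forall fun _ _ => l
    · obtain ⟨t, ht⟩ := not_forall.1 fun n => l (Set.ext n)
      exact (fin h (e t)).mono fun x hx n => absurd (by simpa [hx] using Set.ext_iff.1 n t) ht
  obtain ⟨b, hb⟩ := exi h e (φ := fun x b => b < z ∧ ∀ i : Ix a, v i ∈ x → F i.1 < b)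
    ((k.and (d1.and (d2.and (fin h (e a))))).mono fun x ⟨k1, k2, k3, k4⟩ => by
      have c1 : #{i : Ix a | v i ∈ x} ≤ ℵ₀ * 2 ^ #(e ⁻¹' x ∩ Iio z ∩ Iio a : Set M) := by
        rw [← mk_powerset, ← mk_nat, ← mk_univ (α := ℕ), ← mk_setProd]
        refine mk_le_of_injective (f := fun i => ⟨(i.1.1.1, i.1.1.2 ∩ e ⁻¹' x), trivial,
          fun t ht => ⟨⟨ht.2, (i.1.2 ht.1).trans ha⟩, i.1.2 ht.1⟩⟩) fun i j l => ?_
        have l' := Prod.ext_iff.1 (congrArg Subtype.val l)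
        exact Subtype.ext (Subtype.ext (Prod.ext l'.1 (k3 _ i.2 _ j.2 l'.2)))
      obtain ⟨b, n1, n2⟩ := k1.bound (c1.trans_lt (ix_lt k1.1 (k1.2 a ⟨k4, ha⟩)))
        (fun i => F i.1) fun i hi => ⟨k2 i hi, hF _ i.2⟩
      exact ⟨b, n1.1, n1.2, n2⟩)
  refine ⟨b, hb.exists.choose_spec.1, fun i hi => ?_⟩
  obtain ⟨x, k1, k2⟩ := (hb.and (fin h (v ⟨i, hi⟩))).exists
  exact k1.2 _ k2

lemma up_mq (h : SC c W) (hM : Bq (univ : Set M)) (e : M ↪ L) {z : M}
    (k : ∀ᶠ x in (W : Filter (Set L)), Mq (e ⁻¹' x ∩ Iio z)) : Mq (Iio z) := by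
  refine ⟨up_bq h hM e (k.mono fun _ j => j.1), fun g hg => ?_⟩
  have d1 := dia h e (φ := fun x a => e (g a) ∈ x) fun a => fin h _
  obtain ⟨b, hb⟩ := exi h e (φ := fun x b => b < z ∧ Bq (e ⁻¹' x ∩ Iio b) ∧
      ∀ a, e a ∈ x → a < b → g a < b) ((k.and d1).mono fun x ⟨k1, k2⟩ => by
    obtain ⟨b, n1, n2, n3⟩ := k1.2 g fun a ha => ⟨k2 a ha.1, hg ha.2⟩
    rw [inter_assoc, iio_iio n1.2] at n2
    exact ⟨b, n1.1, n1.2, n2, fun a j l => n3 a ⟨j, l.trans n1.2⟩ l⟩)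
  have hz : b < z := hb.exists.choose_spec.1
  refine ⟨b, hz, ?_, fun a _ l => ?_⟩
  · rw [iio_iio hz]
    exact up_bq h hM e (hb.mono fun _ j => j.2.1)
  · obtain ⟨x, k1, k2⟩ := (hb.and (fin h (e a))).exists
    exact k1.2.2 a k2 l

end ultra

section down

variable {X K : Type} [LinearOrder K] [WellFoundedLT K] (m : Ultrafilter X)
  [CardinalInterFilter (m : Filter X) #K] {nu : X → K}

lemma cl (h1 : ∀ a, ∀ᶠ x in (m : Filter X), a < nu x)
    (h2 : ∀ f : X → K, (∀ᶠ x in (m : Filter X), f x < nu x) → ∃ a, ∀ᶠ x in (m : Filter X), f x = a)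
    (g : K → K) : ∀ᶠ x in (m : Filter X), ∀ a < nu x, g a < nu x := by
  by_contra h
  rw [← Ultrafilter.eventually_not] at h
  simp only [not_forall] at h
  obtain ⟨x0, a0, -⟩ := h.exists
  have : Nonempty K := ⟨a0⟩
  obtain ⟨f, hf⟩ := h.choice
  obtain ⟨a, ha⟩ := h2 f (hf.mono fun _ k => k.1)
  obtain ⟨x, k1, k2, k3⟩ := (ha.and (hf.and (h1 (g a)))).exists
  exact k2.2 (k1 ▸ k3)

lemma down_bq (hK : Bq (univ : Set K)) (h1 : ∀ a, ∀ᶠ x in (m : Filter X), a < nu x)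
    (h2 : ∀ f : X → K, (∀ᶠ x in (m : Filter X), f x < nu x) → ∃ a, ∀ᶠ x in (m : Filter X), f x = a) :
    ∀ᶠ x in (m : Filter X), Bq (Iio (nu x)) := by
  obtain ⟨a0, -⟩ := hK.bgu.ne
  have : Nonempty K := ⟨a0⟩
  by_contra h
  rw [← Ultrafilter.eventually_not] at h
  have h3 : ∀ᶠ x in (m : Filter X), ∃ p : K × (ℕ × Set K → K), p.1 < nu x ∧
      (∀ i ∈ Ix p.1, p.2 i < nu x) ∧ ¬ ∃ b < nu x, ∀ i ∈ Ix p.1, p.2 i < b :=
    (h.and (h1 a0)).mono fun x k => by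
      by_contra j
      refine k.1 (bq_of_bound ⟨a0, k.2⟩ fun a ha F hF => ?_)
      by_contra n
      exact j ⟨(a, F), ha, hF, n⟩
  obtain ⟨p, hp⟩ := h3.choice
  obtain ⟨a, ha⟩ := h2 (fun x => (p x).1) (hp.mono fun _ k => k.1)
  have h4 : #(Ix a) < #K := by
    rw [mk_Ix]
    exact ix_lt (by simpa using hK.1) (by simpa using hK.2 a trivial)
  have h5 : ∀ i : Ix a, ∃ y, ∀ᶠ x in (m : Filter X), (p x).2 i.1 = y := fun i =>
    h2 _ ((hp.and ha).mono fun x k => k.1.2.1 _ (k.2 ▸ i.2))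
  choose F hF using h5
  obtain ⟨b, -, hb⟩ := hK.bgu.bound (by simpa using h4) F fun _ => trivial
  obtain ⟨x, k1, k2, k3, k4⟩ := (hp.and (ha.and ((h1 b).and (ae_all m #K h4 hF)))).exists
  exact k1.2.2 ⟨b, k3, fun i hi => (k4 ⟨i, k2 ▸ hi⟩).trans_lt (hb _)⟩

lemma down_mq (hK : Bq (univ : Set K)) (h1 : ∀ a, ∀ᶠ x in (m : Filter X), a < nu x)
    (h2 : ∀ f : X → K, (∀ᶠ x in (m : Filter X), f x < nu x) → ∃ a, ∀ᶠ x in (m : Filter X), f x = a) :
    ∀ᶠ x in (m : Filter X), Mq (Iio (nu x)) := by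
  have h0 := down_bq m hK h1 h2
  by_contra h
  rw [← Ultrafilter.eventually_not] at h
  have h3 : ∀ᶠ x in (m : Filter X), ∃ g : K → K, MapsTo g (Iio (nu x)) (Iio (nu x)) ∧
      ¬ ∃ b ∈ Iio (nu x), Bq (Iio (nu x) ∩ Iio b) ∧ ∀ a ∈ Iio (nu x), a < b → g a < b :=
    (h.and h0).mono fun x k => by
      by_contra j
      refine k.1 ⟨k.2, fun g hg => ?_⟩
      by_contra n
      exact j ⟨g, hg, n⟩
  have : Nonempty (K → K) := ⟨id⟩
  obtain ⟨p, hp⟩ := h3.choice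
  have h5 : ∀ a, ∃ y, ∀ᶠ x in (m : Filter X), p x a = y := fun a =>
    h2 _ ((hp.and (h1 a)).mono fun x k => k.1.1 k.2)
  choose g hg using h5
  obtain ⟨x0, k1, k2⟩ := (h0.and (cl m h1 h2 g)).exists
  obtain ⟨x, k3, k4, k5⟩ := (hp.and ((h1 (nu x0)).and (ae_ball m #K (R := Iio (nu x0))
    (by simpa using hK.2 _ trivial) fun a _ => hg a))).exists
  exact k3.2 ⟨nu x0, k4, by rwa [iio_iio k4], fun a _ l => (k5 a l).trans_lt (k2 a l)⟩

end down

end LcEx

open LcEx in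
theorem exists_lc (L : Type) (c : Cardinal.{0}) (h0 : ℵ₀ < c) (h1 : c < #L) (h2 : Mahlo #L)
    (W : Ultrafilter (Set L)) (h3 : SC c W) :
    ∃ (K : Type) (_ : LinearOrder K) (_ : WellFoundedLT K) (_ : OrderBot K), Nonempty (Lc K) := by
  classical
  obtain ⟨M, iM, wM, m1, m2, m3, m4⟩ := exists_min c _ h1 h2
  obtain ⟨K, iK, wK, hK, hI⟩ : ∃ (K : Type) (_ : LinearOrder K) (_ : WellFoundedLT K), #K = c ∧
      ∀ a : K, #(Iio a) < c :=
    ⟨c.ord.ToType, inferInstance, inferInstance, by simp, fun a => by simpa using mk_Iio_lt a⟩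
  subst hK
  have := h3.1
  obtain ⟨e⟩ := (Cardinal.le_def _ _).1 m2
  obtain ⟨k⟩ := (Cardinal.le_def _ _).1 h1.le
  have nK : Nonempty K := mk_ne_zero_iff.1 (aleph0_pos.trans h0).ne'
  have nM : Nonempty M := mk_ne_zero_iff.1 (aleph0_pos.trans (h0.trans m1)).ne'
  have sm : ∀ᶠ x : Set L in (W : Filter (Set L)), #x < #K := h3.2.1
  have n0 : ∀ x : Set L, ∃ a : K, #x < #K → k a ∉ x ∧ ∀ b < a, k b ∈ x := fun x => by
    by_cases l : #x < #K
    · obtain ⟨a, k1, k2⟩ := (wellFounded_lt (α := K)).has_min {a | k a ∉ x} (by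
        by_contra j
        refine absurd (mk_le_of_injective (f := fun a : K => (⟨k a, ?_⟩ : x))
          fun a b n => k.injective (congrArg Subtype.val n)) (not_le.2 l)
        by_contra n
        exact j ⟨a, n⟩)
      exact ⟨a, fun _ => ⟨k1, fun b hb => by_contra fun n => k2 b n hb⟩⟩
    · exact ⟨Classical.arbitrary K, fun j => absurd j l⟩
  choose nu hnu using n0
  have n1 : ∀ a, ∀ᶠ x in (W : Filter (Set L)), a < nu x := fun a =>
    (sm.and (ae_ball W #K (mk_Iic_lt h0.le (hI a)) fun b _ => fin h3 (k b))).mono fun x j =>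
      not_le.1 fun l => (hnu x j.1).1 (j.2 _ l)
  have n2 : ∀ f : Set L → K, (∀ᶠ x in (W : Filter (Set L)), f x < nu x) →
      ∃ a, ∀ᶠ x in (W : Filter (Set L)), f x = a := fun f hf =>
    exi h3 k (φ := fun x a => f x = a) ((sm.and hf).mono fun x j =>
      ⟨f x, (hnu x j.1).2 _ j.2, rfl⟩)
  have bK : Bq (univ : Set K) := by
    have : CardinalInterFilter ((W.map nu : Ultrafilter K) : Filter K) #K :=
      inferInstanceAs (CardinalInterFilter (Filter.map nu W) #K)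
    refine ⟨?_, fun a _ => by simpa using hI a⟩
    rw [mk_univ]
    exact inacc_of_ultra (W.map nu) #K (fun t => (n1 t).mono fun x j => j.ne') le_rfl h0
  have d1 := down_mq W bK n1 n2
  have t0 : ∀ a : K, ∃ t, a < t ∧ Mq (Iio t) := fun a =>
    ((n1 a).and d1).exists.elim fun x j => ⟨nu x, j⟩
  have t1 : ∀ a : K, ∃ t, (a < t ∧ Mq (Iio t)) ∧ ∀ s, a < s ∧ Mq (Iio s) → ¬ s < t := fun a =>
    (wellFounded_lt (α := K)).has_min {t | a < t ∧ Mq (Iio t)} (t0 a)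
  choose th ht1 ht2 using t1
  have small : ∀ᶠ x in (W : Filter (Set L)), #{a | e a ∈ x} ≤ #(Iio (th (nu x))) := by
    by_contra j
    rw [← Ultrafilter.eventually_not] at j
    obtain ⟨z, hz⟩ := exi h3 e (φ := fun x z => Mq (e ⁻¹' x ∩ Iio z) ∧
        #(Iio (nu x)) < #(e ⁻¹' x ∩ Iio z : Set M)) ((j.and sm).mono fun x l => by
      obtain ⟨z, k1, f, k2, k3⟩ := exists_col (e ⁻¹' x)
        ((mk_preimage_of_injective e x e.injective).trans_lt l.2) (not_le.1 l.1)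
      refine ⟨z, k1, Mq.of_img k2 (k3 ▸ (ht1 _).2), ?_⟩
      rw [← mk_image_eq_of_injOn f _ k2.injOn, k3]
      exact (ht1 _).2.1.bg.init _ (ht1 _).1)
    refine m4 z (not_le.1 fun l => ?_) (up_mq h3 m3.1 e (hz.mono fun _ n => n.1))
    obtain ⟨u⟩ := (Cardinal.le_def _ _).1 l
    obtain ⟨x, k1, k2⟩ := (hz.and (dia h3 ((Function.Embedding.subtype (· ∈ Iio z)).trans e)
      (φ := fun x a => u a < nu x) fun a => n1 _)).exists
    refine absurd (mk_le_of_injective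
      (f := fun a : (e ⁻¹' x ∩ Iio z : Set M) => (⟨u ⟨a.1, a.2.2⟩, k2 _ a.2.1⟩ : Iio (nu x)))
      fun a b n => ?_) (not_le.2 k1.2)
    have n' := congrArg Subtype.val (u.injective (congrArg Subtype.val n))
    exact Subtype.ext n'
  refine ⟨K, iK, wK, WellFoundedLT.toOrderBot K, ⟨
    { L := M
      lin := iM
      wf := wM
      bot := WellFoundedLT.toOrderBot M
      X := Set L
      bgK := bK.bgu
      bgL := m3.1.bgu
      KL := m1
      mahlo := fun g => ?_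
      Y := {ν | Bg (Iio ν) ∧ ∀ a < ν, th a < ν}
      th := th
      Y_bg := fun _ j => j.1
      Y_th := fun _ j => j.2
      lt_th := fun a => (ht1 a).1
      m := W
      cpl := this
      nu := nu
      nuY := (d1.and (cl W n1 n2 th)).mono fun _ j => ⟨j.1.1.bg, j.2⟩
      nu_gt := n1
      nu_norm := n2
      In := fun x a => e a ∈ x
      fine := fun a => fin h3 _
      norm := fun f hf => exi h3 e (φ := fun x a => f x = a) (hf.mono fun x j => ⟨f x, j, rfl⟩)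
      small := small }⟩⟩
  obtain ⟨b, -, k1, k2⟩ := m3.2 g (mapsTo_univ _ _)
  rw [univ_inter] at k1
  exact ⟨b, k1.bg, fun a l => k2 a trivial l⟩

end Pool.Agent.Lib.MP_491cc4_lc.Cx
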