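import Pool.Agent.Lib.MP_491cc4_lc.Cx.Abs

set_option autoImplicit false
set_option linter.unusedSectionVars false

namespace Pool.Agent.Lib.MP_491cc4_lc.Cx

open Set Cardinal Filter Pool.Agent.Lib.MP_d4b40b_lc

variable (K : Type) [LinearOrder K] [WellFoundedLT K] [OrderBot K] [Lc K] [It K]

/-- codes: a system, a slot and a history of interpretations at the earlier slots -/
structure Cd where
  U : Sys K
  i : LL K
  x : LL K → Rl U
  op : ∀ k, ROp (x k)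
  sup : ∀ k b b', x k b b' → k < i
  lev : ∃ γ, ∀ k b b', x k b b' → Lev γ b

variable {K}

/-- the history together with the canonical generic at the own slot -/
def Cd.xp (c : Cd K) (k : LL K) : Rl c.U := fun b b' => c.x k b b' ∨ (k = c.i ∧ can c.U c.U b b')

lemma Cd.rop (c : Cd K) (k : LL K) : ROp (c.xp k) :=
  fun b => (c.op k b).or ((op_const _).and (rop_can _ _ b))

lemma Cd.xp_self (c : Cd K) : c.xp c.i = can c.U c.U := by
  funext b b'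
  exact propext ⟨fun h => h.elim (fun k => absurd (c.sup _ _ _ k) (lt_irrefl _)) And.right,
    fun h => Or.inr ⟨rfl, h⟩⟩

lemma Cd.xp_lt (c : Cd K) {k : LL K} (h : k < c.i) : c.xp k = c.x k := by
  funext b b'
  exact propext ⟨fun j => j.elim id fun l => absurd l.1 h.ne, Or.inl⟩

/-- the order on coded conditions -/
structure Le (c' : Cd K) (b' : BB c'.U) (c : Cd K) (b : BB c.U) : Prop where
  p : b'.p ≤ b.p
  t : EE b'.1.t b.1.t
  i : c.i ≤ c'.i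
  gen : Gen c.U (c'.xp c.i) b'
  mem : hull (c'.xp c.i b.1) b'
  his : ∀ k ≤ c.i, Eqv b' (c'.xp k) (cmp (c.xp k) (c'.xp c.i))

/-- canonical extension of codes -/
structure Agr (c' : Cd K) (b' : BB c'.U) (c : Cd K) : Prop where
  U : c.U.le c'.U
  i : c.i ≤ c'.i
  his : ∀ k ≤ c.i, Eqv b' (c'.xp k) (cmp (c.xp k) (can c.U c'.U))

variable {c c' c'' : Cd K}

lemma Agr.refl (c : Cd K) (b : BB c.U) : Agr c b c :=
  ⟨c.U.le_refl, le_rfl, fun k _ => (cmp_can (c.rop k) b).symm⟩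

lemma Agr.mono {b' b'' : BB c'.U} (h : Agr c' b' c) (k : b'' ≤ b') : Agr c' b'' c :=
  ⟨h.U, h.i, fun n l => (h.his n l).mono k⟩

/-- a canonical extension, read in a larger system -/
lemma Agr.cmp_can {b' : BB c'.U} (h : Agr c' b' c) {U : Sys K} (hU : c'.U.le U) {d : BB U}
    (l : d.1 ≤ b'.1) {n : LL K} (hn : n ≤ c.i) :
    Eqv d (cmp (c'.xp n) (can c'.U U)) (cmp (c.xp n) (can c.U U)) := by
  have e := (h.his n hn).cmp_left (c'.rop n) ((rop_can _ _).cmp _) (gen_can hU d)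
    ((rop_can c'.U U b'.1).hull ⟨b'.2, l⟩)
  rw [cmp_assoc] at e
  exact e.trans ((can_can h.U d).cmp_right _)

lemma Agr.trans {b'' : BB c''.U} {b' : BB c'.U} (h : Agr c'' b'' c') (l : b''.1 ≤ b'.1)
    (k : Agr c' b' c) : Agr c'' b'' c :=
  ⟨k.U.trans h.U, k.i.trans h.i,
    fun n j => (h.his n (j.trans k.i)).trans (k.cmp_can h.U l j)⟩

lemma Agr.le {b' : BB c'.U} {b : BB c.U} (h : Agr c' b' c) (k : b'.1 ≤ b.1) : Le c' b' c b := by
  have e0 := h.his c.i le_rfl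
  rw [c.xp_self] at e0
  have e : Eqv b' (c'.xp c.i) (can c.U c'.U) := e0.trans (can_can c.U.le_refl b')
  exact ⟨k.1.1, k.2.1, h.i, (gen_can h.U b').congr (c'.rop _) e.symm,
    fun q l => (e b.1 q l).2 ⟨b.2, le_trans (α := BR K) l k⟩,
    fun n l => (h.his n l).trans (e.symm.cmp_right _)⟩

lemma Le.of_le {b' b : BB c.U} (h : b' ≤ b) : Le c b' c b := (Agr.refl c b').le h

lemma Le.trans {b'' : BB c''.U} {b' : BB c'.U} {b : BB c.U} (h : Le c'' b'' c' b')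
    (k : Le c' b' c b) : Le c'' b'' c b := by
  have e : Eqv b'' (c''.xp c.i) (cmp (c'.xp c.i) (c''.xp c'.i)) := h.his c.i k.i
  refine ⟨h.p.trans k.p, h.t.trans k.t, k.i.trans h.i,
    (k.gen.cmp h.gen h.mem).congr (c''.rop _) e.symm, fun q l => ?_, fun n l => ?_⟩
  · obtain ⟨r, k1, k2⟩ := h.mem q l
    obtain ⟨d, k3, w, -, k4, k5⟩ := h.gen.below (k1.trans l) k2 (c'.xp c.i b.1) k.mem
    obtain ⟨d', k6, k7⟩ := (e b.1 d (k3.trans (k1.trans l))).2 ⟨w, k5, k4⟩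
    exact ⟨d', k6.trans (k3.trans k1), k7⟩
  · have e1 := (k.his n l).cmp_left (c'.rop n) ((c'.rop _).cmp _) h.gen h.mem
    rw [cmp_assoc] at e1
    exact (h.his n (l.trans k.i)).trans (e1.trans (e.symm.cmp_right _))

lemma Le.mono {b'' b' : BB c'.U} {b : BB c.U} (h : Le c' b' c b) (k : b'' ≤ b') : Le c' b'' c b :=
  (Le.of_le k).trans h

lemma Le.up {b' : BB c'.U} {b b1 : BB c.U} (h : Le c' b' c b) (k : b ≤ b1) : Le c' b' c b1 :=
  h.trans (Le.of_le k)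

/-- the first two clauses of the order can be made literal -/
lemma exists_le {b' : BB c'.U} {b : BB c.U} (hi : c.i ≤ c'.i) (hg : Gen c.U (c'.xp c.i) b')
    (hm : hull (c'.xp c.i b.1) b')
    (hh : ∀ k ≤ c.i, Eqv b' (c'.xp k) (cmp (c.xp k) (c'.xp c.i))) : ∃ d ≤ b', Le c' d c b := by
  obtain ⟨r, k1, k2⟩ := hm b' le_rfl
  obtain ⟨d, k3, k4, k5⟩ := hg.agr b.1 r k1 k2
  exact ⟨d, k3.trans k1, k4, k5, hi, hg.mono (k3.trans k1), op_hull _ _ hm (k3.trans k1),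
    fun n l => (hh n l).mono (k3.trans k1)⟩

/-- a member of the interpreted generic -/
lemma Le.of_mem {b' d : BB c'.U} {b w : BB c.U} (h : Le c' b' c b) (k : d ≤ b')
    (j : c'.xp c.i w.1 d) : ∃ d' ≤ d, Le c' d' c w :=
  exists_le h.i (h.gen.mono k) ((c'.rop _ _).hull j) fun n l => (h.his n l).mono k

lemma Le.dense {b' : BB c'.U} {b : BB c.U} (h : Le c' b' c b) (D : BB c.U → Prop) (hD : hull D b) :
    ∃ d ≤ b', ∃ w ≤ b, D w ∧ Le c' d c w := by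
  obtain ⟨r, k1, k2⟩ := h.mem b' le_rfl
  obtain ⟨d, k3, w, k4, k5, k6⟩ := h.gen.below k1 k2 D hD
  obtain ⟨d', k7, k8⟩ := h.of_mem (k3.trans k1) k6
  exact ⟨d', k7.trans (k3.trans k1), w, k4, k5, k8⟩

lemma Le.rp {b' : BB c'.U} {b : BB c.U} (h : Le c' b' c b) {p : PP K} (k : p ≤ b.p)
    (l : b'.p ≤ p) : Le c' b' c (b.rp p k) := by
  refine ⟨l, h.t, h.i, h.gen, fun q j => ?_, h.his⟩
  obtain ⟨r, k1, k2⟩ := h.mem q j
  obtain ⟨d, k3, w, k4, k5, k6⟩ := h.gen.below (k1.trans j) k2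
    (fun w => w ≤ b.rp p k ∨ ng (· ≤ b.rp p k) w) fun v _ => dec _ v
  have k7 : d ≤ b' := k3.trans (k1.trans j)
  rcases k5 with k5 | k5
  · obtain ⟨d', k8, k9⟩ := h.gen.up w.1 (b.rp p k).1 d k7 k6 k5 (b.rp p k).2
    exact ⟨d', k8.trans (k3.trans k1), k9⟩
  · obtain ⟨d', k8, k9, -⟩ := h.gen.agr w.1 d k7 k6
    exact absurd (BB.le_rp k ((w.rp_le d'.p k9).trans k4) ((BB.p_le (k8.trans k7)).trans l))
      (k5 (w.rp d'.p k9) (w.rp_le _ _))

lemma Cd.exists_lev (c : Cd K) : ∃ γ, ∀ k b b', c.xp k b b' → Lev γ b := by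
  obtain ⟨γ, h⟩ := c.lev
  exact ⟨max γ c.U.β, fun k b b' j => j.elim (fun l => (h k b b' l).mono (le_max_left _ _))
    fun l => l.2.1.1.mono (le_max_right _ _)⟩

/-- gluing histories -/
theorem glue {J : Type} (hJ : #J < #(LL K)) (c : J → Cd K) (U : Sys K) (i : LL K)
    (hi : ∀ a, (c a).i < i) (z : ∀ _ : J, Rl U) (hz : ∀ a, ROp (z a)) (S : J → BB U → Prop)
    (hS : ∀ a, Op (S a))
    (h : ∀ a a' b, S a b → S a' b → ∀ k ≤ (c a).i, k ≤ (c a').i →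
      Eqv b (cmp ((c a).xp k) (z a)) (cmp ((c a').xp k) (z a'))) :
    ∃ x op sup lev, ∀ a b, S a b → ∀ k ≤ (c a).i,
      Eqv b (Cd.xp ⟨U, i, x, op, sup, lev⟩ k) (cmp ((c a).xp k) (z a)) := by
  choose g hg using fun a => (c a).exists_lev
  obtain ⟨γ, hγ⟩ := boundL (K := K) (s := univ) (by rwa [mk_univ]) g
  refine ⟨fun k b d => ∃ a, S a d ∧ k ≤ (c a).i ∧ cmp ((c a).xp k) (z a) b d,
    fun k b => Op.ex fun a => (hS a).and ((op_const _).and ((hz a).cmp _ b)),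
    fun k b d ⟨a, _, j, _⟩ => j.trans_lt (hi a),
    ⟨γ, fun k b d ⟨a, _, _, w, _, j⟩ => (hg a k b w j).mono (hγ a trivial).le⟩,
    fun a b j k l => ?_⟩
  rw [Cd.xp_lt _ (l.trans_lt (hi a))]
  exact fun e d n => ⟨fun ⟨a', k1, k2, k3⟩ =>
      (h a a' d (hS a _ _ j n) k1 k l k2 e d le_rfl).2 k3,
    fun k1 => ⟨d, le_rfl, a, hS a _ _ j n, l, k1⟩⟩

/-- capturing a dense set of coded conditions by a canonical extension -/
theorem mix (c : Cd K) (b0 : BB c.U) (D : ∀ c1 : Cd K, BB c1.U → Prop)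
    (hD : ∀ b ≤ b0, ∃ c1 w, D c1 w ∧ Le c1 w c b) :
    ∃ γ i0, ∀ (U : Sys K) (h : c.U.le U), γ < U.β → ∀ i, i0 < i → ∃ x op sup lev,
      Agr ⟨U, i, x, op, sup, lev⟩ ⟨b0.1, b0.2.mono h⟩ c ∧
      ∀ b : BB U, b.1 ≤ b0.1 → ∃ b' ≤ b, ∃ c1 w, D c1 w ∧ Le ⟨U, i, x, op, sup, lev⟩ b' c1 w := by
  have hJ : #{b // b ≤ b0} < #(LL K) := (mk_subtype_le _).trans_lt (mk_BB c.U)
  choose c1 w h1 h2 using fun a : {b // b ≤ b0} => hD a.1 a.2
  choose w1 h3 h4 using fun a => (h2 a).mem (w a) le_rfl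
  choose b2 h5 h6 using fun a => (h2 a).gen.reduct (h3 a) (h4 a)
  choose g hg using fun a => absorb (c1 a).U
  obtain ⟨γ, hγ⟩ := boundL (K := K) (s := univ) (by rwa [mk_univ]) g
  obtain ⟨i0, hi0⟩ := boundL (K := K) (s := univ) (by rwa [mk_univ]) fun a => (c1 a).i
  refine ⟨γ, i0, fun U h l i j => ?_⟩
  have hi : ∀ a, (c1 a).i < i := fun a => (hi0 a trivial).trans j
  choose z k1 k2 k3 using fun a => hg a c.U U h ((hγ a trivial).trans l) _ (w1 a)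
    ((h2 a).gen.mono (h3 a)) ⟨(b2 a).1, (b2 a).2.mono h⟩
    (Rel.of_reduct h (h2 a).gen (h3 a) (h6 a) le_rfl)
  let S0 : {b // b ≤ b0} → BB U → Prop := fun a d => d.1 ≤ (b2 a).1
  have hS0 : ∀ a, Op (S0 a) := fun a _ _ n o => le_trans (α := BR K) o n
  obtain ⟨x, op, sup, lev, hx⟩ := glue hJ c1 U i hi z (fun a => (k1 a).op) (Lst S0) (op_lst hS0)
    fun a a' b n o k _ _ => by
      obtain rfl := n.uniq o
      exact Eqv.refl _ _
  have hd : ∀ b : BB U, b.1 ≤ b0.1 → ∃ b' ≤ b, ∃ a, Lst S0 a b' := fun b n => by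
    obtain ⟨d, o1, v, -, ⟨a, o2⟩, o3⟩ := (gen_can h b).below le_rfl ⟨b0.2, n⟩
      (fun v => ∃ a, v ≤ b2 a) fun q o => ⟨b2 ⟨q, o⟩, h5 _, ⟨q, o⟩, le_rfl⟩
    exact exists_lst S0 ⟨d, o1, a, le_trans (α := BR K) o3.2 o2⟩
  refine ⟨x, op, sup, lev, ⟨h, ((h2 ⟨b0, le_rfl⟩).i.trans_lt (hi _)).le, fun k n => ?_⟩,
    fun b n => ?_⟩
  · refine Eqv.reg (Cd.rop _ k) ((rop_can _ _).cmp _) fun q o => ?_
    obtain ⟨b', o1, a, o2⟩ := hd q o
    have e := (((h2 a).his k n).mono (h3 a)).cmp_left ((c1 a).rop k) (((c1 a).rop _).cmp _)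
      (k1 a) (k2 a)
    rw [cmp_assoc] at e
    exact ⟨b', o1, (hx a b' o2 k (n.trans (h2 a).i)).trans
      ((e.trans ((k3 a).cmp_right _)).mono o2.1)⟩
  · obtain ⟨b', o1, a, o2⟩ := hd b n
    have e0 := hx a b' o2 (c1 a).i le_rfl
    rw [(c1 a).xp_self] at e0
    have e := e0.trans ((k1 a).can_cmp.mono o2.1)
    obtain ⟨d, o3, o4⟩ := exists_le (c' := ⟨U, i, x, op, sup, lev⟩) (b' := b') (b := w1 a)
      (hi a).le (((k1 a).mono o2.1).congr (Cd.rop _ _) e.symm)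
      ((op_hull _ _ (k2 a) o2.1).imp fun q o o' => (e _ q o).2 o')
      fun k o => (hx a b' o2 k o).trans (e.symm.cmp_right _)
    exact ⟨d, o3.trans o1, c1 a, w a, h1 a, o4.up (h3 a)⟩

/-- absorbing a coded condition into any large extension of the base system -/
theorem absLe {c0 : Cd K} {w : BB c.U} (h : Le c w c0 ⊤) :
    ∃ γ i0, ∀ (U : Sys K), c0.U.le U → γ < U.β → ∀ i, i0 < i → ∃ x op sup lev b,
      Le ⟨U, i, x, op, sup, lev⟩ b c w := by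
  obtain ⟨w1, k1, k2⟩ := h.mem w le_rfl
  obtain ⟨b0, -, k3⟩ := h.gen.reduct k1 k2
  obtain ⟨γ, i0, k4⟩ := mix c0 b0 (fun c1 w' => Le c1 w' c w) fun b l => by
    obtain ⟨v, k5, k6⟩ := k3 b l
    obtain ⟨d, k7, k8⟩ := h.of_mem (k5.trans k1) k6
    exact ⟨c, d, Le.of_le (k7.trans (k5.trans k1)), k8⟩
  refine ⟨γ, i0, fun U hU l i j => ?_⟩
  obtain ⟨x, op, sup, lev, -, k5⟩ := k4 U hU l i j
  obtain ⟨b', -, c1, w', k6, k7⟩ := k5 ⟨b0.1, b0.2.mono hU⟩ le_rfl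
  exact ⟨x, op, sup, lev, b', k7.trans k6⟩

/-- limits of canonical chains -/
theorem agr_lim {J : Type} (hJ : #J < #(LL K)) (c : J → Cd K) (U : Sys K) (hU : ∀ a, (c a).U.le U)
    (i : LL K) (hi : ∀ a, (c a).i < i) (h : ∀ a a', Agr (c a) ⊤ (c a') ∨ Agr (c a') ⊤ (c a)) :
    ∃ x op sup lev, ∀ a, Agr ⟨U, i, x, op, sup, lev⟩ ⊤ (c a) := by
  obtain ⟨x, op, sup, lev, hx⟩ := glue hJ c U i hi (fun a => can (c a).U U)
    (fun _ => rop_can _ _) (fun _ _ => True) (fun _ => op_const _) fun a a' b _ _ k l l' =>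
      (h a a').elim (fun j => j.cmp_can (hU a) (le_top (a := b)) l')
        fun j => (j.cmp_can (hU a') (le_top (a := b)) l).symm
  exact ⟨x, op, sup, lev, fun a => ⟨hU a, (hi a).le, hx a ⊤ trivial⟩⟩

end Pool.Agent.Lib.MP_491cc4_lc.Cx
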