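import Pool.Agent.Lib.MP_491cc4_lc.Cx.Inn
import Pool.Agent.Lib.MP_491cc4_lc.Cx.Out

set_option autoImplicit false

namespace Pool.Agent.Lib.MP_491cc4_lc.Cx

open Pool.Agent.Lib.helper81 Pool.Agent.Lib.helper81.Name Pool.Agent.Lib.MP_fcebdf_lc
open Pool.Agent.Lib.MP_d4b40b_lc Set

namespace GMod

variable {K P : Type} [LinearOrder K] [WellFoundedLT K] [Preorder P]

/-- the name of a set of ordinals -/
noncomputable def nm (A : K → P → Prop) : HN P :=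
  mkH (ordH P) fun η => ⟨{q | hull (A η) q}, fun _ _ l k => op_hull _ _ k l⟩

/-- the trace of a name on the ordinals -/
def trc (X : HN P) (η : K) (q : P) : Prop := Fmem (ordH P η).1 X.1 q

lemma reg_trc (X : HN P) (η : K) : Reg (trc X η) :=
  ⟨fun _ _ h l => Fmem.mono h l, fun _ h => Fmem.reg h⟩

lemma fmem_nm {A : K → P → Prop} {η : K} {q : P} :
    Fmem (ordH P η).1 (nm A).1 q ↔ hull (A η) q := by
  refine ⟨fun h r l => ?_, fun h => fmem_mkH (A := ordH P) (i := η) h⟩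
  obtain ⟨s, k1, β, k2, k3⟩ := h r l
  obtain rfl : η = β := feq_ord k3
  obtain ⟨t, k4, k5⟩ := k2 s le_rfl
  exact ⟨t, k4.trans k1, k5⟩

lemma nm_elim (gm : GN P) {A : K → P → Prop} (h : nm A ∈ gm.S) {m : gm.M}
    (hm : gm.E m (gm.val (nm A))) :
    ∃ η, ordH P η ∈ gm.S ∧ gm.val (ordH P η) = m ∧ ∃ q ∈ gm.Γ, hull (A η) q :=
  mkH_elim gm h hm

variable (K P) in
/-- the name of the cardinal -/
noncomputable abbrev kk : HN P := oS P (univ : Set K)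

lemma nm_sub (gm : GN P) {A : K → P → Prop} (h : nm A ∈ gm.S) (hk : kk K P ∈ gm.S) :
    Sub gm.E (gm.val (nm A)) (gm.val (kk K P)) := fun x hx => by
  obtain ⟨η, k1, rfl, -⟩ := nm_elim gm h hx
  exact oS_intro gm hk k1 trivial

lemma fsub {X Y : HN P} {r : P} (h : Fc (fun _ E v => Sub E (v 0) (v 1)) (w2 X Y) r) (x : HN P)
    {s : P} (l : s ≤ r) (k : Fmem x.1 X.1 s) : Fmem x.1 Y.1 s :=
  fmem_of_gm {X} (to_countable _) fun g n1 n2 n3 n4 =>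
    h.mono l g n1 (mem2 (n4 rfl) n3) _ (val_mem g n2 (n4 rfl) n1 k)

lemma feq_nm {X : HN P} {r : P} (h : Fc (fun _ E v => Sub E (v 0) (v 1)) (w2 X (kk K P)) r) :
    Feq X.1 (nm (trc (K := K) X)).1 r := by
  refine Feq.of_mem (fun a q l k => Fmem.reg fun q' l' => ?_) fun b q _ k => Fmem.reg k
  have k1 : Fmem (X.sub a).1 X.1 q' := Fmem.of_B (lmono k l')
  obtain ⟨s, k2, β, -, k3⟩ := fmem_oS_elim (fsub h (X.sub a) (l'.trans l) k1)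
  have k4 : trc X β s := (k1.mono k2).congr_left k3
  exact ⟨s, k2, (fmem_nm.2 ((reg_trc X β).1.hull k4)).congr_left k3.symm⟩

/-- density arguments -/
lemma gen_ex (gm : GN P) {Ψ : Pred} (hΨ : Def Ψ) {w : ℕ → HN P} (hw : ∀ i, w i ∈ gm.S) {p : P}
    (hp : p ∈ gm.Γ) (h : ∀ q ≤ p, ∃ r ≤ q, ∃ C : Set (HN P), C.Countable ∧
      ∀ g : GN P, r ∈ g.Γ → (∀ i, w i ∈ g.S) → C ⊆ g.S → Ψ g.M g.E fun i => g.val (w i)) :
    Ψ gm.M gm.E fun i => gm.val (w i) :=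
  Fc.reg hΨ (fun q l => (h q l).imp fun _ k => ⟨k.1, k.2.elim fun C j => Fc.of_extra hΨ C j.1 j.2⟩)
    gm hp hw

variable (o : Out K P)

/-- the name of the ultrafilter -/
noncomputable def UN : HN P :=
  mkH (fun A : {A : K → P → Prop // ∀ η, Reg (A η)} => nm A.1) fun A =>
    ⟨{q | o.mem A.1 q}, fun _ _ l k => (o.reg A.1 A.2).1 _ _ k l⟩

/-- the name of the set of ladder points -/
noncomputable def DN : HN P := nm fun δ => o.st δ none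

/-- the name of the ladder system -/
noncomputable def SN : HN P :=
  relH (fun t : K × K => ordH P t.1) (fun t => ordH P t.2) fun t =>
    ⟨{q | o.st t.1 (some t.2) q}, fun _ _ l k => o.sop _ _ _ _ k l⟩

variable {o}

omit [WellFoundedLT K] in
lemma mono0 {A B : K → P → Prop} {c : P} (hA : ∀ η, Reg (A η)) (hB : ∀ η, Reg (B η))
    (h : ∀ η, ∀ q ≤ c, A η q → B η q) (k : o.mem A c) : o.mem B c := by
  obtain ⟨-, -, ζ, -⟩ := o.ne A c hA k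
  exact o.mono A B c ζ hA hB (fun η _ => h η) k

omit [WellFoundedLT K] in
lemma mem_le {A : K → P → Prop} {c q : P} (hA : ∀ η, Reg (A η)) (k : o.mem A c) (l : q ≤ c) :
    o.mem A q := (o.reg A hA).1 _ _ k l

lemma fmem_UN {A : K → P → Prop} (hA : ∀ η, Reg (A η)) {q : P} (k : o.mem A q) :
    Fmem (nm A).1 (UN o).1 q :=
  fmem_mkH (A := fun A : {A : K → P → Prop // ∀ η, Reg (A η)} => nm A.1) (i := ⟨A, hA⟩) k

lemma UN_elim (gm : GN P) (hU : UN o ∈ gm.S) (hk : kk K P ∈ gm.S) {X : HN P} (hX : X ∈ gm.S)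
    (h : gm.E (gm.val X) (gm.val (UN o))) :
    Sub gm.E (gm.val X) (gm.val (kk K P)) ∧ ∃ q ∈ gm.Γ, o.mem (trc X) q := by
  obtain ⟨A, k1, k2, q, k3, k4⟩ := mkH_elim gm hU h
  obtain ⟨r, k5, k6, k7⟩ := gm.eq_le k1 hX k2 k3
  exact ⟨k2 ▸ nm_sub gm k1 hk, r, k5, mono0 A.2 (reg_trc X)
    (fun η s l j => (fmem_nm.2 ((A.2 η).1.hull j)).congr_right (k7.mono l)) (mem_le A.2 k4 k6)⟩

lemma UN_intro (gm : GN P) (hU : UN o ∈ gm.S) (hk : kk K P ∈ gm.S) {X : HN P} (hX : X ∈ gm.S)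
    (h : Sub gm.E (gm.val X) (gm.val (kk K P))) {q : P} (hq : q ∈ gm.Γ) (k : o.mem (trc X) q) :
    gm.E (gm.val X) (gm.val (UN o)) := by
  obtain ⟨r, k1, k2, k3⟩ := gm.truthDef_le (Def.sub 0 1) (mem2 hX hk) h hq
  exact val_mem gm hX hU k1 ((fmem_UN (reg_trc X) (mem_le (reg_trc X) k k2)).congr_left
    (feq_nm k3).symm)

lemma SN_intro (gm : GN P) (hS : SN o ∈ gm.S) {δ η : K} (h1 : ordH P δ ∈ gm.S)
    (h2 : ordH P η ∈ gm.S) {q : P} (hq : q ∈ gm.Γ) (k : o.st δ (some η) q) :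
    Rel gm.E (gm.val (SN o)) (gm.val (ordH P δ)) (gm.val (ordH P η)) :=
  (rel_iff gm hS h1 h2).2 ⟨(δ, η), q, hq, k, Feq.refl _ _, Feq.refl _ _⟩

lemma SN_elim (gm : GN P) (hS : SN o ∈ gm.S) {δ : K} (h1 : ordH P δ ∈ gm.S) {y : HN P}
    (h2 : y ∈ gm.S) (h : Rel gm.E (gm.val (SN o)) (gm.val (ordH P δ)) (gm.val y)) :
    ∃ η, ∃ q ∈ gm.Γ, o.st δ (some η) q ∧ Feq y.1 (ordH P η).1 q := by
  obtain ⟨⟨δ', η⟩, q, k1, k2, k3, k4⟩ := (rel_iff gm hS h1 h2).1 h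
  obtain rfl : δ = δ' := feq_ord k3
  exact ⟨η, q, k1, k2, k4⟩

section
variable (gm : GN P) (hU : UN o ∈ gm.S) (hk : kk K P ∈ gm.S)
include hU hk

lemma tail0 {X : HN P} (hX : X ∈ gm.S) (h : gm.E (gm.val X) (gm.val (UN o))) {ζ : K}
    (hζ : ordH P ζ ∈ gm.S) : ∃ y, gm.E y (gm.val X) ∧ gm.E (gm.val (ordH P ζ)) y := by
  obtain ⟨-, q, k1, k2⟩ := UN_elim gm hU hk hX h
  have hr : ∀ η : K, Reg fun q => trc X η q ∧ ζ < η := fun η => (reg_trc X η).and (reg_const _)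
  refine gen_ex gm (Ψ := fun _ E v => ∃ y, E y (v 0) ∧ E (v 1) y)
    (Def.ex ((Def.mem _ _).and (Def.mem _ _))) (mem2 hX hζ) k1 fun q' l => ?_
  obtain ⟨c, k3, η, k4, k5⟩ := o.ne _ q' hr
    (o.mono _ _ q' ζ (reg_trc X) hr (fun η j s _ i => ⟨i, j⟩) (mem_le (reg_trc X) k2 l))
  exact ⟨c, k3, {ordH P η}, to_countable _, fun g n1 n2 n3 =>
    ⟨_, val_mem g (n3 rfl) (n2 0) n1 k4, ord_lt g (n2 1) (n3 rfl) k5⟩⟩

lemma ult : Ult gm.E (gm.val (UN o)) (gm.val (kk K P)) := by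
  obtain ⟨p, hp⟩ := gm.nonempty
  refine ⟨fun A h => ?_, UN_intro gm hU hk hk (fun _ k => k) hp (mono0 (fun _ => reg_const True)
    (reg_trc _) (fun η q _ _ => fmem_oS (mem_univ η) q) (o.top p)), fun A B h1 h2 h3 => ?_,
    fun A B C h1 h2 h3 => ?_, fun A B h1 h2 => ?_⟩
  · obtain ⟨X, hX, rfl⟩ := gm.surj A
    obtain ⟨k0, q, k1, k2⟩ := UN_elim gm hU hk hX h
    refine ⟨k0, gen_ex gm (Ψ := fun _ E v => ∃ y, E y (v 0)) (Def.ex (Def.mem _ _))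
      (mem2 hX hX) k1 fun q' l => ?_⟩
    obtain ⟨c, k3, η, k4⟩ := o.ne _ q' (reg_trc X) (mem_le (reg_trc X) k2 l)
    exact ⟨c, k3, {ordH P η}, to_countable _, fun g n1 n2 n3 =>
      ⟨_, val_mem g (n3 rfl) (n2 0) n1 k4⟩⟩
  · obtain ⟨X, hX, rfl⟩ := gm.surj A
    obtain ⟨Y, hY, rfl⟩ := gm.surj B
    obtain ⟨-, q, k1, k2⟩ := UN_elim gm hU hk hX h1
    obtain ⟨r, k3, k4, k5⟩ := gm.truthDef_le (Def.sub 0 1) (mem2 hX hY) h2 k1
    exact UN_intro gm hU hk hY h3 k3 (mono0 (reg_trc X) (reg_trc Y)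
      (fun η s l j => fsub k5 _ l j) (mem_le (reg_trc X) k2 k4))
  · obtain ⟨X, hX, rfl⟩ := gm.surj A
    obtain ⟨Y, hY, rfl⟩ := gm.surj B
    obtain ⟨Z, hZ, rfl⟩ := gm.surj C
    obtain ⟨k0, q, k1, k2⟩ := UN_elim gm hU hk hX h1
    obtain ⟨-, q', l1, l2⟩ := UN_elim gm hU hk hY h2
    obtain ⟨s, n1, n2, n3⟩ := gm.dir _ _ k1 l1
    obtain ⟨r, k3, k4, k5⟩ := gm.truthDef_le
      (Φ := fun _ E v => ∀ x, E x (v 2) ↔ E x (v 0) ∧ E x (v 1))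
      (Def.all ((Def.mem _ _).iff ((Def.mem _ _).and (Def.mem _ _)))) (mem3 hX hY hZ) h3 n1
    refine UN_intro gm hU hk hZ (fun x hx => k0 x ((h3 x).1 hx).1) k3
      (mono0 (fun η => (reg_trc X η).and (reg_trc Y η)) (reg_trc Z) (fun η t l j => ?_)
        (o.inter _ _ r (reg_trc X) (reg_trc Y) (mem_le (reg_trc X) k2 (k4.trans n2))
          (mem_le (reg_trc Y) l2 (k4.trans n3))))
    refine fmem_of_gm {X, Y} (to_countable _) fun g a1 a2 a3 a4 => ?_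
    have b1 : X ∈ g.S := a4 (by simp)
    have b2 : Y ∈ g.S := a4 (by simp)
    exact (k5.mono l g a1 (mem3 b1 b2 a3) _).2 ⟨val_mem g a2 b1 a1 j.1, val_mem g a2 b2 a1 j.2⟩
  · obtain ⟨X, hX, rfl⟩ := gm.surj A
    obtain ⟨Y, hY, rfl⟩ := gm.surj B
    refine transfer gm
      (Φ := fun _ E v => Sub E (v 0) (v 2) ∧ ∀ x, E x (v 1) ↔ E x (v 2) ∧ ¬ E x (v 0))
      (Ψ := fun _ E v => E (v 0) (v 3) ∨ E (v 1) (v 3))
      ((Def.sub _ _).and (Def.all ((Def.mem _ _).iff ((Def.mem _ _).and (Def.mem _ _).not))))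
      ((Def.mem _ _).or (Def.mem _ _)) (mem4 hX hY hk hU) hp (fun q _ k => ?_) ⟨h1, h2⟩
    obtain ⟨c, k1, k2⟩ := o.ultra _ q (reg_trc X)
    refine ⟨c, k1, fun g n1 n2 => ?_⟩
    obtain ⟨n3, n4⟩ := k.mono k1 g n1 n2
    refine k2.imp (UN_intro g (n2 3) (n2 2) (n2 0) n3 n1) fun k3 =>
      UN_intro g (n2 3) (n2 2) (n2 1) (fun x hx => ((n4 x).1 hx).1) n1
        (mono0 (fun η => reg_ng (reg_trc X η).1) (reg_trc Y) (fun η t l j => ?_) k3)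
    refine fmem_of_gm {X, kk K P, UN o} (to_countable _) fun g' a1 a2 a3 a4 => ?_
    have b1 : X ∈ g'.S := a4 (by simp)
    have b2 : kk K P ∈ g'.S := a4 (by simp)
    refine ((k.mono (l.trans k1) g' a1 (mem4 b1 a3 b2 (a4 (by simp)))).2 _).2
      ⟨oS_intro g' b2 a2 trivial, fun i => ?_⟩
    obtain ⟨u, b3, b4⟩ := (g'.mem_iff a2 b1).1 i
    obtain ⟨v, -, b5, b6⟩ := g'.dir _ _ a1 b3
    exact j v b5 (b4.mono b6)

lemma diag (F C : gm.M)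
    (h1 : ∀ i A, gm.E i (gm.val (kk K P)) → Rel gm.E F i A → gm.E A (gm.val (UN o)))
    (h2 : ∀ i A A', gm.E i (gm.val (kk K P)) → Rel gm.E F i A → Rel gm.E F i A' → A = A')
    (h3 : ∀ x, gm.E x C ↔ gm.E x (gm.val (kk K P)) ∧ ∀ i A, gm.E i x → Rel gm.E F i A → gm.E x A) :
    gm.E C (gm.val (UN o)) := by
  obtain ⟨F, hF, rfl⟩ := gm.surj F
  obtain ⟨C, hC, rfl⟩ := gm.surj C
  obtain ⟨p, hp, k⟩ := gm.truthDef
    (Φ := fun _ E v => (∀ i A, E i (v 2) → Rel E (v 0) i A → E A (v 3)) ∧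
      (∀ i A A', E i (v 2) → Rel E (v 0) i A → Rel E (v 0) i A' → A = A') ∧
      ∀ x, E x (v 1) ↔ E x (v 2) ∧ ∀ i A, E i x → Rel E (v 0) i A → E x A)
    ((Def.all (Def.all ((Def.mem _ _).imp ((Def.rel _ _ _).imp (Def.mem _ _))))).and
      ((Def.all (Def.all (Def.all ((Def.mem _ _).imp ((Def.rel _ _ _).imp
        ((Def.rel _ _ _).imp (Def.eq _ _))))))).and
      (Def.all ((Def.mem _ _).iff ((Def.mem _ _).and (Def.all (Def.all ((Def.mem _ _).imp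
        ((Def.rel _ _ _).imp (Def.mem _ _))))))))))
    (mem4 hF hC hk hU) ⟨h1, h2, h3⟩
  have hd : Def (fun _ E v => ∀ A, Rel E (v 0) (v 1) A → E (v 2) A) :=
    Def.all ((Def.rel _ _ _).imp (Def.mem _ _))
  let A : K → K → P → Prop := fun i η =>
    Fc (fun _ E v => ∀ A, Rel E (v 0) (v 1) A → E (v 2) A) (w3 F (ordH P i) (ordH P η))
  have hA : ∀ i η, Reg (A i η) := fun i η => ⟨fun _ _ j l => Fc.mono j l, fun _ j => Fc.reg hd j⟩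
  have key : ∀ i, o.mem (A i) p := fun i => (o.reg _ (hA i)).2 p fun q l => by
    obtain ⟨g, n1, n2, n3⟩ := exists_gm' q (w4 F C (kk K P) (UN o)) {ordH P i} (to_countable _)
    by_cases e : ∃ B, Rel g.E (g.val F) (g.val (ordH P i)) B
    · obtain ⟨B, e⟩ := e
      obtain ⟨X, hX, rfl⟩ := g.surj B
      obtain ⟨-, q1, a1, a2⟩ := UN_elim g (n2 3) (n2 2) hX
        ((k.mono l g n1 n2).1 _ _ (oS_intro g (n2 2) (n3 rfl) trivial) e)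
      obtain ⟨q2, a3, a4, a5⟩ := g.dir _ _ n1 a1
      obtain ⟨r, -, a6, a7⟩ := g.truthDef_le (Def.rel 0 1 2) (mem3 (n2 0) (n3 rfl) hX) e a3
      refine ⟨r, a6.trans a4, mono0 (reg_trc X) (hA i) (fun η s a8 j => ?_)
        (mem_le (reg_trc X) a2 (a6.trans a5))⟩
      refine Fc.of_extra hd {X, C, kk K P, UN o} (to_countable _) fun g' b1 b2 b3 B b4 => ?_
      have c1 : X ∈ g'.S := b3 (by simp)
      have c2 : kk K P ∈ g'.S := b3 (by simp)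
      have c3 := (k.mono (((a8.trans a6).trans a4).trans l) g' b1
        (mem4 (b2 0) (b3 (by simp)) c2 (b3 (by simp)))).2.1 _ _ _ (oS_intro g' c2 (b2 1) trivial)
        (a7.mono a8 g' b1 (mem3 (b2 0) (b2 1) c1)) b4
      exact c3 ▸ val_mem g' (b2 2) c1 b1 j
    · obtain ⟨r, -, a6, a7⟩ := g.truthDef_le (Φ := fun _ E v => ¬ ∃ B, Rel E (v 0) (v 1) B)
        (Def.ex (Def.rel _ _ _)).not (mem2 (n2 0) (n3 rfl)) e n1
      exact ⟨r, a6, mono0 (fun _ => reg_const True) (hA i)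
        (fun η s a8 _ g' b1 b2 B b4 => absurd ⟨B, b4⟩ (a7.mono a8 g' b1 (mem2 (b2 0) (b2 1))))
        (o.top r)⟩
  refine UN_intro gm hU hk hC (fun x hx => ((h3 x).1 hx).1) hp
    (mono0 (fun η => Reg.all fun i => Reg.all fun _ => hA i η) (reg_trc C) (fun η s l j => ?_)
      (o.diag A p hA key))
  refine fmem_of_gm {F, kk K P, UN o} (to_countable _) fun g a1 a2 a3 a4 => ?_
  have b1 : F ∈ g.S := a4 (by simp)
  have b2 : kk K P ∈ g.S := a4 (by simp)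
  refine ((k.mono l g a1 (mem4 b1 a3 b2 (a4 (by simp)))).2.2 _).2
    ⟨oS_intro g b2 a2 trivial, fun i B b3 b4 => ?_⟩
  have b5 := a2
  rw [ordH_eq] at b5 b3
  obtain ⟨ι, b6, b7, rfl⟩ := oS_elim g b5 b3
  exact j ι b6 g a1 (mem3 b1 b7 a2) B b4

lemma unav (hD : DN o ∈ gm.S) (hS : SN o ∈ gm.S) (A : gm.M) (h : gm.E A (gm.val (UN o))) :
    ∃ d, gm.E d (gm.val (DN o)) ∧ ∀ y, Rel gm.E (gm.val (SN o)) d y → gm.E y A := by
  obtain ⟨X, hX, rfl⟩ := gm.surj A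
  obtain ⟨-, q, k1, k2⟩ := UN_elim gm hU hk hX h
  refine gen_ex gm (Ψ := fun _ E v => ∃ d, E d (v 1) ∧ ∀ y, Rel E (v 2) d y → E y (v 0))
    (Def.ex ((Def.mem _ _).and (Def.all ((Def.rel _ _ _).imp (Def.mem _ _))))) (mem3 hX hD hS) k1
    fun q' l => ?_
  obtain ⟨c, k3, δ, k4, k5⟩ := o.unav _ q' (reg_trc X) (mem_le (reg_trc X) k2 l)
  refine ⟨c, k3, {ordH P δ}, to_countable _, fun g n1 n2 n3 =>
    ⟨_, val_mem g (n3 rfl) (n2 1) n1 (fmem_nm.2 ((o.sop δ none).hull k4)), fun y hy => ?_⟩⟩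
  obtain ⟨y, n4, rfl⟩ := g.surj y
  obtain ⟨η, r, a1, a2, a3⟩ := SN_elim g (n2 2) (n3 rfl) n4 hy
  obtain ⟨s, a4, a5, a6⟩ := g.dir _ _ n1 a1
  exact val_mem g n4 (n2 0) a4
    (Fmem.congr_left (k5 η s a5 (o.sop _ _ _ _ a2 a6)) (a3.mono a6).symm)

end

lemma ram (gm : GN P) (hU : UN o ∈ gm.S) (hD : DN o ∈ gm.S) (hS : SN o ∈ gm.S) (X : gm.M) :
    ∃ A, gm.E A (gm.val (UN o)) ∧ ((∀ d, gm.E d (gm.val (DN o)) →
      (∀ y, Rel gm.E (gm.val (SN o)) d y → gm.E y A) → gm.E d X) ∨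
      ∀ d, gm.E d (gm.val (DN o)) → (∀ y, Rel gm.E (gm.val (SN o)) d y → gm.E y A) →
        ¬ gm.E d X) := by
  obtain ⟨X, hX, rfl⟩ := gm.surj X
  obtain ⟨p, hp⟩ := gm.nonempty
  obtain ⟨A, k1, k2, k3⟩ := o.ram (trc X) (reg_trc X)
  have hd : ∀ i j k, Def (fun _ E v => ∀ y, Rel E (v i) (v j) y → E y (v k)) := fun _ _ _ =>
    Def.all ((Def.rel _ _ _).imp (Def.mem _ _))
  refine gen_ex gm (Ψ := fun _ E v => ∃ A, E A (v 1) ∧
      ((∀ d, E d (v 2) → (∀ y, Rel E (v 3) d y → E y A) → E d (v 0)) ∨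
        ∀ d, E d (v 2) → (∀ y, Rel E (v 3) d y → E y A) → ¬ E d (v 0)))
    (Def.ex ((Def.mem _ _).and ((Def.all ((Def.mem _ _).imp ((hd _ _ _).imp (Def.mem _ _)))).or
      (Def.all ((Def.mem _ _).imp ((hd _ _ _).imp (Def.mem _ _).not))))))
    (mem4 hX hU hD hS) hp fun q _ => ?_
  obtain ⟨c, k4, k5⟩ := k3 q
  refine ⟨c, k4, {nm A}, to_countable _, fun g n1 n2 n3 =>
    ⟨_, val_mem g (n3 rfl) (n2 1) n1 (fmem_UN k1 (k2 c)), ?_⟩⟩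
  have key : ∀ Q : K → P → Prop, (∀ δ, Reg (Q δ)) → (∀ δ, ∀ q ≤ c, o.st δ none q →
      (∀ η, ∀ r ≤ q, o.st δ (some η) r → A η r) → Q δ q) → ∀ d, g.E d (g.val (DN o)) →
      (∀ y, Rel g.E (g.val (SN o)) d y → g.E y (g.val (nm A))) →
      ∃ δ, ordH P δ ∈ g.S ∧ g.val (ordH P δ) = d ∧ ∃ r ∈ g.Γ, Q δ r := by
    intro Q hQ h d h1 h2
    obtain ⟨δ, a1, rfl, q1, a2, a3⟩ := nm_elim g (n2 2) h1
    obtain ⟨q2, a4, a5, a6⟩ := g.dir _ _ n1 a2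
    obtain ⟨r, a7, a8, a9⟩ := g.truthDef_le (hd 0 1 2) (mem3 (n2 3) a1 (n3 rfl)) h2 a4
    refine ⟨δ, a1, rfl, r, a7, (hQ δ).2 r fun s l => ?_⟩
    obtain ⟨t, b1, b2⟩ := a3 s ((l.trans a8).trans a6)
    refine ⟨t, b1, h δ t (((b1.trans l).trans a8).trans a5) b2 fun η u b3 b4 =>
      (k1 η).2 u (fmem_nm.1 ?_)⟩
    refine fmem_of_gm {SN o, ordH P δ} (to_countable _) fun g' c1 c2 c3 c4 => ?_
    have d1 : SN o ∈ g'.S := c4 (by simp)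
    have d2 : ordH P δ ∈ g'.S := c4 (by simp)
    exact a9.mono ((b3.trans b1).trans l) g' c1 (mem3 d1 d2 c3) _ (SN_intro g' d1 d2 c2 c1 b4)
  refine k5.imp (fun h d h1 h2 => ?_) fun h d h1 h2 h3 => ?_
  · obtain ⟨δ, a1, rfl, r, a2, a3⟩ := key _ (reg_trc X) h d h1 h2
    exact val_mem g a1 (n2 0) a2 a3
  · obtain ⟨δ, a1, rfl, r, a2, a3⟩ := key _ (fun δ => reg_ng (reg_trc X δ).1) h d h1 h2
    obtain ⟨u, b3, b4⟩ := (g.mem_iff a1 (n2 0)).1 h3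
    obtain ⟨v, -, b5, b6⟩ := g.dir _ _ a2 b3
    exact a3 v b5 (b4.mono b6)

lemma sne (gm : GN P) (hD : DN o ∈ gm.S) (hS : SN o ∈ gm.S) (d : gm.M)
    (h : gm.E d (gm.val (DN o))) : ∃ y, Rel gm.E (gm.val (SN o)) d y := by
  obtain ⟨δ, a1, rfl, q, a2, a3⟩ := nm_elim gm hD h
  refine gen_ex gm (Ψ := fun _ E v => ∃ y, Rel E (v 0) (v 1) y) (Def.ex (Def.rel _ _ _))
    (mem2 hS a1) a2 fun q' l => ?_
  obtain ⟨r, k1, k2⟩ := a3 q' l
  obtain ⟨c, k3, η, k4⟩ := o.sne δ r k2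
  exact ⟨c, k3.trans k1, {ordH P η}, to_countable _, fun g n1 n2 n3 =>
    ⟨_, SN_intro g (n2 0) (n2 1) (n3 rfl) n1 k4⟩⟩

lemma unb (gm : GN P) (hD : DN o ∈ gm.S) (hS : SN o ∈ gm.S) (d y : gm.M)
    (h : gm.E d (gm.val (DN o))) (h' : Rel gm.E (gm.val (SN o)) d y) :
    ∃ y', gm.E y y' ∧ Rel gm.E (gm.val (SN o)) d y' := by
  obtain ⟨δ, a1, rfl, q, a2, a3⟩ := nm_elim gm hD h
  obtain ⟨y, hy, rfl⟩ := gm.surj y
  obtain ⟨η, q1, a4, a5, a6⟩ := SN_elim gm hS a1 hy h'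
  obtain ⟨q2, a7, a8, a9⟩ := gm.dir _ _ a2 a4
  refine gen_ex gm (Ψ := fun _ E v => ∃ y', E (v 2) y' ∧ Rel E (v 0) (v 1) y')
    (Def.ex ((Def.mem _ _).and (Def.rel _ _ _))) (mem3 hS a1 hy) a7 fun q' l => ?_
  obtain ⟨r, k1, k2⟩ := a3 q' (l.trans a8)
  have k0 : r ≤ q1 := (k1.trans l).trans a9
  obtain ⟨c, k3, η', k4, k5⟩ := o.unb δ η r k2 (o.sop _ _ _ _ a5 k0)
  refine ⟨c, k3.trans k1, {ordH P η'}, to_countable _, fun g n1 n2 n3 =>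
    ⟨_, val_mem g (n2 2) (n3 rfl) n1 ?_, SN_intro g (n2 0) (n2 1) (n3 rfl) n1 k5⟩⟩
  rw [ordH_eq η']
  exact (fmem_oS (L := Iio η') k4 c).congr_left (a6.mono (k3.trans k0)).symm

end GMod

open GMod in
theorem Out.model {K P : Type} [LinearOrder K] [WellFoundedLT K] [Preorder P] [Nonempty P]
    (o : Out K P) : ∃ (M : Type) (E : M → M → Prop), IsZF E ∧ Choice E ∧ WellFounded E ∧
      ∃ U k D S, Lad E U k D S := by
  obtain ⟨gm, -, hC⟩ := exists_gm (G := Triv P) (Classical.arbitrary P)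
    {UN o, kk K P, DN o, SN o} (to_countable _)
  have hU : UN o ∈ gm.S := hC (by simp)
  have hk : kk K P ∈ gm.S := hC (by simp)
  have hD : DN o ∈ gm.S := hC (by simp)
  have hS : SN o ∈ gm.S := hC (by simp)
  refine ⟨gm.M, gm.E, gm.isZF, choice gm, gm.wf, gm.val (UN o), gm.val (kk K P), gm.val (DN o),
    gm.val (SN o), isOrd_oS gm isLowerSet_univ hk, fun _ => le_or_le gm hk, ult gm hU hk,
    fun A z h1 h2 => ?_, GMod.diag gm hU hk, nm_sub gm hD hk, fun d y h => ?_, GMod.sne gm hD hS,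
    GMod.unb gm hD hS, fun X _ => GMod.ram gm hU hD hS X, GMod.unav gm hU hk hD hS⟩
  · obtain ⟨X, hX, rfl⟩ := gm.surj A
    obtain ⟨ζ, -, k1, rfl⟩ := oS_elim gm hk h2
    exact tail0 gm hU hk hX h1 k1
  · obtain ⟨d, hd, rfl⟩ := gm.surj d
    obtain ⟨y, hy, rfl⟩ := gm.surj y
    obtain ⟨t, q, k1, -, -, k2⟩ := (rel_iff gm hS hd hy).1 h
    exact val_mem gm hy hk k1 ((fmem_oS (mem_univ t.2) q).congr_left k2.symm)

end Pool.Agent.Lib.MP_491cc4_lc.Cx
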