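import Pool.Agent.Lib.MP_491cc4_lc.Cx.GS

set_option autoImplicit false
set_option linter.unusedSectionVars false

namespace Pool.Agent.Lib.MP_491cc4_lc.Cx

open Set Cardinal Filter Pool.Agent.Lib.MP_d4b40b_lc

variable {K : Type} [LinearOrder K] [WellFoundedLT K] [OrderBot K] [Lc K] [It K]
variable {a : Aux K} {u : UI K} {E : Emb (RS a)} {c0 : Cd K}

/-- the condition with empty stem and a fixed large set -/
def stm {U : Sys K} {H : Nm K} (h1 : NR U.β H) (h2 : ∀ c, U.mem H c) (c : TT K) : BB U :=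
  BB.mk' (cutT U.β c) ∅ H (sp_cut _ _) h1 (h2 _)

section
variable {U : Sys K} {H : Nm K} (h1 : NR U.β H) (h2 : ∀ c, U.mem H c)

lemma stm_le {c c' : TT K} (k : Sp U.β c) (l : c' ≤ c) :
    stm h1 h2 c' ≤ BB.mk' c ∅ H k h1 (h2 _) :=
  ⟨cutT_le l k, EE.refl _, fun _ j n => absurd j n, fun _ _ _ _ j => j⟩

lemma stm_mono {c c' : TT K} (l : c' ≤ c) : stm h1 h2 c' ≤ stm h1 h2 c :=
  stm_le h1 h2 (sp_cut _ _) (l.trans (le_cutT _ _))

lemma stm_cut (c : TT K) : stm h1 h2 (cutT U.β c) ≤ stm h1 h2 c :=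
  stm_le h1 h2 (sp_cut _ _) le_rfl

lemma op_stm {D : BB U → Prop} (h : Op D) : Op fun c => D (stm h1 h2 c) :=
  fun _ _ k l => h _ _ k (stm_mono h1 h2 l)

lemma det_stm {D : BB U → Prop} (h : Op D) : Det U.β fun c => D (stm h1 h2 c) :=
  Det.of (op_stm h1 h2 h) fun c k => h _ _ k (stm_cut h1 h2 c)

include h1 in
lemma dec_stem (t : Finset K) (c : TT K) (k : Sp U.β c) : ∃ c' ≤ c, Sp U.β c' ∧
    ((∀ η ∈ t, H η c') ∨ ∃ η ∈ t, ng (H η) c') := by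
  classical
  induction t using Finset.induction_on with
  | empty => exact ⟨c, le_rfl, k, Or.inl fun _ j => absurd j (Finset.notMem_empty _)⟩
  | insert η t _ ih =>
    obtain ⟨c1, l1, k1, j | ⟨ζ, j1, j2⟩⟩ := ih
    · obtain ⟨c2, l2, n⟩ := dec (H η) c1
      have l3 : cutT U.β c2 ≤ c1 := cutT_le l2 k1
      refine ⟨cutT U.β c2, l3.trans l1, sp_cut _ _, n.imp (fun n ζ o => ?_) fun n =>
        ⟨η, Finset.mem_insert_self _ _, ((h1.cm η).2 _).1 n⟩⟩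
      rcases Finset.mem_insert.1 o with rfl | o
      · exact ((h1 _).2 _).1 n
      · exact (h1 ζ).1.1 _ _ (j ζ o) l3
    · exact ⟨c1, l1, k1, Or.inr ⟨ζ, Finset.mem_insert_of_mem j1, j2⟩⟩

/-- densely, a condition either lies below the empty stem condition or leaves `H` -/
lemma dec_stm (w : BB U) : ∃ w' ≤ w, w' ≤ stm h1 h2 w'.1.c ∨ ∃ η ∈ w'.1.t, ng (H η) w'.1.c := by
  obtain ⟨c, l, k, j⟩ := dec_stem h1 w.1.t w.1.c w.2.1.1
  obtain ⟨w1, l1, e1, e2, e3⟩ := (w.rc c l k).shrink h1 (h2 _)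
  have e4 : w1.1.c = c := e1
  have e5 : w1.1.t = w.1.t := e2
  refine ⟨w1, l1.trans (w.rc_le _ _ _), j.imp (fun j => ?_) fun j => by rw [e4, e5]; exact j⟩
  exact ⟨le_cutT _ _, ee_empty _, fun η n _ => by
    have := j η (e5 ▸ n)
    rw [← e4] at this
    exact this, fun η _ q _ n => e3 η q n⟩

end

lemma le_top_raw {U U' : Sys K} (b : BB U') : b.1 ≤ (⊤ : BB U).1 :=
  BB.le_full (sp_top _ _) le_top (ee_empty _)

lemma GS.le_refl (g : GS u E c0) : g.le g := ⟨u.refl _, St.le_refl _, Agr.refl _ _⟩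

/-- capturing the decision of a name by a link -/
lemma GS.capture (h0 : ∀ j, c0.U.le (a.u j)) (g : GS u E c0) {X : Nm K} (h : NR g.c.U.β X) :
    ∃ g' : GS u E c0, g'.le g ∧ ∀ b : BB g'.c.U, ∃ b' ≤ b, ∃ q : (RS a).C,
      (pos E g'.w X q ∨ pos E g'.w (cm X) q) ∧ Le g'.c b' q.2.c (q.2.at q.1) := by
  obtain ⟨g1, l1, -, k1⟩ := g.dec h
  obtain ⟨γ, i0, hm⟩ := mix g1.c ⊤ (fun c1 w => ∃ q : (RS a).C,
      (pos E g1.w X q ∨ pos E g1.w (cm X) q) ∧ Le c1 w q.2.c (q.2.at q.1)) fun b _ => by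
    obtain ⟨q, hq⟩ := exists_bl (a := a) (b := b) ((g1.agr.mono le_top).le (le_top_raw _)) h0
    obtain ⟨q', l, k⟩ := k1 q
    exact ⟨q'.2.c, q'.2.at q'.1, ⟨q', k, Le.of_le le_rfl⟩, hq.mono l⟩
  obtain ⟨s, k2, k3, k4⟩ := u.ext g1.s γ fun _ => false
  obtain ⟨i, hi⟩ := gtL i0
  obtain ⟨x, op, sup, lev, k5, k6⟩ := hm (u.sys s) (g1.hU ▸ u.mono _ _ k2) k3 i hi
  obtain ⟨g2, l2, e⟩ := g1.move k2 (c := ⟨u.sys s, i, x, op, sup, lev⟩) rfl
    (k5.mono (le_top_raw _)) fun ξ l n => Or.inl (k4 ξ (g1.hU ▸ l) n)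
  refine ⟨g2, l2.trans l1, ?_⟩
  rw [e]
  intro b
  obtain ⟨b', n1, c1, w, ⟨q, n2, n3⟩, n4⟩ := k6 b (le_top_raw _)
  exact ⟨b', n1, q, n2.imp (·.mono h.rn l2.2.1) (·.mono h.rn.cm l2.2.1), n4.trans n3⟩

/-- coding a certified name by a true bit -/
lemma GS.code (g : GS u E c0) {B : Nm K} (h : NR g.c.U.β B)
    (k : ∀ q, Bl q g.c ⊤ → pos E g.w B q) : ∃ g' : GS u E c0, g'.le g ∧
      ∃ ξ < g'.c.U.β, Is ξ B ∧ ∀ d, g'.c.U.mem (An ξ true) d := by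
  classical
  obtain ⟨ξ, k0, k1⟩ := book h g.c.U.β
  obtain ⟨s, k2, k3, k4⟩ := u.ext g.s ξ fun ζ => if ζ = ξ then true else false
  obtain ⟨i, hi⟩ := gtL g.c.i
  obtain ⟨x, op, sup, lev, k5⟩ := agr_lim (J := Unit)
    (by simpa using one_lt_aleph0.trans_le (infL K)) (fun _ => g.c) (u.sys s)
    (fun _ => g.hU ▸ u.mono _ _ k2) i (fun _ => hi) fun _ _ => Or.inl (Agr.refl _ _)
  obtain ⟨g', l, e⟩ := g.move k2 (c := ⟨u.sys s, i, x, op, sup, lev⟩) rfl (k5 ())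
    fun ζ l n => by
      by_cases o : ζ = ξ
      · exact Or.inr ⟨B, o ▸ k1, fun q j => k q (bl_agr (k5 ()) j)⟩
      · have := k4 ζ (g.hU ▸ l) n
        rw [if_neg o] at this
        exact Or.inl this
  refine ⟨g', l, ξ, ?_⟩
  rw [e]
  have := k4 ξ (g.hU ▸ k0) k3
  rw [if_pos rfl] at this
  exact ⟨k3, k1, this⟩

/-- the decision of a link below a condition is the decision of the state -/
lemma GS.cert (g : GS u E c0) {Y : Nm K} (h : RN Y) {q : (RS a).C} {w : BB g.c.U}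
    (k : Bl q g.c w) (j : hull (fun b => ∃ q : (RS a).C, pos E g.w Y q ∧
      Le g.c b q.2.c (q.2.at q.1)) w) :
    ∃ q' ≤ q, ∀ᶠ x in mm K, lift E g.w x q' ≤ w.1.c ∧ Y (nu x) (lift E g.w x q') := by
  obtain ⟨q1, l1, w1, -, ⟨q2, n1, n2⟩, n3⟩ := k.dense _ j
  obtain ⟨q3, l3, n4⟩ := lift_le (intpL g.c) g.ms (c := w.1.c) (q := q1)
    ⟨w.2.1.1, w, k.mono l1, le_rfl⟩
  have l2 : q1 ≤ q2 := RS.tle_iff.2 (Le.trans n3 n2)
  exact ⟨q3, l3.trans l1, n4.and ((reg_pos h).1 _ _ n1 (l3.trans l2))⟩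

/-- the Ramsey step -/
theorem GS.ram (h0 : ∀ j, c0.U.le (a.u j)) (g : GS u E c0) {X : Nm K} (h : NR g.c.U.β X) :
    ∃ g' : GS u E c0, g'.le g ∧ ∃ A, NR g'.c.U.β A ∧ (∀ d, g'.c.U.mem A d) ∧ ∀ d, ∃ d' ≤ d,
      (∀ δ, ∀ q ≤ d', stem δ none q.1 → Sb A δ q → X δ q) ∨
      ∀ δ, ∀ q ≤ d', stem δ none q.1 → Sb A δ q → ng (X δ) q := by
  obtain ⟨g1, l1, k1⟩ := g.capture h0 h
  have hX : NR g1.c.U.β X := h.mono l1.2.2.U.1
  let D : BB g1.c.U → Prop := fun b => ∃ q : (RS a).C, pos E g1.w X q ∧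
    Le g1.c b q.2.c (q.2.at q.1)
  have hD : Op D := fun _ _ k l => k.imp fun _ j => ⟨j.1, j.2.mono l⟩
  obtain ⟨H, h1, h2, h3⟩ := prikry D hD
  let dp : TT K → Prop := fun c => hull D (stm h1 h2 c)
  let dm : TT K → Prop := fun c => ng D (stm h1 h2 c)
  have op1 : Op dp := op_stm h1 h2 op_hull
  have op2 : Op dm := op_stm h1 h2 op_ng
  have dt1 : Det g1.c.U.β dp := det_stm h1 h2 op_hull
  have dt2 : Det g1.c.U.β dm := det_stm h1 h2 op_ng
  have dis : ∀ c, dp c → dm c → False := fun c k j => by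
    obtain ⟨r, n1, n2⟩ := k _ le_rfl
    exact j r n1 n2
  have den : ∀ d, ∃ d' ≤ d, dp d' ∨ dm d' := fun d => by
    obtain ⟨c, l, k, j⟩ := h3 ∅ (cutT g1.c.U.β d) (sp_cut _ _)
    obtain ⟨c2, n1, n2, -⟩ := amal l k
    exact ⟨c2, n2, j.imp (op_hull _ _ · (stm_le h1 h2 k n1)) (op_ng _ _ · (stm_le h1 h2 k n1))⟩
  let B : Nm K := fun δ c => ∀ q ≤ c, Sb H δ q →
    (∀ r ≤ q, dp r → X δ r) ∧ ∀ r ≤ q, dm r → ng (X δ) r
  have hB : NR g1.c.U.β B := fun δ => by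
    have r1 := (NR.imp dt1 op1 hX).and (NR.imp dt2 op2 hX.cm) δ
    exact ⟨Reg.imp (h1.sb δ).1.1 r1.1, (h1.sb δ).2.imp (h1.sb δ).1.1 r1.2 r1.1⟩
  have cert : ∀ q, Bl q g1.c ⊤ → pos E g1.w B q := fun q0 k0 => by
    refine (reg_pos hB.rn).2 _ fun q l => ?_
    obtain ⟨q1, n1, w, -, ⟨n2, n3⟩, n4⟩ := (k0.mono l).dense (fun w => (dp w.1.c ∨ dm w.1.c) ∧
        (w ≤ stm h1 h2 w.1.c ∨ ∃ η ∈ w.1.t, ng (H η) w.1.c)) fun w _ => by
      obtain ⟨d, o1, o2⟩ := den w.1.c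
      have o3 : cutT g1.c.U.β d ≤ w.1.c := cutT_le o1 w.2.1.1
      obtain ⟨w1, o4, o5⟩ := dec_stm h1 h2 (w.rc _ o3 (sp_cut _ _))
      exact ⟨w1, o4.trans (w.rc_le _ _ _),
        o2.imp (fun o => op1 _ _ ((dt1 d).1 o) o4.1) fun o => op2 _ _ ((dt2 d).1 o) o4.1, o5⟩
    rcases n3 with n3 | ⟨η, n3, n5⟩
    · rcases n2 with n2 | n2
      · obtain ⟨q2, o1, o2⟩ := g1.cert h.rn n4 (op_hull _ _ n2 n3)
        exact ⟨q2, o1.trans n1, o2.mono fun x o r s _ =>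
          ⟨fun r' s' _ => (h _).1.1 _ _ o.2 (s'.trans s),
            fun r' s' t => (dis r' (op1 _ _ n2 ((s'.trans s).trans o.1)) t).elim⟩⟩
      · obtain ⟨q2, o1, o2⟩ := g1.cert h.rn.cm n4 fun b s => by
          obtain ⟨b', t1, q', t2 | t2, t3⟩ := k1 b
          · exact absurd ⟨q', t2, t3⟩ (n2 b' (t1.trans (s.trans n3)))
          · exact ⟨b', t1, q', t2, t3⟩
        exact ⟨q2, o1.trans n1, o2.mono fun x o r s _ =>
          ⟨fun r' s' t => (dis r' t (op2 _ _ n2 ((s'.trans s).trans o.1))).elim,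
            fun r' s' _ => op_ng _ _ o.2 (s'.trans s)⟩⟩
    · obtain ⟨q2, o1, o2⟩ := lift_le (intpL g1.c) g1.ms (c := w.1.c) (q := q1)
        ⟨w.2.1.1, w, n4, le_rfl⟩
      have o3 := lad_pos (E := E) (r := g1.w.r) (q := q2) (o := some η) fun ζ n => by
        cases n
        exact (n4.mono o1).t.1 n3
      exact ⟨q2, o1.trans n1, (o2.and o3).mono fun x o r s t =>
        (n5 r (s.trans o.1) (t η r le_rfl ((It.stem_reg _ _).1 _ _ o.2 s.1))).elim⟩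
  obtain ⟨g2, l2, ξ, k2, k3, k4⟩ := g1.code hB cert
  have hU : g1.c.U.le g2.c.U := l2.2.2.U
  refine ⟨g2, l2.trans l1, fun η c => An ξ true η c ∧ H η c, (nr_An k2 true).and (h1.mono hU.1),
    fun d => Sys.inter (nr_An k2 true) (h1.mono hU.1) (k4 d) ((hU.2 H h1 d).1 (h2 d)),
    fun d => (den d).imp fun d' j => ⟨j.1, ?_⟩⟩
  have key : ∀ δ q, stem δ none q.1 → Sb (fun η c => An ξ true η c ∧ H η c) δ q →
      (dp q → X δ q) ∧ (dm q → ng (X δ) q) := fun δ q n o => by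
    have := k3.fin n (fun η r s t => (o η r s t).1) q le_rfl fun η r s t => (o η r s t).2
    exact ⟨this.1 q le_rfl, this.2 q le_rfl⟩
  exact j.2.imp (fun k δ q l n o => (key δ q n o).1 (op1 _ _ k l))
    fun k δ q l n o => (key δ q n o).2 (op2 _ _ k l)

/-- the first global state -/
lemma exists_gs (E : Emb (RS a)) {s : u.S} (c : Cd K) (h : c.U = u.sys s)
    (k : ∀ ξ < c.U.β, ∀ d, c.U.mem (An ξ false) d) : Nonempty (GS u E c) := by
  obtain ⟨σ, h1, -⟩ := St.lim (K := K) (J := Empty)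
    (by simpa using aleph0_pos.trans_le (infL K)) Empty.elim (fun i => i.elim) ⊥ fun i => i.elim
  obtain ⟨σ', -, h2, h3, -⟩ := add (E := E) (intpL c) σ (h1 ▸ bot_le)
    (fun ξ l => absurd (h1 ▸ l) not_lt_bot) (fun _ => false) fun ξ _ n q j =>
      (false_bit n (k ξ n) j).imp fun _ t => ⟨t.1, Or.inr (Or.inl t.2)⟩
  exact ⟨⟨s, c, σ', h, h2, h3, Agr.refl _ _⟩⟩

variable (K) in
theorem exists_out : Nonempty (Out K (TT K)) := by
  obtain ⟨u⟩ := exists_ui K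
  obtain ⟨s0, hs⟩ := u.base
  obtain ⟨a, h0⟩ := exists_aux u s0
  obtain ⟨E⟩ := exists_emb (RS a)
  let c0 : Cd K := ⟨u.sys s0, ⊥, fun _ _ _ => False, fun _ _ => op_const _,
    fun _ _ _ => False.elim, ⊥, fun _ _ _ => False.elim⟩
  obtain ⟨g0⟩ := exists_gs (u := u) E c0 rfl hs
  obtain ⟨e⟩ := (Cardinal.le_def _ _).1 (mk_RN (K := K))
  obtain ⟨f, f1, f2⟩ := exists_chain (W := LL K) (S := GS u E c0) GS.le
    (fun _ _ _ => GS.le.trans) g0 (fun w f _ h => GS.lim (iioL w) f fun i j => by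
      rcases lt_trichotomy i j with l | l | l
      · exact Or.inr (h i j l)
      · exact Or.inl (l ▸ GS.le_refl _)
      · exact Or.inl (h j i l))
    (fun w g => w < g.c.U.β ∧ ∀ X : {A : Nm K | RN A}, e X = w →
      ∃ A, NR g.c.U.β A ∧ (∀ d, g.c.U.mem A d) ∧ ∀ d, ∃ d' ≤ d,
      (∀ δ, ∀ q ≤ d', stem δ none q.1 → Sb A δ q → X.1 δ q) ∨
      ∀ δ, ∀ q ≤ d', stem δ none q.1 → Sb A δ q → ng (X.1 δ) q) fun w g => by
      by_cases h : ∃ X, e X = w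
      · obtain ⟨X, rfl⟩ := h
        obtain ⟨β, k⟩ := nr_ex X.2
        obtain ⟨g1, l1, k1⟩ := g.ext (max β (e X))
        obtain ⟨g2, l2, k2⟩ := g1.ram h0 (k.mono ((le_max_left _ _).trans k1.le))
        exact ⟨g2, l2.trans l1, ((le_max_right _ _).trans_lt k1).trans_le l2.2.2.U.1,
          fun Y j => e.injective j ▸ k2⟩
      · obtain ⟨g1, l1, k1⟩ := g.ext w
        exact ⟨g1, l1, k1, fun X j => absurd ⟨X, j⟩ h⟩
  have hU : ∀ i j, i ≤ j → (f i).c.U.le (f j).c.U := fun i j l => by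
    rcases l.eq_or_lt with l | l
    · exact l ▸ Sys.le_refl _
    · exact (f1 i j l).2.2.U
  let mem : Nm K → TT K → Prop := fun A c => ∃ i, NR (f i).c.U.β A ∧ (f i).c.U.mem A c
  have key : ∀ {j A c}, NR (f j).c.U.β A → mem A c → (f j).c.U.mem A c := by
    rintro j A c h ⟨i, k1, k2⟩
    rcases le_total i j with l | l
    · exact ((hU i j l).2 A k1 c).1 k2
    · exact ((hU j i l).2 A h c).2 k2
  have ex : ∀ {I : Type} (A : I → Nm K), #I < #(LL K) → (∀ i, RN (A i)) → ∀ c : TT K,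
      ∃ j, Sp (f j).c.U.β c ∧ ∀ i, NR (f j).c.U.β (A i) := fun A hI h c => by
    choose β k using fun i => nr_ex (h i)
    obtain ⟨b, hb⟩ := boundL (s := univ) (by rwa [mk_univ]) β
    obtain ⟨γ, hγ⟩ := exists_sp c
    have l := (f2 (max b γ)).2.1.le
    exact ⟨max b γ, hγ.mono ((le_max_right _ _).trans l),
      fun i => (k i).mono ((hb i trivial).le.trans ((le_max_left _ _).trans l))⟩
  have ex2 : ∀ {A B : Nm K}, RN A → RN B → ∀ c : TT K,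
      ∃ j, Sp (f j).c.U.β c ∧ NR (f j).c.U.β A ∧ NR (f j).c.U.β B := fun {A B} h k c => by
    obtain ⟨j, n1, n2⟩ := ex (fun b : Bool => if b then A else B)
      (by simpa using (natCast_lt_aleph0 (n := 2)).trans_le (infL K))
      (fun b => by cases b <;> simpa) c
    exact ⟨j, n1, by simpa using n2 true, by simpa using n2 false⟩
  have unb : ∀ δ η (c : TT K), stem δ none c.1 → η < δ →
      ∃ c' ≤ c, ∃ η', η < η' ∧ stem δ (some η') c'.1 := fun δ η c h k => by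
    obtain ⟨p, l, j⟩ := It.stem_unb δ c.1 h η k
    exact ⟨(p, c.2), ⟨l, RT.le_refl _ _⟩, j⟩
  exact ⟨{
    mem := mem
    st := fun δ o c => stem δ o c.1
    reg := fun A h => by
      obtain ⟨j, -, k, -⟩ := ex2 h h ⊤
      have e : mem A = (f j).c.U.mem A := funext fun c => propext ⟨key k, fun n => ⟨j, k, n⟩⟩
      exact e ▸ ((f j).c.U.reg A k).1
    top := fun c => ⟨⊥, nr_const _ fun _ => True, Sys.top _ c⟩
    mono := fun A B c ζ h k l n => by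
      obtain ⟨j, -, k1, k2⟩ := ex2 h k c
      exact ⟨j, k2, Sys.mono _ A B c ζ k1 k2 l (key k1 n)⟩
    ultra := fun A c h => by
      obtain ⟨j, -, k, -⟩ := ex2 h h c
      exact (Sys.ultra _ A c k).imp fun _ n =>
        ⟨n.1, n.2.imp (fun o => ⟨j, k, o⟩) fun o => ⟨j, k.cm, o⟩⟩
    inter := fun A B c h k l n => by
      obtain ⟨j, -, k1, k2⟩ := ex2 h k c
      exact ⟨j, k1.and k2, Sys.inter k1 k2 (key k1 l) (key k2 n)⟩
    diag := fun A c h k => by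
      obtain ⟨j, -, k1⟩ := ex A Lc.KL h c
      exact ⟨j, fun η => ⟨Reg.all fun i => Reg.all fun _ => (k1 i η).1,
        Det.all fun i => Det.all fun _ => (k1 i η).2⟩,
        Sys.diag _ K id A c iicK k1 fun i => key (k1 i) (k i)⟩
    ne := fun A c _ ⟨j, k1, k2⟩ => Sys.ne _ A c k1 k2
    sop := op_stem
    sne := fun δ c h => by
      obtain ⟨η, k⟩ := (Lc.Y_bg _ (It.stem_Y _ _ _ h)).ne
      obtain ⟨c', l, η', -, j⟩ := unb δ η c h k
      exact ⟨c', l, η', j⟩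
    unb := fun δ η c h k => unb δ η c h (It.stem_lt _ _ _ k)
    ram := fun X h => by
      obtain ⟨A, k1, k2, k3⟩ := (f2 (e ⟨X, h⟩)).2.2 ⟨X, h⟩ rfl
      exact ⟨A, k1.rn, fun c => ⟨_, k1, k2 c⟩, k3⟩
    unav := fun A c h k => by
      obtain ⟨j, k1, k2, -⟩ := ex2 h h c
      exact (f j).unav h0 k2 k1 (key k2 k) }⟩

end Pool.Agent.Lib.MP_491cc4_lc.Cx
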