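import Pool.Agent.Lib.MP_491cc4_lc.Cx.LcEx
import Pool.Agent.Lib.MP_491cc4_lc.Cx.ItD
import Pool.Agent.Lib.MP_491cc4_lc.Cx.Ram
import Pool.Agent.Lib.MP_491cc4_lc.Cx.Mod
import Pool.Agent.Lib.MP_491cc4_lc.Cx.InnB

set_option autoImplicit false

namespace Pool.Agent.Lib.MP_491cc4_lc.Cx

open Pool.Agent.Lib.helper81 Pool.Agent.Lib.MP_fcebdf_lc Pool.Agent.Lib.MP_d4b40b_lc Cardinal

theorem main (L : Type) (c : Cardinal.{0}) (h0 : ℵ₀ < c) (h1 : c < #L) (h2 : Mahlo #L)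
    (W : Ultrafilter (Set L)) (h3 : SC c W) :
    ∃ (M : Type) (E : M → M → Prop), IsZF E ∧ Choice E ∧ WellFounded E ∧
      ∃ k U V, Normal E U k ∧ Ult E V k ∧ Cpl E V k k ∧ TukeyLE E V U ∧
        ∀ n, (∃ Z Y, FPow E U k n Z Y) ∧ ∀ Z Y, FPow E U k n Z Y → ¬ RKLE E V k Z Y := by
  obtain ⟨K, _, _, _, ⟨_⟩⟩ := exists_lc L c h0 h1 h2 W h3
  obtain ⟨_⟩ := exists_it K
  obtain ⟨o⟩ := exists_out K
  have : Nonempty (TT K) := ⟨⊤⟩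
  obtain ⟨M, E, k1, k2, k3, U, k, D, S, h⟩ := o.model
  obtain ⟨V, l1, l2, l3, l4⟩ := h.tukey k1 k2 k3
  exact ⟨M, E, k1, k2, k3, k, U, V, h.normal k1 k2 k3, l1, l2, l3,
    fun n => ⟨fpow_ex k1 U k n, fun _ _ j => h.not_rk k1 k2 k3 l4 n j⟩⟩

end Pool.Agent.Lib.MP_491cc4_lc.Cx
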