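import Pool.Agent.Lib.MP_491cc4_lc.Cx.Sys

set_option autoImplicit false
set_option linter.unusedSectionVars false

namespace Pool.Agent.Lib.MP_491cc4_lc.Cx

open Set Cardinal Filter Pool.Agent.Lib.MP_d4b40b_lc

variable {K : Type} [LinearOrder K] [WellFoundedLT K] [OrderBot K] [Lc K] [It K] {U : Sys K}

namespace Prik

lemma next {s t : Finset K} (h : EE s t) (k : t.card < s.card) :
    ∃ η ∈ s, η ∉ t ∧ (∀ ζ ∈ t, ζ < η) ∧ EE s (insert η t) := by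
  have hn : (s \ t).Nonempty := by
    rw [Finset.sdiff_nonempty]
    exact fun j => absurd (Finset.card_le_card j) (not_le.2 k)
  have h1 := Finset.mem_sdiff.1 ((s \ t).min'_mem hn)
  refine ⟨_, h1.1, h1.2, h.2 _ h1.1 h1.2, Finset.insert_subset h1.1 h.1, fun η j l ζ n => ?_⟩
  rw [Finset.mem_insert, not_or] at l
  rcases Finset.mem_insert.1 n with rfl | n
  · exact lt_of_le_of_ne ((s \ t).min'_le η (Finset.mem_sdiff.2 ⟨j, l.2⟩)) (Ne.symm l.1)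
  · exact h.2 η j l.2 ζ n

lemma le_mk {b : BR K} {c : TT K} {t : Finset K} {H : Nm K} {k1 : Sp U.β c} {k2 : NR U.β H}
    {k3 : U.mem H c} (h1 : b.c ≤ c) (h2 : b.t = t) (h3 : ∀ η q, b.A η q → H η q) :
    b ≤ (BB.mk' c t H k1 k2 k3).1 :=
  ⟨h1, h2 ▸ EE.refl _, fun _ j l => absurd (h2 ▸ j) l, fun η _ q _ n => h3 η q n⟩

lemma le_raw {b b' : BR K} (h1 : b.c ≤ b'.c) (h2 : b.t = b'.t)
    (h3 : ∀ η, ∀ q ≤ b.c, b.A η q → b'.A η q) : b ≤ b' :=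
  ⟨h1, h2 ▸ EE.refl _, fun _ j l => absurd (h2 ▸ j) l, fun η _ q n => h3 η q n⟩

/-- some large set puts the condition into `D` -/
def S0 (D : BB U → Prop) (t : Finset K) (A : {A : Nm K // NR U.β A}) (c : TT K) : Prop :=
  ∃ h : U.mem A.1 (cutT U.β c), D (BB.mk' (cutT U.β c) t A.1 (sp_cut _ _) A.2 h)

lemma S0.of {D : BB U → Prop} (hD : Op D) {t : Finset K} {A : {A : Nm K // NR U.β A}}
    {c c' : TT K} (h : S0 D t A c) (l : cutT U.β c' ≤ cutT U.β c) : S0 D t A c' :=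
  h.elim fun k j => ⟨Sys.op A.2 k l, hD _ _ j (le_mk l rfl fun _ _ n => n)⟩

lemma op_S0 {D : BB U → Prop} (hD : Op D) (t : Finset K) (A : {A : Nm K // NR U.β A}) :
    Op (S0 D t A) := fun _ _ h l => h.of hD (cutT_mono _ l)

lemma det_S0 {D : BB U → Prop} (hD : Op D) (t : Finset K) (A : {A : Nm K // NR U.β A}) :
    Det U.β (S0 D t A) :=
  Det.of (op_S0 hD t A) fun _ h => h.of hD (cutT_le le_rfl (sp_cut _ _))

/-- the ranks -/
def rk (D : BB U → Prop) : ℕ → Finset K → TT K → Prop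
  | 0, t => hull fun c => ∃ A, S0 D t A c
  | m + 1, t => U.mem fun η => rk D m (insert η t)

lemma rk_nr {D : BB U → Prop} (hD : Op D) (m : ℕ) :
    ∀ t, Reg (rk D m t) ∧ Det U.β (rk D m t) := by
  induction m with
  | zero => exact fun t => ⟨reg_hull, Det.hull (Det.ex (det_S0 hD t)) (Op.ex (op_S0 hD t))⟩
  | succ m ih => exact fun t => U.reg _ fun η => ih _

lemma card_sup (ζ : K) : #{i : Finset K × ℕ | i.1.sup id ≤ ζ} < #K := by
  have h1 : #(Set (Iic ζ)) < #K := by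
    rw [mk_set]
    exact (inacK K).isStrongLimit.isStrongPrelimit (iicK ζ)
  have h2 : #ℕ < #K := by simpa using (inacK K).1
  refine lt_of_le_of_lt (mk_le_of_injective
    (f := fun i => (({z : Iic ζ | z.1 ∈ i.1.1} : Set (Iic ζ)), i.1.2)) fun i j e => ?_)
    (mk_prod_lt' (infK K) h1 h2)
  have e1 := Set.ext_iff.1 (congrArg Prod.fst e)
  have e2 := congrArg Prod.snd e
  refine Subtype.ext (Prod.ext (Finset.ext fun η => ⟨fun k => ?_, fun k => ?_⟩) e2)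
  · exact (e1 ⟨η, (Finset.le_sup (f := id) k).trans i.2⟩).1 k
  · exact (e1 ⟨η, (Finset.le_sup (f := id) k).trans j.2⟩).2 k

lemma walk {H : Nm K} {e : ℕ → Finset K → TT K → Prop}
    (h4 : ∀ m t c η, e (m + 1) t c → (∀ ζ ∈ t, ζ < η) → H η c → e m (insert η t) c)
    (s : Finset K) (c : TT K) (m : ℕ) : ∀ t, e m t c → EE s t → (∀ η ∈ s, η ∉ t → H η c) →
      t.card + m ≤ s.card → ∃ t1, EE s t1 ∧ t ⊆ t1 ∧ e 0 t1 c := by
  induction m with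
  | zero => exact fun t h k _ _ => ⟨t, k, Finset.Subset.rfl, h⟩
  | succ m ih =>
    intro t h k j l
    obtain ⟨η, n1, n2, n3, n4⟩ := next k (by omega)
    obtain ⟨t1, o1, o2, o3⟩ := ih _ (h4 m t c η h n3 (j η n1 n2)) n4
      (fun ζ o o' => j ζ o fun o'' => o' (Finset.mem_insert_of_mem o''))
      (by rw [Finset.card_insert_of_notMem n2]; omega)
    exact ⟨t1, o1, (Finset.subset_insert _ _).trans o2, o3⟩

lemma reach {U' : Sys K} (hU : U.le U') {D : BB U → Prop} {H : Nm K} {h1 : NR U.β H}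
    {h2 : ∀ c, U.mem H c} {e : ℕ → Finset K → TT K → Prop}
    (h3 : ∀ t c, e 0 t c → ∃ c' ≤ c, D (BB.mk' (cutT U.β c') t H (sp_cut _ _) h1 (h2 _)))
    (h4 : ∀ m t c η, e (m + 1) t c → (∀ ζ ∈ t, ζ < η) → H η c → e m (insert η t) c)
    (w : BB U') {b : BR K} (hb : w.1 ≤ b) (hH : ∀ η q, b.A η q → H η q) {m : ℕ}
    (k1 : e m b.t w.1.c) (k2 : b.t.card + m ≤ w.1.t.card) :
    ∃ w' ≤ w, w'.1.t = w.1.t ∧ ∃ v, D v ∧ w'.1 ≤ v.1 := by
  obtain ⟨t1, o1, o2, o3⟩ := walk h4 w.1.t w.1.c m b.t k1 hb.2.1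
    (fun η j l => hH _ _ (hb.2.2.1 η j l)) k2
  obtain ⟨c, l, k⟩ := h3 _ _ o3
  have l1 : cutT U'.β c ≤ w.1.c := cutT_le l w.2.1.1
  have l2 : cutT U'.β c ≤ cutT U.β c := cutT_cutT hU.1 c ▸ le_cutT _ _
  exact ⟨w.rc _ l1 (sp_cut _ _), w.rc_le _ _ _, rfl, _, k, l2, o1,
    fun η j n => (h1 η).1.1 _ _ (hH _ _ (hb.2.2.1 η j fun o => n (o2 o))) l1,
    fun η j q n o => hH _ _ (hb.2.2.2 η j q (n.trans l1) o)⟩

end Prik

open Prik

/-- the rank analysis of an open set -/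
theorem sp_rank (D : BB U → Prop) (hD : Op D) :
    ∃ (H : Nm K) (h1 : NR U.β H) (h2 : ∀ c, U.mem H c) (e : ℕ → Finset K → TT K → Prop),
      (∀ m t, Op (e m t)) ∧ (∀ m t, Det U.β (e m t)) ∧
      (∀ t c, e 0 t c → ∃ c' ≤ c, D (BB.mk' (cutT U.β c') t H (sp_cut _ _) h1 (h2 _))) ∧
      (∀ m t c η, e (m + 1) t c → (∀ ζ ∈ t, ζ < η) → H η c → e m (insert η t) c) ∧
      ∀ (t : Finset K) (b : BB U), D b → EE b.1.t t → (∀ η ∈ b.1.t, η ∉ t → H η b.1.c) →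
        ∃ m, e m t b.1.c := by
  let A0 : Finset K → Nm K := fun t η c => ∀ A, ∀ q ≤ c, Lst (S0 D t) A q → A.1 η q
  have n0 : ∀ t, NR U.β (A0 t) := fun t => NR.all fun A =>
    NR.imp (Det.lst (det_S0 hD t) (op_S0 hD t) A) (op_lst (op_S0 hD t) A) A.2
  have m0 : ∀ t c, U.mem (A0 t) c := fun t c => (U.reg _ (n0 t)).1.2 _ fun q _ => by
    by_cases j : ∃ r ≤ q, ∃ A, S0 D t A r
    · obtain ⟨r, l, A, k⟩ := exists_lst _ j
      refine ⟨r, l, Sys.mono' A.2 (n0 t) (fun η q' n o A' q'' n' o' => ?_)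
        (((U.reg _ A.2).2 r).2 k.1.1)⟩
      obtain rfl : A' = A := o'.uniq (op_lst (op_S0 hD t) A _ _ k (n'.trans n))
      exact (A'.2 η).1.1 _ _ o n'
    · exact ⟨q, le_rfl, Sys.mono' (nr_const _ fun _ => True) (n0 t)
        (fun η q' n _ A q'' n' o => absurd ⟨q'', n'.trans n, A, o.1⟩ j) (U.top q)⟩
  have nB : ∀ m (t : Finset K), NR U.β fun η => rk D m (insert η t) := fun m t η => rk_nr hD m _
  let A1 : Finset K → ℕ → Nm K := fun t m η c =>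
    ∀ q ≤ c, rk D (m + 1) t q → rk D m (insert η t) q
  let A2 : Finset K → ℕ → Nm K := fun t m η c =>
    ∀ q ≤ c, ng (rk D (m + 1) t) q → cm (fun η => rk D m (insert η t)) η q
  have n1 : ∀ t m, NR U.β (A1 t m) := fun t m =>
    NR.imp (rk_nr hD (m + 1) t).2 (rk_nr hD (m + 1) t).1.1 (nB m t)
  have n2 : ∀ t m, NR U.β (A2 t m) := fun t m =>
    NR.imp ((rk_nr hD (m + 1) t).2.ng (rk_nr hD (m + 1) t).1.1) op_ng (nB m t).cm
  have m1 : ∀ t m c, U.mem (A1 t m) c := fun t m c =>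
    Sys.mem_imp (rk_nr hD (m + 1) t).2 (rk_nr hD (m + 1) t).1.1 (nB m t) fun _ _ k => k
  have m2 : ∀ t m c, U.mem (A2 t m) c := fun t m c =>
    Sys.mem_imp ((rk_nr hD (m + 1) t).2.ng (rk_nr hD (m + 1) t).1.1) op_ng (nB m t).cm
      fun q _ k => (U.reg _ (nB m t).cm).1.2 _ fun r l => by
        obtain ⟨r', l', j | j⟩ := U.ultra _ r (nB m t)
        · exact absurd j (k r' (l'.trans l))
        · exact ⟨r', l', j⟩
  let B : Finset K × ℕ → Nm K := fun i η c => A0 i.1 η c ∧ A1 i.1 i.2 η c ∧ A2 i.1 i.2 η c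
  have nb : ∀ i, NR U.β (B i) := fun i => (n0 _).and ((n1 _ _).and (n2 _ _))
  have nd : NR U.β fun η q => ∀ i : Finset K × ℕ, i.1.sup id < η → B i η q := fun η =>
    ⟨Reg.all fun i => Reg.all fun _ => (nb i η).1, Det.all fun i => Det.all fun _ => (nb i η).2⟩
  let H : Nm K := fun η q => ⊥ < η ∧ ∀ i : Finset K × ℕ, i.1.sup id < η → B i η q
  have h1 : NR U.β H := (nr_const _ fun η => ⊥ < η).and nd
  have h2 : ∀ c, U.mem H c := fun c => Sys.inter (nr_const _ fun η => ⊥ < η) nd (U.tail ⊥ c)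
    (U.diag _ (fun i : Finset K × ℕ => i.1.sup id) B c card_sup nb fun i =>
      Sys.inter (n0 _) ((n1 _ _).and (n2 _ _)) (m0 _ _)
        (Sys.inter (n1 _ _) (n2 _ _) (m1 _ _ _) (m2 _ _ _)))
  have hB : ∀ (t : Finset K) m η q, (∀ ζ ∈ t, ζ < η) → H η q → B (t, m) η q :=
    fun t m η q k j => j.2 (t, m) ((Finset.sup_lt_iff j.1).2 k)
  refine ⟨H, h1, h2, rk D, fun m t => (rk_nr hD m t).1.1, fun m t => (rk_nr hD m t).2,
    fun t c k => ?_, fun m t c η k j l => (hB t m η c j l).2.1 c le_rfl k, fun t b k => ?_⟩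
  · obtain ⟨r, l, A, j⟩ := exists_lst _ (k c le_rfl)
    refine ⟨r, l, hD _ _ j.1.2 ⟨le_rfl, EE.refl _, fun _ n o => absurd n o, fun η n q o s => ?_⟩⟩
    exact (hB t 0 η q n s).1 A q le_rfl (op_lst (op_S0 hD t) A _ _
      ((Det.lst (det_S0 hD t) (op_S0 hD t) A r).1 j) o)
  · have l : cutT U.β b.1.c ≤ b.1.c := cutT_le le_rfl b.2.1.1
    have k0 : rk D 0 b.1.t b.1.c := (Op.ex (op_S0 hD _)).hull
      ⟨⟨b.1.A, b.2.1.2⟩, Sys.op b.2.1.2 b.2.2 l, hD _ _ k (b.rc_le _ l (sp_cut _ _))⟩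
    have key : ∀ n, ∀ t : Finset K, t.card + n = b.1.t.card → EE b.1.t t →
        (∀ η ∈ b.1.t, η ∉ t → H η b.1.c) → ∃ m, rk D m t b.1.c := by
      intro n
      induction n with
      | zero =>
        intro t e j _
        obtain rfl : t = b.1.t := Finset.eq_of_subset_of_card_le j.1 (by omega)
        exact ⟨0, k0⟩
      | succ n ih =>
        intro t e j o
        obtain ⟨η, o1, o2, o3, o4⟩ := next j (by omega)
        obtain ⟨m, hm⟩ := ih (insert η t) (by rw [Finset.card_insert_of_notMem o2]; omega) o4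
          fun ζ s s' => o ζ s fun s'' => s' (Finset.mem_insert_of_mem s'')
        exact ⟨m + 1, (rk_nr hD (m + 1) t).1.of_not_ng fun q l' s =>
          (hB t m η _ o3 (o η o1 o2)).2.2 q l' s q le_rfl ((rk_nr hD m _).1.1 _ _ hm l')⟩
    intro j o
    exact key (b.1.t.card - t.card) t (by have := Finset.card_le_card j.1; omega) j o

/-- the Prikry lemma -/
theorem prikry (D : BB U → Prop) (hD : Op D) :
    ∃ (H : Nm K) (h1 : NR U.β H) (h2 : ∀ c, U.mem H c), ∀ t c, Sp U.β c → ∃ c' ≤ c, ∃ h : Sp U.β c',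
      hull D (BB.mk' c' t H h h1 (h2 _)) ∨ ng D (BB.mk' c' t H h h1 (h2 _)) := by
  obtain ⟨H, h1, h2, e, e1, e2, h3, h4, h5⟩ := sp_rank D hD
  refine ⟨H, h1, h2, fun t c k => ?_⟩
  obtain ⟨c1, l, j⟩ := dec (fun c => ∃ m, e m t c) c
  refine ⟨cutT U.β c1, cutT_le l k, sp_cut _ _, j.imp (fun j w n => ?_) fun j w n o => ?_⟩
  · obtain ⟨m, j⟩ := j
    obtain ⟨w1, n1, n2⟩ := w.long (t.card + m)
    obtain ⟨w2, o1, -, v, o2, o3⟩ := reach U.le_refl h3 h4 w1 (n1.trans n) (fun _ _ s => s)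
      (e1 m t _ _ ((e2 m t c1).1 j) (n1.trans n).1) n2
    exact ⟨w2, o1.trans n1, hD _ _ o2 o3⟩
  · exact ((Det.ex fun m => e2 m t).ng (Op.ex fun m => e1 m t) c1).1 j _ n.1
      (h5 t w o n.2.1 n.2.2.1)

lemma prikry' (D : BB U → Prop) (hD : Op D) (b : BB U) :
    ∃ b' ≤ b, b'.1.t = b.1.t ∧ (hull D b' ∨ ng D b') := by
  obtain ⟨H, h1, h2, h3⟩ := prikry D hD
  obtain ⟨c, l, k, j⟩ := h3 b.1.t b.1.c b.2.1.1
  obtain ⟨b', n, e1, e2, e3⟩ := (b.rc c l k).shrink h1 (h2 _)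
  have o : b' ≤ BB.mk' c b.1.t H k h1 (h2 _) := le_mk e1.le e2 e3
  exact ⟨b', n.trans (b.rc_le _ _ _), e2, j.imp (op_hull _ _ · o) (op_ng _ _ · o)⟩

/-- the strong Prikry property -/
theorem strong (D : BB U → Prop) (hD : Op D) (hd : ∀ b, ∃ b' ≤ b, D b') (b : BB U) :
    ∃ b' ≤ b, b'.1.t = b.1.t ∧ ∃ m, ∀ w ≤ b', m ≤ w.1.t.card → ∃ w' ≤ w, w'.1.t = w.1.t ∧ D w' := by
  obtain ⟨H, h1, h2, e, e1, -, h3, h4, h5⟩ := sp_rank D hD
  obtain ⟨b1, l1, -, e2, e3⟩ := b.shrink h1 (h2 _)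
  obtain ⟨b2, l2, k⟩ := hd b1
  obtain ⟨m, hm⟩ := h5 b1.1.t b2 k l2.2.1 fun η j l => e3 _ _ (l2.2.2.1 η j l)
  refine ⟨b1.rc b2.1.c l2.1 b2.2.1.1, (b1.rc_le _ _ _).trans l1, e2, b1.1.t.card + m,
    fun w l n => ?_⟩
  obtain ⟨w', o1, o2, v, o3, o4⟩ := reach U.le_refl h3 h4 w l e3 (e1 m _ _ _ hm l.1) n
  exact ⟨w', o1, o2, hD _ _ o3 o4⟩

/-- the Mathias lemma: the generic for a larger system is generic for the smaller one -/
theorem mathias {U' : Sys K} (h : U.le U') (D : BB U → Prop) (hd : ∀ b, ∃ b' ≤ b, D b')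
    (b : BB U') : ∃ b' ≤ b, ∃ w, D w ∧ b'.1 ≤ w.1 := by
  obtain ⟨H, h1, h2, e, e1, e2, h3, h4, h5⟩ := sp_rank (fun w => ∃ v, D v ∧ w ≤ v)
    fun _ _ k l => k.imp fun _ j => ⟨j.1, l.trans j.2⟩
  obtain ⟨b1, l1, k1⟩ := hd (BB.mk' (cutT U.β b.1.c) b.1.t H (sp_cut _ _) h1 (h2 _))
  obtain ⟨m, hm⟩ := h5 b.1.t b1 ⟨b1, k1, le_rfl⟩ l1.2.1 l1.2.2.1
  obtain ⟨c2, l2, l3, -⟩ := amal l1.1 b1.2.1.1
  have l4 : cutT U'.β c2 ≤ b.1.c := cutT_le l3 b.2.1.1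
  have k2 : e m b.1.t (cutT U'.β c2) := ((e2 m _).mono h.1 c2).1 (e1 m _ _ _ hm l2)
  obtain ⟨b2, l5, o1, o2, o3⟩ := (b.rc _ l4 (sp_cut _ _)).shrink (h1.mono h.1)
    ((h.2 H h1 _).1 (h2 _))
  have o4 : b2.1.t = b.1.t := o2
  obtain ⟨b3, l6, k3⟩ := b2.long (b2.1.t.card + m)
  obtain ⟨w', n1, -, v, ⟨v', n2, n3⟩, n4⟩ :=
    reach (D := fun w => ∃ v, D v ∧ w ≤ v) h h3 h4 b3 l6 o3
    (o4 ▸ e1 m _ _ _ k2 (l6.1.trans l5.1)) k3
  exact ⟨w', n1.trans (l6.trans (l5.trans (b.rc_le _ _ _))), v', n2, n4.trans n3⟩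

/-- sets which are dense and open for direct extensions -/
def Task (T : BB U → Prop) : Prop :=
  (∀ w w', T w → w' ≤ w → w'.1.t = w.1.t → T w') ∧ ∀ w, ∃ w' ≤ w, w'.1.t = w.1.t ∧ T w'

/-- `w` is in `T` densely often in the first coordinate -/
def Meets (T : BB U → Prop) (w : BB U) : Prop :=
  ∀ p (h : p ≤ w.p), ∃ p', ∃ k : p' ≤ p, T (w.rp p' (k.trans h))

/-- distributivity of the direct extension order over the first coordinate -/
theorem distr (s : Set (BB U → Prop)) (hs : #s < #K) (h : ∀ T ∈ s, Task T) (w : BB U) :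
    ∃ w' ≤ w, w'.1.t = w.1.t ∧ ∀ T ∈ s, Meets T w' := by
  obtain ⟨w0, -, hw⟩ := (Lc.bgK (K := K)).exists_ge (c := #s) (by rwa [mk_univ])
  obtain ⟨σ0, a0, g0, l0⟩ := w.1.c.2.fill ∅ (by simpa using aleph0_pos.trans_le (infK K))
    (max w0 w.1.c.2.1.g) (le_max_right _ _)
  have l1 : @LE.le (TT K) _ (w.p, σ0) w.1.c := ⟨le_rfl, l0 _⟩
  have s1 : Sp U.β ((w.p, σ0) : TT K) := by
    have : σ0.1.a ⊆ Iio U.β := by rw [a0, union_empty]; exact w.2.1.1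
    exact this
  obtain ⟨v, k1, k2⟩ := seq_meet
    (S := {v : BB U // v.p = w.p ∧ v.1.t = w.1.t ∧ w0 ≤ v.1.c.2.1.g}) (fun a b => a.1 ≤ b.1)
    (fun _ => le_rfl) (fun _ _ _ => le_trans) (ρ := #(Iio w0)) (fun I f ⟨i0⟩ hI hc => by
      obtain ⟨σ, n1, n2, n3⟩ := Tm.clos w0 hI (fun i _ τ => τ = (f i).1.1.c.2)
        (fun i => (f i).1.1.c.2.1.g) w.p (fun _ _ => op_const _)
        (fun _ _ _ _ j l => j.trans l.symm) (fun i q _ => ⟨q, le_rfl, _, rfl⟩)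
        (fun _ _ _ j => j ▸ rfl) (fun i => (f i).2.2.2) fun i j p l τ τ' o o' => by
          subst o o'
          exact ⟨p, le_rfl, (hc i j).symm.imp (fun o => o.1.2.mono (l.trans (f j).2.1.ge))
            fun o => o.1.2.mono (l.trans (f i).2.1.ge)⟩
      have l2 : ∀ i, @LE.le (TT K) _ (w.p, σ) (f i).1.1.c := fun i =>
        ⟨(f i).2.1.ge, n2 i _ le_rfl _ rfl⟩
      have s2 : Sp U.β ((w.p, σ) : TT K) := fun ξ j => by
        obtain ⟨i, _, τ, rfl, o⟩ := n3 ξ j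
        exact (f i).1.2.1.1 o
      exact ⟨⟨BB.mk' (w.p, σ) w.1.t (fun η q => ∀ i, (f i).1.1.A η q) s2
        (NR.all fun i => (f i).1.2.1.2) (Sys.all (hI.trans_lt (iioK w0))
          (fun i => (f i).1.2.1.2) fun i => Sys.op (f i).1.2.1.2 (f i).1.2.2 (l2 i)),
        rfl, rfl, n1⟩, fun i => le_raw (l2 i) (f i).2.2.1.symm fun _ _ _ j => j i⟩)
    (T := s) hw (fun T v => Meets T.1 v.1) (fun T a b j l p n => by
      obtain ⟨p', o1, o2⟩ := j p (n.trans (BB.p_le l))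
      exact ⟨p', o1, (h T.1 T.2).1 _ _ o2
        (BB.le_rp _ ((b.1.rp_le _ _).trans l) le_rfl) (b.2.2.1.trans a.2.2.1.symm)⟩)
    ⟨w.rc _ l1 s1, rfl, rfl, g0 ▸ le_max_left _ _⟩ fun T ⟨v, v1, v2, v3⟩ _ => by
      let S : BB U → PP K → Prop := fun j p => p ≤ j.p ∧ j ≤ v ∧ j.1.t = v.1.t ∧ T.1 j
      have hS : ∀ j, Op (S j) := fun j _ _ k l => ⟨l.trans k.1, k.2⟩
      have hd : ∀ p ≤ v.p, ∃ p' ≤ p, ∃ j, Lst S j p' := fun p l => by
        obtain ⟨j, o1, o2, o3⟩ := (h T.1 T.2).2 (v.rp p l)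
        exact exists_lst S ⟨j.p, BB.p_le o1, j, le_rfl, o1.trans (v.rp_le _ _), o2, o3⟩
      obtain ⟨σ, n1, n2, n3⟩ := Tm.mix (Lst S) (fun j => j.1.c.2) v.1.c.2 (op_lst hS)
        (fun _ _ _ => Lst.uniq) fun j p k => k.1.2.1.1.2.mono k.1.1
      have l2 : @LE.le (TT K) _ (v.p, σ) v.1.c := ⟨le_rfl, n1 _⟩
      have s2 : Sp U.β ((v.p, σ) : TT K) := fun ξ k => by
        rcases n3 ξ k with o | ⟨j, _, -, o⟩
        · exact v.2.1.1 o
        · exact j.2.1.1 o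
      have op2 : ∀ j, Op fun c : TT K => Lst S j c.1 := fun j _ _ k l => op_lst hS j _ _ k l.1
      have nA : NR U.β fun η c => ∀ j, ∀ q ≤ c, Lst S j q.1 → j.1.A η q :=
        NR.all fun j => NR.imp (det_fst _ (Lst S j)) (op2 j) j.2.1.2
      have mA : U.mem (fun η c => ∀ j, ∀ q ≤ c, Lst S j q.1 → j.1.A η q) (v.p, σ) :=
        (U.reg _ nA).1.2 _ fun q l => by
          obtain ⟨p', o1, j, o2⟩ := hd q.1 l.1
          have o3 : @LE.le (TT K) _ (p', q.2) j.1.c :=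
            ⟨o2.1.1, (l.2.mono o1).trans (n2 j p' o2)⟩
          refine ⟨(p', q.2), ⟨o1, RT.le_refl _ _⟩, Sys.mono' j.2.1.2 nA
            (fun η q' o4 o5 j' q'' o6 o7 => ?_) (Sys.op j.2.1.2 j.2.2 o3)⟩
          obtain rfl : j' = j := o7.uniq (op_lst hS j _ _ o2 (o6.trans o4).1)
          exact j'.1.op η _ _ o5 o6
      refine ⟨⟨BB.mk' (v.p, σ) v.1.t _ s2 (v.2.1.2.and nA)
        (Sys.inter v.2.1.2 nA (Sys.op v.2.1.2 v.2.2 l2) mA), v1, v2, v3.trans (n1 v.p).2.1⟩,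
        ⟨l2, EE.refl _, fun _ j o => absurd j o, fun _ _ _ _ j => j.1⟩, fun p l => ?_⟩
      obtain ⟨p', o1, j, o2⟩ := hd p l
      exact ⟨p', o1, (h T.1 T.2).1 _ _ o2.1.2.2.2 (le_raw ⟨o2.1.1, n2 j p' o2⟩ o2.1.2.2.1.symm
        fun η q o k => k.2 j q le_rfl (op_lst hS j _ _ o2 o.1)) o2.1.2.2.1.symm⟩
  exact ⟨v.1, le_trans k1 (w.rc_le _ l1 s1), v.2.2.1, fun T j => k2 ⟨T, j⟩⟩

end Pool.Agent.Lib.MP_491cc4_lc.Cx
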