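import Pool.Agent.Lib.MP_491cc4_lc.Cx.Sh

set_option autoImplicit false
set_option linter.unusedSectionVars false

namespace Pool.Agent.Lib.MP_491cc4_lc.Cx

open Set Cardinal Filter Pool.Agent.Lib.MP_d4b40b_lc

variable {K : Type} [LinearOrder K] [WellFoundedLT K] [OrderBot K] [Lc K] [It K]

/-- a universal statement holds almost everywhere if it does along every function -/
lemma ae_forall {Z : Type} {φ : XX K → Z → Prop} (h : ∀ f : XX K → Z, ∀ᶠ x in mm K, φ x (f x)) :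
    ∀ᶠ x in mm K, ∀ z, φ x z := by
  by_contra k
  rw [← ae_not] at k
  obtain ⟨f, hf⟩ := (k.mono fun x j => not_forall.1 j).choice
  exact ae_not.1 hf (h f)

lemma ae_imp {A B : XX K → Prop} (h : (∀ᶠ x in mm K, A x) → ∀ᶠ x in mm K, B x) :
    ∀ᶠ x in mm K, A x → B x := by
  by_cases k : ∀ᶠ x in mm K, A x
  · exact (h k).mono fun _ j _ => j
  · exact (ae_not.2 k).mono fun _ j l => absurd l j

lemma ex_ae_imp {W : Type} (w0 : W) {A : XX K → Prop} {B : XX K → W → Prop}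
    (h : (∀ᶠ x in mm K, A x) → ∃ w, ∀ᶠ x in mm K, B x w) : ∃ w, ∀ᶠ x in mm K, A x → B x w := by
  by_cases k : ∀ᶠ x in mm K, A x
  · exact (h k).imp fun _ l => l.mono fun _ j _ => j
  · exact ⟨w0, (ae_not.2 k).mono fun _ j l => absurd l j⟩

lemma cc_raw : ∀ᶠ x in mm K, ∀ S : K → PP K → Prop,
    ((∀ η p q, Lo (nu x) q → S η p → q ≤ p → S η q) ∧ (∀ η η' p, S η p → S η' p → η = η') ∧
      ∀ η < nu x, ∃ p, Lo (nu x) p ∧ S η p) → False := by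
  refine ae_forall fun S => ae_imp fun h => ?_
  have h1 := It.cc K (fun η p => ∀ᶠ x in mm K, S x η p)
    (fun η p q k l => (h.and (k.and (Sm.fine q))).mono fun x j => j.1.1 η p q j.2.2 j.2.1 l)
    (fun η η' p k l => (h.and (k.and l)).exists.elim fun x j => j.1.2.1 η η' p j.2.1 j.2.2)
  have h2 : {η | ∃ p, ∀ᶠ x in mm K, S x η p} = Set.univ := eq_univ_of_forall fun η =>
    ae_exi (φ := fun x p => S x η p) ((h.and (Lc.nu_gt η)).mono fun x j => j.1.2.2 η j.2)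
  rw [h2, mk_univ] at h1
  exact absurd h1 (lt_irrefl _)

/-- the chain condition reflects -/
theorem cc_refl : ∀ᶠ x in mm K, CC {p : PP K // Lo (nu x) p} #(Iio (nu x)) := by
  refine cc_raw.mono fun x h I S h1 h2 => ?_
  by_contra k
  obtain ⟨e⟩ := (Cardinal.le_def _ _).1 (not_lt.1 k)
  refine h (fun η p => ∃ hη hp, S (e ⟨η, hη⟩).1 ⟨p, hp⟩) ⟨?_, ?_, fun η l => ?_⟩
  · rintro η p q hq ⟨hη, hp, j⟩ l
    exact ⟨hη, hq, h1 _ _ _ j l⟩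
  · rintro η η' p ⟨hη, hp, j⟩ ⟨hη', hp', j'⟩
    exact congrArg Subtype.val (e.injective (Subtype.ext (h2 _ _ _ j j')))
  · obtain ⟨p, j⟩ := (e ⟨η, l⟩).2
    exact ⟨p.1, p.2, l, p.2, j⟩

variable {T : Type} [Sm K T]

/-- the reflection of a second step to `x` -/
noncomputable def Sh.rf (Q : Sh (PP K) T K) (x : XX K) (h : ⊥ < nu x) :
    Sh {p : PP K // Lo (nu x) p} {τ : T // inn x τ} (Iio (nu x)) where
  le p a b := Q.le p.1 a.1 b.1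
  dle p a b := Q.dle p.1 a.1 b.1
  ht a := if k : Q.ht a.1 < nu x then ⟨_, k⟩ else ⟨⊥, h⟩
  lad p a o := Q.lad p.1 a.1 (o.map Subtype.val)

lemma prik_raw (Q : Sh (PP K) T K) [Nice Q] : ∀ᶠ x in mm K, ∀ q0 : PP K × T, inn x q0 →
    ∀ a : PP K × T → Prop, (∀ q q', inn x q' → a q → Q.tle q' q → a q') →
      ∃ q1 : PP K × T, inn x q1 ∧ q1.1 ≤ q0.1 ∧ Q.dle q1.1 q1.2 q0.2 ∧
        ((∀ q, inn x q → ∃ q', inn x q' ∧ (Q.tle q q1 → Q.tle q' q ∧ a q')) ∨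
          ∀ q, inn x q → Q.tle q q1 → ¬ a q) := by
  refine diag fun q0 => ae_forall fun a => ae_imp fun h => ?_
  obtain ⟨p1, k1, τ1, k2, k3⟩ := Nice.prik (Q := Q) (fun q => ∀ᶠ x in mm K, a x q)
    (fun q q' k l => (h.and (k.and (Sm.fine q'))).mono fun x j => j.1 q q' j.2.2 j.2.1 l) q0.1 q0.2
  rcases k3 with k3 | k3
  · refine ((Sm.fine (p1, τ1)).and (skolem (φ := fun x q q' => Q.tle q (p1, τ1) →
      Q.tle q' q ∧ a x q') fun q => ex_ae_imp q fun l => ?_)).mono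
        fun x j => ⟨(p1, τ1), j.1, k1, k2, Or.inl j.2⟩
    obtain ⟨q', l1, l2⟩ := k3 q (l.exists.elim fun _ j => j)
    exact ⟨q', l2.mono fun _ j => ⟨l1, j⟩⟩
  · refine ((Sm.fine (p1, τ1)).and (diag (φ := fun x q => Q.tle q (p1, τ1) → ¬ a x q)
      fun q => ae_imp fun l => ?_)).mono fun x j => ⟨(p1, τ1), j.1, k1, k2, Or.inr j.2⟩
    exact ae_not.2 (k3 q (l.exists.elim fun _ j => j))

/-- the hypotheses of the closure clause at `x` -/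
structure ClosH (Q : Sh (PP K) T K) (x : XX K) (w : K) (p0 : PP K) (I : Set K)
    (nm : K → PP K → T → Prop) : Prop where
  c0 : I ⊆ Iio w
  c1 : ∀ i ∈ I, ∀ τ p q, Lo (nu x) q → nm i p τ → q ≤ p → nm i q τ
  c2 : ∀ i ∈ I, ∀ p τ τ', nm i p τ → nm i p τ' → τ = τ'
  c3 : ∀ i ∈ I, ∀ q ≤ p0, Lo (nu x) q → ∃ r : PP K × T, inn x r ∧ r.1 ≤ q ∧ nm i r.1 r.2
  c4 : ∀ i ∈ I, ∀ p τ p' τ', nm i p τ → nm i p' τ' → Q.ht τ = Q.ht τ'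
  c5 : ∀ i ∈ I, ∀ p τ, nm i p τ → w ≤ Q.ht τ
  c6 : ∀ i ∈ I, ∀ j ∈ I, ∀ p ≤ p0, ∀ τ τ', nm i p τ → nm j p τ' →
    ∃ p' ≤ p, Q.dle p' τ' τ ∨ Q.dle p' τ τ'

lemma clos_raw (Q : Sh (PP K) T K) [Nice Q] : ∀ᶠ x in mm K, ∀ z : K × PP K, inn x z →
    ∀ d : Set K × (K → PP K → T → Prop), ClosH Q x z.1 z.2 d.1 d.2 →
      ∃ q : PP K × T, inn x q ∧ q.1 ≤ z.2 ∧ ∀ y : K × PP K × T, inn x y → ∃ p', inn x p' ∧
        (y.1 ∈ d.1 ∧ y.2.1 ≤ q.1 ∧ d.2 y.1 y.2.1 y.2.2 → p' ≤ y.2.1 ∧ Q.dle p' q.2 y.2.2) := by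
  classical
  refine diag fun z => ae_forall fun d => ae_imp fun h => ?_
  have e3 : ∀ i, (∀ᶠ x in mm K, i ∈ (d x).1) → ∀ q ≤ z.2, ∃ r ≤ q, ∃ τ,
      ∀ᶠ x in mm K, (d x).2 i r τ := fun i k q l => by
    obtain ⟨r, hr⟩ := ae_exi (φ := fun x (r : PP K × T) => r.1 ≤ q ∧ (d x).2 i r.1 r.2)
      ((h.and (k.and (Sm.fine q))).mono fun x j => j.1.c3 i j.2.1 q l j.2.2)
    exact ⟨r.1, hr.exists.elim fun _ j => j.1, r.2, hr.mono fun _ j => j.2⟩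
  obtain ⟨p1, k1, σ, k2⟩ := Nice.clos (Q := Q) z.1 {i | ∀ᶠ x in mm K, i ∈ (d x).1}
    (fun i p τ => ∀ᶠ x in mm K, (d x).2 i p τ)
    (fun i => if k : ∃ r : PP K × T, ∀ᶠ x in mm K, (d x).2 i r.1 r.2 then Q.ht k.choose.2 else z.1)
    z.2 (fun i k => (h.and k).exists.elim fun x j => j.1.c0 j.2)
    (fun i k τ p q l n => (h.and (k.and (l.and (Sm.fine q)))).mono fun x j =>
      j.1.c1 i j.2.1 τ p q j.2.2.2 j.2.2.1 n)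
    (fun i k p τ τ' l n => (h.and (k.and (l.and n))).exists.elim fun x j =>
      j.1.c2 i j.2.1 p τ τ' j.2.2.1 j.2.2.2)
    e3
    (fun i k p τ l => by
      have n : ∃ r : PP K × T, ∀ᶠ x in mm K, (d x).2 i r.1 r.2 := ⟨(p, τ), l⟩
      rw [dif_pos n]
      exact (h.and (k.and (l.and n.choose_spec))).exists.elim fun x j =>
        j.1.c4 i j.2.1 _ _ _ _ j.2.2.1 j.2.2.2)
    (fun i k => by
      split_ifs with n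
      · exact (h.and (k.and n.choose_spec)).exists.elim fun x j => j.1.c5 i j.2.1 _ _ j.2.2
      · exact le_rfl)
    (fun i k i' k' p l τ τ' n n' => (h.and (k.and (k'.and (n.and n')))).exists.elim fun x j =>
      j.1.c6 i j.2.1 i' j.2.2.1 p l τ τ' j.2.2.2.1 j.2.2.2.2)
  refine ((Sm.fine (p1, σ)).and (skolem (φ := fun x (y : K × PP K × T) (p' : PP K) =>
    y.1 ∈ (d x).1 ∧ y.2.1 ≤ p1 ∧ (d x).2 y.1 y.2.1 y.2.2 → p' ≤ y.2.1 ∧ Q.dle p' σ y.2.2)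
      fun y => ex_ae_imp p1 fun l => ?_)).mono fun x j => ⟨(p1, σ), j.1, k1, j.2⟩
  obtain ⟨p', l1, l2⟩ := k2 y.1 (l.mono fun _ j => j.1) y.2.1 (l.exists.elim fun _ j => j.2.1) y.2.2
    (l.mono fun _ j => j.2.2)
  exact ⟨p', Eventually.of_forall fun _ => ⟨l1, l2⟩⟩

theorem nice_refl (Q : Sh (PP K) T K) [Nice Q] : ∀ᶠ x in mm K, ∀ h, Nice (Q.rf x h) := by
  obtain ⟨τ0⟩ := Nice.ne (Q := Q)
  have e1 : ∀ᶠ x in mm K, ∀ τ : T, inn x τ → Q.ht τ < nu x := diag fun τ => Lc.nu_gt _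
  have e2 : ∀ᶠ x in mm K, ∀ z : T × K, inn x z → ∃ τ', inn x τ' ∧
      (Q.ht z.1 ≤ z.2 → Q.ht τ' = z.2 ∧ ∀ p, Q.dle p τ' z.1) :=
    skolem fun z => ex_ae_imp τ0 fun l => (Nice.fill z.1 z.2 (l.exists.elim fun _ j => j)).imp
      fun _ j => Eventually.of_forall fun _ => j
  have e3 : ∀ᶠ x in mm K, ∀ z : (PP K × T) × K, inn x z → ∃ y : (PP K × T) × K, inn x y ∧
      (Q.lad z.1.1 z.1.2 none → Q.tle y.1 z.1 ∧ z.2 < y.2 ∧ Q.lad y.1.1 y.1.2 (some y.2)) :=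
    skolem fun z => ex_ae_imp z fun l => by
      obtain ⟨q', k1, η', k2⟩ := Nice.lad_unb z.1 z.2 (l.exists.elim fun _ j => j)
      exact ⟨(q', η'), Eventually.of_forall fun _ => ⟨k1, k2⟩⟩
  filter_upwards [Sm.fine τ0, e1, e2, e3, prik_raw Q, clos_raw Q] with x h0 h1 h2 h3 h4 h5 hb
  have ht : ∀ τ, ((Q.rf x hb).ht τ).1 = Q.ht τ.1 := fun τ => by
    simp only [Sh.rf, dif_pos (h1 τ.1 τ.2)]
  refine ⟨⟨⟨τ0, h0⟩⟩, fun p τ => Nice.drefl (Q := Q) _ _,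
    fun p τ' τ => Nice.dle_le (Q := Q) _ _ _, fun p τ'' τ' τ => Nice.trans (Q := Q) _ _ _ _,
    fun p τ'' τ' τ => Nice.dtrans (Q := Q) _ _ _ _, fun p p' τ' τ => Nice.mono (Q := Q) _ _ _ _,
    fun p p' τ' τ => Nice.dmono (Q := Q) _ _ _ _, fun τ h l => ?_, fun a ha p τ => ?_,
    fun w I nm h p0 c0 c1 c2 c3 c4 c5 c6 => ?_,
    fun o q q' => Nice.lad_mono (Q := Q) _ (q.1.1, q.2.1) (q'.1.1, q'.2.1), fun q η l => ?_⟩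
  · obtain ⟨τ', k1, k2⟩ := h2 (τ.1, h.1) ⟨τ.2, h.2⟩
    obtain ⟨k3, k4⟩ := k2 (ht τ ▸ l)
    exact ⟨⟨τ', k1⟩, Subtype.ext ((ht _).trans k3), fun p => k4 _⟩
  · obtain ⟨q1, k1, k2, k3, k4⟩ := h4 (p.1, τ.1) ⟨p.2, τ.2⟩
      (fun q => ∃ k : inn x q, a (⟨q.1, k.1⟩, ⟨q.2, k.2⟩))
      fun q q' k ⟨j, l⟩ n => ⟨k, ha _ _ l n⟩
    refine ⟨⟨q1.1, k1.1⟩, k2, ⟨q1.2, k1.2⟩, k3, k4.imp (fun k q l => ?_) fun k q l n => ?_⟩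
    · obtain ⟨q', l1, l2⟩ := k (q.1.1, q.2.1) ⟨q.1.2, q.2.2⟩
      obtain ⟨l3, l4, l5⟩ := l2 l
      exact ⟨(⟨q'.1, l1.1⟩, ⟨q'.2, l1.2⟩), l3, l5⟩
    · exact k (q.1.1, q.2.1) ⟨q.1.2, q.2.2⟩ l ⟨⟨q.1.2, q.2.2⟩, n⟩
  · refine (h5 (w.1, p0.1) ⟨w.2, p0.2⟩
      (Subtype.val '' I, fun i p τ => ∃ hi hp hτ, nm ⟨i, hi⟩ ⟨p, hp⟩ ⟨τ, hτ⟩)
      ⟨?_, ?_, ?_, ?_, ?_, ?_, ?_⟩).elim fun q ⟨k1, k2, k3⟩ => ?_
    rotate_right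
    · refine ⟨⟨q.1, k1.1⟩, k2, ⟨q.2, k1.2⟩, fun i hi p l τ n => ?_⟩
      obtain ⟨p', l1, l2⟩ := k3 (i.1, p.1, τ.1) ⟨i.2, p.2, τ.2⟩
      exact ⟨⟨p', l1⟩, l2 ⟨⟨i, hi, rfl⟩, l, i.2, p.2, τ.2, n⟩⟩
    · rintro _ ⟨i, hi, rfl⟩
      exact c0 hi
    · rintro _ ⟨i, hi, rfl⟩ τ p q hq ⟨_, hp, hτ, l⟩ n
      exact ⟨i.2, hq, hτ, c1 i hi _ _ _ l n⟩
    · rintro _ ⟨i, hi, rfl⟩ p τ τ' ⟨_, hp, hτ, l⟩ ⟨_, _, hτ', l'⟩
      exact congrArg Subtype.val (c2 i hi _ _ _ l l')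
    · rintro _ ⟨i, hi, rfl⟩ q l hq
      obtain ⟨r, l1, τ, l2⟩ := c3 i hi ⟨q, hq⟩ l
      exact ⟨(r.1, τ.1), ⟨r.2, τ.2⟩, l1, i.2, r.2, τ.2, l2⟩
    · rintro _ ⟨i, hi, rfl⟩ p τ p' τ' ⟨_, hp, hτ, l⟩ ⟨_, hp', hτ', l'⟩
      exact (ht ⟨τ, hτ⟩).symm.trans ((congrArg Subtype.val
        ((c4 i hi _ _ l).trans (c4 i hi _ _ l').symm)).trans (ht ⟨τ', hτ'⟩))
    · rintro _ ⟨i, hi, rfl⟩ p τ ⟨_, hp, hτ, l⟩
      exact (show w.1 ≤ (h i).1 from c5 i hi).trans_eq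
        ((congrArg Subtype.val (c4 i hi _ _ l)).symm.trans (ht ⟨τ, hτ⟩))
    · rintro _ ⟨i, hi, rfl⟩ _ ⟨j, hj, rfl⟩ p l τ τ' ⟨_, hp, hτ, n⟩ ⟨_, _, hτ', n'⟩
      obtain ⟨p', l1, l2⟩ := c6 i hi j hj ⟨p, hp⟩ l _ _ n n'
      exact ⟨p'.1, l1, l2⟩
  · obtain ⟨y, k1, k2⟩ := h3 ((q.1.1, q.2.1), η.1) ⟨⟨q.1.2, q.2.2⟩, η.2⟩
    obtain ⟨k3, k4, k5⟩ := k2 l
    exact ⟨(⟨y.1.1, k1.1.1⟩, ⟨y.1.2, k1.1.2⟩), k3, ⟨y.2, k1.2⟩, k4, k5⟩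

theorem exists_emb (Q : Sh (PP K) T K) [Nice Q] : Nonempty (Emb Q) := by
  classical
  have h : ∀ᶠ x in mm K, ∃ F, StarX Q x F := by
    filter_upwards [Lc.nuY, cc_refl, nice_refl Q, Sm.small (Z := T), Lc.nu_gt ⊥]
      with x h1 h2 h3 h4 h5
    obtain ⟨f, hf⟩ := It.emb (nu x) h1 h2 _ (Q.rf x h5) h4 (h3 h5)
    let F : Q.C → PP K := fun q =>
      if k : Lo (nu x) q.1 ∧ inn x q.2 then f (⟨q.1, k.1⟩, ⟨q.2, k.2⟩) else ⊤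
    have hF : ∀ (q : Q.C) (k : Lo (nu x) q.1 ∧ inn x q.2), F q = f (⟨q.1, k.1⟩, ⟨q.2, k.2⟩) :=
      fun q k => dif_pos k
    refine ⟨F, fun q k => ?_, fun q k => ?_, fun q' q k' k l => ?_, fun q p k l => ?_,
      fun q o k l n => ?_, fun q p o k l n => ?_, fun q' q k' k l => ?_⟩
    · rw [hF q k]; exact hf.s0 _
    · rw [hF q k]; exact hf.s1 _
    · rw [hF q k, hF q' k']; exact hf.s2 _ _ l
    · rw [hF q k] at l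
      obtain ⟨q', l1, l2⟩ := hf.s3 _ p l
      exact ⟨(q'.1.1, q'.2.1), ⟨q'.1.2, q'.2.2⟩, l1, (hF _ ⟨q'.1.2, q'.2.2⟩).trans_le l2⟩
    · rw [hF q k]
      cases o with
      | none => exact hf.s4 _ none n
      | some η => exact hf.s4 _ (some ⟨η, l η rfl⟩) n
    · rw [hF q k] at l
      obtain ⟨q', l1, l2, o', rfl, l3⟩ := hf.s5 _ p o l n
      exact ⟨(q'.1.1, q'.2.1), ⟨q'.1.2, q'.2.2⟩, l1, (hF _ ⟨q'.1.2, q'.2.2⟩).trans_le l2, l3⟩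
    · rw [hF q k, hF q' k'] at l
      obtain ⟨p, l1, l2⟩ := hf.s6 _ _ l
      exact ⟨(p.1, q'.2), ⟨l1, Nice.refl Q _ _⟩, l2⟩
  obtain ⟨f, hf⟩ := h.choice
  exact ⟨⟨f, hf⟩⟩

end Pool.Agent.Lib.MP_491cc4_lc.Cx
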