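import Pool.Agent.Lib.MP_491cc4_lc.Cx.Lc

set_option autoImplicit false
set_option linter.unusedSectionVars false

namespace Pool.Agent.Lib.MP_491cc4_lc.Cx

open Set Cardinal Filter Pool.Agent.Lib.MP_d4b40b_lc

/-- a two-step iteration `P * Q`, given by terms, with direct extensions, heights and a ladder -/
structure Sh (P T H : Type) where
  le : P → T → T → Prop
  dle : P → T → T → Prop
  ht : T → H
  lad : P → T → Option H → Prop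

section
variable {P T H : Type} [Preorder P] [LinearOrder H]

/-- the order of the two-step iteration -/
def Sh.tle (Q : Sh P T H) (q' q : P × T) : Prop := q'.1 ≤ q.1 ∧ Q.le q'.1 q'.2 q.2

/-- Prikry-type second steps -/
class Nice (Q : Sh P T H) : Prop where
  ne : Nonempty T
  drefl : ∀ p τ, Q.dle p τ τ
  dle_le : ∀ p τ' τ, Q.dle p τ' τ → Q.le p τ' τ
  trans : ∀ p τ'' τ' τ, Q.le p τ'' τ' → Q.le p τ' τ → Q.le p τ'' τ
  dtrans : ∀ p τ'' τ' τ, Q.dle p τ'' τ' → Q.dle p τ' τ → Q.dle p τ'' τ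
  mono : ∀ p p' τ' τ, Q.le p τ' τ → p' ≤ p → Q.le p' τ' τ
  dmono : ∀ p p' τ' τ, Q.dle p τ' τ → p' ≤ p → Q.dle p' τ' τ
  fill : ∀ τ h, Q.ht τ ≤ h → ∃ τ', Q.ht τ' = h ∧ ∀ p, Q.dle p τ' τ
  prik : ∀ a : P × T → Prop, (∀ q q', a q → Q.tle q' q → a q') → ∀ p τ, ∃ p' ≤ p, ∃ τ',
    Q.dle p' τ' τ ∧ ((∀ q, Q.tle q (p', τ') → ∃ q', Q.tle q' q ∧ a q') ∨
      ∀ q, Q.tle q (p', τ') → ¬ a q)
  clos : ∀ (w : H) (I : Set H) (nm : H → P → T → Prop) (h : H → H) (p0 : P), I ⊆ Iio w →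
    (∀ i ∈ I, ∀ τ, Op fun p => nm i p τ) → (∀ i ∈ I, ∀ p τ τ', nm i p τ → nm i p τ' → τ = τ') →
    (∀ i ∈ I, hull (fun p => ∃ τ, nm i p τ) p0) → (∀ i ∈ I, ∀ p τ, nm i p τ → Q.ht τ = h i) →
    (∀ i ∈ I, w ≤ h i) →
    (∀ i ∈ I, ∀ j ∈ I, ∀ p ≤ p0, ∀ τ τ', nm i p τ → nm j p τ' →
      ∃ p' ≤ p, Q.dle p' τ' τ ∨ Q.dle p' τ τ') →
    ∃ p1 ≤ p0, ∃ σ, ∀ i ∈ I, ∀ p ≤ p1, ∀ τ, nm i p τ → ∃ p' ≤ p, Q.dle p' σ τ
  lad_mono : ∀ o q q', Q.lad q.1 q.2 o → Q.tle q' q → Q.lad q'.1 q'.2 o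
  lad_unb : ∀ q η, Q.lad q.1 q.2 none → ∃ q', Q.tle q' q ∧ ∃ η', η < η' ∧ Q.lad q'.1 q'.2 (some η')

lemma Nice.refl (Q : Sh P T H) [Nice Q] (p : P) (τ : T) : Q.le p τ τ :=
  Nice.dle_le _ _ _ (Nice.drefl p τ)

/-- the two-step iteration as a type -/
def Sh.C (_ : Sh P T H) : Type := P × T

instance (Q : Sh P T H) [Nice Q] : Preorder Q.C where
  le := Q.tle
  le_refl q := ⟨le_rfl, Nice.refl Q _ _⟩
  le_trans _ _ _ h k := ⟨h.1.trans k.1, Nice.trans _ _ _ _ h.2 (Nice.mono _ _ _ _ k.2 h.1)⟩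

lemma Sh.le_iff {Q : Sh P T H} [Nice Q] {q' q : Q.C} : q' ≤ q ↔ Q.tle q' q := Iff.rfl

/-- the data of an embedding of a small iteration into a stage of the long iteration -/
structure Star {K : Type} [LinearOrder K] (A : P → Prop) (ν : K) (rs : P → P)
    (st : Option K → P → Prop) (Q : Sh {p // A p} T (Iio ν)) (f : {p // A p} × T → P) : Prop where
  s0 : ∀ q, f q ≤ q.1.1
  s1 : ∀ q, rs (f q) ≤ f q
  s2 : ∀ q' q, Q.tle q' q → f q' ≤ f q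
  s3 : ∀ q p, p ≤ f q → ∃ q', Q.tle q' q ∧ f q' ≤ rs p
  s4 : ∀ q o, Q.lad q.1 q.2 o → st (o.map Subtype.val) (f q)
  s5 : ∀ q p o, p ≤ f q → st o p → ∃ q', Q.tle q' q ∧ f q' ≤ rs p ∧
    ∃ o', o = o'.map Subtype.val ∧ Q.lad q'.1 q'.2 o'
  s6 : ∀ q' q, f q' ≤ f q → ∃ p ≤ q'.1, Q.tle (p, q'.2) q

end

/-- the long iteration -/
class It (K : Type) [LinearOrder K] [Lc K] where
  P : Type
  [pre : Preorder P]
  [top : OrderTop P]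
  Lo : K → P → Prop
  res : K → P → P
  stem : K → Option K → P → Prop
  Tl : K → Type
  [tpre : ∀ ν, Preorder (Tl ν)]
  gl : ∀ ν, P → Tl ν → P
  cc : CC P #K
  lo_ex : ∀ p, ∃ ν, Lo ν p
  lo_mono : ∀ ν ν' p, Lo ν p → ν ≤ ν' → Lo ν' p
  lo_lim : ∀ ν ∈ YY K, ∀ p, Lo ν p → ∃ ζ < ν, Lo ζ p
  lo_card : ∀ ν, #{p | Lo ν p} < #K
  lo_small : ∀ ν ∈ YY K, #{p | Lo ν p} ≤ #(Iio (th ν))
  le_res : ∀ ν p, p ≤ res ν p
  res_mono : ∀ ν p p', p' ≤ p → res ν p' ≤ res ν p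
  gl_le : ∀ ν q r, gl ν q r ≤ res ν q
  gl_mono : ∀ ν q q' r r', q' ≤ res ν q → r' ≤ r → gl ν q' r' ≤ gl ν q r
  gl_mid : ∀ ν p q q' r, p ≤ gl ν q r → q' ≤ res ν p → ∃ p' ≤ p, p' ≤ gl ν q' r
  tl_dec : ∀ ν (r : Tl ν) (a : P → Prop), Op a → ∃ r' ≤ r, ∀ q, ∃ q' ≤ res ν q,
    hull a (gl ν q' r') ∨ ng a (gl ν q' r')
  tl_clos : ∀ ν (I : Type) (r : I → Tl ν), #I ≤ #(Iio (th ν)) → (∀ i j, r i ≤ r j ∨ r j ≤ r i) →
    ∃ r', ∀ i, r' ≤ r i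
  stem_reg : ∀ δ o, Reg (stem δ o)
  stem_Y : ∀ δ o p, stem δ o p → δ ∈ YY K
  stem_lt : ∀ δ η p, stem δ (some η) p → η < δ
  stem_unb : ∀ δ p, stem δ none p → ∀ η < δ, ∃ p' ≤ p, ∃ η', η < η' ∧ stem δ (some η') p'
  emb : ∀ ν ∈ YY K, CC {p // Lo ν p} #(Iio ν) → ∀ (T : Type) (Q : Sh {p // Lo ν p} T (Iio ν)),
    #T ≤ #(Iio (th ν)) → Nice Q → ∃ f, Star (Lo ν) ν (res ν) (stem ν) Q f

attribute [instance_reducible] It.pre It.top It.tpre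
attribute [instance] It.pre It.top It.tpre

export It (Lo res stem Tl gl)

variable (K : Type) [LinearOrder K] [Lc K] [It K]

abbrev PP : Type := It.P K

variable {K}

instance : Sm K (PP K) where
  inn x p := Lo (nu x) p
  fine p := (It.lo_ex p).elim fun ν h => (Lc.nu_gt ν).mono fun _ k => It.lo_mono _ _ _ h k.le
  norm f h := by
    obtain ⟨ζ, hζ⟩ := ae_exi (Z := K) (φ := fun x ζ => Lo ζ (f x))
      ((Lc.nuY.and h).mono fun _ k => It.lo_lim _ k.1 _ k.2)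
    exact (ae_cst (mu K) #K (It.lo_card ζ) (f := f) hζ).imp fun _ k => k.2
  small := Lc.nuY.mono fun _ k => It.lo_small _ k

lemma mkP : #(PP K) ≤ #K := by
  rw [← mk_univ]
  refine (mk_le_mk_of_subset (t := ⋃ ν : K, {p | Lo ν p}) fun p _ => mem_iUnion.2 (It.lo_ex p)).trans
    (mk_iUnion_le' (infK K) le_rfl fun ν => (It.lo_card ν).le)

instance {T : Type} [Sm K T] (Q : Sh (PP K) T K) : Sm K Q.C := inferInstanceAs (Sm K (PP K × T))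

/-- at `x`, the map `f` embeds the reflection of `P * Q` into the stage `nu x` -/
structure StarX {T : Type} [Sm K T] (Q : Sh (PP K) T K) [Nice Q] (x : XX K) (f : Q.C → PP K) :
    Prop where
  s0 : ∀ q, inn x q → f q ≤ q.1
  s1 : ∀ q, inn x q → res (nu x) (f q) ≤ f q
  s2 : ∀ q' q, inn x q' → inn x q → q' ≤ q → f q' ≤ f q
  s3 : ∀ q p, inn x q → p ≤ f q → ∃ q', inn x q' ∧ q' ≤ q ∧ f q' ≤ res (nu x) p
  s4 : ∀ q o, inn x q → (∀ η, o = some η → η < nu x) → Q.lad q.1 q.2 o → stem (nu x) o (f q)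
  s5 : ∀ q p o, inn x q → p ≤ f q → stem (nu x) o p →
    ∃ q', inn x q' ∧ q' ≤ q ∧ f q' ≤ res (nu x) p ∧ Q.lad q'.1 q'.2 o
  s6 : ∀ q' q, inn x q' → inn x q → f q' ≤ f q → ∃ q'' ≤ q', q'' ≤ q

/-- almost everywhere embeddings -/
structure Emb {T : Type} [Sm K T] (Q : Sh (PP K) T K) [Nice Q] where
  f : XX K → Q.C → PP K
  ae : ∀ᶠ x in mm K, StarX Q x (f x)

end Pool.Agent.Lib.MP_491cc4_lc.Cx
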