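import Pool.Agent.Lib.MP_491cc4_lc.Cx.Det

set_option autoImplicit false
set_option linter.unusedSectionVars false

namespace Pool.Agent.Lib.MP_491cc4_lc.Cx

open Set Cardinal Filter Pool.Agent.Lib.MP_d4b40b_lc

variable (K : Type) [LinearOrder K] [WellFoundedLT K] [OrderBot K] [Lc K] [It K]

/-- states: conditions for the tail of the image of the forcing -/
structure St where
  β : LL K
  r : ∀ x : XX K, Tl (nu x)
  m : XX K → Tm K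
  sup : ∀ᶠ x in mm K, (m x).1.a ⊆ Iio β
  ht : ∀ᶠ x in mm K, th (nu x) ≤ (m x).1.g

variable {K}

def St.le (σ' σ : St K) : Prop :=
  σ.β ≤ σ'.β ∧ ∀ᶠ x in mm K, σ'.r x ≤ σ.r x ∧ ∀ p, RT.le p (σ'.m x).1 (σ.m x).1

lemma St.le_refl (σ : St K) : σ.le σ :=
  ⟨le_rfl, Eventually.of_forall fun _ => ⟨le_rfl, fun _ => RT.le_refl _ _⟩⟩

lemma St.le.trans {σ'' σ' σ : St K} (h : σ''.le σ') (k : σ'.le σ) : σ''.le σ :=
  ⟨k.1.trans h.1, (h.2.and k.2).mono fun _ j => ⟨j.1.1.trans j.2.1, fun p =>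
    (j.1.2 p).trans (j.2.2 p)⟩⟩

/-- dependent choice of witnesses almost everywhere -/
lemma ae_dchoice {Z : XX K → Type} (h : ∀ x, Nonempty (Z x)) {φ : ∀ x, Z x → Prop}
    (k : ∀ᶠ x in mm K, ∃ z, φ x z) : ∃ f : ∀ x, Z x, ∀ᶠ x in mm K, φ x (f x) := by
  have : ∀ x, ∃ z : Z x, (∃ z, φ x z) → φ x z := fun x => by
    by_cases l : ∃ z, φ x z
    · exact l.imp fun _ o _ => o
    · exact (h x).elim fun z => ⟨z, fun o => absurd o l⟩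
  choose f hf using this
  exact ⟨f, k.mono fun x l => hf x l⟩

/-- sections of regular sets -/
lemma Reg.sec {a : TT K → Prop} (h : Reg a) (τ : Tm K) : Reg fun p : PP K => a (p, τ) :=
  ⟨fun _ _ k l => h.1 _ _ k ⟨l, RT.le_refl _ _⟩, fun p k => h.2 _ fun c l => by
    obtain ⟨r, k1, k2⟩ := k c.1 l.1
    exact ⟨(r, c.2), ⟨k1, RT.le_refl _ _⟩, h.1 (r, τ) _ k2 ⟨le_rfl, RT.le.mono l.2 k1⟩⟩⟩

/-- lower bounds of chains of states -/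
theorem St.lim {J : Type} (hJ : #J < #(LL K)) (σ : J → St K) (h : ∀ i j, (σ i).le (σ j) ∨ (σ j).le (σ i))
    (β : LL K) (k : ∀ i, (σ i).β ≤ β) : ∃ σ' : St K, σ'.β = β ∧ ∀ i, σ'.le (σ i) := by
  let _ : Sm K J := Sm.ofCard hJ.le
  have h1 : ∀ᶠ x in mm K, ∀ z : J × J, inn x z →
      (((σ z.1).r x ≤ (σ z.2).r x ∧ ∀ p, RT.le p ((σ z.1).m x).1 ((σ z.2).m x).1) ∨
        ((σ z.2).r x ≤ (σ z.1).r x ∧ ∀ p, RT.le p ((σ z.2).m x).1 ((σ z.1).m x).1)) :=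
    diag fun z => (h z.1 z.2).elim (fun l => l.2.mono fun _ => Or.inl)
      fun l => l.2.mono fun _ => Or.inr
  have h2 : ∀ᶠ x in mm K, ∀ j : J, inn x j →
      ((σ j).m x).1.a ⊆ Iio β ∧ th (nu x) ≤ ((σ j).m x).1.g :=
    diag fun j => ((σ j).sup.and (σ j).ht).mono fun _ l =>
      ⟨l.1.trans (Iio_subset_Iio (k j)), l.2⟩
  have h3 : ∀ᶠ x in mm K, ∃ y : Tl (nu x) × Tm K, y.2.1.a ⊆ Iio β ∧ th (nu x) ≤ y.2.1.g ∧
      ∀ j : J, inn x j → y.1 ≤ (σ j).r x ∧ ∀ p, RT.le p y.2.1 ((σ j).m x).1 := by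
    filter_upwards [h1, h2, Sm.small (K := K) (Z := J)] with x a1 a2 a3
    obtain ⟨r', hr⟩ := It.tl_clos (nu x) {j : J | inn x j} (fun j => (σ j.1).r x) a3
      fun i j => (a1 (i.1, j.1) ⟨i.2, j.2⟩).imp And.left And.left
    obtain ⟨m', b1, b2, b3⟩ := Tm.clos (th (nu x)) a3 (fun i _ τ => τ = (σ i.1).m x)
      (fun i => ((σ i.1).m x).1.g) ⊤ (fun _ _ => op_const _) (fun _ _ _ _ e e' => e.trans e'.symm)
      (fun _ q _ => ⟨q, le_rfl, _, rfl⟩) (fun _ _ _ e => e ▸ rfl) (fun i => (a2 i.1 i.2).2)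
      (by
        rintro i j p - _ _ rfl rfl
        exact ⟨p, le_rfl, (a1 (j.1, i.1) ⟨j.2, i.2⟩).imp (fun l => l.2 p) fun l => l.2 p⟩)
    refine ⟨(r', m'), fun ξ l => ?_, b1, fun j l => ⟨hr ⟨j, l⟩, fun p => b2 ⟨j, l⟩ p le_top _ rfl⟩⟩
    obtain ⟨i, -, _, rfl, o⟩ := b3 ξ l
    exact (a2 i.1 i.2).1 o
  have h4 : ∀ x : XX K, Nonempty (Tl (nu x) × Tm K) := fun x =>
    (It.tl_clos (nu x) Empty Empty.elim (by simp) fun i => i.elim).elim fun r' _ => ⟨(r', Tm.top)⟩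
  obtain ⟨f, hf⟩ := ae_dchoice h4 h3
  exact ⟨⟨β, fun x => (f x).1, fun x => (f x).2, hf.mono fun _ l => l.1, hf.mono fun _ l => l.2.1⟩,
    rfl, fun i => ⟨k i, (hf.and (Sm.fine i)).mono fun _ l => l.1.2.2 i l.2⟩⟩

variable {T : Type} [Sm K T] {Q : Sh (PP K) T K} [Nice Q] (E : Emb Q)

/-- the condition of the long iteration given by `q` and the tail -/
def lf (r : ∀ x : XX K, Tl (nu x)) (x : XX K) (q : Q.C) : PP K := gl (nu x) (E.f x q) (r x)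

/-- the lifted condition -/
def lift (σ : St K) (x : XX K) (q : Q.C) : TT K := (lf E σ.r x q, σ.m x)

/-- `q` forces that the critical point is in the image of `A` -/
def pos (σ : St K) (A : Nm K) (q : Q.C) : Prop := ∀ᶠ x in mm K, A (nu x) (lift E σ x q)

variable {E} {σ σ' : St K} {A : Nm K} {q q' : Q.C} {r : ∀ x : XX K, Tl (nu x)}

lemma lf_le (q : Q.C) : ∀ᶠ x in mm K, lf E r x q ≤ E.f x q ∧ lf E r x q ≤ q.1 := by
  filter_upwards [E.ae, Sm.fine q] with x a1 a2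
  have := (It.gl_le (nu x) (E.f x q) (r x)).trans (a1.s1 q a2)
  exact ⟨this, this.trans (a1.s0 q a2)⟩

lemma lf_mono (h : q' ≤ q) : ∀ᶠ x in mm K, lf E r x q' ≤ lf E r x q := by
  filter_upwards [E.ae, Sm.fine q, Sm.fine q'] with x a1 a2 a3
  exact It.gl_mono _ _ _ _ _ ((a1.s2 q' q a3 a2 h).trans (It.le_res _ _)) le_rfl

lemma lift_mono (h : q' ≤ q) (k : σ'.le σ) : ∀ᶠ x in mm K, lift E σ' x q' ≤ lift E σ x q := by
  filter_upwards [E.ae, Sm.fine q, Sm.fine q', k.2] with x a1 a2 a3 a4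
  exact ⟨It.gl_mono _ _ _ _ _ ((a1.s2 q' q a3 a2 h).trans (It.le_res _ _)) a4.1, a4.2 _⟩

/-- density reflects -/
lemma lf_dense {D : Q.C → Prop} (h : hull D q) : ∀ᶠ x in mm K, ∀ p ≤ lf E r x q,
    ∃ q' ≤ q, inn x q' ∧ D q' ∧ ∃ p' ≤ p, p' ≤ lf E r x q' := by
  have h1 : ∀ᶠ x in mm K, ∀ q1 : Q.C, inn x q1 → ∃ q2 : Q.C, inn x q2 ∧
      (q1 ≤ q → q2 ≤ q1 ∧ D q2) := skolem fun q1 => by
    by_cases l : q1 ≤ q
    · exact (h q1 l).imp fun _ o => Eventually.of_forall fun _ _ => o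
    · exact ⟨q1, Eventually.of_forall fun _ o => absurd o l⟩
  filter_upwards [E.ae, Sm.fine q, h1, lf_le (E := E) (r := r) q] with x a1 a2 a3 a4 p l
  obtain ⟨q1, b1, b2, b3⟩ := a1.s3 q p a2 (l.trans a4.1)
  obtain ⟨q2, b4, b5⟩ := a3 q1 b1
  obtain ⟨b6, b7⟩ := b5 b2
  exact ⟨q2, b6.trans b2, b4, b7, It.gl_mid _ _ _ _ _ l ((a1.s2 q2 q1 b4 b1 b6).trans b3)⟩

lemma reg_lf {a : XX K → PP K → Prop} (h : ∀ x, Reg (a x)) :
    Reg fun q => ∀ᶠ x in mm K, a x (lf E r x q) := by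
  refine ⟨fun q q' k l => (k.and (lf_mono l)).mono fun x j => (h x).1 _ _ j.1 j.2, fun q k => ?_⟩
  have h1 : ∀ᶠ x in mm K, ∀ q1 : Q.C, inn x q1 →
      (∀ᶠ y in mm K, a y (lf E r y q1)) → a x (lf E r x q1) := diag fun q1 => by
    by_cases l : ∀ᶠ y in mm K, a y (lf E r y q1)
    · exact l.mono fun _ o _ => o
    · exact Eventually.of_forall fun _ o => absurd o l
  filter_upwards [h1, lf_dense (E := E) (r := r) k] with x a1 a2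
  refine (h x).2 _ fun p l => ?_
  obtain ⟨q1, -, b1, b2, p', b3, b4⟩ := a2 p l
  exact ⟨p', b3, (h x).1 _ _ (a1 q1 b1 b2) b4⟩

lemma reg_pos (h : RN A) : Reg (pos E σ A) := by
  exact reg_lf (a := fun x p => A (nu x) (p, σ.m x)) fun x => (h (nu x)).sec _

lemma pos.mono (h : pos E σ A q) (k : RN A) (l : σ'.le σ) : pos E σ' A q := by
  exact (Eventually.and h (lift_mono le_rfl l)).mono fun x j => (k (nu x)).1 _ _ j.1 j.2

lemma pos.not (h : pos E σ A q) (k : pos E σ (cm A) q) : False := by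
  obtain ⟨x, a1, a2⟩ := (Eventually.and h k).exists
  exact a2 _ le_rfl a1

lemma lad_pos {o : Option K} (h : Q.lad q.1 q.2 o) :
    ∀ᶠ x in mm K, stem (nu x) o (lf E r x q) := by
  have h1 : ∀ᶠ x in mm K, ∀ η, o = some η → η < nu x := by
    cases o with
    | none => exact Eventually.of_forall fun _ _ e => by cases e
    | some a => exact (Lc.nu_gt a).mono fun _ l η e => by cases e; exact l
  filter_upwards [E.ae, Sm.fine q, h1, lf_le (E := E) (r := r) q] with x a1 a2 a3 a4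
  exact (It.stem_reg _ _).1 _ _ (a1.s4 q o a2 a3 h) a4.1

variable (E) in
theorem decide (σ : St K) (h : NR σ.β A) : ∃ σ' : St K, σ'.le σ ∧ σ'.β = σ.β ∧
    ∀ q, ∃ q' ≤ q, pos E σ' A q' ∨ pos E σ' (cm A) q' := by
  have h1 : ∀ᶠ x in mm K, ∃ y : Tl (nu x) × Tm K, y.2.1.a ⊆ Iio σ.β ∧ y.1 ≤ σ.r x ∧
      (∀ p, RT.le p y.2.1 (σ.m x).1) ∧ ∀ q0, ∃ q1 ≤ res (nu x) q0,
        A (nu x) (gl (nu x) q1 y.1, y.2) ∨ cm A (nu x) (gl (nu x) q1 y.1, y.2) := by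
    filter_upwards [σ.sup] with x a1
    obtain ⟨m', b1, b2, b3⟩ := meet_term (σ.m x) a1 (fun c => A (nu x) c ∨ ng (A (nu x)) c)
      ((h _).1.1.or op_ng) fun c l => by
        obtain ⟨d, k1, k2⟩ := dec (A (nu x)) c
        exact ⟨cutT σ.β d, cutT_le k1 l, sp_cut _ _, k2.imp ((h _).2 d).1
          (((h _).2.ng (h _).1.1) d).1⟩
    obtain ⟨r', b4, b5⟩ := It.tl_dec (nu x) (σ.r x) (fun p => A (nu x) (p, m'))
      ((h _).1.sec m').1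
    refine ⟨(r', m'), b1, b4, b2, fun q0 => (b5 q0).imp fun q1 k => ⟨k.1, k.2.imp
      (((h _).1.sec m').2 _) fun j c l n => ?_⟩⟩
    obtain ⟨p', k1, k2 | k2⟩ := b3 c.1
    · exact j p' (k1.trans l.1) k2
    · exact k2 (p', c.2) ⟨le_rfl, RT.le.mono l.2 k1⟩
        ((h _).1.1 c _ n ⟨k1, RT.le_refl _ _⟩)
  obtain ⟨f, hf⟩ := ae_dchoice (fun x => ⟨(σ.r x, σ.m x)⟩) h1
  refine ⟨⟨σ.β, fun x => (f x).1, fun x => (f x).2, hf.mono fun _ l => l.1,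
    (hf.and σ.ht).mono fun _ l => l.2.trans (l.1.2.2.1 ⊤).2.1⟩,
    ⟨le_rfl, hf.mono fun _ l => ⟨l.2.1, l.2.2.1⟩⟩, rfl, fun q => ?_⟩
  have h2 : ∀ᶠ x in mm K, ∃ q' : Q.C, inn x q' ∧ (q' ≤ q ∧
      (A (nu x) (gl (nu x) (E.f x q') (f x).1, (f x).2) ∨
        cm A (nu x) (gl (nu x) (E.f x q') (f x).1, (f x).2))) := by
    filter_upwards [E.ae, Sm.fine q, hf] with x a1 a2 a3
    obtain ⟨q1, b1, b2⟩ := a3.2.2.2 (E.f x q)
    obtain ⟨q', b3, b4, b5⟩ := a1.s3 q q1 a2 (b1.trans (a1.s1 q a2))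
    have b6 : @LE.le (TT K) _ (gl (nu x) (E.f x q') (f x).1, (f x).2)
        (gl (nu x) q1 (f x).1, (f x).2) :=
      ⟨It.gl_mono _ _ _ _ _ b5 le_rfl, RT.le_refl _ _⟩
    exact ⟨q', b3, b4, b2.imp (fun j => (h _).1.1 _ _ j b6) fun j => op_ng _ _ j b6⟩
  obtain ⟨q', hq⟩ := ae_exi h2
  exact ⟨q', hq.exists.elim fun _ l => l.1, ae_or.1 (hq.mono fun _ l => l.2)⟩

/-- an interpretation of a generic for the final forcing up to `β` -/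
structure Intp (I : TT K → Q.C → Prop) (Z : Q.C → Prop) (β : LL K) : Prop where
  zop : Op Z
  op : ∀ c, Op (I c)
  z : ∀ c q, I c q → Z q
  sp : ∀ c q, I c q → Sp β c
  dir : ∀ c1 c2 q, I c1 q → I c2 q → ∃ q' ≤ q, ∃ c, I c q' ∧ c ≤ c1 ∧ c ≤ c2
  gen : ∀ D : TT K → Prop, (∀ c, Sp β c → ∃ c' ≤ c, Sp β c' ∧ D c') → ∀ q, Z q →
    ∃ q' ≤ q, ∃ c, D c ∧ I c q'
  pr : ∀ c q, I c q → ∃ q' ≤ q, q'.1 ≤ c.1

/-- the values of the interpreted generic -/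
def gval (I : TT K → Q.C → Prop) (ξ : LL K) (η : K) (v : Bool × LL K) (q : Q.C) : Prop :=
  ∃ c, I c q ∧ c.2.1.val ξ η v c.1

variable (E) in
/-- master condition at the coordinate `ξ` -/
def MstR (I : TT K → Q.C → Prop) (r : ∀ x : XX K, Tl (nu x)) (m : XX K → RT K) (ξ : LL K) : Prop :=
  (∀ᶠ x in mm K, ξ ∈ (m x).a) ∧
    ∀ η v q, gval I ξ η v q → ∀ᶠ x in mm K, (m x).val ξ η v (lf E r x q)

variable (E) in
def Mst (I : TT K → Q.C → Prop) (σ : St K) (ξ : LL K) : Prop := MstR E I σ.r (fun x => (σ.m x).1) ξ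

variable {I I' : TT K → Q.C → Prop} {Z : Q.C → Prop} {β ξ : LL K}

lemma Mst.mono (h : Mst E I σ ξ) (k : σ'.le σ) : Mst E I σ' ξ := by
  refine ⟨(h.1.and k.2).mono fun _ j => (j.2.2 ⊤).1 j.1, fun η v q j => ?_⟩
  exact ((h.2 η v q j).and (lift_mono (E := E) (le_refl q) k)).mono fun x l =>
    op_val ξ η v (lift E σ x q) _ l.1 l.2

lemma Mst.congr (h : Mst E I σ ξ) (k : ∀ η v q, gval I' ξ η v q → hull (gval I ξ η v) q) :
    Mst E I' σ ξ := by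
  refine ⟨h.1, fun η v q j => ?_⟩
  exact (reg_lf (a := fun x p => (σ.m x).1.val ξ η v p) fun x => (σ.m x).1.reg ξ η v).2 _
    ((k η v q j).imp fun q' _ l => ⟨q', le_rfl, h.2 η v q' l⟩)

theorem lift_leR (h : Intp I Z β) {m : XX K → RT K} (k : ∀ ξ < β, MstR E I r m ξ)
    (hg : ∀ᶠ x in mm K, nu x ≤ (m x).g) {c : TT K} (j : I c q) :
    ∀ᶠ x in mm K, RT.le (lf E r x q) (m x) c.2.1 := by
  have h0 := h.sp c q j
  have h1 : ∀ᶠ x in mm K, ∀ ξ ∈ c.2.1.a, ξ ∈ (m x).a :=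
    aeK c.2.1.small fun ξ l => (k ξ (h0 l)).1
  have h2 : ∀ ξ ∈ c.2.1.a, ∀ η ∈ Iio c.2.1.g, ∀ᶠ x in mm K, ∀ v, ∀ p ≤ lf E r x q,
      c.2.1.val ξ η v p → (m x).val ξ η v p := by
    intro ξ hξ η hη
    have e1 : hull (fun q'' : Q.C => ∃ c'' ≤ c, q''.1 ≤ c''.1 ∧ ∃ v, I c'' q'' ∧
        c''.2.1.val ξ η v c''.1) q := by
      intro q1 l
      obtain ⟨q2, k1, c', k2, k3⟩ := h.gen (fun c' => (c' ≤ c ∧ ∃ v, c'.2.1.val ξ η v c'.1) ∨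
        ¬ ∃ d ≤ c', d ≤ c) (fun c0 n => by
          by_cases o : ∃ d ≤ c0, d ≤ c
          · obtain ⟨d, o1, o2⟩ := o
            obtain ⟨p', o3, v, o4⟩ := c.2.1.tot ξ hξ η hη d.1
            have o5 : @LE.le (TT K) _ (p', d.2) d := ⟨o3, RT.le_refl _ _⟩
            exact ⟨cutT β (p', d.2), cutT_le (o5.trans o1) n, sp_cut _ _,
              Or.inl ⟨cutT_le (o5.trans o2) h0, v, h0 hξ, o2.2.2.2 ξ η v p' o3 o4⟩⟩
          · exact ⟨c0, le_rfl, n, Or.inr o⟩) q1 (h.z c q1 (h.op c _ _ j l))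
      rcases k2 with ⟨k4, v, k5⟩ | k4
      · obtain ⟨q3, k6, k7⟩ := h.pr c' q2 k3
        exact ⟨q3, k6.trans k1, c', k4, k7, v, h.op c' _ _ k3 k6, k5⟩
      · obtain ⟨-, -, d, -, k5, k6⟩ := h.dir c' c q2 k3 (h.op c _ _ j (k1.trans l))
        exact absurd ⟨d, k5, k6⟩ k4
    have e2 : ∀ᶠ x in mm K, ∀ q'' : Q.C, inn x q'' → lf E r x q'' ≤ q''.1 ∧
        ∀ v, gval I ξ η v q'' → (m x).val ξ η v (lf E r x q'') := diag fun q'' => by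
      refine ((lf_le (E := E) (r := r) q'').mono fun _ l => l.2).and ?_
      by_cases o : ∃ v, gval I ξ η v q''
      · obtain ⟨v, c1, o1, o2⟩ := o
        refine ((k ξ (h0 hξ)).2 η v q'' ⟨c1, o1, o2⟩).mono fun x l v' ⟨c2, o3, o4⟩ => ?_
        obtain ⟨-, -, d, -, o5, o6⟩ := h.dir c1 c2 q'' o1 o3
        exact d.2.1.fn ξ η v v' d.1 (op_val ξ η v c1 d o2 o5) (op_val ξ η v' c2 d o4 o6) ▸ l
      · exact Eventually.of_forall fun _ v l => absurd ⟨v, l⟩ o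
    filter_upwards [e2, lf_dense (E := E) (r := r) e1] with x a1 a2 v p l n
    refine ((m x).reg ξ η v).2 _ fun p1 o => ?_
    obtain ⟨q2, -, b1, ⟨c2, b2, b3, v', b4, b5⟩, p2, b6, b7⟩ := a2 p1 (o.trans l)
    have b8 : p2 ≤ c2.1 := b7.trans ((a1 q2 b1).1.trans b3)
    have b9 : v = v' := c2.2.1.fn ξ η v v' p2
      (b2.2.2.2 ξ η v p2 b8 ((c.2.1.reg ξ η v).1 _ _ n (b6.trans o)))
      ((c2.2.1.reg ξ η v').1 _ _ b5 b8)
    exact ⟨p2, b6, b9 ▸ ((m x).reg ξ η v').1 _ _ ((a1 q2 b1).2 v' ⟨c2, b4, b5⟩) b7⟩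
  filter_upwards [h1, hg, Lc.nu_gt c.2.1.g,
    aeK c.2.1.small fun ξ l => aeK (iioK c.2.1.g) (h2 ξ l)] with x a1 a2 a3 a4
  exact ⟨a1, a3.le.trans a2, fun ξ η v p l n =>
    a4 ξ (c.2.1.dom ξ η v p n).1 η (c.2.1.dom ξ η v p n).2.1 v p l n⟩

theorem lift_le (h : Intp I Z β) (k : ∀ ξ < β, Mst E I σ ξ) {c : TT K} (j : I c q) :
    ∃ q' ≤ q, ∀ᶠ x in mm K, lift E σ x q' ≤ c := by
  obtain ⟨q', k1, k2⟩ := h.pr c q j
  refine ⟨q', k1, ?_⟩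
  filter_upwards [lift_leR h k (σ.ht.mono fun _ l => (Lc.lt_th _).le.trans l) (h.op c _ _ j k1),
    lf_le (E := E) (r := σ.r) q'] with x a1 a2
  exact ⟨a2.2.trans k2, a1⟩

theorem lad_sub (h : Intp I Z β) (k : ∀ ξ < β, Mst E I σ ξ) (hA : RN A)
    (j : ∀ q' ≤ q, ∀ η, Q.lad q'.1 q'.2 (some η) → ∃ q'' ≤ q', ∃ c, I c q'' ∧ A η c) :
    pos E σ (Sb A) q := by
  have h1 : ∀ᶠ x in mm K, ∀ z : Q.C × K, inn x z → ∃ w : Q.C, inn x w ∧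
      (z.1 ≤ q → Q.lad z.1.1 z.1.2 (some z.2) → w ≤ z.1 ∧ A z.2 (lift E σ x w)) :=
    skolem fun z => by
      by_cases l : z.1 ≤ q ∧ Q.lad z.1.1 z.1.2 (some z.2)
      · obtain ⟨q2, k1, c, k2, k3⟩ := j z.1 l.1 z.2 l.2
        obtain ⟨q3, k4, k5⟩ := lift_le h k k2
        exact ⟨q3, k5.mono fun x n _ _ => ⟨k4.trans k1, (hA z.2).1 _ _ k3 n⟩⟩
      · exact ⟨z.1, Eventually.of_forall fun _ n o => absurd ⟨n, o⟩ l⟩
  filter_upwards [E.ae, Sm.fine q, h1, lf_le (E := E) (r := σ.r) q] with x a1 a2 a3 a4 η d l n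
  refine (hA η).2 _ fun d' o => ?_
  have b0 := o.trans l
  obtain ⟨q1, b1, b2, b3, b4⟩ := a1.s5 q d'.1 (some η) a2 (b0.1.trans a4.1)
    (op_stem _ _ d d' n o)
  obtain ⟨w, b5, b6⟩ := a3 (q1, η) ⟨b1, It.stem_lt _ _ _ n⟩
  obtain ⟨b7, b8⟩ := b6 b2 b4
  obtain ⟨p', b9, b10⟩ := It.gl_mid _ _ _ _ _ b0.1 ((a1.s2 w q1 b5 b1 b7).trans b3)
  exact ⟨(p', d'.2), ⟨b9, RT.le_refl _ _⟩,
    (hA η).1 (lift E σ x w) _ b8 ⟨b10, RT.le.mono b0.2 b9⟩⟩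

end Pool.Agent.Lib.MP_491cc4_lc.Cx
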