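import Pool.Agent.Lib.MP_491cc4_lc.Cx.Det

set_option autoImplicit false
set_option linter.unusedSectionVars false

namespace Pool.Agent.Lib.MP_491cc4_lc.Cx

open Set Cardinal Filter Pool.Agent.Lib.MP_d4b40b_lc

variable (K : Type) [LinearOrder K] [WellFoundedLT K] [OrderBot K] [Lc K] [It K]

/-- a name of a normal ultrafilter on the names of level `β` -/
structure Sys where
  β : LL K
  mem : Nm K → TT K → Prop
  reg : ∀ A, NR β A → Reg (mem A) ∧ Det β (mem A)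
  top : ∀ c, mem (fun _ _ => True) c
  mono : ∀ A B c ζ, NR β A → NR β B → (∀ η, ζ < η → ∀ q ≤ c, A η q → B η q) → mem A c → mem B c
  ultra : ∀ A c, NR β A → ∃ c' ≤ c, mem A c' ∨ mem (cm A) c'
  diag : ∀ (I : Type) (ρ : I → K) (A : I → Nm K) c, (∀ ζ, #{i | ρ i ≤ ζ} < #K) →
    (∀ i, NR β (A i)) → (∀ i, mem (A i) c) → mem (fun η q => ∀ i, ρ i < η → A i η q) c
  ne : ∀ A c, NR β A → mem A c → ∃ c' ≤ c, ∃ η, A η c'

/-- raw Prikry conditions -/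
structure BR where
  c : TT K
  t : Finset K
  A : Nm K
  op : ∀ η, Op (A η)

variable {K}

def Sys.le (U U' : Sys K) : Prop := U.β ≤ U'.β ∧ ∀ A, NR U.β A → ∀ c, U.mem A c ↔ U'.mem A c

lemma Sys.le_refl (U : Sys K) : U.le U := ⟨le_rfl, fun _ _ _ => Iff.rfl⟩

lemma Sys.le.trans {U U' U'' : Sys K} (h : U.le U') (k : U'.le U'') : U.le U'' :=
  ⟨h.1.trans k.1, fun A j c => (h.2 A j c).trans (k.2 A (j.mono h.1) c)⟩

namespace Sys

variable {U : Sys K} {A B : Nm K} {c c' : TT K}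

lemma op (h : NR U.β A) (k : U.mem A c) (l : c' ≤ c) : U.mem A c' := (U.reg A h).1.1 _ _ k l

lemma mono' (h : NR U.β A) (k : NR U.β B) (j : ∀ η, ∀ q ≤ c, A η q → B η q) (l : U.mem A c) :
    U.mem B c := U.mono A B c ⊥ h k (fun η _ => j η) l

lemma tail (U : Sys K) (ζ : K) (c : TT K) : U.mem (fun η _ => ζ < η) c :=
  U.mono _ _ c ζ (nr_const _ fun _ => True) (nr_const _ _) (fun _ k _ _ _ => k) (U.top c)

/-- small intersections -/
lemma all {I : Type} (hI : #I < #K) {A : I → Nm K} (h : ∀ i, NR U.β (A i)) (k : ∀ i, U.mem (A i) c) :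
    U.mem (fun η q => ∀ i, A i η q) c :=
  U.mono _ _ c ⊥
    (fun η => ⟨Reg.all fun i => Reg.all fun _ : ⊥ < η => (h i η).1,
      Det.all fun i => Det.all fun _ : ⊥ < η => (h i η).2⟩)
    (NR.all h) (fun _ j _ _ l i => l i j)
    (U.diag I (fun _ => ⊥) A c (fun _ => (mk_set_le _).trans_lt hI) h k)

lemma inter (h : NR U.β A) (k : NR U.β B) (h' : U.mem A c) (k' : U.mem B c) :
    U.mem (fun η q => A η q ∧ B η q) c := by
  have h1 : ∀ i : Bool, NR U.β (cond i A B) := fun i => by cases i; exacts [k, h]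
  refine mono' (NR.all h1) (h.and k) (fun η q _ l => ⟨l true, l false⟩)
    (all (by simpa using (natCast_lt_aleph0 (n := 2)).trans_le (infK K)) h1 fun i => ?_)
  cases i
  exacts [k', h']

lemma not_both (h : NR U.β A) (k : U.mem A c) (j : U.mem (cm A) c) : False := by
  obtain ⟨q, -, η, h1, h2⟩ := U.ne _ c (h.and h.cm) (inter h h.cm k j)
  exact h2 q le_rfl h1

/-- a name which is large below a Boolean value extends to a large name -/
lemma mem_imp {a : TT K → Prop} (h1 : Det U.β a) (h2 : Op a) (h : NR U.β A)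
    (k : ∀ q ≤ c, a q → U.mem A q) : U.mem (fun η c => ∀ q ≤ c, a q → A η q) c := by
  refine (U.reg _ (NR.imp h1 h2 h)).1.2 c fun q l => ?_
  obtain ⟨r, n, o | o⟩ := dec a q
  · exact ⟨r, n, mono' h (NR.imp h1 h2 h) (fun η _ _ j _ u _ => (h η).1.1 _ _ j u)
      (k r (n.trans l) o)⟩
  · exact ⟨r, n, mono' (nr_const _ fun _ => True) (NR.imp h1 h2 h)
      (fun _ _ j _ s u v => absurd v (o s (u.trans j))) (U.top r)⟩

end Sys

/-- end extension -/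
def EE (t' t : Finset K) : Prop := t ⊆ t' ∧ ∀ η ∈ t', η ∉ t → ∀ ζ ∈ t, ζ < η

lemma EE.refl (t : Finset K) : EE t t := ⟨Finset.Subset.rfl, fun _ h k => absurd h k⟩

lemma EE.trans {t'' t' t : Finset K} (h : EE t'' t') (k : EE t' t) : EE t'' t :=
  ⟨k.1.trans h.1, fun η j l ζ n => by
    by_cases o : η ∈ t'
    · exact k.2 η o l ζ n
    · exact h.2 η j o ζ (k.1 n)⟩

lemma EE.total {t t1 t2 : Finset K} (h : EE t t1) (k : EE t t2) (l : t1.card ≤ t2.card) :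
    EE t2 t1 := by
  refine ⟨fun ζ j => by_contra fun n => ?_, fun η j n => h.2 η (k.1 j) n⟩
  refine absurd (Finset.card_lt_card ⟨fun η o => by_contra fun u => ?_, fun o => n (o j)⟩)
    (not_lt.2 l)
  exact absurd (h.2 η (k.1 o) u ζ j) (not_lt.2 (k.2 ζ (h.1 j) n η o).le)

lemma EE.mem {t t1 : Finset K} (h : EE t t1) {η ζ : K} (h1 : η ∈ t) (h2 : ζ ∈ t1) (h3 : η ≤ ζ) :
    η ∈ t1 := by_contra fun k => absurd (h.2 η h1 k ζ h2) (not_lt.2 h3)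

instance : Preorder (BR K) where
  le b' b := b'.c ≤ b.c ∧ EE b'.t b.t ∧ (∀ η ∈ b'.t, η ∉ b.t → b.A η b'.c) ∧
    ∀ η, (∀ ζ ∈ b'.t, ζ < η) → ∀ q ≤ b'.c, b'.A η q → b.A η q
  le_refl b := ⟨le_rfl, EE.refl _, fun _ h k => absurd h k, fun _ _ _ _ h => h⟩
  le_trans b'' b' b h k := ⟨h.1.trans k.1, h.2.1.trans k.2.1, fun η j l => by
      by_cases o : η ∈ b'.t
      · exact b.op η _ _ (k.2.2.1 η o l) h.1
      · exact k.2.2.2 η (h.2.1.2 η j o) _ h.1 (h.2.2.1 η j o),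
    fun η j q l n => k.2.2.2 η (fun ζ o => j ζ (h.2.1.1 o)) q (l.trans h.1) (h.2.2.2 η j q l n)⟩

lemma BR.le_iff {b' b : BR K} : b' ≤ b ↔ b'.c ≤ b.c ∧ EE b'.t b.t ∧
    (∀ η ∈ b'.t, η ∉ b.t → b.A η b'.c) ∧
    ∀ η, (∀ ζ ∈ b'.t, ζ < η) → ∀ q ≤ b'.c, b'.A η q → b.A η q := Iff.rfl

/-- conditions of level `β` -/
def Lev (β : LL K) (b : BR K) : Prop := Sp β b.c ∧ NR β b.A

lemma Lev.mono {β γ : LL K} {b : BR K} (h : Lev β b) (k : β ≤ γ) : Lev γ b :=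
  ⟨h.1.mono k, h.2.mono k⟩

def Mem (U : Sys K) (b : BR K) : Prop := Lev U.β b ∧ U.mem b.A b.c

lemma Mem.mono {U U' : Sys K} {b : BR K} (h : Mem U b) (k : U.le U') : Mem U' b :=
  ⟨h.1.mono k.1, (k.2 _ h.1.2 _).1 h.2⟩

/-- Prikry forcing with `U` -/
abbrev BB (U : Sys K) : Type := {b : BR K // Mem U b}

namespace BB

variable {U : Sys K}

/-- the first coordinate -/
abbrev p (b : BB U) : PP K := b.1.c.1

lemma p_le {b' b : BB U} (h : b' ≤ b) : b'.p ≤ b.p := h.1.1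

/-- a condition from its data -/
def mk' (c : TT K) (t : Finset K) (A : Nm K) (h1 : Sp U.β c) (h2 : NR U.β A) (h3 : U.mem A c) :
    BB U := ⟨⟨c, t, A, fun η => (h2 η).1.1⟩, ⟨h1, h2⟩, h3⟩

/-- the weakest condition with given first part and stem -/
def full (U : Sys K) (c : TT K) (h : Sp U.β c) (t : Finset K) : BB U :=
  mk' c t (fun _ _ => True) h (nr_const _ fun _ => True) (U.top c)

lemma le_full {c : TT K} (h : Sp U.β c) {t : Finset K} {b : BR K} (h1 : b.c ≤ c) (h2 : EE b.t t) :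
    b ≤ (full U c h t).1 := ⟨h1, h2, fun _ _ _ => trivial, fun _ _ _ _ _ => trivial⟩

instance : OrderTop (BB U) where
  top := full U ⊤ (sp_top _ _) ∅
  le_top _ := le_full (sp_top _ _) le_top ⟨Finset.empty_subset _, fun _ _ _ _ h => by simp at h⟩

/-- strengthen the first part -/
def rc (b : BB U) (c : TT K) (h : c ≤ b.1.c) (k : Sp U.β c) : BB U :=
  mk' c b.1.t b.1.A k b.2.1.2 (Sys.op b.2.1.2 b.2.2 h)

lemma rc_le (b : BB U) (c : TT K) (h : c ≤ b.1.c) (k : Sp U.β c) : b.rc c h k ≤ b :=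
  ⟨h, EE.refl _, fun _ j l => absurd j l, fun _ _ _ _ j => j⟩

/-- strengthen the first coordinate -/
def rp (b : BB U) (p : PP K) (h : p ≤ b.p) : BB U :=
  b.rc (p, b.1.c.2) ⟨h, RT.le_refl _ _⟩ b.2.1.1

lemma rp_le (b : BB U) (p : PP K) (h : p ≤ b.p) : b.rp p h ≤ b := rc_le _ _ _ _

lemma le_rp {b' : BR K} {b : BB U} {p : PP K} (h : p ≤ b.p) (k : b' ≤ b.1) (l : b'.c.1 ≤ p) :
    b' ≤ (b.rp p h).1 := ⟨⟨l, k.1.2⟩, k.2⟩

/-- shrink the large set -/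
lemma shrink (b : BB U) {H : Nm K} (h : NR U.β H) (k : U.mem H b.1.c) :
    ∃ b' ≤ b, b'.1.c = b.1.c ∧ b'.1.t = b.1.t ∧ ∀ η q, b'.1.A η q → H η q :=
  ⟨mk' b.1.c b.1.t (fun η q => b.1.A η q ∧ H η q) b.2.1.1 (b.2.1.2.and h)
    (Sys.inter b.2.1.2 h b.2.2 k),
    ⟨le_rfl, EE.refl _, fun _ j l => absurd j l, fun _ _ _ _ j => j.1⟩, rfl, rfl, fun _ _ j => j.2⟩

/-- one more point -/
lemma step (b : BB U) (ζ : K) : ∃ b' ≤ b, ∃ η, ζ < η ∧ (∀ ζ ∈ b.1.t, ζ < η) ∧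
    b'.1.t = insert η b.1.t ∧ b'.1.A = b.1.A := by
  obtain ⟨q, h1, η, h2, h3⟩ := U.ne _ _ (b.2.1.2.and (nr_const _ fun η => max ζ (b.1.t.sup id) < η))
    (Sys.inter b.2.1.2 (nr_const _ fun η => max ζ (b.1.t.sup id) < η) b.2.2 (U.tail _ _))
  have h4 : ∀ ξ ∈ b.1.t, ξ < η := fun ξ j =>
    ((Finset.le_sup (f := id) j).trans (le_max_right ζ _)).trans_lt h3
  have h5 : cutT U.β q ≤ b.1.c := cutT_le h1 b.2.1.1
  refine ⟨mk' (cutT U.β q) (insert η b.1.t) b.1.A (sp_cut _ _) b.2.1.2 (Sys.op b.2.1.2 b.2.2 h5),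
    ⟨h5, ⟨Finset.subset_insert _ _, fun ξ j l => ?_⟩, fun ξ j l => ?_, fun _ _ _ _ j => j⟩, η,
    (le_max_left _ _).trans_lt h3, h4, rfl, rfl⟩
  · exact ((Finset.mem_insert.1 j).resolve_right l).symm ▸ h4
  · exact ((Finset.mem_insert.1 j).resolve_right l).symm ▸ ((b.2.1.2 η).2 q).1 h2

lemma long (b : BB U) (n : ℕ) : ∃ b' ≤ b, n ≤ b'.1.t.card := by
  induction n with
  | zero => exact ⟨b, le_rfl, Nat.zero_le _⟩
  | succ n ih =>
    obtain ⟨b1, h1, h2⟩ := ih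
    obtain ⟨b2, h3, η, -, h4, h5, -⟩ := b1.step ⊥
    refine ⟨b2, h3.trans h1, ?_⟩
    rw [h5, Finset.card_insert_of_notMem fun j => lt_irrefl _ (h4 η j)]
    exact Nat.succ_le_succ h2

/-- normal form with trivial first coordinate -/
lemma norm (b : BB U) : ∃ b' : BB U, ∃ h : b'.p = ⊤, b'.1.c.2 = b.1.c.2 ∧ b'.1.t = b.1.t ∧
    b ≤ b' ∧ b'.rp b.p (h ▸ le_top) ≤ b := by
  have h1 : Det U.β fun q : TT K => q.1 ≤ b.p := det_fst _ fun p => p ≤ b.p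
  have h2 : Op fun q : TT K => q.1 ≤ b.p := fun _ _ j l => l.1.trans j
  refine ⟨mk' (⊤, b.1.c.2) b.1.t (fun η c => ∀ q ≤ c, q.1 ≤ b.p → b.1.A η q) b.2.1.1
    (NR.imp h1 h2 b.2.1.2) (Sys.mem_imp h1 h2 b.2.1.2 fun q j l =>
      Sys.op b.2.1.2 b.2.2 ⟨l, j.2⟩), rfl, rfl, rfl,
    ⟨⟨le_top, RT.le_refl _ _⟩, EE.refl _, fun _ j l => absurd j l,
      fun η _ _ _ j _ l _ => b.1.op η _ _ j l⟩,
    ⟨⟨le_rfl, RT.le_refl _ _⟩, EE.refl _, fun _ j l => absurd j l,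
      fun _ _ q l j => j q le_rfl l.1⟩⟩

end BB

theorem mk_Lev (γ : LL K) : #{b : BR K | Lev γ b} < #(LL K) := by
  have : Infinite K := infinite_iff.2 (infK K)
  have h : #{b : BR K | Lev γ b} ≤ #({c : TT K | Sp γ c} × Finset K × {A : Nm K | NR γ A}) :=
    mk_le_of_injective (f := fun b => (⟨b.1.c, b.2.1⟩, b.1.t, ⟨b.1.A, b.2.2⟩))
      fun ⟨⟨_, _, _, _⟩, _⟩ ⟨⟨_, _, _, _⟩, _⟩ k => by
        simp only [Prod.mk.injEq, Subtype.mk.injEq] at k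
        obtain ⟨rfl, rfl, rfl⟩ := k
        rfl
  refine h.trans_lt ?_
  simp only [mk_prod, lift_id, mk_finset_of_infinite]
  exact mul_lt_of_lt (infL K) (mk_Sp' γ) (mul_lt_of_lt (infL K) Lc.KL (mk_NR γ))

theorem mk_BB (U : Sys K) : #(BB U) < #(LL K) :=
  (mk_le_mk_of_subset (s := {b | Mem U b}) fun _ h => h.1).trans_lt (mk_Lev U.β)

end Pool.Agent.Lib.MP_491cc4_lc.Cx
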