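import Pool.Agent.Lib.MP_491cc4_lc.Cx.Sh

set_option autoImplicit false
set_option linter.unusedSectionVars false

namespace Pool.Agent.Lib.MP_491cc4_lc.Cx

open Set Cardinal Filter Pool.Agent.Lib.MP_d4b40b_lc

variable (K : Type) [LinearOrder K] [WellFoundedLT K] [OrderBot K] [Lc K] [It K]

/-- raw terms: names of functions on a rectangle -/
structure RT where
  a : Set (LL K)
  small : #a < #K
  g : K
  val : LL K → K → Bool × LL K → PP K → Prop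
  reg : ∀ ξ η v, Reg (val ξ η v)
  fn : ∀ ξ η v v' p, val ξ η v p → val ξ η v' p → v = v'
  dom : ∀ ξ η v p, val ξ η v p → ξ ∈ a ∧ η < g ∧ v.2 ≤ ξ
  tot : ∀ ξ ∈ a, ∀ η < g, ∀ p, ∃ p' ≤ p, ∃ v, val ξ η v p'

variable {K}

namespace RT

def le (p : PP K) (τ' τ : RT K) : Prop :=
  τ.a ⊆ τ'.a ∧ τ.g ≤ τ'.g ∧ ∀ ξ η v, ∀ p' ≤ p, τ.val ξ η v p' → τ'.val ξ η v p'

/-- restriction to the coordinates below `β` -/
def cut (β : LL K) (τ : RT K) : RT K where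
  a := τ.a ∩ Iio β
  small := (mk_le_mk_of_subset inter_subset_left).trans_lt τ.small
  g := τ.g
  val ξ η v p := ξ < β ∧ τ.val ξ η v p
  reg ξ η v := (reg_const _).and (τ.reg ξ η v)
  fn ξ η v v' p h k := τ.fn ξ η v v' p h.2 k.2
  dom ξ η v p h := ⟨⟨(τ.dom ξ η v p h.2).1, h.1⟩, (τ.dom ξ η v p h.2).2⟩
  tot ξ h η k p := (τ.tot ξ h.1 η k p).imp fun _ j => ⟨j.1, j.2.imp fun _ l => ⟨h.2, l⟩⟩

variable {p p' : PP K} {τ τ' τ'' σ : RT K} {β : LL K}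

lemma ext' (h1 : τ.a = σ.a) (h2 : τ.g = σ.g) (h3 : τ.val = σ.val) : τ = σ := by
  cases τ; cases σ; cases h1; cases h2; cases h3; rfl

lemma le_refl (p : PP K) (τ : RT K) : le p τ τ := ⟨Subset.rfl, le_rfl, fun _ _ _ _ _ h => h⟩

lemma le.trans (h : le p τ'' τ') (k : le p τ' τ) : le p τ'' τ :=
  ⟨k.1.trans h.1, k.2.1.trans h.2.1, fun ξ η v q l j => h.2.2 ξ η v q l (k.2.2 ξ η v q l j)⟩

lemma le.mono (h : le p τ' τ) (k : p' ≤ p) : le p' τ' τ :=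
  ⟨h.1, h.2.1, fun ξ η v q l => h.2.2 ξ η v q (l.trans k)⟩

lemma reg_le (τ' τ : RT K) : Reg fun p => le p τ' τ :=
  (reg_const _).and ((reg_const _).and (Reg.all fun ξ => Reg.all fun η => Reg.all fun v =>
    Reg.imp (τ.reg ξ η v).1 (τ'.reg ξ η v)))

lemma le.val (h : le p τ' τ) {ξ : LL K} {η : K} {v : Bool × LL K} (h1 : ξ ∈ τ.a) (h2 : η < τ.g)
    (h3 : p' ≤ p) (h4 : τ'.val ξ η v p') : τ.val ξ η v p' :=
  (τ.reg ξ η v).2 _ fun q l => by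
    obtain ⟨r, k1, v', k2⟩ := τ.tot ξ h1 η h2 q
    exact ⟨r, k1, τ'.fn ξ η v' v r (h.2.2 ξ η v' r ((k1.trans l).trans h3) k2)
      ((τ'.reg ξ η v).1 _ _ h4 (k1.trans l)) ▸ k2⟩

lemma le_cut (p : PP K) (β : LL K) (τ : RT K) : le p τ (τ.cut β) :=
  ⟨inter_subset_left, le_rfl, fun _ _ _ _ _ h => h.2⟩

lemma le.cut (h : le p τ' τ) (β : LL K) : le p (τ'.cut β) (τ.cut β) :=
  ⟨inter_subset_inter_left _ h.1, h.2.1, fun ξ η v q l j => ⟨j.1, h.2.2 ξ η v q l j.2⟩⟩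

lemma cut_self (h : τ.a ⊆ Iio β) : τ.cut β = τ :=
  ext' (inter_eq_left.2 h) rfl (by
    funext ξ η v p
    exact propext ⟨fun k => k.2, fun k => ⟨h (τ.dom ξ η v p k).1, k⟩⟩)

lemma cut_cut {γ : LL K} (h : γ ≤ β) (τ : RT K) : (τ.cut β).cut γ = τ.cut γ :=
  ext' (by ext ξ; exact ⟨fun k => ⟨k.1.1, k.2⟩, fun k => ⟨⟨k.1, k.2.trans_le h⟩, k.2⟩⟩) rfl (by
    funext ξ η v p
    exact propext ⟨fun k => ⟨k.1, k.2.2⟩, fun k => ⟨k.1, k.1.trans_le h, k.2⟩⟩)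

lemma le.cut' (h : le p τ σ) (k : σ.a ⊆ Iio β) : le p (τ.cut β) σ := cut_self k ▸ h.cut β

end RT

/-- few raw terms have a given bounded support -/
theorem mk_RT {B : Set (LL K)} (hB : Bg B) (hK : #K < #B) {γ : LL K} (hγ : γ ∈ B) :
    #{τ : RT K | τ.a ⊆ Iio γ} < #B := by
  have h1 := hB.init γ hγ
  have h2 : (2 : Cardinal.{0}) < #B := (natCast_lt_aleph0 (n := 2)).trans_le hB.inf
  have h3 : ∀ A : Type, #A < #B → #(Set A) < #B := fun A h => by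
    rw [mk_set]; exact inacc_pow_lt hB.inac h2 h
  have h4 : #(Set (Iio γ) × K × Set (Iio γ × K × (Bool × Iio γ) × PP K)) < #B :=
    mk_prod_lt' hB.inf (h3 _ h1) (mk_prod_lt' hB.inf hK (h3 _ (mk_prod_lt' hB.inf h1
      (mk_prod_lt' hB.inf hK (mk_prod_lt' hB.inf (mk_prod_lt' hB.inf (by simpa using h2) h1)
        (mkP.trans_lt hK))))))
  refine lt_of_le_of_lt (mk_le_of_injective (f := fun τ => ({x | x.1 ∈ τ.1.a}, τ.1.g,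
    {y | τ.1.val y.1.1 y.2.1 (y.2.2.1.1, y.2.2.1.2.1) y.2.2.2})) fun τ σ e => ?_) h4
  simp only [Prod.mk.injEq, Set.ext_iff, mem_ofPred] at e
  obtain ⟨e1, e2, e3⟩ := e
  refine Subtype.ext (RT.ext' (Set.ext fun ξ => ⟨fun k => (e1 ⟨ξ, τ.2 k⟩).1 k,
    fun k => (e1 ⟨ξ, σ.2 k⟩).2 k⟩) e2 ?_)
  funext ξ η v p
  refine propext ⟨fun k => ?_, fun k => ?_⟩
  · have j := τ.1.dom ξ η v p k
    exact (e3 (⟨ξ, τ.2 j.1⟩, η, (v.1, ⟨v.2, j.2.2.trans_lt (τ.2 j.1)⟩), p)).1 k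
  · have j := σ.1.dom ξ η v p k
    exact (e3 (⟨ξ, σ.2 j.1⟩, η, (v.1, ⟨v.2, j.2.2.trans_lt (σ.2 j.1)⟩), p)).2 k

variable (K) in
theorem exists_bk : ∃ bk : LL K → Set (K × PP K × RT K), ∀ (β : LL K) (S : Set (K × PP K × RT K)),
    (∀ y ∈ S, y.2.2.a ⊆ Iio β) → ∀ γ, ∃ ξ, γ ≤ ξ ∧ bk ξ = S := by
  have h0 : ∀ β : LL K, #{τ : RT K | τ.a ⊆ Iio β} < #(LL K) := fun β =>
    mk_univ (α := LL K) ▸ mk_RT Lc.bgL (by rw [mk_univ]; exact Lc.KL) (mem_univ β)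
  have h1 : ∀ β : LL K, #{y : K × PP K × RT K | y.2.2.a ⊆ Iio β} < #(LL K) := fun β => by
    refine lt_of_le_of_lt (mk_le_mk_of_subset (t := (univ : Set K) ×ˢ ((univ : Set (PP K)) ×ˢ
      {τ : RT K | τ.a ⊆ Iio β})) fun y h => ⟨trivial, trivial, h⟩) ?_
    exact mk_sprod_lt' (infL K) (by rw [mk_univ]; exact Lc.KL) (mk_sprod_lt' (infL K)
      (by rw [mk_univ]; exact mkP.trans_lt Lc.KL) (h0 β))
  have h2 : #(⋃ β : LL K, 𝒫 {y : K × PP K × RT K | y.2.2.a ⊆ Iio β}) ≤ #(LL K) :=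
    mk_iUnion_le' (infL K) le_rfl fun β => by
      rw [mk_powerset]
      exact (inacc_pow_lt (inacL K) ((natCast_lt_aleph0 (n := 2)).trans_le (infL K)) (h1 β)).le
  obtain ⟨e⟩ := (Cardinal.le_def _ _).1 (mk_prod_le' (infL K) h2 (le_refl #(LL K)))
  refine ⟨Function.extend e (fun z => z.1.1) fun _ => ∅, fun β S hS γ => ?_⟩
  have h3 : S ∈ ⋃ β : LL K, 𝒫 {y : K × PP K × RT K | y.2.2.a ⊆ Iio β} := mem_iUnion.2 ⟨β, hS⟩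
  by_contra h4
  refine absurd (mk_le_of_injective (f := fun l => (⟨e (⟨S, h3⟩, l), not_le.1 fun k =>
    h4 ⟨_, k, e.injective.extend_apply _ _ _⟩⟩ : Iio γ)) fun l l' k => ?_) (not_le.2 (iioL γ))
  exact congrArg Prod.snd (e.injective (congrArg Subtype.val k))

variable (K) in
/-- the bookkeeping -/
noncomputable def bk : LL K → Set (K × PP K × RT K) := (exists_bk K).choose

/-- `δ` carries a ladder none of whose points has the bit `false` -/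
def Tr (ξ : LL K) (δ : K) (τ : RT K) (p : PP K) : Prop :=
  stem δ none p ∧ ∀ p' ≤ p, ∀ η v, stem δ (some η) p' → ¬ τ.val ξ η (false, v) p'

/-- `δ` is put into the set listed at `ξ` -/
def Frc (ξ : LL K) (δ : K) (τ : RT K) : PP K → Prop :=
  hull fun p => ∃ p0 σ, (δ, p0, σ) ∈ bk K ξ ∧ p ≤ p0 ∧ σ.a ⊆ Iio ξ ∧ RT.le p τ σ

def Valid (τ : RT K) : Prop := ∀ ξ ∈ τ.a, ∀ δ ≤ τ.g, ∀ p, Tr ξ δ τ p → Frc ξ δ τ p

variable (K) in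
/-- terms -/
def Tm : Type := {τ : RT K // Valid τ}

lemma op_Tr (ξ : LL K) (δ : K) (τ : RT K) : Op (Tr ξ δ τ) :=
  fun _ _ h l => ⟨(It.stem_reg δ none).1 _ _ h.1 l, fun r k => h.2 r (k.trans l)⟩

lemma Frc.mono {ξ : LL K} {δ : K} {τ τ' : RT K} {p : PP K} (h : Frc ξ δ τ p) (k : RT.le p τ' τ) :
    Frc ξ δ τ' p := hull.imp h fun q l ⟨p0, σ, k1, k2, k3, k4⟩ =>
  ⟨q, le_rfl, p0, σ, k1, k2, k3, (k.mono l).trans k4⟩

lemma valid_of {τ : RT K}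
    (h : ∀ ξ ∈ τ.a, ∀ δ ≤ τ.g, ∀ p, Tr ξ δ τ p → ∃ p' ≤ p, Frc ξ δ τ p') : Valid τ :=
  fun ξ k δ l _ j => reg_hull.2 _ fun q n => h ξ k δ l q (op_Tr _ _ _ _ _ j n)

lemma Valid.frc {σ τ : RT K} (h : Valid σ) {p : PP K} (k : RT.le p τ σ) {ξ : LL K} {δ : K}
    (h1 : ξ ∈ σ.a) (h2 : δ ≤ σ.g) (h3 : Tr ξ δ τ p) : Frc ξ δ τ p :=
  (h ξ h1 δ h2 p ⟨h3.1, fun q l η v j n => h3.2 q l η v j (k.2.2 _ _ _ q l n)⟩).mono k

lemma Tr.not {τ : RT K} {p : PP K} {ξ : LL K} {δ η0 : K} (h : Tr ξ δ τ p) (h1 : ξ ∈ τ.a)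
    (h2 : δ ≤ τ.g) (h3 : η0 < δ)
    (h4 : ∀ η, η0 < η → η < δ → ∀ p' ≤ p, ∀ v, ¬ τ.val ξ η (true, v) p') : False := by
  obtain ⟨q, k1, η, k2, k3⟩ := It.stem_unb δ p h.1 η0 h3
  have k4 := It.stem_lt _ _ _ k3
  obtain ⟨r, k5, ⟨b, v⟩, k6⟩ := τ.tot ξ h1 η (k4.trans_le h2) q
  cases b
  · exact h.2 r (k5.trans k1) η v ((It.stem_reg _ _).1 _ _ k3 k5) k6
  · exact h4 η k2 k4 r (k5.trans k1) v k6

lemma Tr.bot_lt {τ : RT K} {p : PP K} {ξ : LL K} {δ : K} (h : Tr ξ δ τ p) : ⊥ < δ :=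
  (Lc.Y_bg _ (It.stem_Y _ _ _ h.1)).ne.elim fun _ k => bot_le.trans_lt k

lemma Valid.cut {τ : RT K} (h : Valid τ) (β : LL K) : Valid (τ.cut β) := fun ξ k δ l p j =>
  hull.imp (h ξ k.1 δ l p ⟨j.1, fun q n η v o s => j.2 q n η v o ⟨k.2, s⟩⟩)
    fun q _ ⟨p0, σ, k1, k2, k3, k4⟩ =>
      ⟨q, le_rfl, p0, σ, k1, k2, k3, k4.cut' (k3.trans (Iio_subset_Iio (le_of_lt k.2)))⟩

/-- completing a name of a function on a part of the rectangle by default values -/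
theorem exists_mk (a : Set (LL K)) (ha : #a < #K) (g : K) (dv : LL K → LL K) (hd : ∀ ξ, dv ξ ≤ ξ)
    (f : LL K → K → Bool × LL K → PP K → Prop) (h1 : ∀ ξ η v, Op (f ξ η v))
    (h2 : ∀ ξ η v v' p, f ξ η v p → f ξ η v' p → v = v') (h3 : ∀ ξ η v p, f ξ η v p → v.2 ≤ ξ) :
    ∃ τ : RT K, τ.a = a ∧ τ.g = g ∧ (∀ ξ ∈ a, ∀ η < g, ∀ v p, f ξ η v p → τ.val ξ η v p) ∧
      (∀ ξ ∈ a, ∀ η < g, ∀ p, ng (fun p => ∃ v, f ξ η v p) p → τ.val ξ η (false, dv ξ) p) ∧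
      ∀ ξ η v p, τ.val ξ η v p → ∃ p' ≤ p, f ξ η v p' ∨ v = (false, dv ξ) := by
  have ho : ∀ ξ η v, Op fun p => f ξ η v p ∨ (v = (false, dv ξ) ∧ ng (fun p => ∃ v, f ξ η v p) p) :=
    fun ξ η v => (h1 ξ η v).or ((op_const _).and op_ng)
  refine ⟨⟨a, ha, g, fun ξ η v p => ξ ∈ a ∧ η < g ∧ hull (fun p => f ξ η v p ∨
      (v = (false, dv ξ) ∧ ng (fun p => ∃ v, f ξ η v p) p)) p,
    fun ξ η v => (reg_const _).and ((reg_const _).and reg_hull), fun ξ η v v' p h k => ?_,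
    fun ξ η v p h => ⟨h.1, h.2.1, ?_⟩, fun ξ h η k p => ?_⟩, rfl, rfl,
    fun ξ h η k v p j => ⟨h, k, (ho ξ η v).hull (Or.inl j)⟩,
    fun ξ h η k p j => ⟨h, k, (ho ξ η _).hull (Or.inr ⟨rfl, j⟩)⟩,
    fun ξ η v p h => (h.2.2 p le_rfl).imp fun _ k => ⟨k.1, k.2.imp_right And.left⟩⟩
  · obtain ⟨q, k1, k2⟩ := h.2.2 p le_rfl
    obtain ⟨r, k3, k4⟩ := k.2.2 q k1
    rcases ho ξ η v _ _ k2 k3 with k5 | k5 <;> rcases k4 with k4 | k4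
    · exact h2 ξ η v v' r k5 k4
    · exact (k4.2 r le_rfl ⟨v, k5⟩).elim
    · exact (k5.2 r le_rfl ⟨v', k4⟩).elim
    · exact k5.1.trans k4.1.symm
  · obtain ⟨q, -, k2 | k2⟩ := h.2.2 p le_rfl
    · exact h3 ξ η v q k2
    · exact k2.1 ▸ hd ξ
  · obtain ⟨q, k1, ⟨v, k2⟩ | k2⟩ := dec (fun p => ∃ v, f ξ η v p) p
    · exact ⟨q, k1, v, h, k, (ho ξ η v).hull (Or.inl k2)⟩
    · exact ⟨q, k1, _, h, k, (ho ξ η _).hull (Or.inr ⟨rfl, k2⟩)⟩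

/-- amalgamation of a family of terms along a name -/
theorem exists_amal {J : Type} (S : J → PP K → Prop) (τ : J → Tm K) (a : Set (LL K)) (ha : #a < #K)
    (g : K) (dv : LL K → LL K) (hd : ∀ ξ, dv ξ ≤ ξ) (h1 : ∀ j, Op (S j))
    (h2 : ∀ i j p ξ η v v', S i p → S j p → (τ i).1.val ξ η v p → (τ j).1.val ξ η v' p → v = v')
    (h3 : ∀ j p, S j p → (τ j).1.a ⊆ a ∧ (τ j).1.g ≤ g)
    (h4 : ∀ ξ ∈ a, ∀ δ ≤ g, δ ∈ YY K → ∀ p, ∃ p' ≤ p, (∃ j, S j p' ∧ ξ ∈ (τ j).1.a ∧ δ ≤ (τ j).1.g) ∨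
      ∃ η0 < δ, ∀ q ≤ p', ∀ j, S j q → ξ ∈ (τ j).1.a → (τ j).1.g ≤ η0) :
    ∃ σ : Tm K, σ.1.a = a ∧ σ.1.g = g ∧ (∀ j p, S j p → RT.le p σ.1 (τ j).1) ∧
      ∀ ξ ∈ a, ∀ η < g, (∀ j p, S j p → ξ ∈ (τ j).1.a → (τ j).1.g ≤ η) →
        ∀ p, σ.1.val ξ η (false, dv ξ) p := by
  obtain ⟨σ, e1, e2, k1, k2, k3⟩ := exists_mk a ha g dv hd
    (fun ξ η v p => ∃ j, S j p ∧ (τ j).1.val ξ η v p)
    (fun ξ η v => Op.ex fun j => (h1 j).and ((τ j).1.reg ξ η v).1)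
    (fun ξ η v v' p ⟨i, l1, l2⟩ ⟨j, l3, l4⟩ => h2 i j p ξ η v v' l1 l3 l2 l4)
    (fun ξ η v p ⟨j, _, l⟩ => ((τ j).1.dom ξ η v p l).2.2)
  have k4 : ∀ j p, S j p → RT.le p σ (τ j).1 := fun j p l =>
    ⟨e1 ▸ (h3 j p l).1, e2 ▸ (h3 j p l).2, fun ξ η v q n o =>
      k1 ξ ((h3 j p l).1 ((τ j).1.dom ξ η v q o).1) η
        (((τ j).1.dom ξ η v q o).2.1.trans_le (h3 j p l).2) v q ⟨j, h1 j _ _ l n, o⟩⟩
  refine ⟨⟨σ, valid_of fun ξ l δ n p o => ?_⟩, e1, e2, k4, fun ξ l η n o p =>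
    k2 ξ l η n p fun q _ ⟨v, j, s, t⟩ => absurd ((τ j).1.dom ξ η v q t).2.1
      (not_lt.2 (o j q s ((τ j).1.dom ξ η v q t).1))⟩
  obtain ⟨q, l1, ⟨j, l2, l3, l4⟩ | ⟨η0, l2, l3⟩⟩ :=
    h4 ξ (e1 ▸ l) δ (e2 ▸ n) (It.stem_Y _ _ _ o.1) p
  · exact ⟨q, l1, (τ j).2.frc (k4 j q l2) l3 l4 (op_Tr _ _ _ _ _ o l1)⟩
  · refine ((op_Tr _ _ _ _ _ o l1).not l n l2 fun η s _ r t v u => ?_).elim
    obtain ⟨r', u1, ⟨j, u2, u3⟩ | u2⟩ := k3 ξ η _ r u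
    · have := (τ j).1.dom ξ η _ r' u3
      exact absurd (s.trans this.2.1) (not_lt.2 (l3 r' (u1.trans t) j u2 this.1))
    · cases u2

lemma alt (τ : RT K) (ξ : LL K) {δ : K} (h : δ ∈ YY K) :
    (ξ ∈ τ.a ∧ δ ≤ τ.g) ∨ ∃ η0 < δ, ξ ∈ τ.a → τ.g ≤ η0 := by
  by_cases k : ξ ∈ τ.a
  · exact (le_or_gt δ τ.g).imp (fun l => ⟨k, l⟩) fun l => ⟨_, l, fun _ => le_rfl⟩
  · exact Or.inr ((Lc.Y_bg _ h).ne.imp fun _ l => ⟨l, fun n => absurd n k⟩)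

/-- enlarging the rectangle of a term -/
lemma Tm.grow (τ : Tm K) (a : Set (LL K)) (ha : #a < #K) (hs : τ.1.a ⊆ a) (g : K) (hg : τ.1.g ≤ g)
    (dv : LL K → LL K) (hd : ∀ ξ, dv ξ ≤ ξ) :
    ∃ σ : Tm K, σ.1.a = a ∧ σ.1.g = g ∧ (∀ p, RT.le p σ.1 τ.1) ∧
      ∀ ξ ∈ a, ∀ η < g, τ.1.g ≤ η → ∀ p, σ.1.val ξ η (false, dv ξ) p := by
  obtain ⟨σ, h1, h2, h3, h4⟩ := exists_amal (J := Unit) (fun _ _ => True) (fun _ => τ) a ha g dv hd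
    (fun _ => op_const _) (fun _ _ p ξ η v v' _ _ => τ.1.fn ξ η v v' p) (fun _ _ _ => ⟨hs, hg⟩)
    fun ξ _ δ _ l p => ⟨p, le_rfl, (alt τ.1 ξ l).imp (fun n => ⟨(), trivial, n⟩)
      fun ⟨η0, n, o⟩ => ⟨η0, n, fun _ _ _ _ => o⟩⟩
  exact ⟨σ, h1, h2, fun p => h3 () p trivial, fun ξ l η n o => h4 ξ l η n fun _ _ _ _ => o⟩

theorem Tm.fill (τ : Tm K) (s : Set (LL K)) (hs : #s < #K) (h : K) (k : τ.1.g ≤ h) :
    ∃ σ : Tm K, σ.1.a = τ.1.a ∪ s ∧ σ.1.g = h ∧ ∀ p, RT.le p σ.1 τ.1 := by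
  exact (τ.grow (τ.1.a ∪ s) (mk_union_lt' (infK K) τ.1.small hs) subset_union_left h k
    (fun ξ => ξ) fun _ => le_rfl).imp fun _ j => ⟨j.1, j.2.1, j.2.2.1⟩

/-- the second coordinates collapse `ξ` -/
theorem Tm.col (τ : Tm K) {ξ ζ : LL K} (h : ζ ≤ ξ) : ∃ (σ : Tm K) (η : K), σ.1.a = insert ξ τ.1.a ∧
    (∀ p, RT.le p σ.1 τ.1) ∧ ∀ p, σ.1.val ξ η (false, ζ) p := by
  obtain ⟨g, hg⟩ := gtK τ.1.g
  obtain ⟨σ, h1, -, h2, h3⟩ := τ.grow (insert ξ τ.1.a)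
    (mk_insert_le.trans_lt (add_lt_of_lt (infK K) τ.1.small (one_lt_aleph0.trans_le (infK K))))
    (subset_insert _ _) g hg.le (fun ξ' => min ζ ξ') fun _ => min_le_right _ _
  exact ⟨σ, τ.1.g, h1, h2, fun p => min_eq_left h ▸ h3 ξ (mem_insert _ _) _ hg le_rfl p⟩

/-- mixing extensions of a term along a name -/
theorem Tm.mix {J : Type} (S : J → PP K → Prop) (τ : J → Tm K) (τ0 : Tm K) (h1 : ∀ j, Op (S j))
    (h2 : ∀ i j p, S i p → S j p → i = j) (h3 : ∀ j p, S j p → RT.le p (τ j).1 τ0.1) :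
    ∃ σ : Tm K, (∀ p, RT.le p σ.1 τ0.1) ∧ (∀ j p, S j p → RT.le p σ.1 (τ j).1) ∧
      ∀ ξ ∈ σ.1.a, ξ ∈ τ0.1.a ∨ ∃ j p, S j p ∧ ξ ∈ (τ j).1.a := by
  have k0 := It.cc (K := K) J S h1 h2
  obtain ⟨b, hb⟩ := boundK k0 fun j => (τ j).1.g
  obtain ⟨σ, e1, -, e2, -⟩ := exists_amal (J := Option J) (fun j p => ∀ i, j = some i → S i p)
    (fun j => j.elim τ0 τ) (τ0.1.a ∪ ⋃ j ∈ {i | ∃ p, S i p}, (τ j).1.a)
    (mk_union_lt' (infK K) τ0.1.small ((card_biUnion_lt_iff_forall_of_isRegular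
      (t := fun j _ => (τ j).1.a) (inacK K).isRegular k0).2 fun j _ => (τ j).1.small))
    (max b τ0.1.g) (fun ξ => ξ) (fun _ => le_rfl)
    (fun _ => Op.all fun i => Op.all fun _ => h1 i)
    (fun i j p ξ η v v' l1 l2 l3 l4 => by
      rcases i with _ | i <;> rcases j with _ | j
      · exact τ0.1.fn ξ η v v' p l3 l4
      · exact (τ j).1.fn ξ η v v' p ((h3 j p (l2 j rfl)).2.2 ξ η v p le_rfl l3) l4
      · exact (τ i).1.fn ξ η v v' p l3 ((h3 i p (l1 i rfl)).2.2 ξ η v' p le_rfl l4)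
      · obtain rfl := h2 i j p (l1 i rfl) (l2 j rfl)
        exact (τ i).1.fn ξ η v v' p l3 l4)
    (fun j p l => by
      rcases j with _ | j
      · exact ⟨subset_union_left, le_max_right _ _⟩
      · exact ⟨fun ξ n => Or.inr (mem_biUnion (x := j) ⟨p, l j rfl⟩ n),
          (hb j ⟨p, l j rfl⟩).le.trans (le_max_left _ _)⟩)
    (fun ξ _ δ _ l p => by
      obtain ⟨q, l1, ⟨j, l2⟩ | l2⟩ := dec (fun p => ∃ j, S j p) p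
      · refine ⟨q, l1, (alt (τ j).1 ξ l).imp (fun n => ⟨some j, fun i e => ?_, n⟩)
          fun ⟨η0, n, o⟩ => ⟨η0, n, fun r s i t u => ?_⟩⟩
        · cases e; exact l2
        · rcases i with _ | i
          · exact (h3 j q l2).2.1.trans (o ((h3 j q l2).1 u))
          · obtain rfl := h2 i j r (t i rfl) (h1 j _ _ l2 s)
            exact o u
      · refine ⟨q, l1, (alt τ0.1 ξ l).imp (fun n => ⟨none, fun i e => (nomatch e), n⟩)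
          fun ⟨η0, n, o⟩ => ⟨η0, n, fun r s i t u => ?_⟩⟩
        rcases i with _ | i
        · exact o u
        · exact (l2 r s ⟨i, t i rfl⟩).elim)
  refine ⟨σ, fun p => e2 none p fun i e => (nomatch e),
    fun j p l => e2 (some j) p fun i e => Option.some.inj e ▸ l, fun ξ l => ?_⟩
  rw [e1] at l
  refine l.imp_right fun n => ?_
  obtain ⟨j, ⟨p, o⟩, s⟩ := mem_iUnion₂.1 n
  exact ⟨j, p, o, s⟩

/-- closure under short chains of names of uniform heights -/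
theorem Tm.clos (w : K) {I : Type} (hI : #I ≤ #(Iio w)) (nm : I → PP K → Tm K → Prop) (h : I → K)
    (p0 : PP K) (h1 : ∀ i τ, Op fun p => nm i p τ) (h2 : ∀ i p τ τ', nm i p τ → nm i p τ' → τ = τ')
    (h3 : ∀ i, hull (fun p => ∃ τ, nm i p τ) p0) (h4 : ∀ i p τ, nm i p τ → τ.1.g = h i)
    (h5 : ∀ i, w ≤ h i)
    (h6 : ∀ i j, ∀ p ≤ p0, ∀ τ τ', nm i p τ → nm j p τ' →
      ∃ p' ≤ p, RT.le p' τ'.1 τ.1 ∨ RT.le p' τ.1 τ'.1) :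
    ∃ σ : Tm K, w ≤ σ.1.g ∧ (∀ i, ∀ p ≤ p0, ∀ τ, nm i p τ → RT.le p σ.1 τ.1) ∧
      ∀ ξ ∈ σ.1.a, ∃ i p τ, nm i p τ ∧ ξ ∈ τ.1.a := by
  have k0 : #I < #K := hI.trans_lt (iioK w)
  have k1 : ∀ i, #(⋃ τ ∈ {τ : Tm K | ∃ p, nm i p τ}, τ.1.a) < #K := fun i =>
    (card_biUnion_lt_iff_forall_of_isRegular (t := fun (τ : Tm K) _ => τ.1.a) (inacK K).isRegular
      (It.cc (K := K) (Tm K) (fun τ p => nm i p τ) (h1 i) fun τ τ' p => h2 i p τ τ')).2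
      fun τ _ => τ.1.small
  obtain ⟨b, hb⟩ := boundK (s := univ) (by rwa [mk_univ]) h
  obtain ⟨σ, e1, e2, e3, -⟩ := exists_amal (J := I × Tm K) (fun j p => p ≤ p0 ∧ nm j.1 p j.2)
    (fun j => j.2) (⋃ i, ⋃ τ ∈ {τ : Tm K | ∃ p, nm i p τ}, τ.1.a)
    ((card_iUnion_lt_iff_forall_of_isRegular (inacK K).isRegular k0).2 k1)
    (max b w) (fun ξ => ξ) (fun _ => le_rfl) (fun j => (op_le p0).and (h1 j.1 j.2))
    (fun i j p ξ η v v' l1 l2 l3 l4 => by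
      obtain ⟨q, n, o | o⟩ := h6 i.1 j.1 p l1.1 i.2 j.2 l1.2 l2.2
      · exact j.2.1.fn ξ η v v' q (o.2.2 ξ η v q le_rfl ((i.2.1.reg ξ η v).1 _ _ l3 n))
          ((j.2.1.reg ξ η v').1 _ _ l4 n)
      · exact i.2.1.fn ξ η v v' q ((i.2.1.reg ξ η v).1 _ _ l3 n)
          (o.2.2 ξ η v' q le_rfl ((j.2.1.reg ξ η v').1 _ _ l4 n)))
    (fun j p l => ⟨fun ξ n => mem_iUnion.2 ⟨j.1, mem_biUnion (x := j.2) ⟨p, l.2⟩ n⟩,
      (h4 j.1 p j.2 l.2).trans_le ((hb j.1 trivial).le.trans (le_max_left _ _))⟩)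
    (fun ξ _ δ _ l p => by
      have lb : ⊥ < δ := (Lc.Y_bg _ l).ne.elim fun _ k => bot_le.trans_lt k
      obtain ⟨q, l1, l2 | l2⟩ := dec (fun p => p ≤ p0) p
      swap
      · exact ⟨q, l1, Or.inr ⟨⊥, lb, fun r s j t _ => (l2 r s t.1).elim⟩⟩
      obtain ⟨r, l3, ⟨i, τ, l4, l5⟩ | l4⟩ := dec (fun p => ∃ i τ, nm i p τ ∧ ξ ∈ τ.1.a) q
      swap
      · exact ⟨r, l3.trans l1, Or.inr ⟨⊥, lb, fun s t j u o => (l4 s t ⟨_, _, u.2, o⟩).elim⟩⟩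
      by_cases l6 : ∃ j, δ ≤ h j
      · obtain ⟨j, l6⟩ := l6
        obtain ⟨s, n1, τ', n2⟩ := h3 j r (l3.trans l2)
        have n3 := h1 i τ _ _ l4 n1
        have n4 := (n1.trans l3).trans l2
        obtain ⟨t, n5, n6 | n6⟩ := h6 i j s n4 τ τ' n3 n2
        · exact ⟨t, ((n5.trans n1).trans l3).trans l1, Or.inl ⟨(j, τ'),
            ⟨n5.trans n4, h1 j τ' _ _ n2 n5⟩, n6.1 l5, l6.trans_eq (h4 j s τ' n2).symm⟩⟩
        · exact ⟨t, ((n5.trans n1).trans l3).trans l1, Or.inl ⟨(i, τ),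
            ⟨n5.trans n4, h1 i τ _ _ n3 n5⟩, l5, (l6.trans_eq (h4 j s τ' n2).symm).trans n6.2.1⟩⟩
      · have n1 : ∀ j, h j < δ := fun j => not_le.1 fun n => l6 ⟨j, n⟩
        obtain ⟨η0, n2, n3⟩ := (Lc.Y_bg _ l).bound
          (hI.trans_lt ((Lc.Y_bg _ l).init w ((h5 i).trans_lt (n1 i)))) h n1
        exact ⟨r, l3.trans l1, Or.inr ⟨η0, n2, fun s _ j u _ =>
          (h4 j.1 s j.2 u.2).trans_le (n3 j.1).le⟩⟩)
  refine ⟨σ, e2 ▸ le_max_right _ _, fun i p l τ n => e3 (i, τ) p ⟨l, n⟩, fun ξ l => ?_⟩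
  rw [e1] at l
  obtain ⟨i, n⟩ := mem_iUnion.1 l
  obtain ⟨τ, ⟨p, o⟩, s⟩ := mem_iUnion₂.1 n
  exact ⟨i, p, τ, o, s⟩

/-- the empty term -/
def Tm.top : Tm K := ⟨⟨∅, by simpa using aleph0_pos.trans_le (infK K), ⊥, fun _ _ _ _ => False,
  fun _ _ _ => reg_const _, fun _ _ _ _ _ => False.elim, fun _ _ _ _ => False.elim,
  fun _ => False.elim⟩, fun _ => False.elim⟩

lemma Tm.le_top (p : PP K) (τ : RT K) : RT.le p τ (Tm.top (K := K)).1 :=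
  ⟨empty_subset _, bot_le, fun _ _ _ _ _ => False.elim⟩

variable (K) in
/-- the collapse with coding -/
def Q0 : Sh (PP K) (Tm K) K :=
  ⟨fun p a b => RT.le p a.1 b.1, fun p a b => RT.le p a.1 b.1, fun a => a.1.g, fun _ _ _ => False⟩

instance : Nice (Q0 K) := by
  refine ⟨⟨Tm.top⟩, fun p τ => RT.le_refl p τ.1, fun _ _ _ h => h, fun _ _ _ _ h k => RT.le.trans h k,
    fun _ _ _ _ h k => RT.le.trans h k, fun _ _ _ _ h k => RT.le.mono h k,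
    fun _ _ _ _ h k => RT.le.mono h k,
    fun τ h k => (τ.fill ∅ (by simpa using aleph0_pos.trans_le (infK K)) h k).imp fun _ j => j.2,
    fun a ha p τ => ?_, fun w I nm h p0 h0 h1 h2 h3 h4 h5 h6 => ?_, fun _ _ _ h _ => h,
    fun _ _ h => False.elim h⟩
  · by_cases h : ∃ q, (Q0 K).tle q (p, τ) ∧ a q
    · obtain ⟨q, k1, k2⟩ := h
      exact ⟨q.1, k1.1, q.2, k1.2, Or.inl fun r l => ⟨r, ⟨le_rfl, RT.le_refl _ _⟩, ha q r k2 l⟩⟩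
    · exact ⟨p, le_rfl, τ, RT.le_refl _ _, Or.inr fun q l k => h ⟨q, l, k⟩⟩
  · obtain ⟨σ, -, k, -⟩ := Tm.clos w (I := I) (mk_le_mk_of_subset h0) (fun i => nm i.1)
      (fun i => h i.1) p0 (fun i => h1 i.1 i.2) (fun i => h2 i.1 i.2) (fun i => h3 i.1 i.2)
      (fun i => h4 i.1 i.2) (fun i => h5 i.1 i.2) fun i j => h6 i.1 i.2 j.1 j.2
    exact ⟨p0, le_rfl, σ, fun i l p n τ o => ⟨p, le_rfl, k ⟨i, l⟩ p n τ o⟩⟩

variable (K) in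
/-- the final forcing -/
abbrev TT : Type := (Q0 K).C

lemma TT.le_iff {c' c : TT K} : c' ≤ c ↔ c'.1 ≤ c.1 ∧ RT.le c'.1 c'.2.1 c.2.1 := Iff.rfl

instance : OrderTop (TT K) where
  top := (⊤, Tm.top)
  le_top _ := ⟨le_top, Tm.le_top _ _⟩

theorem mk_Tm : #(Tm K) ≤ #(LL K) := by
  refine (mk_subtype_le _).trans ?_
  rw [← mk_univ (α := RT K)]
  refine (mk_le_mk_of_subset (t := ⋃ γ : LL K, {τ : RT K | τ.a ⊆ Iio γ}) fun τ _ => ?_).trans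
    (mk_iUnion_le' (infL K) le_rfl fun γ => (mk_univ (α := LL K) ▸
      mk_RT Lc.bgL (by rw [mk_univ]; exact Lc.KL) (mem_univ γ)).le)
  obtain ⟨b, hb⟩ := boundL (τ.small.trans Lc.KL) fun ξ => ξ
  exact mem_iUnion.2 ⟨b, hb⟩

noncomputable instance : Sm K (Tm K) := Sm.ofCard mk_Tm

end Pool.Agent.Lib.MP_491cc4_lc.Cx
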