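import Pool.Agent.Lib.MP_491cc4_lc.Cx.Add
import Pool.Agent.Lib.MP_491cc4_lc.Cx.Refl
import Pool.Agent.Lib.MP_491cc4_lc.Cx.Sys

set_option autoImplicit false
set_option linter.unusedSectionVars false

namespace Pool.Agent.Lib.MP_491cc4_lc.Cx

open Set Cardinal Filter Pool.Agent.Lib.MP_d4b40b_lc

variable (K : Type) [LinearOrder K] [WellFoundedLT K] [OrderBot K] [Lc K] [It K]

/-- a closed family of systems with freely chosen bits -/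
structure UI where
  S : Type
  le : S → S → Prop
  refl : ∀ s, le s s
  trans : ∀ a b c, le a b → le b c → le a c
  sys : S → Sys K
  mono : ∀ s' s, le s' s → (sys s).le (sys s')
  base : ∃ s, ∀ ξ < (sys s).β, ∀ c, (sys s).mem (An ξ false) c
  ext : ∀ s γ (e : LL K → Bool), ∃ s', le s' s ∧ γ < (sys s').β ∧
    ∀ ξ, (sys s).β ≤ ξ → ξ < (sys s').β → ∀ c, (sys s').mem (An ξ (e ξ)) c
  lim : ∀ (J : Type) (s : J → S), #J < #(LL K) → (∀ i j, le (s i) (s j) ∨ le (s j) (s i)) →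
    ∃ s', (∀ j, le s' (s j)) ∧ ∀ ξ < (sys s').β,
      (∃ j, ξ < (sys (s j)).β) ∨ ∀ c, (sys s').mem (An ξ false) c

variable {K} (E : Emb (Q0 K))

/-- the canonical interpretation -/
def I0 (β : LL K) (c q : TT K) : Prop := q ≤ c ∧ Sp β c

lemma intp0 (β : LL K) : Intp (Q := Q0 K) (I0 β) (fun _ => True) β where
  zop := op_const True
  op c := (op_le c).and (op_const _)
  z _ _ _ := trivial
  sp _ _ k := k.2
  dir _ _ q h k := ⟨q, le_rfl, cutT β q, ⟨le_cutT β q, sp_cut β q⟩, cutT_le h.1 h.2, cutT_le k.1 k.2⟩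
  gen D hD q _ := by
    obtain ⟨c, k1, k2, k3⟩ := hD (cutT β q) (sp_cut β q)
    obtain ⟨c2, k4, k5, -⟩ := amal k1 k2
    exact ⟨c2, k5, c, k3, k4, k2⟩
  pr _ q h := ⟨q, le_rfl, h.1.1⟩

lemma gval0 {β ξ : LL K} (h : ξ < β) {η : K} {v : Bool × LL K} {q : TT K} :
    gval (Q := Q0 K) (I0 β) ξ η v q ↔ q.2.1.val ξ η v q.1 :=
  ⟨fun ⟨c, k1, k2⟩ => op_val ξ η v c q k2 k1.1,
    fun k => ⟨cutT β q, ⟨le_cutT β q, sp_cut β q⟩, h, k⟩⟩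

/-- master states -/
def Ms0 (σ : St K) : Prop := ∀ ξ < σ.β, Mst E (I0 σ.β) σ ξ

/-- the name is decided at level `β` -/
def Dcd (σ : St K) (A : Nm K) (β : LL K) : Prop := Det β (pos E σ A) ∧ Det β (pos E σ (cm A)) ∧
  ∀ q, ∃ q' ≤ q, pos E σ A q' ∨ pos E σ (cm A) q'

variable {E}

lemma Dcd.pos {σ σ' : St K} {A : Nm K} {β : LL K} (h : Dcd E σ A β) (hA : RN A) (k : σ'.le σ) :
    pos E σ' A = pos E σ A ∧ pos E σ' (cm A) = pos E σ (cm A) := by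
  constructor
  · funext q
    refine propext ⟨fun j => (reg_pos hA).of_not_ng fun q1 l n => ?_, fun j => j.mono hA k⟩
    obtain ⟨q2, k1, k2 | k2⟩ := h.2.2 q1
    · exact n q2 k1 k2
    · exact ((reg_pos hA).1 _ _ j (k1.trans l)).not (k2.mono hA.cm k)
  · funext q
    refine propext ⟨fun j => (reg_pos hA.cm).of_not_ng fun q1 l n => ?_, fun j => j.mono hA.cm k⟩
    obtain ⟨q2, k1, k2 | k2⟩ := h.2.2 q1
    · exact (k2.mono hA k).not ((reg_pos hA.cm).1 _ _ j (k1.trans l))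
    · exact n q2 k1 k2

lemma Dcd.mono {σ σ' : St K} {A : Nm K} {β β' : LL K} (h : Dcd E σ A β) (hA : RN A) (k : σ'.le σ)
    (l : β ≤ β') : Dcd E σ' A β' := by
  obtain ⟨e1, e2⟩ := h.pos hA k
  unfold Dcd
  rw [e1, e2]
  exact ⟨h.1.mono l, h.2.1.mono l, h.2.2⟩

lemma mst_lev {σ : St K} {β β' ξ : LL K} (h : Mst E (I0 β) σ ξ) (k : ξ < β) (l : ξ < β') :
    Mst E (I0 β') σ ξ :=
  h.congr fun η v q j q' n => ⟨q', le_rfl, (gval0 k).2 (op_val ξ η v q q' ((gval0 l).1 j) n)⟩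

lemma rn_An (ξ : LL K) (e : Bool) : RN (An ξ e) := fun _ => reg_hull

lemma add0 (σ : St K) (h : Ms0 E σ) {β : LL K} (k : σ.β ≤ β) (e : LL K → Bool) :
    ∃ σ' : St K, σ'.le σ ∧ σ'.β = β ∧ Ms0 E σ' ∧
      ∀ ξ, σ.β ≤ ξ → ξ < β → ∀ q, pos E σ' (An ξ (e ξ)) q := by
  obtain ⟨σ', k1, k2, k3, k4⟩ := add (E := E) (intp0 β) σ k
    (fun ξ l => mst_lev (h ξ l) l (l.trans_le k)) e
    (fun ξ _ _ q _ => ⟨q, le_rfl, Or.inl fun _ _ j => j⟩)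
  refine ⟨σ', k1, k2, fun ξ l => ?_, fun ξ l n q => k4 ξ l n q trivial⟩
  rw [k2] at l ⊢
  exact k3 ξ l

lemma lim0 {J : Type} (hJ : #J < #(LL K)) (σ : J → St K) (h : ∀ i, Ms0 E (σ i))
    (k : ∀ i j, (σ i).le (σ j) ∨ (σ j).le (σ i)) :
    ∃ σ' : St K, (∀ i, σ'.le (σ i)) ∧ Ms0 E σ' ∧ ∀ ξ < σ'.β, ∃ i, ξ < (σ i).β := by
  obtain ⟨b, hb⟩ := boundL (s := (univ : Set J)) (by rwa [mk_univ]) fun i => (σ i).β
  obtain ⟨s, -, h1, h2⟩ := exists_lub (fun i => (σ i).β) fun i => (hb i trivial).le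
  obtain ⟨σ', k1, k2⟩ := St.lim hJ σ k s h1
  refine ⟨σ', k2, fun ξ l => ?_, fun ξ l => h2 ξ (k1 ▸ l)⟩
  obtain ⟨i, hi⟩ := h2 ξ (k1 ▸ l)
  exact mst_lev ((h i ξ hi).mono (k2 i)) hi l

lemma step0 (σ : St K) (h : Ms0 E σ) (w : LL K) (e : LL K → Bool) :
    ∃ σ' : St K, σ'.le σ ∧ w < σ'.β ∧ Ms0 E σ' ∧ (∀ A, NR w A → Dcd E σ' A σ'.β) ∧
      ∀ ξ, σ.β ≤ ξ → ξ < σ'.β → ∀ q, pos E σ' (An ξ (e ξ)) q := by
  obtain ⟨w', hw⟩ := gtL w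
  obtain ⟨σ1, a1, a2, a3, a4⟩ := add0 σ h (le_max_left σ.β w') e
  have hw1 : w < σ1.β := a2 ▸ hw.trans_le (le_max_right _ _)
  have hT : #{A : Nm K // NR w A} < #(LL K) := mk_NR w
  obtain ⟨σ2, b1, b2⟩ := seq_meet (S := {s : St K // s.β = σ1.β}) (fun a b => a.1.le b.1)
    (fun s => s.1.le_refl) (fun _ _ _ => St.le.trans) (ρ := #{A : Nm K // NR w A})
    (fun I f _ hI hc => by
      obtain ⟨s, k1, k2⟩ := St.lim (hI.trans_lt hT) (fun i => (f i).1) hc σ1.β fun i => (f i).2.le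
      exact ⟨⟨s, k1⟩, k2⟩)
    (T := {A : Nm K // NR w A}) le_rfl
    (fun A s => ∀ q, ∃ q' ≤ q, pos E s.1 A.1 q' ∨ pos E s.1 (cm A.1) q')
    (fun A a b k l q => (k q).imp fun _ j =>
      ⟨j.1, j.2.imp (fun n => n.mono A.2.rn l) fun n => n.mono A.2.rn.cm l⟩)
    ⟨σ1, rfl⟩ (fun A s _ => by
      obtain ⟨s', k1, k2, k3⟩ := decide E s.1 (A := A.1) (A.2.mono (hw1.le.trans s.2.ge))
      exact ⟨⟨s', k2.trans s.2⟩, k1, k3⟩)
  have c1 : ∀ A : {A : Nm K // NR w A}, ∃ γ, Dcd E σ2.1 A.1 γ := fun A => by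
    obtain ⟨γ1, k1⟩ := det_ex (reg_pos (E := E) (σ := σ2.1) A.2.rn)
    obtain ⟨γ2, k2⟩ := det_ex (reg_pos (E := E) (σ := σ2.1) A.2.rn.cm)
    exact ⟨max γ1 γ2, k1.mono (le_max_left _ _), k2.mono (le_max_right _ _), b2 A⟩
  choose γ hγ using c1
  obtain ⟨b, hb⟩ := boundL (s := (univ : Set {A : Nm K // NR w A})) (by rwa [mk_univ]) γ
  have hm : Ms0 E σ2.1 := fun ξ l => mst_lev ((a3 ξ (σ2.2 ▸ l)).mono b1) (σ2.2 ▸ l) l
  obtain ⟨σ3, d1, d2, d3, d4⟩ := add0 σ2.1 hm (le_max_left σ2.1.β b) e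
  refine ⟨σ3, (d1.trans b1).trans a1, hw1.trans_le (d1.trans b1).1, d3, fun A hA =>
    (hγ ⟨A, hA⟩).mono hA.rn d1 (d2 ▸ (hb _ trivial).le.trans (le_max_right _ _)),
    fun ξ l n q => ?_⟩
  by_cases o : ξ < σ1.β
  · exact (a4 ξ l (a2 ▸ o) q).mono (rn_An _ _) (d1.trans b1)
  · exact d4 ξ (σ2.2.le.trans (not_lt.1 o)) (d2 ▸ n) q

theorem close0 (σ : St K) (h : Ms0 E σ) (γ : LL K) (e : LL K → Bool) :
    ∃ σ' : St K, σ'.le σ ∧ γ < σ'.β ∧ Ms0 E σ' ∧ (∀ A, NR σ'.β A → Dcd E σ' A σ'.β) ∧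
      ∀ ξ, σ.β ≤ ξ → ξ < σ'.β → ∀ q, pos E σ' (An ξ (e ξ)) q := by
  obtain ⟨f, f1, f2⟩ := exists_chain (W := LL K)
    (S := {s : St K // s.le σ ∧ Ms0 E s ∧
      ∀ ξ, σ.β ≤ ξ → ξ < s.β → ∀ q, pos E s (An ξ (e ξ)) q})
    (fun a b => a.1.le b.1) (fun _ _ _ => St.le.trans)
    ⟨σ, σ.le_refl, h, fun _ l n => absurd n (not_lt.2 l)⟩
    (fun w g ⟨i0⟩ hg => by
      obtain ⟨s, k1, k2, k3⟩ := lim0 (E := E) (iioL w) (fun i => (g i).1) (fun i => (g i).2.2.1)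
        fun i j => by
          rcases lt_trichotomy i j with l | l | l
          · exact Or.inr (hg i j l)
          · exact Or.inl (l ▸ St.le_refl _)
          · exact Or.inl (hg j i l)
      refine ⟨⟨s, (k1 i0).trans (g i0).2.1, k2, fun ξ l n q => ?_⟩, k1⟩
      obtain ⟨i, hi⟩ := k3 ξ n
      exact ((g i).2.2.2 ξ l hi q).mono (rn_An _ _) (k1 i))
    (fun w s => w < s.1.β ∧ ∀ A, NR w A → Dcd E s.1 A s.1.β)
    (fun w s => by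
      obtain ⟨s', k1, k2, k3, k4, k5⟩ := step0 s.1 s.2.2.1 w e
      refine ⟨⟨s', k1.trans s.2.1, k3, fun ξ l n q => ?_⟩, k1, k2, k4⟩
      by_cases o : ξ < s.1.β
      · exact (s.2.2.2 ξ l o q).mono (rn_An _ _) k1
      · exact k5 ξ (not_lt.1 o) n q)
  obtain ⟨κ, -, hκ⟩ := (Lc.bgL (K := K)).exists_ge (c := #K) (by simpa using Lc.KL)
  obtain ⟨b, b1, b2⟩ := Lc.mahlo (K := K) fun w => max (f w).1.β (max γ κ)
  obtain ⟨a0, ha0⟩ := b1.ne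
  have b3 := max_lt_iff.1 (max_lt_iff.1 (b2 a0 ha0)).2
  have b4 : #K < #(Iio b) := hκ.trans_lt (b1.init κ b3.2)
  obtain ⟨s, k1, k2, k3⟩ := lim0 (E := E) (iioL b) (fun i : Iio b => (f i.1).1)
    (fun i => (f i.1).2.2.1) fun i j => by
      rcases lt_trichotomy i.1 j.1 with l | l | l
      · exact Or.inr (f1 _ _ l)
      · exact Or.inl (l ▸ St.le_refl _)
      · exact Or.inl (f1 _ _ l)
  have e1 : s.β = b := by
    refine le_antisymm (not_lt.1 fun l => ?_) (not_lt.1 fun l => ?_)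
    · obtain ⟨i, hi⟩ := k3 b l
      exact absurd (max_lt_iff.1 (b2 i.1 i.2)).1 (not_lt.2 hi.le)
    · exact absurd ((f2 s.β).2.1.trans_le (k1 ⟨s.β, l⟩).1) (lt_irrefl _)
  refine ⟨s, (k1 ⟨a0, ha0⟩).trans (f a0).2.1, e1 ▸ b3.1, k2, fun A hA => ?_, fun ξ l n q => ?_⟩
  · obtain ⟨w, w1, w2⟩ := nr_lt b1 b4 (e1 ▸ hA)
    exact ((f2 w).2.2 A w2).mono hA.rn (k1 ⟨w, w1⟩) (k1 ⟨w, w1⟩).1
  · obtain ⟨i, hi⟩ := k3 ξ n
    exact ((f i.1).2.2.2 ξ l hi q).mono (rn_An _ _) (k1 i)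

/-- the system of a closed state -/
def sysOf (σ : St K) (h : Ms0 E σ) (k : ∀ A, NR σ.β A → Dcd E σ A σ.β) : Sys K where
  β := σ.β
  mem := pos E σ
  reg A j := ⟨reg_pos j.rn, (k A j).1⟩
  top _ := Eventually.of_forall fun _ => trivial
  mono := by
    intro A B c ζ hA hB j l
    refine (reg_pos hB.rn).2 c fun q n => ?_
    obtain ⟨q', k1, k2⟩ := lift_le (E := E) (intp0 σ.β) h (c := cutT σ.β c) (q := q)
      ⟨n.trans (le_cutT _ c), sp_cut _ c⟩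
    have k3 : pos E σ A q' := (reg_pos hA.rn).1 _ _ l (k1.trans n)
    refine ⟨q', k1, (k2.and (Filter.Eventually.and k3 (Lc.nu_gt ζ))).mono fun x o => ?_⟩
    exact (((hA _).2.imp (hA _).1.1 (hB _).2 (hB _).1) c).1 (j _ o.2.2) _ o.1 o.2.1
  ultra A c j := (k A j).2.2 c
  diag := by
    intro I ρ A c h1 _ h3
    refine (diag (Z := K) (φ := fun x ζ => ∀ i ∈ {i | ρ i ≤ ζ}, A i (nu x) (lift E σ x c))
      fun ζ => aeK (h1 ζ) fun i _ => h3 i).mono fun x o i l => o (ρ i) l i le_rfl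
  ne := by
    intro A c hA l
    obtain ⟨q', k1, k2⟩ := lift_le (E := E) (intp0 σ.β) h (c := cutT σ.β c) (q := c)
      ⟨le_cutT _ c, sp_cut _ c⟩
    have k3 : pos E σ A q' := (reg_pos hA.rn).1 _ _ l k1
    obtain ⟨x, o1, o2⟩ := (k2.and k3).exists
    obtain ⟨c2, o3, o4⟩ := amal' o1
    exact ⟨c2, o4, nu x, (hA _).1.1 _ _ (((hA _).2 _).1 o2) o3⟩

variable (K) in
theorem exists_ui : Nonempty (UI K) := by
  obtain ⟨E⟩ := exists_emb (Q0 K)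
  have lim : ∀ (J : Type) (s : J → {σ : St K // Ms0 E σ ∧ ∀ A, NR σ.β A → Dcd E σ A σ.β}),
      #J < #(LL K) → (∀ i j, (s i).1.le (s j).1 ∨ (s j).1.le (s i).1) →
      ∃ s' : {σ : St K // Ms0 E σ ∧ ∀ A, NR σ.β A → Dcd E σ A σ.β},
        (∀ j, s'.1.le (s j).1) ∧ ∀ ξ < s'.1.β,
          (∃ j, ξ < (s j).1.β) ∨ ∀ c, pos E s'.1 (An ξ false) c := fun J s hJ hc => by
    obtain ⟨σ1, k1, k2, k3⟩ := lim0 (E := E) hJ (fun i => (s i).1) (fun i => (s i).2.1) hc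
    obtain ⟨σ2, o1, -, o3, o4, o5⟩ := close0 σ1 k2 ⊥ fun _ => false
    refine ⟨⟨σ2, o3, o4⟩, fun j => o1.trans (k1 j), fun ξ l => ?_⟩
    by_cases o : ξ < σ1.β
    · exact Or.inl (k3 ξ o)
    · exact Or.inr (o5 ξ (not_lt.1 o) l)
  refine ⟨{
    S := {σ : St K // Ms0 E σ ∧ ∀ A, NR σ.β A → Dcd E σ A σ.β}
    le := fun a b => a.1.le b.1
    refl := fun s => s.1.le_refl
    trans := fun _ _ _ => St.le.trans
    sys := fun s => sysOf s.1 s.2.1 s.2.2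
    mono := fun s' s l => ⟨l.1, fun A hA c => ?_⟩
    base := ?_
    ext := fun s γ e => ?_
    lim := lim }⟩
  · exact iff_of_eq (congrFun ((s.2.2 A hA).pos hA.rn l).1 c).symm
  · obtain ⟨s, -, k⟩ := lim Empty (fun i => i.elim)
      (by simpa using aleph0_pos.trans_le (infL K)) fun i => i.elim
    exact ⟨s, fun ξ l => (k ξ l).resolve_left fun ⟨j, _⟩ => j.elim⟩
  · obtain ⟨σ2, o1, o2, o3, o4, o5⟩ := close0 s.1 s.2.1 γ e
    exact ⟨⟨σ2, o3, o4⟩, o1, o2, o5⟩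

end Pool.Agent.Lib.MP_491cc4_lc.Cx
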