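import Pool.Agent.Lib.MP_491cc4_lc.Cx.Sh

set_option autoImplicit false
set_option linter.unusedSectionVars false

namespace Pool.Agent.Lib.MP_491cc4_lc.Cx

open Set Cardinal Filter Pool.Agent.Lib.MP_d4b40b_lc

/-- mixtures of terms of nice second steps -/
structure Un (P T H : Type) [Preorder P] [LinearOrder H] where
  z : P → Sh P T H × T → Prop
  op : ∀ y, Op fun p => z p y
  fn : ∀ p y y', z p y → z p y' → y = y'
  ok : ∀ p y, z p y → Nice y.1 ∧ CC P #H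

namespace Un

variable {P T H : Type} [Preorder P] [LinearOrder H]

/-- the trivial mixture -/
def top : Un P T H := ⟨fun _ _ => False, fun _ => op_const _, fun _ _ _ => False.elim,
  fun _ _ => False.elim⟩

def le (p : P) (z' z : Un P T H) : Prop := ∀ p' ≤ p, ∀ y, z.z p' y →
  ∃ p'' ≤ p', ∃ τ', z'.z p'' (y.1, τ') ∧ y.1.le p'' τ' y.2

def dle (p : P) (z' z : Un P T H) : Prop := ∀ p' ≤ p, ∀ y, z.z p' y →
  ∃ p'' ≤ p', ∃ τ', z'.z p'' (y.1, τ') ∧ y.1.dle p'' τ' y.2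

def lad (p : P) (z : Un P T H) (o : Option H) : Prop := ∃ y, z.z p y ∧ y.1.lad p y.2 o

/-- uniform height -/
def Uht (z : Un P T H) (h : H) : Prop := ∀ p y, z.z p y → y.1.ht y.2 = h

/-- a constant mixture -/
def iota (Q : Sh P T H) (hQ : Nice Q) (hc : CC P #H) (τ : T) : Un P T H :=
  ⟨fun _ y => y = (Q, τ), fun _ => op_const _, fun _ _ _ h k => h.trans k.symm,
    fun _ _ h => ⟨h ▸ hQ, hc⟩⟩

/-- mixing along a name -/
def mix {J : Type} (S : J → P → Prop) (h1 : ∀ j, Op (S j)) (h2 : ∀ i j p, S i p → S j p → i = j)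
    (z : J → Un P T H) : Un P T H :=
  ⟨fun p y => ∃ j, S j p ∧ (z j).z p y, fun y => Op.ex fun j => (h1 j).and ((z j).op y),
    fun p y y' ⟨i, a, b⟩ ⟨j, c, d⟩ => (z j).fn p y y' (h2 i j p a c ▸ b) d,
    fun p y ⟨j, _, b⟩ => (z j).ok p y b⟩

variable {p p' : P} {z z' z'' : Un P T H}

lemma ext' (h : ∀ p y, z.z p y ↔ z'.z p y) : z = z' := by
  cases z
  cases z'
  congr
  funext p y
  exact propext (h p y)

lemma of_imp (h : ∀ p' ≤ p, ∀ y, z.z p' y → z'.z p' y) : dle p z' z := by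
  intro p' hp y hy
  exact ⟨p', le_rfl, y.2, h p' hp y hy, (z.ok _ _ hy).1.drefl _ _⟩

lemma drefl (p : P) (z : Un P T H) : dle p z z := of_imp fun _ _ _ k => k

lemma dle_top (p : P) (z : Un P T H) : dle p z top := fun _ _ _ => False.elim

lemma dle.le (h : dle p z' z) : le p z' z := by
  intro p' hp y hy
  obtain ⟨p'', k1, τ', k2, k3⟩ := h p' hp y hy
  exact ⟨p'', k1, τ', k2, (z.ok _ _ hy).1.dle_le _ _ _ k3⟩

lemma le.trans (h : le p z'' z') (k : le p z' z) : le p z'' z := by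
  intro p' hp y hy
  obtain ⟨p1, k1, τ', k2, k3⟩ := k p' hp y hy
  obtain ⟨p2, k4, τ'', k5, k6⟩ := h p1 (k1.trans hp) _ k2
  have N := (z.ok _ _ hy).1
  exact ⟨p2, k4.trans k1, τ'', k5, N.trans _ _ _ _ k6 (N.mono _ _ _ _ k3 k4)⟩

lemma dle.trans (h : dle p z'' z') (k : dle p z' z) : dle p z'' z := by
  intro p' hp y hy
  obtain ⟨p1, k1, τ', k2, k3⟩ := k p' hp y hy
  obtain ⟨p2, k4, τ'', k5, k6⟩ := h p1 (k1.trans hp) _ k2
  have N := (z.ok _ _ hy).1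
  exact ⟨p2, k4.trans k1, τ'', k5, N.dtrans _ _ _ _ k6 (N.dmono _ _ _ _ k3 k4)⟩

lemma reg_le (z' z : Un P T H) : Reg fun p => le p z' z := by
  refine ⟨fun p q h l r k => h r (k.trans l), fun p h p' hp y hy => ?_⟩
  obtain ⟨r, k1, k2⟩ := h p' hp
  obtain ⟨p'', k3, k4⟩ := k2 r le_rfl y (z.op y _ _ hy k1)
  exact ⟨p'', k3.trans k1, k4⟩

lemma reg_dle (z' z : Un P T H) : Reg fun p => dle p z' z := by
  refine ⟨fun p q h l r k => h r (k.trans l), fun p h p' hp y hy => ?_⟩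
  obtain ⟨r, k1, k2⟩ := h p' hp
  obtain ⟨p'', k3, k4⟩ := k2 r le_rfl y (z.op y _ _ hy k1)
  exact ⟨p'', k3.trans k1, k4⟩

lemma le.mono (h : le p z' z) (k : p' ≤ p) : le p' z' z := (reg_le z' z).1 _ _ h k

lemma dle.mono (h : dle p z' z) (k : p' ≤ p) : dle p' z' z := (reg_dle z' z).1 _ _ h k

lemma iota_le {Q : Sh P T H} (hQ : Nice Q) (hc : CC P #H) {τ τ' : T} (h : z.z p (Q, τ))
    (k : Q.le p τ' τ) : le p (iota Q hQ hc τ') z := by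
  intro p' hp y hy
  obtain rfl : y = (Q, τ) := z.fn _ _ _ hy (z.op _ _ _ h hp)
  exact ⟨p', le_rfl, τ', rfl, hQ.mono _ _ _ _ k hp⟩

lemma le_iota {Q : Sh P T H} (hQ : Nice Q) (hc : CC P #H) {τ τ' : T} (h : z.z p (Q, τ'))
    (k : Q.le p τ' τ) : le p z (iota Q hQ hc τ) := by
  intro p' hp y hy
  obtain rfl : y = (Q, τ) := hy
  exact ⟨p', le_rfl, τ', z.op _ _ _ h hp, hQ.mono _ _ _ _ k hp⟩

lemma lad_mono {o : Option H} (h : lad p z o) (k : p' ≤ p) (l : le p' z' z) :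
    ∃ p'' ≤ p', lad p'' z' o := by
  obtain ⟨y, h1, h2⟩ := h
  obtain ⟨p'', k1, τ', k2, k3⟩ := l p' le_rfl y (z.op _ _ _ h1 k)
  exact ⟨p'', k1, _, k2, (z.ok _ _ h1).1.lad_mono o (p, y.2) (p'', τ') h2 ⟨k1.trans k, k3⟩⟩

lemma lad_unb (h : lad p z none) (η : H) :
    ∃ p' ≤ p, ∃ z', le p' z' z ∧ ∃ η', η < η' ∧ lad p' z' (some η') := by
  obtain ⟨y, h1, h2⟩ := h
  obtain ⟨N, hc⟩ := z.ok _ _ h1
  obtain ⟨q', k1, η', k2, k3⟩ := N.lad_unb (p, y.2) η h2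
  exact ⟨q'.1, k1.1, iota y.1 N hc q'.2, iota_le N hc (z.op _ _ _ h1 k1.1) k1.2, η', k2, _, rfl,
    k3⟩

/-- the Prikry property, globally -/
theorem prik (a : P → Un P T H → Prop) (ha : ∀ p p' z z', a p z → p' ≤ p → le p' z' z → a p' z')
    (z : Un P T H) : ∃ z', (∀ p, dle p z' z) ∧ ∀ p, ∃ p' ≤ p,
      (∀ q ≤ p', ∀ z2, le q z2 z' → ∃ q' ≤ q, ∃ z3, le q' z3 z2 ∧ a q' z3) ∨
        ∀ q ≤ p', ∀ z2, le q z2 z' → ¬ a q z2 := by
  let Dec : P → Un P T H → Prop := fun p' z' =>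
    (∀ q ≤ p', ∀ z2, le q z2 z' → ∃ q' ≤ q, ∃ z3, le q' z3 z2 ∧ a q' z3) ∨
      ∀ q ≤ p', ∀ z2, le q z2 z' → ¬ a q z2
  let good : Sh P T H × T → P → Prop := fun y p =>
    (∀ p' ≤ p, ∀ y', z.z p' y' → ∃ p'' ≤ p', y.1 = y'.1 ∧ y'.1.dle p'' y.2 y'.2) ∧
      ∃ hN : Nice y.1 ∧ CC P #H, Dec p (iota y.1 hN.1 hN.2 y.2)
  have hop : ∀ y, Op (good y) := by
    rintro y p q ⟨h1, hN, h2⟩ l
    exact ⟨fun p' k => h1 p' (k.trans l), hN,
      h2.imp (fun h r k => h r (k.trans l)) fun h r k => h r (k.trans l)⟩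
  let z' : Un P T H := ⟨fun p y => Lst good y p, fun y => op_lst hop y,
    fun _ _ _ h k => h.uniq k, fun _ _ h => h.1.2.1⟩
  have hA : ∀ p y, z.z p y → ∃ p1 ≤ p, ∃ y1, good y1 p1 := by
    rintro p ⟨Q, τ⟩ hy
    obtain ⟨N, hc⟩ := z.ok _ _ hy
    obtain ⟨p', k1, τ', k2, k3⟩ := N.prik (fun q => a q.1 (iota Q N hc q.2))
      (fun q q' h l => ha _ _ _ _ h l.1 (iota_le N hc rfl l.2)) p τ
    refine ⟨p', k1, (Q, τ'), fun p2 l y' hy' => ?_, ⟨N, hc⟩, k3.imp (fun h q l z2 h2 => ?_)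
      fun h q l z2 h2 h3 => ?_⟩
    · obtain rfl : y' = (Q, τ) := z.fn _ _ _ hy' (z.op _ _ _ hy (l.trans k1))
      exact ⟨p2, le_rfl, rfl, N.dmono _ _ _ _ k2 l⟩
    · obtain ⟨q1, j1, τ2, j2, j3⟩ := h2 q le_rfl (Q, τ') rfl
      obtain ⟨q', j4, j5⟩ := h (q1, τ2) ⟨j1.trans l, j3⟩
      exact ⟨q'.1, j4.1.trans j1, _, iota_le N hc (z2.op _ _ _ j2 j4.1) j4.2, j5⟩
    · obtain ⟨q1, j1, τ2, j2, j3⟩ := h2 q le_rfl (Q, τ') rfl
      exact h (q1, τ2) ⟨j1.trans l, j3⟩ (ha _ _ _ _ h3 j1 (iota_le N hc j2 (Nice.refl Q _ _)))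
  refine ⟨z', fun p p' _ y hy => ?_, fun p => ?_⟩
  · obtain ⟨r, k1, y2, k2⟩ := exists_lst good (hA p' y hy)
    obtain ⟨p'', k3, k4, k5⟩ := k2.1.1 r le_rfl y (z.op _ _ _ hy k1)
    refine ⟨p'', k3.trans k1, y2.2, ?_, k5⟩
    rw [← k4]
    exact op_lst hop y2 _ _ k2 k3
  · by_cases hg : ∃ r ≤ p, ∃ y, good y r
    · obtain ⟨r, k1, y, k2⟩ := exists_lst good hg
      obtain ⟨hN, k3⟩ := k2.1.2
      have N := hN.1
      have k4 : le r z' (iota y.1 hN.1 hN.2 y.2) := le_iota hN.1 hN.2 k2 (Nice.refl y.1 _ _)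
      exact ⟨r, k1, k3.imp (fun h q l z2 h2 => h q l z2 (h2.trans (k4.mono l)))
        fun h q l z2 h2 => h q l z2 (h2.trans (k4.mono l))⟩
    · by_cases he : ∃ q ≤ p, ∃ z2, a q z2
      · obtain ⟨q, k1, z2, k2⟩ := he
        refine ⟨q, k1, Or.inl fun q2 l z3 _ => ⟨q2, le_rfl, z3, (drefl _ _).le,
          ha _ _ _ _ k2 l fun q' l' y hy => absurd ⟨q', (l'.trans l).trans k1, y,
            fun p' j y' hy' => ?_, z2.ok _ _ hy, Or.inl fun q3 j z4 h4 => ?_⟩ hg⟩⟩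
        · obtain ⟨p1, j1, j2⟩ := hA p' y' hy'
          exact absurd ⟨p1, j1.trans (j.trans ((l'.trans l).trans k1)), j2⟩ hg
        · have N := (z2.ok _ _ hy).1
          exact ⟨q3, le_rfl, z4, (drefl _ _).le, ha _ _ _ _ k2 (j.trans (l'.trans l))
            (h4.trans (iota_le _ _ (z2.op _ _ _ hy j) (Nice.refl y.1 _ _)))⟩
      · exact ⟨p, le_rfl, Or.inr fun q l z2 _ k => he ⟨q, l, z2, k⟩⟩

/-- uniform heights -/
theorem fill (hb : ∀ s : Set (Sh P T H × T), #s < #H → ∀ f : Sh P T H × T → H, ∃ b, ∀ i ∈ s, f i < b)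
    (z : Un P T H) (w : H) : ∃ h, w ≤ h ∧ ∃ z' : Un P T H, z'.Uht h ∧ ∀ p, dle p z' z := by
  have hs : #{y | ∃ p, z.z p y} < #H := by
    by_cases h : ∃ p y, z.z p y
    · obtain ⟨p, y, hy⟩ := h
      exact (z.ok _ _ hy).2 _ (fun y p => z.z p y) z.op fun i j p => z.fn p i j
    · rw [show {y | ∃ p, z.z p y} = ∅ from eq_empty_of_forall_notMem fun y ⟨p, k⟩ => h ⟨p, y, k⟩,
        mk_eq_zero, pos_iff_ne_zero, mk_ne_zero_iff]
      exact ⟨w⟩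
  obtain ⟨b, hb⟩ := hb _ hs fun y => y.1.ht y.2
  have : ∀ y : Sh P T H × T, ∃ τ', (∃ p, z.z p y) →
      y.1.ht τ' = max b w ∧ ∀ p, y.1.dle p τ' y.2 := by
    intro y
    by_cases h : ∃ p, z.z p y
    · obtain ⟨τ', k⟩ := (z.ok _ _ h.choose_spec).1.fill y.2 (max b w)
        ((hb y h).le.trans (le_max_left _ _))
      exact ⟨τ', fun _ => k⟩
    · exact ⟨y.2, fun k => absurd k h⟩
  choose f hf using this
  refine ⟨max b w, le_max_right _ _, ⟨fun p y => ∃ t, z.z p (y.1, t) ∧ y.2 = f (y.1, t),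
    fun y => Op.ex fun t => (z.op _).and (op_const _), ?_, fun p y ⟨t, k, _⟩ => z.ok _ (y.1, t) k⟩,
    ?_, fun p p' _ y hy => ⟨p', le_rfl, f y, ⟨y.2, hy, rfl⟩, (hf y ⟨_, hy⟩).2 _⟩⟩
  · rintro p y y' ⟨t, k1, k2⟩ ⟨t', k3, k4⟩
    have e := z.fn _ _ _ k1 k3
    exact Prod.ext (Prod.mk.inj e).1 (by rw [k2, k4, e])
  · rintro p y ⟨t, k1, k2⟩
    rw [k2]
    exact (hf (y.1, t) ⟨_, k1⟩).1

/-- closure under short chains -/
theorem clos (w : H) {J : Type} (hJ : #J ≤ #(Iio w)) (z : J → Un P T H) (h : J → H) (p0 : P)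
    (h1 : ∀ j, (z j).Uht (h j)) (h2 : ∀ j, w ≤ h j)
    (h3 : ∀ i j, dle p0 (z j) (z i) ∨ dle p0 (z i) (z j)) : ∃ z', ∀ j, dle p0 z' (z j) := by
  obtain ⟨e⟩ := (Cardinal.le_def _ _).1 hJ
  have he : Function.Injective fun j => (e j).1 := Subtype.val_injective.comp e.injective
  let good : Sh P T H × T → P → Prop := fun y p => (Nice y.1 ∧ CC P #H) ∧
    ∀ j, ∀ p' ≤ p, ∀ y', (z j).z p' y' → ∃ p'' ≤ p', y.1 = y'.1 ∧ y'.1.dle p'' y.2 y'.2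
  have hop : ∀ y, Op (good y) := fun y p q k l => ⟨k.1, fun j p' n => k.2 j p' (n.trans l)⟩
  have hA : ∀ j0, ∀ p' ≤ p0, ∀ y, (z j0).z p' y → ∃ p1 ≤ p', ∃ y1, good y1 p1 := by
    rintro j0 p' hp ⟨Q, t⟩ hy
    obtain ⟨N, hc⟩ := (z j0).ok _ _ hy
    obtain ⟨p1, k1, σ, k2⟩ := N.clos w ((fun j => (e j).1) '' {j | dle p0 (z j) (z j0)})
      (fun i p τ => ∃ j, dle p0 (z j) (z j0) ∧ (e j).1 = i ∧ p ≤ p' ∧ (z j).z p (Q, τ))
      (Function.extend (fun j => (e j).1) h fun _ => w) p'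
      (by rintro _ ⟨j, -, rfl⟩; exact (e j).2)
      (fun i _ τ => Op.ex fun j => (op_const _).and ((op_const _).and ((op_le _).and ((z j).op _))))
      (by
        rintro i - p τ τ' ⟨j, -, a1, -, a2⟩ ⟨j', -, a3, -, a4⟩
        obtain rfl : j = j' := he (a1.trans a3.symm)
        exact congrArg Prod.snd ((z j).fn _ _ _ a2 a4))
      (by
        rintro _ ⟨j, hj, rfl⟩ q l
        obtain ⟨r, a1, τ', a2, -⟩ := hj q (l.trans hp) _ ((z j0).op _ _ _ hy l)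
        exact ⟨r, a1, τ', j, hj, rfl, a1.trans l, a2⟩)
      (by
        rintro i - p τ ⟨j, -, rfl, -, a2⟩
        rw [he.extend_apply]
        exact h1 j _ _ a2)
      (by
        rintro _ ⟨j, -, rfl⟩
        rw [he.extend_apply]
        exact h2 j)
      (by
        rintro i - i' - p l τ τ' ⟨j, -, -, -, a2⟩ ⟨j', -, -, -, a4⟩
        rcases h3 j j' with k | k
        · obtain ⟨p2, b1, τ2, b2, b3⟩ := k p (l.trans hp) _ a2
          obtain rfl : τ2 = τ' := congrArg Prod.snd ((z j').fn _ _ _ b2 ((z j').op _ _ _ a4 b1))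
          exact ⟨p2, b1, Or.inl b3⟩
        · obtain ⟨p2, b1, τ2, b2, b3⟩ := k p (l.trans hp) _ a4
          obtain rfl : τ2 = τ := congrArg Prod.snd ((z j).fn _ _ _ b2 ((z j).op _ _ _ a2 b1))
          exact ⟨p2, b1, Or.inr b3⟩)
    refine ⟨p1, k1, (Q, σ), ⟨N, hc⟩, fun j p2 l y' hy' => ?_⟩
    have l2 : p2 ≤ p' := l.trans k1
    rcases h3 j0 j with k | k
    · obtain ⟨p3, b1, τ', b2, -⟩ := k p2 (l2.trans hp) _ ((z j0).op _ _ _ hy l2)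
      obtain rfl : y' = (Q, τ') := (z j).fn _ _ _ ((z j).op _ _ _ hy' b1) b2
      obtain ⟨p4, b3, b4⟩ := k2 _ ⟨j, k, rfl⟩ p3 (b1.trans l) τ' ⟨j, k, rfl, b1.trans l2, b2⟩
      exact ⟨p4, b3.trans b1, rfl, b4⟩
    · obtain ⟨p3, b1, τ', b2, b5⟩ := k p2 (l2.trans hp) _ hy'
      have b6 := (z j0).op _ _ _ hy (b1.trans l2)
      obtain ⟨Q', t'⟩ := y'
      obtain ⟨rfl, rfl⟩ := Prod.mk.inj ((z j0).fn _ _ _ b2 b6)
      obtain ⟨p4, b3, b4⟩ := k2 _ ⟨j0, drefl _ _, rfl⟩ p3 (b1.trans l) τ'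
        ⟨j0, drefl _ _, rfl, b1.trans l2, b6⟩
      exact ⟨p4, b3.trans b1, rfl, N.dtrans _ _ _ _ b4 (N.dmono _ _ _ _ b5 b3)⟩
  refine ⟨⟨fun p y => Lst good y p, fun y => op_lst hop y, fun _ _ _ h k => h.uniq k,
    fun _ _ h => h.1.1⟩, fun j p' hp y hy => ?_⟩
  obtain ⟨r, k1, y2, k2⟩ := exists_lst good (hA j p' hp y hy)
  obtain ⟨p'', k3, k4, k5⟩ := k2.1.2 j r le_rfl y ((z j).op _ _ _ hy k1)
  refine ⟨p'', k3.trans k1, y2.2, ?_, k5⟩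
  rw [← k4]
  exact op_lst hop y2 _ _ k2 k3

theorem card {c : Cardinal.{0}} (hc : c.IsInaccessible) (h1 : #P < c) (h2 : #T < c) (h3 : #H < c) :
    #(Un P T H) < c := by
  have hs : ∀ {A : Type}, #A < c → #(Set A) < c := fun h => by
    rw [mk_set]
    exact hc.isStrongPrelimit h
  have hp : ∀ {A B : Type}, #A < c → #B < c → #(A × B) < c := fun h k => by
    simpa using mul_lt_of_lt hc.1.le h k
  have ho : #(Option H) < c := by
    rw [mk_option]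
    exact add_lt_of_lt hc.1.le h3 (one_lt_aleph0.trans hc.1)
  have hS : #(Sh P T H) < c := by
    refine lt_of_le_of_lt (mk_le_of_injective (f := fun Q : Sh P T H =>
      (({x | Q.le x.1 x.2.1 x.2.2} : Set (P × T × T)), ({x | Q.dle x.1 x.2.1 x.2.2} : Set (P × T × T)),
        ({x | Q.ht x.1 = x.2} : Set (T × H)), ({x | Q.lad x.1 x.2.1 x.2.2} : Set (P × T × Option H))))
      ?_) (hp (hs (hp h1 (hp h2 h2))) (hp (hs (hp h1 (hp h2 h2))) (hp (hs (hp h2 h3))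
        (hs (hp h1 (hp h2 ho))))))
    rintro ⟨a1, a2, a3, a4⟩ ⟨b1, b2, b3, b4⟩ e
    simp only [Prod.mk.injEq, Set.ext_iff, mem_ofPred_eq, Prod.forall] at e
    obtain ⟨e1, e2, e3, e4⟩ := e
    congr
    · funext p s t; exact propext (e1 p s t)
    · funext p s t; exact propext (e2 p s t)
    · funext t; exact (e3 t _).2 rfl
    · funext p s t; exact propext (e4 p s t)
  refine lt_of_le_of_lt (mk_le_of_injective (f := fun z : Un P T H =>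
    ({x | z.z x.1 x.2} : Set (P × Sh P T H × T))) fun z z' e => ext' fun p y => ?_)
    (hs (hp h1 (hp hS h2)))
  exact Set.ext_iff.1 e (p, y)

end Un

variable {K : Type} [LinearOrder K] [Lc K]

/-- Easton supports -/
def East (s : Set K) : Prop :=
  s ⊆ YY K ∧ (∃ b, s ⊆ Iio b) ∧ ∀ ν ∈ YY K, ∃ ζ < ν, ∀ a ∈ s, a < ν → a < ζ

variable (K) in
/-- the raw iteration -/
class It0 where
  P : Type
  [pre : Preorder P]
  PO : K → Type
  [po : ∀ ν, Preorder (PO ν)]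
  tr : ∀ ν, P → PO ν
  up : ∀ ν, PO ν → P
  co : ∀ ν, P → Un (PO ν) (Iio (th ν)) (Iio ν)
  le_iff : ∀ p' p, p' ≤ p ↔ (∀ μ, Un.le (tr μ p') (co μ p') (co μ p)) ∧
    {μ | ¬ Un.dle (tr μ p') (co μ p') (co μ p)}.Finite
  up_le : ∀ ν s' s, up ν s' ≤ up ν s ↔ s' ≤ s
  tr_up : ∀ ν s, tr ν (up ν s) = s
  co_up_ge : ∀ ν μ s, ν ≤ μ → co μ (up ν s) = Un.top
  co_up_lt : ∀ ν μ p, μ < ν → co μ (up ν (tr ν p)) = co μ p
  tr_ext : ∀ ν p p', (∀ μ < ν, co μ p = co μ p') → tr ν p = tr ν p'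
  ext : ∀ p p', (∀ μ, co μ p = co μ p') → p = p'
  east : ∀ p, East {μ | co μ p ≠ Un.top}
  build : ∀ s, East s → ∀ G : ∀ δ, PO δ → Un (PO δ) (Iio (th δ)) (Iio δ),
    ∃ p, ∀ δ, (δ ∈ s → co δ p = G δ (tr δ p)) ∧ (δ ∉ s → co δ p = Un.top)
  card : ∀ ν, #(PO ν) < #K ∧ ∀ δ ∈ YY K, ν < δ → #(PO ν) < #(Iio δ)

attribute [instance_reducible] It0.pre It0.po
attribute [instance] It0.pre It0.po

end Pool.Agent.Lib.MP_491cc4_lc.Cx
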